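import Pool.Agent.PCS.Defs

/-!
# Self-dual cones: elementary properties, existence, the metric projection
-/

set_option autoImplicit false

open MeasureTheory ProbabilityTheory Module
open scoped RealInnerProductSpace

namespace PCS

section
variable {V : Type*} [NormedAddCommGroup V] [InnerProductSpace ℝ V]

/-- a family with nonnegative inner products is contained in a self-dual cone -/
theorem exists_sd {ι : Type*} {n : ι → V} (hn : ∀ i j, 0 ≤ ⟪n i, n j⟫) : ∃ S : Set V, SD S ∧ ∀ j, n j ∈ S := by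
  obtain ⟨S, hS, hmax⟩ := zorn_subset_nonempty {S : Set V | ∀ x ∈ S, ∀ y ∈ S, 0 ≤ ⟪x, y⟫}
    (fun c hc hch hne => by
      refine ⟨⋃₀ c, ?_, fun s hs => Set.subset_sUnion_of_mem hs⟩
      rintro x ⟨s, hs, hx⟩ y ⟨t, ht, hy⟩
      rcases hch.total hs ht with h | h
      · exact hc ht x (h hx) y hy
      · exact hc hs x hx y (h hy)) (Set.range n) (by
      rintro _ ⟨i, rfl⟩ _ ⟨j, rfl⟩
      exact hn i j)
  refine ⟨S, fun y => ⟨fun hy x hx => hmax.prop x hx y hy, fun hy => ?_⟩, fun j => hS ⟨j, rfl⟩⟩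
  have h1 : insert y S ∈ {S : Set V | ∀ x ∈ S, ∀ y ∈ S, 0 ≤ ⟪x, y⟫} := by
    intro a ha b hb
    rcases ha with rfl | ha
    · rcases hb with rfl | hb
      · exact real_inner_self_nonneg
      · rw [real_inner_comm]
        exact hy b hb
    · rcases hb with rfl | hb
      · exact hy a ha
      · exact hmax.prop a ha b hb
  exact hmax.le_of_ge h1 (Set.subset_insert y S) (Set.mem_insert y S)

variable {S : Set V} {P : V → V}

theorem SD.inner (h : SD S) {x y : V} (hx : x ∈ S) (hy : y ∈ S) : 0 ≤ ⟪x, y⟫ := (h y).1 hy x hx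

theorem SD.zero (h : SD S) : (0 : V) ∈ S := (h 0).2 fun x _ => by simp

theorem SD.add (h : SD S) {x y : V} (hx : x ∈ S) (hy : y ∈ S) : x + y ∈ S := (h _).2 fun z hz => by
  rw [inner_add_right]
  exact add_nonneg (h.inner hz hx) (h.inner hz hy)

theorem SD.smul (h : SD S) {c : ℝ} (hc : 0 ≤ c) {x : V} (hx : x ∈ S) : c • x ∈ S := (h _).2 fun z hz => by
  rw [real_inner_smul_right]
  exact mul_nonneg hc (h.inner hz hx)

theorem SD.closed (h : SD S) : IsClosed S := by
  have e : S = ⋂ x ∈ S, {y | 0 ≤ ⟪x, y⟫} := by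
    ext y
    simp only [Set.mem_iInter, Set.mem_ofPred_eq]
    exact h y
  rw [e]
  exact isClosed_biInter fun x _ => isClosed_le continuous_const (continuous_const.inner continuous_id)

theorem SD.convex (h : SD S) : Convex ℝ S := fun _ hx _ hy _ _ ha hb _ => h.add (h.smul ha hx) (h.smul hb hy)

theorem SD.exists_pr [FiniteDimensional ℝ V] (h : SD S) : ∃ P : V → V, Pr S P := by
  have key : ∀ x : V, ∃ p : V, p ∈ S ∧ p - x ∈ S ∧ ⟪p, p - x⟫ = 0 := by
    intro x
    obtain ⟨p, hp, hpn⟩ := exists_norm_eq_iInf_of_complete_convex ⟨0, h.zero⟩ h.closed.isComplete h.convex x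
    rw [norm_eq_iInf_iff_real_inner_le_zero h.convex hp] at hpn
    have h0 : ⟪x - p, p⟫ = 0 := by
      have h1 := hpn 0 h.zero
      have h2 := hpn ((2 : ℝ) • p) (h.smul (by norm_num) hp)
      rw [two_smul, add_sub_cancel_right] at h2
      rw [zero_sub, inner_neg_right] at h1
      linarith
    have hk : ∀ k ∈ S, ⟪x - p, k⟫ ≤ 0 := by
      intro k hk
      have h1 := hpn k hk
      rw [inner_sub_right, h0] at h1
      linarith
    refine ⟨p, hp, (h _).2 fun k hk' => ?_, ?_⟩
    · have h3 := hk k hk'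
      rw [← neg_sub x p, inner_neg_right, real_inner_comm]
      linarith
    · rw [← neg_sub x p, inner_neg_right, real_inner_comm, h0, neg_zero]
  choose P hP using key
  exact ⟨P, ⟨fun u => (hP u).1, fun u => (hP u).2.1, fun u => (hP u).2.2⟩⟩

/-- firm nonexpansiveness, in terms of decompositions -/
theorem firm_aux (h : SD S) {u v p q p' q' : V} (hp : p ∈ S) (hq : q ∈ S) (hp' : p' ∈ S) (hq' : q' ∈ S)
    (hu : u = p - q) (hv : v = p' - q') (h1 : ⟪p, q⟫ = 0) (h2 : ⟪p', q'⟫ = 0) :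
    ‖p - p'‖ ^ 2 ≤ ⟪p - p', u - v⟫ := by
  have h3 := h.inner hp hq'
  have h4 := h.inner hp' hq
  rw [← real_inner_self_eq_norm_sq, hu, hv]
  have e : p - q - (p' - q') = (p - p') + (q' - q) := by abel
  rw [e, inner_add_right]
  have e2 : ⟪p - p', q' - q⟫ = ⟪p, q'⟫ - ⟪p, q⟫ - ⟪p', q'⟫ + ⟪p', q⟫ := by
    rw [inner_sub_left, inner_sub_right, inner_sub_right]
    ring
  rw [e2, h1, h2]
  linarith

theorem Pr.firm (h : SD S) (hP : Pr S P) (u v : V) : ‖P u - P v‖ ^ 2 ≤ ⟪P u - P v, u - v⟫ :=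
  firm_aux h (hP.mem u) (hP.mem' u) (hP.mem v) (hP.mem' v) (by abel) (by abel) (hP.orth u) (hP.orth v)

/-- the decomposition is unique -/
theorem Pr.unique (h : SD S) (hP : Pr S P) {u p q : V} (hp : p ∈ S) (hq : q ∈ S) (hu : u = p - q)
    (h1 : ⟪p, q⟫ = 0) : P u = p := by
  have h2 := firm_aux h (hP.mem u) (hP.mem' u) hp hq (u := u) (v := u) (by abel) hu (hP.orth u) h1
  rw [sub_self, inner_zero_right] at h2
  have h3 : ‖P u - p‖ = 0 := by
    have := sq_nonneg ‖P u - p‖
    exact pow_eq_zero_iff (two_ne_zero) |>.1 (le_antisymm h2 this)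
  exact sub_eq_zero.1 (norm_eq_zero.1 h3)

theorem Pr.neg (h : SD S) (hP : Pr S P) (u : V) : P (-u) = P u - u := by
  refine hP.unique h (hP.mem' u) (hP.mem u) (by abel) ?_
  rw [real_inner_comm]
  exact hP.orth u

theorem Pr.of_mem (h : SD S) (hP : Pr S P) {u : V} (hu : u ∈ S) : P u = u :=
  hP.unique h hu h.zero (by simp) (by simp)

theorem TT_neg (h : SD S) (hP : Pr S P) (u : V) : TT P (-u) = TT P u := by
  unfold TT
  rw [hP.neg h]
  module

theorem TT_of_mem (h : SD S) (hP : Pr S P) {u : V} (hu : u ∈ S) : TT P u = u := by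
  unfold TT
  rw [hP.of_mem h hu]
  module

theorem TT_add_mem (h : SD S) (hP : Pr S P) (u : V) : TT P u + u ∈ S := by
  have e : TT P u + u = (2 : ℝ) • P u := by
    unfold TT
    abel
  rw [e]
  exact h.smul (by norm_num) (hP.mem u)

theorem TT_mem (h : SD S) (hP : Pr S P) (u : V) : TT P u ∈ S := by
  have e : TT P u = P u + (P u - u) := by
    unfold TT
    module
  rw [e]
  exact h.add (hP.mem u) (hP.mem' u)

theorem TT_zero (h : SD S) (hP : Pr S P) : TT P 0 = 0 := TT_of_mem h hP h.zero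

theorem norm_TT_sub_le (h : SD S) (hP : Pr S P) (u v : V) : ‖TT P u - TT P v‖ ≤ ‖u - v‖ := by
  have e : TT P u - TT P v = (2 : ℝ) • (P u - P v) - (u - v) := by
    unfold TT
    module
  have h1 := hP.firm h u v
  have h2 : ‖TT P u - TT P v‖ ^ 2 ≤ ‖u - v‖ ^ 2 := by
    rw [e, @norm_sub_sq_real, norm_smul, real_inner_smul_left, Real.norm_eq_abs, abs_of_pos (by norm_num : (0 : ℝ) < 2)]
    nlinarith
  exact (sq_le_sq₀ (norm_nonneg _) (norm_nonneg _)).1 h2

theorem TT_lip (h : SD S) (hP : Pr S P) : LipschitzWith 1 (TT P) :=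
  LipschitzWith.of_dist_le_mul fun u v => by
    rw [dist_eq_norm, dist_eq_norm, NNReal.coe_one, one_mul]
    exact norm_TT_sub_le h hP u v

theorem continuous_TT (h : SD S) (hP : Pr S P) : Continuous (TT P) := (TT_lip h hP).continuous

theorem norm_TT_le (h : SD S) (hP : Pr S P) (u : V) : ‖TT P u‖ ≤ ‖u‖ := by
  have := norm_TT_sub_le h hP u 0
  rwa [TT_zero h hP, sub_zero, sub_zero] at this

theorem continuous_P (h : SD S) (hP : Pr S P) : Continuous P := by
  have e : P = fun u => (1 / 2 : ℝ) • (TT P u + u) := by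
    ext u
    unfold TT
    module
  rw [e]
  exact continuous_const.smul ((continuous_TT h hP).add continuous_id)

end

end PCS
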