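import Pool.Agent.PCS.Main
import Pool.Agent.PCS.Bas
import Pool.Agent.PCW.Gau

/-!
# Cones containing their dual cones: volume of the part in the unit ball
-/

set_option autoImplicit false

open MeasureTheory ProbabilityTheory Module PCW
open scoped RealInnerProductSpace ENNReal Pointwise

namespace PCS

section
variable {V : Type*} [NormedAddCommGroup V] [InnerProductSpace ℝ V] [FiniteDimensional ℝ V]
  [MeasurableSpace V] [BorelSpace V]

/-- the part of a cone in the ball of radius `r` -/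
lemma vol_cone_ball {K : Set V} (hc : ∀ c : ℝ, 0 < c → ∀ x ∈ K, c • x ∈ K) {r : ℝ} (hr : 0 < r) :
    volume (K ∩ Metric.ball 0 r) = ENNReal.ofReal (r ^ finrank ℝ V) * volume (K ∩ Metric.ball (0 : V) 1) := by
  have e : K ∩ Metric.ball 0 r = r • (K ∩ Metric.ball (0 : V) 1) := by
    ext x
    rw [Set.mem_smul_set_iff_inv_smul_mem₀ hr.ne']
    simp only [Set.mem_inter_iff, mem_ball_zero_iff, norm_smul, norm_inv, Real.norm_eq_abs, abs_of_pos hr]
    constructor
    · rintro ⟨h1, h2⟩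
      refine ⟨hc _ (inv_pos.2 hr) x h1, ?_⟩
      rw [inv_mul_lt_iff₀ hr, mul_one]
      exact h2
    · rintro ⟨h1, h2⟩
      rw [inv_mul_lt_iff₀ hr, mul_one] at h2
      refine ⟨?_, h2⟩
      have := hc r hr _ h1
      rwa [smul_inv_smul₀ hr.ne'] at this
  rw [e, Measure.addHaar_smul, abs_of_nonneg (by positivity)]

omit [FiniteDimensional ℝ V] [MeasurableSpace V] [BorelSpace V] in
/-- the superlevel sets of the Gaussian density -/
lemma dn_lt_ball {t : ℝ} (ht : 0 < t) : {x : V | t < dn x} = ∅ ∨ ∃ r : ℝ, 0 < r ∧ {x : V | t < dn x} = Metric.ball 0 r := by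
  set c0 : ℝ := (2 * Real.pi) ^ (-(finrank ℝ V : ℝ) / 2) with hc0
  have hpos : 0 < c0 := by positivity
  by_cases h : t < c0
  · right
    have h1 : 0 < -2 * Real.log (t / c0) := by
      have : Real.log (t / c0) < 0 := Real.log_neg (by positivity) ((div_lt_one hpos).2 h)
      linarith
    refine ⟨√(-2 * Real.log (t / c0)), Real.sqrt_pos.2 h1, ?_⟩
    ext x
    rw [mem_ball_zero_iff, Real.lt_sqrt (norm_nonneg x)]
    show t < c0 * Real.exp (-‖x‖ ^ 2 / 2) ↔ _
    rw [← div_lt_iff₀' hpos, ← Real.log_lt_iff_lt_exp (by positivity)]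
    constructor <;> intro h2 <;> linarith
  · left
    rw [Set.eq_empty_iff_forall_notMem]
    intro x hx
    refine h (lt_of_lt_of_le (show t < c0 * Real.exp (-‖x‖ ^ 2 / 2) from hx) ?_)
    have h2 : Real.exp (-‖x‖ ^ 2 / 2) ≤ 1 := Real.exp_le_one_iff.2 (by nlinarith [sq_nonneg ‖x‖])
    nlinarith

/-- the Gaussian measure of a measurable cone is the proportion of the unit ball which it fills -/
theorem std_cone {K : Set V} (hK : MeasurableSet K) (hc : ∀ c : ℝ, 0 < c → ∀ x ∈ K, c • x ∈ K) :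
    stdGaussian V K * volume (Metric.ball (0 : V) 1) = volume (K ∩ Metric.ball 0 1) := by
  classical
  have hex : ∀ t : ℝ, ∃ p : ℝ≥0∞, 0 < t → ∀ L : Set V, (∀ c : ℝ, 0 < c → ∀ x ∈ L, c • x ∈ L) →
      volume (L ∩ {x : V | t < dn x}) = p * volume (L ∩ Metric.ball (0 : V) 1) := by
    intro t
    by_cases ht : 0 < t
    · rcases dn_lt_ball (V := V) ht with h | ⟨r, hr, h⟩
      · exact ⟨0, fun _ L _ => by rw [h, Set.inter_empty, measure_empty, zero_mul]⟩
      · exact ⟨ENNReal.ofReal (r ^ finrank ℝ V), fun _ L hL => by rw [h, vol_cone_ball hL hr]⟩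
    · exact ⟨0, fun h => absurd h ht⟩
  choose p hp using hex
  have key : ∀ L : Set V, MeasurableSet L → (∀ c : ℝ, 0 < c → ∀ x ∈ L, c • x ∈ L) →
      stdGaussian V L = (∫⁻ t in Set.Ioi (0 : ℝ), p t * volume (L ∩ Metric.ball (0 : V) 1)) := by
    intro L hL hLc
    rw [std_eq, withDensity_apply _ hL,
      lintegral_eq_lintegral_meas_lt (volume.restrict L) (Filter.Eventually.of_forall fun x => (dn_pos x).le)
        continuous_dn.measurable.aemeasurable]
    refine setLIntegral_congr_fun measurableSet_Ioi fun t ht => ?_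
    have hm : MeasurableSet {x : V | t < dn x} := measurableSet_lt measurable_const continuous_dn.measurable
    show (volume.restrict L) {x : V | t < dn x} = _
    rw [Measure.restrict_apply hm, Set.inter_comm, hp t ht L hLc]
  have hv0 : volume (Metric.ball (0 : V) 1) ≠ 0 := (Metric.measure_ball_pos _ _ one_pos).ne'
  have hv1 : volume (Metric.ball (0 : V) 1) ≠ ∞ := measure_ball_lt_top.ne
  have h1 := key Set.univ MeasurableSet.univ (fun _ _ _ _ => Set.mem_univ _)
  rw [measure_univ, Set.univ_inter, lintegral_mul_const' _ _ hv1] at h1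
  have hKv : volume (K ∩ Metric.ball (0 : V) 1) ≠ ∞ := ne_top_of_le_ne_top hv1 (measure_mono Set.inter_subset_right)
  rw [key K hK hc, lintegral_mul_const' _ _ hKv]
  calc (∫⁻ t in Set.Ioi (0 : ℝ), p t) * volume (K ∩ Metric.ball (0 : V) 1) * volume (Metric.ball (0 : V) 1)
      = ((∫⁻ t in Set.Ioi (0 : ℝ), p t) * volume (Metric.ball (0 : V) 1)) * volume (K ∩ Metric.ball (0 : V) 1) := by ring
    _ = volume (K ∩ Metric.ball (0 : V) 1) := by rw [← h1, one_mul]

/-- a closed convex cone is the dual of its dual, one inclusion -/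
lemma bidual_sub {K : Set V} (hcl : IsClosed K) (hco : Convex ℝ K) (hc : ∀ c : ℝ, 0 < c → ∀ x ∈ K, c • x ∈ K)
    (hne : K.Nonempty) {x : V} (hx : ∀ y, (∀ k ∈ K, 0 ≤ ⟪k, y⟫) → 0 ≤ ⟪y, x⟫) : x ∈ K := by
  by_contra hxK
  obtain ⟨f, a, hf1, hf2⟩ := geometric_hahn_banach_point_closed hco hcl hxK
  set y : V := (InnerProductSpace.toDual ℝ V).symm f with hy
  have hyf : ∀ v, ⟪y, v⟫ = f v := fun v => InnerProductSpace.toDual_symm_apply
  obtain ⟨k0, hk0⟩ := hne
  -- `f` is nonnegative on `K`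
  have hnn : ∀ k ∈ K, 0 ≤ f k := by
    intro k hk
    by_contra hneg
    push Not at hneg
    -- scale `k` up
    set c : ℝ := (|a| + 1) / (-f k) with hcdef
    have hc0 : 0 < c := div_pos (by positivity) (by linarith)
    have h1 := hf2 _ (hc c hc0 k hk)
    rw [map_smul, smul_eq_mul] at h1
    have hfk : f k ≠ 0 := hneg.ne
    have h2 : c * f k = -(|a| + 1) := by
      rw [hcdef, div_neg, neg_mul, div_mul_cancel₀ _ hfk]
    rw [h2] at h1
    have := neg_abs_le a
    linarith
  have ha : a ≤ 0 := by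
    by_contra hpos
    push Not at hpos
    have hk0' := hnn k0 hk0
    -- scale `k0` down
    set c : ℝ := a / (2 * (f k0 + 1)) with hcdef
    have hc0 : 0 < c := div_pos hpos (by linarith)
    have h1 := hf2 _ (hc c hc0 k0 hk0)
    rw [map_smul, smul_eq_mul] at h1
    have h2 : c * f k0 ≤ a / 2 := by
      rw [hcdef, div_mul_eq_mul_div, div_le_div_iff₀ (by linarith) (by norm_num)]
      nlinarith
    linarith
  have h3 := hx y fun k hk => by
    rw [real_inner_comm, hyf]
    exact hnn k hk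
  rw [hyf] at h3
  linarith

/-- a closed convex cone which contains its dual cone contains a self-dual cone -/
theorem exists_sd_sub {K : Set V} (hcl : IsClosed K) (hco : Convex ℝ K) (hc : ∀ c : ℝ, 0 < c → ∀ x ∈ K, c • x ∈ K)
    (hd : ∀ y, (∀ x ∈ K, 0 ≤ ⟪x, y⟫) → y ∈ K) : ∃ S : Set V, SD S ∧ S ⊆ K := by
  have hne : K.Nonempty := by
    by_contra h
    rw [Set.not_nonempty_iff_eq_empty] at h
    have := hd 0 fun x _ => by simp
    rw [h] at this
    exact this
  obtain ⟨S, hS, hjS⟩ := exists_sd (ι := {y : V // ∀ x ∈ K, 0 ≤ ⟪x, y⟫}) (n := Subtype.val)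
    fun i j => j.2 _ (hd _ i.2)
  refine ⟨S, hS, fun x hx => bidual_sub hcl hco hc hne fun y hy => ?_⟩
  exact hS.inner (hjS ⟨y, hy⟩) hx

/-- the volume of the part in the unit ball of a closed convex cone containing its dual -/
theorem vol_cone {K : Set V} (hcl : IsClosed K) (hco : Convex ℝ K) (hc : ∀ c : ℝ, 0 < c → ∀ x ∈ K, c • x ∈ K)
    (hd : ∀ y, (∀ x ∈ K, 0 ≤ ⟪x, y⟫) → y ∈ K) :
    volume (Metric.ball (0 : V) 1) ≤ 2 ^ finrank ℝ V * volume (K ∩ Metric.ball 0 1) := by
  obtain ⟨S, hS, hSK⟩ := exists_sd_sub hcl hco hc hd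
  have h1 := main hS
  have h2 : (stdGaussian V).real S ≤ (stdGaussian V).real K := measureReal_mono hSK
  have h3 : ((2 : ℝ≥0∞) ^ finrank ℝ V)⁻¹ ≤ stdGaussian V K := by
    have h4 := h1.trans h2
    rw [measureReal_def] at h4
    rw [← ENNReal.ofReal_toReal (measure_ne_top (stdGaussian V) K)]
    have h5 : ((2 : ℝ≥0∞) ^ finrank ℝ V)⁻¹ = ENNReal.ofReal (((2 : ℝ) ^ finrank ℝ V)⁻¹) := by
      rw [ENNReal.ofReal_inv_of_pos (by positivity), ENNReal.ofReal_pow (by norm_num)]
      norm_num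
    rw [h5]
    exact ENNReal.ofReal_le_ofReal h4
  rw [← std_cone hcl.measurableSet hc, ← mul_assoc]
  have h6 : (1 : ℝ≥0∞) ≤ 2 ^ finrank ℝ V * stdGaussian V K := by
    calc (1 : ℝ≥0∞) = 2 ^ finrank ℝ V * ((2 : ℝ≥0∞) ^ finrank ℝ V)⁻¹ :=
          (ENNReal.mul_inv_cancel (by positivity) (ENNReal.pow_ne_top (by norm_num))).symm
      _ ≤ _ := by gcongr
  calc volume (Metric.ball (0 : V) 1) = 1 * volume (Metric.ball (0 : V) 1) := (one_mul _).symm
    _ ≤ _ := by gcongr

end

end PCS
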