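import Pool.Agent.PCS.Bas

/-!
# Self-dual cones: interior and test functions
-/

set_option autoImplicit false

open MeasureTheory ProbabilityTheory Module
open scoped RealInnerProductSpace

namespace PCS

section
variable {V : Type*} [NormedAddCommGroup V] [InnerProductSpace ℝ V] [FiniteDimensional ℝ V]
  {S : Set V} {P : V → V}

theorem SD.exists_ball (h : SD S) : ∃ e : V, ∃ r : ℝ, 0 < r ∧ Metric.ball e r ⊆ S := by
  have hspan : Submodule.span ℝ S = ⊤ := by
    by_contra hne
    have hlt : Submodule.span ℝ S ≠ ⊤ := hne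
    have h1 : (Submodule.span ℝ S)ᗮ ≠ ⊥ := by
      intro h2
      exact hlt ((Submodule.orthogonal_eq_bot_iff).1 h2)
    obtain ⟨y, hy, hy0⟩ := Submodule.exists_mem_ne_zero_of_ne_bot h1
    have hin : ∀ x ∈ S, ⟪x, y⟫ = 0 := fun x hx =>
      (Submodule.mem_orthogonal _ _).1 hy x (Submodule.subset_span hx)
    have hyS : y ∈ S := (h y).2 fun x hx => (hin x hx).ge
    exact hy0 (inner_self_eq_zero.1 (hin y hyS))
  have haff : affineSpan ℝ S = ⊤ := by
    have h0 : (0 : V) ∈ affineSpan ℝ S := subset_affineSpan ℝ S h.zero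
    have hdir : (affineSpan ℝ S).direction = ⊤ := by
      rw [eq_top_iff, ← hspan, Submodule.span_le]
      intro x hx
      have := AffineSubspace.vsub_mem_direction (subset_affineSpan ℝ S hx) h0
      simpa using this
    exact (AffineSubspace.direction_eq_top_iff_of_nonempty ⟨0, h0⟩).1 hdir
  obtain ⟨e, he⟩ := (h.convex.interior_nonempty_iff_affineSpan_eq_top).2 haff
  obtain ⟨r, hr, hb⟩ := Metric.isOpen_iff.1 isOpen_interior e he
  exact ⟨e, r, hr, hb.trans interior_subset⟩

omit [FiniteDimensional ℝ V] in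
/-- the squared norm of the projection is differentiable (used for the test function) -/
theorem bal_sq_fderiv (h : SD S) (hP : Pr S P) (u : V) :
    HasFDerivAt (fun y => ‖P y‖ ^ 2 / 2) (innerSL ℝ (P u)) u := by
  have hself : ∀ v, ⟪P v, v⟫ = ‖P v‖ ^ 2 := by
    intro v
    have h1 := hP.orth v
    rw [inner_sub_right, real_inner_self_eq_norm_sq] at h1
    linarith
  have hlow : ∀ u v, ‖P u‖ ^ 2 / 2 + ⟪P u, v - u⟫ ≤ ‖P v‖ ^ 2 / 2 := by
    intro u v
    have h1 : 0 ≤ ⟪P u, P v - v⟫ := h.inner (hP.mem u) (hP.mem' v)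
    rw [inner_sub_right] at h1
    have h2 : 0 ≤ ‖P u - P v‖ ^ 2 := sq_nonneg _
    rw [norm_sub_sq_real] at h2
    rw [inner_sub_right, hself u]
    linarith
  have hPl : ∀ u v, ‖P u - P v‖ ≤ ‖u - v‖ := by
    intro u v
    have h1 := Pr.firm h hP u v
    have h2 := real_inner_le_norm (P u - P v) (u - v)
    rcases eq_or_lt_of_le (norm_nonneg (P u - P v)) with h0 | h0
    · rw [← h0]; exact norm_nonneg _
    · nlinarith
  rw [hasFDerivAt_iff_isLittleO]
  have hO : (fun v => ‖P v‖ ^ 2 / 2 - ‖P u‖ ^ 2 / 2 - (innerSL ℝ (P u)) (v - u)) =O[nhds u]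
      fun v => ‖v - u‖ ^ 2 := by
    refine Asymptotics.IsBigO.of_bound 1 (Filter.Eventually.of_forall fun v => ?_)
    rw [innerSL_apply_apply, Real.norm_eq_abs, Real.norm_eq_abs, one_mul,
      abs_of_nonneg (sq_nonneg ‖v - u‖)]
    have h1 := hlow u v
    have h2 := hlow v u
    have h3 : ⟪P v - P u, v - u⟫ ≤ ‖v - u‖ ^ 2 := by
      refine (real_inner_le_norm _ _).trans ?_
      have := hPl v u
      nlinarith [norm_nonneg (v - u), norm_nonneg (P v - P u)]
    have h4 : ⟪P v, u - v⟫ = -⟪P v, v - u⟫ := by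
      rw [← neg_sub v u, inner_neg_right]
    rw [inner_sub_left] at h3
    rw [h4] at h2
    rw [abs_le]
    constructor
    · nlinarith [sq_nonneg ‖v - u‖]
    · linarith
  refine hO.trans_isLittleO ?_
  have h1 : (fun v : V => ‖v - u‖ ^ 2) =o[nhds u] fun v => ‖v - u‖ := by
    have h2 : Filter.Tendsto (fun v : V => ‖v - u‖) (nhds u) (nhds 0) := by
      have : Continuous fun v : V => ‖v - u‖ := (continuous_id.sub continuous_const).norm
      simpa using this.tendsto u
    have h3 : (fun x' : ℝ => x' ^ 2) =o[nhds 0] fun x' => x' := by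
      simpa using Asymptotics.isLittleO_pow_id (𝕜 := ℝ) (n := 2) (by norm_num)
    exact h3.comp_tendsto h2
  exact h1.of_norm_right

theorem hasDerivAt_sqmax (t : ℝ) : HasDerivAt (fun t : ℝ => (max 0 t) ^ 2) (2 * max 0 t) t := by
  rcases lt_trichotomy t 0 with ht | ht | ht
  · have h1 : (fun t : ℝ => (max 0 t) ^ 2) =ᶠ[nhds t] fun _ => (0 : ℝ) := by
      filter_upwards [Iio_mem_nhds ht] with s hs
      rw [max_eq_left (le_of_lt hs)]
      norm_num
    have h2 := (hasDerivAt_const t (0 : ℝ)).congr_of_eventuallyEq h1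
    rw [max_eq_left ht.le]
    simpa using h2
  · subst ht
    rw [max_self, mul_zero]
    rw [hasDerivAt_iff_isLittleO]
    have hO : (fun x' : ℝ => (max 0 x') ^ 2) =O[nhds 0] fun x' => x' ^ 2 := by
      refine Asymptotics.IsBigO.of_bound 1 (Filter.Eventually.of_forall fun x => ?_)
      rw [one_mul, Real.norm_eq_abs, Real.norm_eq_abs, abs_of_nonneg (sq_nonneg _),
        abs_of_nonneg (sq_nonneg _)]
      rcases le_total x 0 with hx | hx
      · rw [max_eq_left hx]; nlinarith [sq_nonneg x]
      · rw [max_eq_right hx]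
    have ho : (fun x' : ℝ => x' ^ 2) =o[nhds 0] fun x' => x' := by
      simpa using Asymptotics.isLittleO_pow_id (𝕜 := ℝ) (n := 2) (by norm_num)
    refine (hO.trans_isLittleO ho).congr (fun x => by simp) (fun x => by simp)
  · have h1 : (fun t : ℝ => (max 0 t) ^ 2) =ᶠ[nhds t] fun s => s ^ 2 := by
      filter_upwards [Ioi_mem_nhds ht] with s hs
      rw [max_eq_right (le_of_lt hs)]
    have h2 := (hasDerivAt_pow 2 t).congr_of_eventuallyEq h1
    rw [max_eq_right ht.le]
    simpa using h2

theorem SD.exists_test (h : SD S) : ∃ (H : V → ℝ) (DH : V → V →L[ℝ] ℝ) (e : V), Test S H DH ∧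
    ∀ u, u - e ∈ S → H u = 1 := by
  obtain ⟨P, hP⟩ := h.exists_pr
  obtain ⟨e, r, hr, hball⟩ := h.exists_ball
  set M : ℝ := 2 / r ^ 2 with hM
  have hM0 : 0 < M := by positivity
  -- continuity of the projection
  have hPl : ∀ u v, ‖P u - P v‖ ≤ ‖u - v‖ := by
    intro u v
    have h1 := Pr.firm h hP u v
    have h2 := real_inner_le_norm (P u - P v) (u - v)
    rcases eq_or_lt_of_le (norm_nonneg (P u - P v)) with h0 | h0
    · rw [← h0]; exact norm_nonneg _
    · nlinarith
  have hPc : Continuous P := by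
    have : LipschitzWith 1 P := LipschitzWith.of_dist_le_mul fun u v => by
      rw [dist_eq_norm, dist_eq_norm]
      simpa using hPl u v
    exact this.continuous
  -- the squared distance
  let s : V → ℝ := fun u => ‖P (e - u)‖ ^ 2 / 2
  have hs0 : ∀ u, 0 ≤ s u := fun u => by positivity
  have hsd : ∀ u, HasFDerivAt s (-(innerSL ℝ (P (e - u)))) u := by
    intro u
    have h1 := bal_sq_fderiv h hP (e - u)
    have h2 : HasFDerivAt (fun u : V => e - u) (-(ContinuousLinearMap.id ℝ V)) u := by
      simpa using (hasFDerivAt_id u).const_sub e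
    have h3 := h1.comp u h2
    have e1 : (innerSL ℝ (P (e - u))).comp (-(ContinuousLinearMap.id ℝ V)) =
        -(innerSL ℝ (P (e - u))) := by
      ext k; simp
    rw [e1] at h3
    exact h3
  let H : V → ℝ := fun u => (max 0 (1 - M * s u)) ^ 2
  let DH : V → V →L[ℝ] ℝ := fun u => (2 * max 0 (1 - M * s u) * M) • innerSL ℝ (P (e - u))
  have hHd : ∀ u, HasFDerivAt H (DH u) u := by
    intro u
    have h1 : HasFDerivAt (fun u => 1 - M * s u) (-(M • (-(innerSL ℝ (P (e - u)))))) u :=
      ((hsd u).const_mul M).const_sub 1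
    have h2 := (hasDerivAt_sqmax (1 - M * s u)).comp_hasFDerivAt u h1
    have e1 : (2 * max 0 (1 - M * s u)) • (-(M • (-(innerSL ℝ (P (e - u)))))) = DH u := by
      ext k
      simp [DH]
      ring
    rw [e1] at h2
    exact h2
  have hsc : Continuous s := by
    have : Continuous fun u : V => P (e - u) := hPc.comp (continuous_const.sub continuous_id)
    exact (this.norm.pow 2).div_const 2
  have hDc : Continuous DH := by
    have h1 : Continuous fun u : V => innerSL ℝ (P (e - u)) :=
      (innerSL ℝ).continuous.comp (hPc.comp (continuous_const.sub continuous_id))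
    have h2 : Continuous fun u : V => 2 * max 0 (1 - M * s u) * M :=
      (continuous_const.mul (continuous_const.max (continuous_const.sub (continuous_const.mul hsc)))).mul
        continuous_const
    exact h2.smul h1
  refine ⟨H, DH, e, ⟨hHd, hDc, ⟨2 * M * r, ?_⟩, fun u => sq_nonneg _, ?_, ?_, ?_⟩, ?_⟩
  · intro u
    have hn : ‖DH u‖ = 2 * max 0 (1 - M * s u) * M * ‖P (e - u)‖ := by
      have h0 : 0 ≤ 2 * max 0 (1 - M * s u) * M := by positivity
      simp only [DH]
      rw [norm_smul, innerSL_apply_norm, Real.norm_eq_abs, abs_of_nonneg h0]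
    rw [hn]
    rcases le_or_gt (1 - M * s u) 0 with h1 | h1
    · rw [max_eq_left h1]
      simp only [mul_zero, zero_mul]
      positivity
    · rw [max_eq_right h1.le]
      have h2 : 1 - M * s u ≤ 1 := by nlinarith [mul_nonneg hM0.le (hs0 u)]
      have h3 : ‖P (e - u)‖ ≤ r := by
        by_contra h4
        push Not at h4
        have h5 : r ^ 2 < ‖P (e - u)‖ ^ 2 := by
          exact pow_lt_pow_left₀ h4 hr.le (by norm_num)
        have h6 : M * s u = ‖P (e - u)‖ ^ 2 / r ^ 2 := by
          simp only [s, hM]; field_simp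
        rw [h6] at h1
        have h7 : 1 < ‖P (e - u)‖ ^ 2 / r ^ 2 := by
          rw [lt_div_iff₀ (by positivity)]; simpa using h5
        linarith
      have h8 : 2 * (1 - M * s u) * M * ‖P (e - u)‖ ≤ 2 * 1 * M * r := by
        have h9 : 0 ≤ 1 - M * s u := h1.le
        have := norm_nonneg (P (e - u))
        gcongr
      simpa using h8
  · intro u
    have h1 : max 0 (1 - M * s u) ≤ 1 :=
      max_le zero_le_one (by nlinarith [mul_nonneg hM0.le (hs0 u)])
    have h0 : 0 ≤ max 0 (1 - M * s u) := le_max_left _ _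
    show (max 0 (1 - M * s u)) ^ 2 ≤ 1
    exact pow_le_one₀ h0 h1
  · intro u hu
    have h1 : r ≤ ‖P (e - u)‖ := by
      by_contra h2
      push Not at h2
      apply hu
      -- u = (P (e-u) - (e - u)) + (e - P (e - u))
      have h3 : P (e - u) - (e - u) ∈ S := hP.mem' (e - u)
      have h4 : e - P (e - u) ∈ S := hball (by
        rw [Metric.mem_ball, dist_eq_norm]
        simpa using h2)
      have h5 := h.add h3 h4
      have h6 : P (e - u) - (e - u) + (e - P (e - u)) = u := by abel
      rwa [h6] at h5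
    have h6 : M * s u = ‖P (e - u)‖ ^ 2 / r ^ 2 := by
      simp only [s, hM]; field_simp
    have h7 : 1 ≤ M * s u := by
      rw [h6, le_div_iff₀ (by positivity), one_mul]
      exact pow_le_pow_left₀ hr.le h1 2
    show (max 0 (1 - M * s u)) ^ 2 = 0
    rw [max_eq_left (by linarith)]
    norm_num
  · intro u k hk
    show 0 ≤ ((2 * max 0 (1 - M * s u) * M) • innerSL ℝ (P (e - u))) k
    rw [smul_apply, innerSL_apply_apply, smul_eq_mul]
    have h0 : 0 ≤ ⟪P (e - u), k⟫ := h.inner (hP.mem _) hk
    positivity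
  · intro u hu
    have h1 : P (e - u) = 0 := by
      have h2 := Pr.neg h hP (u - e)
      rw [neg_sub, Pr.of_mem h hP hu, sub_self] at h2
      exact h2
    show (max 0 (1 - M * s u)) ^ 2 = 1
    have h3 : s u = 0 := by simp only [s, h1]; simp
    rw [h3, mul_zero, sub_zero, max_eq_right zero_le_one, one_pow]

end

end PCS
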