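import Pool.Agent.PCW.Defs

/-!
# A centre for almost nonnegative systems (row E1)

`center_del` : unit vectors `n j` of `ℝ^d` with inner products at least `-δ`, `δ (d + 1) < 1`, have
a unit vector `w` with `⟪n j, w⟫ ≥ ρ`, `d ρ ^ 2 ≥ 1 - d δ`, and `ρ w` is a convex combination of
the `n j`.
-/

set_option autoImplicit false

open MeasureTheory ProbabilityTheory Module PCW
open scoped RealInnerProductSpace

namespace PCS

theorem center_del {d : ℕ} {ι : Type*} [Fintype ι] [Nonempty ι] {n : ι → E d} {δ : ℝ} (h0 : 0 ≤ δ)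
    (hδ : δ * (d + 1) < 1) (hu : ∀ j, ‖n j‖ = 1) (hn : ∀ i j, -δ ≤ ⟪n i, n j⟫) :
    ∃ (w : E d) (ρ : ℝ), ‖w‖ = 1 ∧ 0 < ρ ∧ 1 - d * δ ≤ d * ρ ^ 2 ∧ (∀ j, ρ ≤ ⟪n j, w⟫) ∧
      ∃ l : ι → ℝ, (∀ j, 0 ≤ l j) ∧ ∑ j, l j = 1 ∧ ∑ j, l j • n j = ρ • w := by
  classical
  set C : Set (E d) := convexHull ℝ (Set.range n) with hC
  have hne : C.Nonempty := (Set.range_nonempty n).convexHull
  have hcomp : IsComplete C := ((Set.finite_range n).isCompact_convexHull ℝ).isComplete
  have hconv : Convex ℝ C := convex_convexHull ℝ _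
  obtain ⟨q, hq, hmin⟩ := exists_norm_eq_iInf_of_complete_convex hne hcomp hconv 0
  have hq2 : ∀ x ∈ C, ‖q‖ ^ 2 ≤ ⟪q, x⟫ := by
    intro x hx
    have h1 := (norm_eq_iInf_iff_real_inner_le_zero hconv hq).1 hmin x hx
    rw [zero_sub, inner_neg_left, inner_sub_right, real_inner_self_eq_norm_sq] at h1
    linarith
  obtain ⟨κ, hκ, z, w, hz, hai, hw, hw1, hwz⟩ := eq_pos_convex_span_of_mem_convexHull hq
  have hzC : ∀ i, z i ∈ C := fun i => subset_convexHull ℝ _ (hz ⟨i, rfl⟩)
  choose a ha using fun i => hz (Set.mem_range_self i)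
  have hzz : ∀ i i', (if i = i' then (1 + δ : ℝ) else 0) - δ ≤ ⟪z i, z i'⟫ := by
    intro i i'
    rw [← ha i, ← ha i']
    by_cases h : i = i'
    · rw [if_pos h, h, real_inner_self_eq_norm_sq, hu]
      norm_num
    · rw [if_neg h]
      have := hn (a i) (a i')
      linarith
  -- the norm of `q`
  have hqq : (1 + δ) * ∑ i, w i ^ 2 - δ ≤ ‖q‖ ^ 2 := by
    have h1 : ‖q‖ ^ 2 = ∑ i, ∑ i', w i * w i' * ⟪z i, z i'⟫ := by
      rw [← real_inner_self_eq_norm_sq, ← hwz, sum_inner]
      refine Finset.sum_congr rfl fun i _ => ?_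
      rw [inner_sum]
      refine Finset.sum_congr rfl fun i' _ => ?_
      rw [inner_smul_left, inner_smul_right]
      simp only [conj_trivial]
      ring
    rw [h1]
    have h3 : (1 + δ) * ∑ i, w i ^ 2 - δ =
        ∑ i, ∑ i', w i * w i' * ((if i = i' then (1 + δ : ℝ) else 0) - δ) := by
      have h4 : ∀ i, ∑ i', w i * w i' * ((if i = i' then (1 + δ : ℝ) else 0) - δ) =
          (1 + δ) * w i ^ 2 - δ * w i := by
        intro i
        have h5 : ∀ i', w i * w i' * ((if i = i' then (1 + δ : ℝ) else 0) - δ) =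
            (if i = i' then w i * w i' * (1 + δ) else 0) - δ * w i * w i' := by
          intro i'
          split_ifs <;> ring
        rw [Finset.sum_congr rfl fun i' _ => h5 i', Finset.sum_sub_distrib, ← Finset.mul_sum, hw1,
          Finset.sum_ite_eq, if_pos (Finset.mem_univ i)]
        ring
      rw [Finset.sum_congr rfl fun i _ => h4 i, Finset.sum_sub_distrib, ← Finset.mul_sum,
        ← Finset.mul_sum, hw1]
      ring
    rw [h3]
    exact Finset.sum_le_sum fun i _ => Finset.sum_le_sum fun i' _ =>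
      mul_le_mul_of_nonneg_left (hzz i i') (mul_pos (hw i) (hw i')).le
  have hpos : 0 < ∑ i, w i ^ 2 := by
    have hk : Nonempty κ := by
      by_contra h
      rw [not_nonempty_iff] at h
      rw [Fintype.sum_empty] at hw1
      exact zero_ne_one hw1
    exact Finset.sum_pos (fun i _ => pow_pos (hw i) 2) Finset.univ_nonempty
  have hcs : 1 ≤ (Fintype.card κ : ℝ) * ∑ i, w i ^ 2 := by
    have h1 := sq_sum_le_card_mul_sum_sq (s := (Finset.univ : Finset κ)) (f := w)
    rw [hw1, one_pow, Finset.card_univ] at h1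
    exact h1
  have hcard1 : (Fintype.card κ : ℝ) ≤ d + 1 := by
    have h1 := hai.card_le_finrank_succ
    have h2 : finrank ℝ (vectorSpan ℝ (Set.range z)) ≤ d := by
      refine (Submodule.finrank_le _).trans ?_
      rw [finrank_euclideanSpace, Fintype.card_fin]
    have h3 := h1.trans (Nat.add_le_add_right h2 1)
    exact_mod_cast h3
  have hd0 : (0 : ℝ) ≤ d := Nat.cast_nonneg d
  have hq0 : 0 < ‖q‖ := by
    have h1 : 0 < ‖q‖ ^ 2 := by
      refine lt_of_lt_of_le ?_ hqq
      have h2 : 1 ≤ ((d : ℝ) + 1) * ∑ i, w i ^ 2 :=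
        hcs.trans (mul_le_mul_of_nonneg_right hcard1 hpos.le)
      by_contra hcon
      push Not at hcon
      have h4 : ((d : ℝ) + 1) * ((1 + δ) * ∑ i, w i ^ 2 - δ) ≤ 0 :=
        mul_nonpos_of_nonneg_of_nonpos (by linarith) hcon
      nlinarith
    exact lt_of_le_of_ne (norm_nonneg q) fun h => by rw [← h] at h1; norm_num at h1
  -- the points lie in a hyperplane
  have hqz : ∀ i, ⟪q, z i⟫ = ‖q‖ ^ 2 := by
    have h1 : ∑ i, w i * (⟪q, z i⟫ - ‖q‖ ^ 2) = 0 := by
      have h2 : ∑ i, w i * ⟪q, z i⟫ = ‖q‖ ^ 2 := by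
        rw [← real_inner_self_eq_norm_sq]
        conv_rhs => rw [← hwz, inner_sum]
        refine Finset.sum_congr rfl fun i _ => ?_
        rw [inner_smul_right, hwz]
      simp only [mul_sub]
      rw [Finset.sum_sub_distrib, h2, ← Finset.sum_mul, hw1, one_mul, sub_self]
    intro i
    have h3 := (Finset.sum_eq_zero_iff_of_nonneg fun i _ =>
      mul_nonneg (hw i).le (sub_nonneg.2 (hq2 _ (hzC i)))).1 h1 i (Finset.mem_univ i)
    have h4 := (mul_eq_zero.1 h3).resolve_left (hw i).ne'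
    linarith
  have hli : LinearIndependent ℝ z := by
    rw [Fintype.linearIndependent_iff]
    intro c hc
    have h1 : ∑ i, c i = 0 := by
      have h2 : ⟪q, ∑ i, c i • z i⟫ = 0 := by rw [hc, inner_zero_right]
      rw [inner_sum] at h2
      simp only [inner_smul_right, hqz] at h2
      rw [← Finset.sum_mul] at h2
      exact (mul_eq_zero.1 h2).resolve_right (pow_pos hq0 2).ne'
    rw [affineIndependent_iff] at hai
    exact fun i => hai Finset.univ c h1 hc i (Finset.mem_univ i)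
  have hcard : (Fintype.card κ : ℝ) ≤ d := by
    have h1 := hli.fintype_card_le_finrank
    rw [finrank_euclideanSpace, Fintype.card_fin] at h1
    exact_mod_cast h1
  refine ⟨‖q‖⁻¹ • q, ‖q‖, by rw [norm_smul, norm_inv, norm_norm, inv_mul_cancel₀ hq0.ne'], hq0,
    ?_, fun j => ?_, fun j => ∑ i, if a i = j then w i else 0, fun j => ?_, ?_, ?_⟩
  · have h2 : 1 ≤ (d : ℝ) * ∑ i, w i ^ 2 :=
      hcs.trans (mul_le_mul_of_nonneg_right hcard hpos.le)
    have h3 := mul_le_mul_of_nonneg_left hqq hd0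
    nlinarith
  · rw [inner_smul_right, real_inner_comm]
    have h1 := hq2 (n j) (subset_convexHull ℝ _ ⟨j, rfl⟩)
    calc ‖q‖ = ‖q‖⁻¹ * ‖q‖ ^ 2 := by field_simp
      _ ≤ ‖q‖⁻¹ * ⟪q, n j⟫ := mul_le_mul_of_nonneg_left h1 (inv_nonneg.2 hq0.le)
  · refine Finset.sum_nonneg fun i _ => ?_
    split_ifs
    · exact (hw i).le
    · exact le_rfl
  · rw [Finset.sum_comm]
    rw [← hw1]
    refine Finset.sum_congr rfl fun i _ => ?_
    rw [Finset.sum_ite_eq, if_pos (Finset.mem_univ _)]
  · rw [smul_smul, mul_inv_cancel₀ hq0.ne', one_smul, ← hwz]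
    simp only [Finset.sum_smul]
    rw [Finset.sum_comm]
    refine Finset.sum_congr rfl fun i _ => ?_
    simp only [ite_smul, zero_smul]
    rw [Finset.sum_ite_eq, if_pos (Finset.mem_univ _), ha i]

end PCS
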