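import Pool.Agent.PCS.RigC

/-!
# MP_332d77_co: solid angles of sets of width at least one in the unit ball, with the equality case, and all optimal
packings at `t = 1`

For every `d ≥ 1`:
* a closed convex cone `K` of `ℝ^d` which contains its dual cone fills at least the proportion `2 ^ (-d)` of the unit
  ball, with equality exactly for the orthants of orthonormal bases;
* for every convex set `C` of width at least one in the unit ball, the union of the rays from the centre through the
  points of `C` fills at least the proportion `2 ^ (-d)` of the unit ball, with equality exactly if the closure of `C` is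
  the part in the ball of such an orthant;
* `2 ^ d` convex sets form a packing of sets of width at least one into the unit ball if and only if their closures are
  the parts in the ball of orthants with pairwise disjoint interiors; such orthants cover the space.
-/

open PCW PCS MeasureTheory Metric
open scoped RealInnerProductSpace ENNReal

namespace Pool.Agent.PCSRes.ConeMeasure

variable {d : ℕ}

/-- closed convex cones which contain their dual cones -/
def ConeDual (K : Set (E d)) : Prop := IsClosed K ∧ Convex ℝ K ∧ (∀ c : ℝ, 0 < c → ∀ x ∈ K, c • x ∈ K) ∧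
  ∀ y, (∀ x ∈ K, 0 ≤ ⟪x, y⟫) → y ∈ K

/-- subsets of the unit ball of width at least one -/
def Wide (C : Set (E d)) : Prop := C ⊆ closedBall 0 1 ∧ ∀ u : E d, ‖u‖ = 1 → 1 ≤ wd C u

/-- the volume of the unit ball -/
noncomputable def vb (d : ℕ) : ℝ≥0∞ := volume (closedBall (0 : E d) 1)

/-- the volume of the part of `K` in the unit ball, multiplied by `2 ^ d` -/
noncomputable def vk (K : Set (E d)) : ℝ≥0∞ := 2 ^ d * volume (K ∩ closedBall 0 1)

/-- the part of the orthant in the unit ball -/
def part (b : OrthonormalBasis (Fin d) ℝ (E d)) : Set (E d) := {x | x ∈ closedBall 0 1 ∧ x ∈ orth b}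

/-- the interiors are pairwise disjoint -/
def Pk {n : ℕ} (C : Fin n → Set (E d)) : Prop := ∀ i j, i ≠ j → Disjoint (interior (C i)) (interior (C j))

theorem result (d : ℕ) (hd : 1 ≤ d) :
    (∀ K : Set (E d), ConeDual K → vb d ≤ vk K ∧ (vb d = vk K ↔ ∃ b, K = orth b)) ∧
    (∀ C : Set (E d), Convex ℝ C → Wide C → vb d ≤ vk (rays C) ∧ (vb d = vk (rays C) ↔ ∃ b, closure C = part b)) ∧
    (∀ C : Fin (2 ^ d) → Set (E d), (∀ i, Convex ℝ (C i)) →
      ((∀ i, Wide (C i)) ∧ Pk C ↔
        ∃ b : Fin (2 ^ d) → OrthonormalBasis (Fin d) ℝ (E d), (∀ i, closure (C i) = part (b i)) ∧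
          Pk fun i => orth (b i))) ∧
    ∀ b : Fin (2 ^ d) → OrthonormalBasis (Fin d) ℝ (E d), (Pk fun i => orth (b i)) → ∀ x, ∃ i, x ∈ orth (b i) := by
  refine ⟨fun K h => ⟨key_le h.1 h.2.1 h.2.2.1 h.2.2.2, fun heq => key_eq (eq1 _) h.1 h.2.1 h.2.2.1 h.2.2.2 heq, ?_⟩,
    fun C hC h => ⟨set_le hd hC h.1 h.2, fun heq => set_eq (eq1 _) hd hC h.1 h.2 heq, ?_⟩, fun C hC => ⟨?_, ?_⟩,
    cover⟩
  · rintro ⟨b, rfl⟩
    exact orth_eq b
  · rintro ⟨b, hb⟩
    exact set_eq_conv hC hb
  · rintro ⟨hW, hdis⟩
    choose b hb using fun i => pack_eq (eq1 (E d)) hd hC (fun i => (hW i).1) hdis (fun i => (hW i).2) i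
    refine ⟨b, hb, fun i j hij => disj_of ?_⟩
    have hint : ∀ i, interior (closure (C i)) = interior (C i) := fun i =>
      (hC i).interior_closure_eq_interior_of_nonempty_interior
        (rd_int hd (hC i) fun u hu => one_pos.trans_le ((hW i).2 u hu))
    rw [← hb i, ← hb j, hint i, hint j]
    exact hdis i j hij
  · rintro ⟨b, hb, hdis⟩
    have hsub : ∀ i, C i ⊆ closedBall 0 1 := fun i x hx => by
      have h1 : x ∈ closure (C i) := subset_closure hx
      rw [hb i] at h1
      exact h1.1
    have hne : ∀ i, (C i).Nonempty := fun i => by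
      have h1 : (0 : E d) ∈ closure (C i) := by
        rw [hb i]
        exact ⟨by simp, (orth_sd (b i)).zero⟩
      exact closure_nonempty_iff.1 ⟨0, h1⟩
    refine ⟨fun i => ⟨hsub i, fun u hu => ?_⟩, fun i j hij => ?_⟩
    · refine le_trans ?_ (wd_closure (hne i) (hsub i) hu)
      rw [hb i]
      exact sd_wd (orth_sd (b i)) hu
    · have hs : ∀ i, interior (C i) ⊆ interior (orth (b i)) := fun i => by
        refine interior_mono fun x hx => ?_
        have h1 : x ∈ closure (C i) := subset_closure hx
        rw [hb i] at h1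
        exact h1.2
      exact (hdis i j hij).mono (hs i) (hs j)

end Pool.Agent.PCSRes.ConeMeasure
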