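import Pool.Agent.PCS.PDefs

/-!
# Row H3: cyclic ordering by angle
-/

set_option autoImplicit false

open PCW
open scoped RealInnerProductSpace

namespace PCS


theorem inner_dr (v : E 2) (a : ℝ) : ⟪v, dr a⟫ = v 0 * Real.cos a + v 1 * Real.sin a := by
  unfold dr
  rw [PiLp.inner_apply, Fin.sum_univ_two]
  simp [mul_comm]

theorem inner_dr_dr (a b : ℝ) : ⟪dr a, dr b⟫ = Real.cos (a - b) := by
  rw [inner_dr, Real.cos_sub]
  rfl

theorem dr_add_nat (a : ℝ) (n : ℕ) : dr (a + 2 * Real.pi * n) = dr a := by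
  unfold dr
  rw [show a + 2 * Real.pi * n = a + n * (2 * Real.pi) by ring, Real.cos_add_nat_mul_two_pi,
    Real.sin_add_nat_mul_two_pi]

theorem dr_add_int (a : ℝ) (n : ℤ) : dr (a + 2 * Real.pi * n) = dr a := by
  unfold dr
  rw [show a + 2 * Real.pi * n = a + n * (2 * Real.pi) by ring, Real.cos_add_int_mul_two_pi,
    Real.sin_add_int_mul_two_pi]

theorem exists_angle {v : E 2} (hv : v ≠ 0) :
    ∃ θ : ℝ, 0 ≤ θ ∧ θ < 2 * Real.pi ∧ v = ‖v‖ • dr θ := by
  let z : ℂ := ⟨v 0, v 1⟩
  have hnz : ‖z‖ = ‖v‖ := by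
    rw [EuclideanSpace.norm_eq, Fin.sum_univ_two, Complex.norm_def, Complex.normSq_apply]
    simp [z, sq]
  have hn : 0 < ‖v‖ := norm_pos_iff.2 hv
  have hz : z ≠ 0 := by
    rw [← norm_pos_iff, hnz]
    exact hn
  have h0 : v = ‖v‖ • dr z.arg := by
    ext i
    fin_cases i
    · show v 0 = ‖v‖ * Real.cos z.arg
      rw [Complex.cos_arg hz, hnz, mul_div_cancel₀ _ hn.ne']
    · show v 1 = ‖v‖ * Real.sin z.arg
      rw [Complex.sin_arg, hnz, mul_div_cancel₀ _ hn.ne']
  have hpi := Real.pi_pos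
  rcases le_or_gt 0 z.arg with h1 | h1
  · exact ⟨z.arg, h1, by linarith [Complex.arg_le_pi z], h0⟩
  · refine ⟨z.arg + 2 * Real.pi * (1 : ℕ), ?_, ?_, ?_⟩
    · have := Complex.neg_pi_lt_arg z
      rw [Nat.cast_one]
      linarith
    · rw [Nat.cast_one]
      linarith
    · rw [dr_add_nat]
      exact h0

/-- a unit vector whose inner product with `dr` changes the sign from `-` to `+` -/
theorem cross {n : E 2} (hn : ‖n‖ = 1) {a b : ℝ} (hab : a < b) (ha : ⟪n, dr a⟫ < 0)
    (hb : 0 < ⟪n, dr b⟫) : ∃ α : ℝ, a < α ∧ α < b ∧ n = dr (α + Real.pi / 2) := by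
  have hpi := Real.pi_pos
  have hn0 : n ≠ 0 := by
    intro h
    rw [h, norm_zero] at hn
    exact one_ne_zero hn.symm
  obtain ⟨ν, -, -, h0⟩ := exists_angle hn0
  rw [hn, one_smul] at h0
  set s := ν - Real.pi / 2 with hs
  set N : ℤ := ⌊(b - s) / (2 * Real.pi)⌋ with hN
  set α := s + 2 * Real.pi * N with hα
  have h1 : n = dr (α + Real.pi / 2) := by
    rw [h0, show α + Real.pi / 2 = ν + 2 * Real.pi * N by rw [hα, hs]; ring, dr_add_int]
  have h2 : ∀ x, ⟪n, dr x⟫ = Real.sin (x - α) := by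
    intro x
    rw [h1, inner_dr_dr, show α + Real.pi / 2 - x = Real.pi / 2 - (x - α) by ring,
      Real.cos_pi_div_two_sub]
  have h3 : 0 ≤ b - α := by
    have := Int.floor_le ((b - s) / (2 * Real.pi))
    rw [← hN, le_div_iff₀ (by positivity)] at this
    rw [hα]
    linarith
  have h4 : b - α < 2 * Real.pi := by
    have := Int.lt_floor_add_one ((b - s) / (2 * Real.pi))
    rw [← hN, div_lt_iff₀ (by positivity)] at this
    rw [hα]
    linarith
  rw [h2] at ha hb
  have h5 : 0 < b - α := by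
    rcases h3.eq_or_lt with h | h
    · rw [← h, Real.sin_zero] at hb
      exact absurd hb (lt_irrefl _)
    · exact h
  have h6 : b - α < Real.pi := by
    by_contra h
    push Not at h
    have : Real.sin (b - α) ≤ 0 := by
      have h7 : Real.sin (b - α) = -Real.sin (b - α - Real.pi) := by
        rw [Real.sin_sub_pi, neg_neg]
      rw [h7]
      have := Real.sin_nonneg_of_nonneg_of_le_pi (x := b - α - Real.pi) (by linarith)
        (by linarith)
      linarith
    linarith
  refine ⟨α, ?_, by linarith, h1⟩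
  by_contra h
  push Not at h
  have := Real.sin_nonneg_of_nonneg_of_le_pi (x := a - α) (by linarith) (by linarith)
  linarith

theorem exists_cyc {m : ℕ} (hm : 2 ≤ m) {u : Fin m → Fin m → E 2} {r : Fin m → E 2} (hr : ∀ i, r i ≠ 0)
    (unit : ∀ i j, i ≠ j → ‖u i j‖ = 1) (anti : ∀ i j, i ≠ j → u j i = -u i j)
    (hp : ∀ i j, j ≠ i → 0 < ⟪r i, u i j⟫) :
    ∃ (σ : ℕ → Fin m) (α : ℕ → ℝ), (∀ k, σ (k + m) = σ k) ∧ (∀ k, σ k ≠ σ (k + 1)) ∧
      (∀ k, α (k + m) = α k + 2 * Real.pi) ∧ (∀ k, α k < α (k + 1)) ∧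
      ∀ k, u (σ (k + 1)) (σ k) = dr (α k + Real.pi / 2) := by
  have hpi := Real.pi_pos
  have hm0 : 0 < m := by omega
  choose ρ hρ0 hρ1 hρ2 using fun i => exists_angle (hr i)
  have hrn : ∀ i, 0 < ‖r i‖ := fun i => norm_pos_iff.2 (hr i)
  have hp' : ∀ i j, j ≠ i → 0 < ⟪dr (ρ i), u i j⟫ := by
    intro i j hij
    have h := hp i j hij
    rw [hρ2 i, real_inner_smul_left] at h
    exact (mul_pos_iff_of_pos_left (hrn i)).1 h
  have hinj : Function.Injective ρ := by
    intro i j hij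
    by_contra h
    have h1 := hp' i j (Ne.symm h)
    have h2 := hp' j i h
    rw [anti i j h, inner_neg_right, ← hij] at h2
    linarith
  set π := Tuple.sort ρ with hπ
  have hmono : StrictMono (ρ ∘ π) :=
    (Tuple.monotone_sort ρ).strictMono_of_injective (hinj.comp π.injective)
  let σ : ℕ → Fin m := fun k => π ⟨k % m, Nat.mod_lt _ hm0⟩
  let R : ℕ → ℝ := fun k => ρ (σ k) + 2 * Real.pi * (k / m : ℕ)
  have hσ : ∀ k l, k % m = l % m → σ k = σ l := by
    intro k l h
    simp only [σ]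
    congr 2
  have hσm : ∀ k, σ (k + m) = σ k := fun k => hσ _ _ (Nat.add_mod_right k m)
  have hcase : ∀ k, ((k + 1) % m = k % m + 1 ∧ (k + 1) / m = k / m) ∨
      (k % m = m - 1 ∧ (k + 1) % m = 0 ∧ (k + 1) / m = k / m + 1) := by
    intro k
    have h1 := Nat.div_add_mod k m
    have h2 := Nat.mod_lt k hm0
    rcases Nat.lt_or_ge (k % m + 1) m with h | h
    · left
      have h3 : k + 1 = (k % m + 1) + m * (k / m) := by omega
      constructor
      · rw [h3, Nat.add_mul_mod_self_left, Nat.mod_eq_of_lt h]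
      · rw [h3, Nat.add_mul_div_left _ _ hm0, Nat.div_eq_of_lt h, zero_add]
    · right
      have h4 : k % m = m - 1 := by omega
      have h3 : k + 1 = m * (k / m + 1) := by
        rw [mul_add, mul_one]
        omega
      refine ⟨h4, ?_, ?_⟩
      · rw [h3, Nat.mul_mod_right]
      · rw [h3, Nat.mul_div_cancel_left _ hm0]
  have hσne : ∀ k, σ k ≠ σ (k + 1) := by
    intro k h
    have h1 := π.injective h
    rw [Fin.mk.injEq] at h1
    rcases hcase k with h2 | h2
    · omega
    · omega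
  have hR : ∀ k, R k < R (k + 1) := by
    intro k
    simp only [R]
    rcases hcase k with h2 | h2
    · rw [h2.2]
      have h3 : ρ (σ k) < ρ (σ (k + 1)) := by
        refine hmono ?_
        rw [Fin.mk_lt_mk, h2.1]
        exact Nat.lt_succ_self _
      linarith
    · rw [h2.2.2]
      have h3 := hρ1 (σ k)
      have h4 := hρ0 (σ (k + 1))
      push_cast
      linarith
  have hdrR : ∀ k, dr (R k) = dr (ρ (σ k)) := fun k => dr_add_nat _ _
  -- the crossing angles
  have hcr : ∀ k, ∃ α : ℝ, R k < α ∧ α < R (k + 1) ∧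
      u (σ (k + 1)) (σ k) = dr (α + Real.pi / 2) := by
    intro k
    refine cross (unit _ _ (hσne k).symm) (hR k) ?_ ?_
    · rw [hdrR, real_inner_comm, anti (σ k) (σ (k + 1)) (hσne k), inner_neg_right]
      have := hp' (σ k) (σ (k + 1)) (hσne k).symm
      linarith
    · rw [hdrR, real_inner_comm]
      exact hp' (σ (k + 1)) (σ k) (hσne k)
  choose α₀ hα1 hα2 hα3 using hcr
  let α : ℕ → ℝ := fun k => α₀ (k % m) + 2 * Real.pi * (k / m : ℕ)
  have hRk : ∀ k, R k = R (k % m) + 2 * Real.pi * (k / m : ℕ) := by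
    intro k
    have h1 : k % m / m = 0 := Nat.div_eq_of_lt (Nat.mod_lt _ hm0)
    simp only [R]
    rw [h1, hσ (k % m) k (Nat.mod_mod k m)]
    push_cast
    ring
  have hRk' : ∀ k, R (k + 1) = R (k % m + 1) + 2 * Real.pi * (k / m : ℕ) := by
    intro k
    simp only [R]
    have h1 : (k % m + 1) % m = (k + 1) % m := by
      rw [Nat.add_mod, Nat.mod_mod, ← Nat.add_mod]
    rw [hσ (k % m + 1) (k + 1) h1]
    rcases hcase k with h2 | h2
    · have h3 : (k % m + 1) / m = 0 := by
        apply Nat.div_eq_of_lt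
        rw [← h2.1]
        exact Nat.mod_lt _ hm0
      rw [h2.2, h3]
      push_cast
      ring
    · have h3 : (k % m + 1) / m = 1 := by
        rw [h2.1, Nat.sub_add_cancel (by omega), Nat.div_self hm0]
      rw [h2.2.2, h3]
      push_cast
      ring
  have hb1 : ∀ k, R k < α k := by
    intro k
    rw [hRk k]
    have := hα1 (k % m)
    simp only [α]
    linarith
  have hb2 : ∀ k, α k < R (k + 1) := by
    intro k
    rw [hRk' k]
    have := hα2 (k % m)
    simp only [α]
    linarith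
  refine ⟨σ, α, hσm, hσne, ?_, fun k => (hb2 k).trans (hb1 (k + 1)), ?_⟩
  · intro k
    simp only [α]
    rw [Nat.add_mod_right, Nat.add_div_right _ hm0]
    push_cast
    ring
  · intro k
    have h1 : (k % m + 1) % m = (k + 1) % m := by
      rw [Nat.add_mod, Nat.mod_mod, ← Nat.add_mod]
    have h2 := hα3 (k % m)
    rw [hσ (k % m + 1) (k + 1) h1, hσ (k % m) k (Nat.mod_mod k m)] at h2
    rw [h2]
    simp only [α]
    rw [show α₀ (k % m) + 2 * Real.pi * (k / m : ℕ) + Real.pi / 2 =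
      α₀ (k % m) + Real.pi / 2 + 2 * Real.pi * (k / m : ℕ) by ring, dr_add_nat]

end PCS
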