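import Pool.Agent.PCS.Key

/-!
# The pointwise inequality with its deficit (equality case, rows T1, T2)
-/

set_option autoImplicit false
set_option linter.unusedSectionVars false

open MeasureTheory ProbabilityTheory Module
open scoped RealInnerProductSpace

namespace PCS

section
variable {V : Type*} [NormedAddCommGroup V] [InnerProductSpace ℝ V]
variable {S : Set V} {P : V → V} {H : V → ℝ} {DH : V → V →L[ℝ] ℝ}

/-- the dropped term of the pointwise inequality -/
noncomputable def qq (P : V → V) (φ : ℝ) (z : V × V) : V :=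
  ∫ α in φ..Real.pi, Real.sin (α - φ) • (TT P (uu z.1 z.2 α) + uu z.1 z.2 α)

variable [CompleteSpace V]

theorem cont_qq_integrand (h : SD S) (hP : Pr S P) :
    Continuous fun p : (ℝ × (V × V)) × ℝ =>
      Real.sin (p.2 - p.1.1) • (TT P (uu p.1.2.1 p.1.2.2 p.2) + uu p.1.2.1 p.1.2.2 p.2) := by
  have hT := continuous_TT h hP
  have hu : Continuous fun p : (ℝ × (V × V)) × ℝ => uu p.1.2.1 p.1.2.2 p.2 := by
    unfold uu
    fun_prop
  exact Continuous.smul (by fun_prop) ((hT.comp hu).add hu)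

theorem cont_qq (h : SD S) (hP : Pr S P) : Continuous fun p : ℝ × (V × V) => qq P p.1 p.2 := by
  unfold qq
  have h1 := intervalIntegral.continuous_parametric_intervalIntegral_of_continuous
    (a₀ := Real.pi) (μ := volume)
    (f := fun (p : ℝ × (V × V)) (α : ℝ) =>
      Real.sin (α - p.1) • (TT P (uu p.2.1 p.2.2 α) + uu p.2.1 p.2.2 α))
    (cont_qq_integrand h hP) (s := fun p => p.1) continuous_fst
  refine h1.neg.congr fun p => ?_
  show -(∫ α in Real.pi..p.1, Real.sin (α - p.1) • (TT P (uu p.2.1 p.2.2 α) + uu p.2.1 p.2.2 α)) = _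
  rw [← intervalIntegral.integral_symm]

theorem cont_qq' (h : SD S) (hP : Pr S P) (φ : ℝ) : Continuous fun z : V × V => qq P φ z := by
  have h1 : Continuous fun z : V × V => ((φ, z) : ℝ × (V × V)) := by fun_prop
  have h2 := (cont_qq h hP).comp h1
  exact h2

theorem qq_intervalIntegrable (h : SD S) (hP : Pr S P) (φ : ℝ) (z : V × V) (a b : ℝ) :
    IntervalIntegrable (fun α => Real.sin (α - φ) • (TT P (uu z.1 z.2 α) + uu z.1 z.2 α))
      volume a b := by
  have h0 : Continuous fun α : ℝ => (((φ, z), α) : (ℝ × (V × V)) × ℝ) := by fun_prop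
  have h1 := (cont_qq_integrand h hP).comp h0
  exact Continuous.intervalIntegrable h1 a b

/-- functionals of the dropped term -/
theorem L_qq (h : SD S) (hP : Pr S P) (φ : ℝ) (z : V × V) (L : V →L[ℝ] ℝ) :
    L (qq P φ z) = ∫ α in φ..Real.pi,
      Real.sin (α - φ) * L (TT P (uu z.1 z.2 α) + uu z.1 z.2 α) := by
  unfold qq
  rw [← L.intervalIntegral_comp_comm (qq_intervalIntegrable h hP φ z _ _)]
  refine intervalIntegral.integral_congr fun α _ => ?_
  simp only [map_smul, smul_eq_mul]

theorem L_qq_nonneg (h : SD S) (hP : Pr S P) {φ : ℝ} (h0 : 0 ≤ φ) (h1 : φ ≤ Real.pi) (z : V × V)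
    (L : V →L[ℝ] ℝ) (hL : ∀ k ∈ S, 0 ≤ L k) : 0 ≤ L (qq P φ z) := by
  rw [L_qq h hP]
  refine intervalIntegral.integral_nonneg h1 fun α hα => ?_
  exact mul_nonneg (Real.sin_nonneg_of_nonneg_of_le_pi (by linarith [hα.1]) (by linarith [hα.2]))
    (hL _ (TT_add_mem h hP _))

theorem qq_mem (h : SD S) (hP : Pr S P) {φ : ℝ} (h0 : 0 ≤ φ) (h1 : φ ≤ Real.pi) (z : V × V) :
    qq P φ z ∈ S := by
  refine (h _).2 fun n hn => ?_
  exact L_qq_nonneg h hP h0 h1 z (innerSL ℝ n) fun k hk => by
    simpa using h.inner hn hk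

omit [CompleteSpace V] in
theorem norm_qq_le (h : SD S) (hP : Pr S P) {φ : ℝ} (h0 : 0 ≤ φ) (h1 : φ ≤ Real.pi) (z : V × V) :
    ‖qq P φ z‖ ≤ 2 * Real.pi * (‖z.1‖ + ‖z.2‖) := by
  have hn : 0 ≤ ‖z.1‖ + ‖z.2‖ := by positivity
  unfold qq
  have h2 : ‖∫ α in φ..Real.pi, Real.sin (α - φ) • (TT P (uu z.1 z.2 α) + uu z.1 z.2 α)‖ ≤
      2 * (‖z.1‖ + ‖z.2‖) * |Real.pi - φ| := by
    refine intervalIntegral.norm_integral_le_of_norm_le_const fun α _ => ?_
    rw [norm_smul, Real.norm_eq_abs]
    have hu : ‖uu z.1 z.2 α‖ ≤ ‖z.1‖ + ‖z.2‖ :=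
      norm_comb_le' (Real.abs_cos_le_one _) (Real.abs_sin_le_one _) _ _
    have h3 : ‖TT P (uu z.1 z.2 α) + uu z.1 z.2 α‖ ≤ 2 * (‖z.1‖ + ‖z.2‖) := by
      refine (norm_add_le _ _).trans ?_
      have := norm_TT_le h hP (uu z.1 z.2 α)
      linarith
    exact (mul_le_of_le_one_left (norm_nonneg _) (Real.abs_sin_le_one _)).trans h3
  have h4 : |Real.pi - φ| ≤ Real.pi := by
    rw [abs_of_nonneg (by linarith)]
    linarith
  calc _ ≤ 2 * (‖z.1‖ + ‖z.2‖) * |Real.pi - φ| := h2
    _ ≤ 2 * (‖z.1‖ + ‖z.2‖) * Real.pi := by gcongr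
    _ = _ := by ring

/-- the first inequality with its deficit -/
theorem point1_def (h : SD S) (hP : Pr S P) {x w : V} {φ : ℝ} (h0 : 0 ≤ φ)
    (h1 : φ ≤ Real.pi / 4)
    (hu : uu x w φ ∈ S) (hu' : uu x (-w) φ ∈ S) (L : V →L[ℝ] ℝ) :
    Real.cos φ * L x + ∫ α in (0 : ℝ)..Real.pi, Real.sin (φ - α) * L (TT P (uu x w α)) =
      L (uu x w φ) - (Real.pi / 2 - φ) * L (vv x w φ) - L (qq P φ (x, w)) := by
  have hpi := Real.pi_pos
  have hcont : Continuous fun α : ℝ => Real.sin (φ - α) * L (TT P (uu x w α)) := by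
    have h2 : Continuous fun α : ℝ => L (TT P (uu x w α)) :=
      L.continuous.comp ((TT_lip h hP).continuous.comp (uu_cont x w))
    have h3 : Continuous fun α : ℝ => Real.sin (φ - α) := by fun_prop
    exact h3.mul h2
  have hint : ∀ a b : ℝ, IntervalIntegrable
      (fun α : ℝ => Real.sin (φ - α) * L (TT P (uu x w α))) volume a b :=
    fun a b => hcont.intervalIntegrable a b
  rw [← intervalIntegral.integral_add_adjacent_intervals (hint 0 φ) (hint φ Real.pi)]
  have e1 : ∫ α in (0 : ℝ)..φ, Real.sin (φ - α) * L (TT P (uu x w α)) =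
      ptG φ (L x) (L w) φ - ptG φ (L x) (L w) 0 := by
    rw [← pt_int]
    apply intervalIntegral.integral_congr
    intro α hα
    rw [Set.uIcc_of_le h0] at hα
    show Real.sin (φ - α) * L (TT P (uu x w α)) = _
    rw [TT_of_mem h hP (pt_arc h h0 h1 hu hu' hα.1 hα.2), uu_eval]
  have e2 : ∫ α in φ..Real.pi, Real.sin (φ - α) * L (TT P (uu x w α)) =
      -(ptG φ (L x) (L w) Real.pi - ptG φ (L x) (L w) φ) - L (qq P φ (x, w)) := by
    have hq : IntervalIntegrable (fun α : ℝ => Real.sin (α - φ) *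
        L (TT P (uu x w α) + uu x w α)) volume φ Real.pi := by
      refine Continuous.intervalIntegrable ?_ _ _
      exact Continuous.mul (by fun_prop) (L.continuous.comp
        (((TT_lip h hP).continuous.comp (uu_cont x w)).add (uu_cont x w)))
    have hp : IntervalIntegrable (fun α : ℝ => -(Real.sin (φ - α) *
        (L x * Real.cos α - L w * Real.sin α))) volume φ Real.pi :=
      (pt_cont φ (L x) (L w)).neg.intervalIntegrable _ _
    rw [← pt_int, ← intervalIntegral.integral_neg, L_qq h hP]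
    show _ = _ - ∫ α in φ..Real.pi, Real.sin (α - φ) * L (TT P (uu x w α) + uu x w α)
    rw [← intervalIntegral.integral_sub hp hq]
    apply intervalIntegral.integral_congr
    intro α _
    have h4 : Real.sin (φ - α) = -Real.sin (α - φ) := by
      rw [← Real.sin_neg]
      congr 1
      ring
    show Real.sin (φ - α) * L (TT P (uu x w α)) =
      -(Real.sin (φ - α) * (L x * Real.cos α - L w * Real.sin α)) -
        Real.sin (α - φ) * L (TT P (uu x w α) + uu x w α)
    rw [map_add, uu_eval L x w α, h4]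
    ring
  have h2 := pt_sum φ (L x) (L w)
  rw [e1, e2, uu_eval, vv_eval]
  linarith

/-- **The pointwise inequality with its deficit.** -/
theorem pointwise_def (h : SD S) (hP : Pr S P) (hT : Test S H DH) {η : ℝ}
    (h0 : Real.pi / 4 ≤ η) (h1 : η ≤ Real.pi / 2) (z : V × V) :
    η * gg' H DH η z + η⁻¹ * (H (LB V η z) * DH (LA V η z) (qq P (Real.pi / 2 - η) z)) ≤
      -NN P H DH η z := by
  have hη : 0 < η := lt_of_lt_of_le (by positivity) h0
  by_cases hA : H (LA V η z) = 0
  · have e1 : DH (LA V η z) = 0 := hT.DH_zero hA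
    have e2 : Dg H DH η z = 0 := by
      unfold Dg
      rw [hA, e1]
      simp
    unfold gg' NN
    rw [e1, hA, e2]
    simp
  by_cases hB : H (LB V η z) = 0
  · have e1 : DH (LB V η z) = 0 := hT.DH_zero hB
    have e2 : Dg H DH η z = 0 := by
      unfold Dg
      rw [hB, e1]
      simp
    unfold gg' NN
    rw [e1, hB, e2]
    simp
  have hAS := hT.mem hA
  have hBS := hT.mem hB
  have hA0 : 0 ≤ H (LA V η z) := hT.nonneg _
  have hB0 : 0 ≤ H (LB V η z) := hT.nonneg _
  have hcos : Real.cos (Real.pi / 2 - η) = Real.sin η := Real.cos_pi_div_two_sub η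
  have hsin : Real.sin (Real.pi / 2 - η) = Real.cos η := Real.sin_pi_div_two_sub η
  have eu : uu z.1 z.2 (Real.pi / 2 - η) = η • LA V η z := by
    rw [LA_apply, smul_smul, mul_inv_cancel₀ hη.ne', one_smul]
    unfold uu
    rw [hcos, hsin]
  have eu' : uu z.1 (-z.2) (Real.pi / 2 - η) = η • LB V η z := by
    rw [LB_apply, smul_smul, mul_inv_cancel₀ hη.ne', one_smul]
    unfold uu
    rw [hcos, hsin, smul_neg, sub_neg_eq_add]
  have ev : vv z.1 z.2 (Real.pi / 2 - η) = Real.cos η • z.1 + Real.sin η • z.2 := by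
    unfold vv
    rw [hcos, hsin]
  have ev' : vv z.1 (-z.2) (Real.pi / 2 - η) = Real.cos η • z.1 - Real.sin η • z.2 := by
    unfold vv
    rw [hcos, hsin, smul_neg, sub_eq_add_neg]
  have hu : uu z.1 z.2 (Real.pi / 2 - η) ∈ S := by
    rw [eu]
    exact h.smul hη.le hAS
  have hu' : uu z.1 (-z.2) (Real.pi / 2 - η) ∈ S := by
    rw [eu']
    exact h.smul hη.le hBS
  have p1 := point1_def h hP (φ := Real.pi / 2 - η) (by linarith) (by linarith) hu hu'
    (DH (LA V η z))
  have p2 := point2 h hP (φ := Real.pi / 2 - η) (by linarith) (by linarith) hu hu'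
    (DH (LB V η z)) (hT.mono _)
  rw [hcos, eu, ev, sub_sub_cancel, map_smul, map_add, map_smul, map_smul, smul_eq_mul,
    smul_eq_mul, smul_eq_mul] at p1
  rw [hcos, eu', ev', sub_sub_cancel, map_smul, map_sub, map_smul, map_smul, smul_eq_mul,
    smul_eq_mul, smul_eq_mul] at p2
  -- the derivative in `η`
  have q1 : η * DH (LA V η z) (dA η z) = Real.cos η * DH (LA V η z) z.1 +
      Real.sin η * DH (LA V η z) z.2 - DH (LA V η z) (LA V η z) := by
    have e : η • dA η z = Real.cos η • z.1 + Real.sin η • z.2 - LA V η z := by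
      unfold dA
      rw [smul_sub, smul_smul, mul_inv_cancel₀ hη.ne', one_smul, smul_smul, LA_apply]
      congr 2
      field_simp
    rw [← smul_eq_mul, ← map_smul, e, map_sub, map_add, map_smul, map_smul, smul_eq_mul,
      smul_eq_mul]
  have q2 : η * DH (LB V η z) (dB η z) = Real.cos η * DH (LB V η z) z.1 -
      Real.sin η * DH (LB V η z) z.2 - DH (LB V η z) (LB V η z) := by
    have e : η • dB η z = Real.cos η • z.1 - Real.sin η • z.2 - LB V η z := by
      unfold dB
      rw [smul_sub, smul_smul, mul_inv_cancel₀ hη.ne', one_smul, smul_smul, LB_apply]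
      congr 2
      field_simp
    rw [← smul_eq_mul, ← map_smul, e, map_sub, map_sub, map_smul, map_smul, smul_eq_mul,
      smul_eq_mul]
  -- the integral
  have hcT : Continuous fun α : ℝ => TT P (uu z.1 z.2 α) :=
    (TT_lip h hP).continuous.comp (cont_uu z)
  have hi1 : IntervalIntegrable (fun α => Real.sin (Real.pi / 2 - η - α) *
      DH (LA V η z) (TT P (uu z.1 z.2 α))) volume 0 Real.pi :=
    (Continuous.mul (by fun_prop) ((DH (LA V η z)).continuous.comp hcT)).intervalIntegrable _ _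
  have hi2 : IntervalIntegrable (fun α => Real.sin (Real.pi / 2 - η + α) *
      DH (LB V η z) (TT P (uu z.1 z.2 α))) volume 0 Real.pi :=
    (Continuous.mul (by fun_prop) ((DH (LB V η z)).continuous.comp hcT)).intervalIntegrable _ _
  have eN : NN P H DH η z = H (LA V η z) * (η⁻¹ * (Real.sin η * DH (LB V η z) z.1)) +
      H (LB V η z) * (η⁻¹ * (Real.sin η * DH (LA V η z) z.1)) -
      ((H (LA V η z) * η⁻¹) * (∫ α in (0 : ℝ)..Real.pi, Real.sin (Real.pi / 2 - η + α) *
        DH (LB V η z) (TT P (uu z.1 z.2 α))) -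
      (H (LB V η z) * η⁻¹) * ∫ α in (0 : ℝ)..Real.pi, Real.sin (Real.pi / 2 - η - α) *
        DH (LA V η z) (TT P (uu z.1 z.2 α))) := by
    unfold NN
    rw [← intervalIntegral.integral_const_mul, ← intervalIntegral.integral_const_mul,
      ← intervalIntegral.integral_sub (hi2.const_mul _) (hi1.const_mul _)]
    congr 1
    · rw [Dg_apply]
      simp
    · refine intervalIntegral.integral_congr fun α _ => ?_
      rw [Dg_apply, map_smul, map_smul, map_smul, map_smul]
      have s1 : Real.sin (Real.pi / 2 - η + α) = Real.cos (η - α) := by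
        rw [← Real.sin_pi_div_two_sub]
        congr 1
        ring
      have s2 : Real.sin (Real.pi / 2 - η - α) = Real.cos (η + α) := by
        rw [← Real.sin_pi_div_two_sub]
        congr 1
        ring
      rw [s1, s2, Real.cos_sub, Real.cos_add]
      simp only [smul_eq_mul]
      ring
  generalize (∫ α in (0 : ℝ)..Real.pi, Real.sin (Real.pi / 2 - η + α) *
        DH (LB V η z) (TT P (uu z.1 z.2 α))) = I2 at *
  generalize (∫ α in (0 : ℝ)..Real.pi, Real.sin (Real.pi / 2 - η - α) *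
        DH (LA V η z) (TT P (uu z.1 z.2 α))) = I1 at *
  have ez : ((z.1, z.2) : V × V) = z := rfl
  rw [ez] at p1
  generalize DH (LA V η z) (qq P (Real.pi / 2 - η) z) = Q at *
  have hi : 0 < η⁻¹ := inv_pos.2 hη
  have r1 : H (LB V η z) * (η * DH (LA V η z) (dA η z)) =
      H (LB V η z) * (-(η⁻¹ * (Real.sin η * DH (LA V η z) z.1 + I1 + Q))) := by
    congr 1
    rw [q1]
    have := congrArg (fun s => η⁻¹ * s) p1
    beta_reduce at this
    have e : η⁻¹ * (η * DH (LA V η z) (LA V η z) - η * (Real.cos η * DH (LA V η z) z.1 +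
        Real.sin η * DH (LA V η z) z.2)) = DH (LA V η z) (LA V η z) -
        (Real.cos η * DH (LA V η z) z.1 + Real.sin η * DH (LA V η z) z.2) := by
      field_simp
    rw [mul_sub η⁻¹ _ Q, e] at this
    linarith
  have r2 : H (LA V η z) * (η * DH (LB V η z) (dB η z)) ≤
      H (LA V η z) * (-(η⁻¹ * (Real.sin η * DH (LB V η z) z.1 - I2))) := by
    refine mul_le_mul_of_nonneg_left ?_ hA0
    rw [q2]
    have := mul_le_mul_of_nonneg_left p2 hi.le
    have e : η⁻¹ * (η * DH (LB V η z) (LB V η z) - η * (Real.cos η * DH (LB V η z) z.1 -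
        Real.sin η * DH (LB V η z) z.2)) = DH (LB V η z) (LB V η z) -
        (Real.cos η * DH (LB V η z) z.1 - Real.sin η * DH (LB V η z) z.2) := by
      field_simp
    rw [e] at this
    linarith
  rw [eN]
  unfold gg'
  have e3 : η * (DH (LA V η z) (dA η z) * H (LB V η z) + H (LA V η z) *
      DH (LB V η z) (dB η z)) = H (LB V η z) * (η * DH (LA V η z) (dA η z)) +
      H (LA V η z) * (η * DH (LB V η z) (dB η z)) := by ring
  rw [e3, r1]
  have r3 := add_le_add_right r2 (H (LB V η z) * (-(η⁻¹ * (Real.sin η * DH (LA V η z) z.1 + I1 + Q))) +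
    η⁻¹ * (H (LB V η z) * Q))
  refine le_trans (le_of_eq ?_) (r3.trans (le_of_eq ?_))
  · ring
  · ring

end

end PCS
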