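import Pool.Agent.PCS.DefA

/-!
# The monotone functional with its deficit (equality case, row T2)
-/

set_option autoImplicit false
set_option linter.unusedSectionVars false

open MeasureTheory ProbabilityTheory Module
open scoped RealInnerProductSpace

namespace PCS

section

variable {V : Type*} [NormedAddCommGroup V] [InnerProductSpace ℝ V] [FiniteDimensional ℝ V]
  [MeasurableSpace V] [BorelSpace V] {S : Set V} {P : V → V} {H : V → ℝ} {DH : V → V →L[ℝ] ℝ}

/-- the density of the deficit -/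
noncomputable def dd (P : V → V) (H : V → ℝ) (DH : V → V →L[ℝ] ℝ) (η : ℝ) (z : V × V) : ℝ :=
  H (LB V η z) * DH (LA V η z) (qq P (Real.pi / 2 - η) z)

theorem cont_dd (h : SD S) (hP : Pr S P) (hT : Test S H DH) (η : ℝ) :
    Continuous (dd P H DH η) := by
  have h1 : Continuous fun z : V × V => H (LB V η z) := hT.cont_H.comp (LB V η).continuous
  have h2 : Continuous fun z : V × V => DH (LA V η z) := hT.cont.comp (LA V η).continuous
  have h3 := cont_qq' h hP (Real.pi / 2 - η)
  exact h1.mul (h2.clm_apply h3)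

theorem dd_nonneg (h : SD S) (hP : Pr S P) (hT : Test S H DH) {η : ℝ} (h0 : 0 ≤ η)
    (h1 : η ≤ Real.pi / 2) (z : V × V) : 0 ≤ dd P H DH η z :=
  mul_nonneg (hT.nonneg _) (hT.mono _ _ (qq_mem h hP (by linarith) (by linarith [Real.pi_pos]) z))

theorem integrable_dd (h : SD S) (hP : Pr S P) (hT : Test S H DH) {η : ℝ} (h0 : 0 ≤ η)
    (h1 : η ≤ Real.pi / 2) :
    Integrable (dd P H DH η) ((stdGaussian V).prod (stdGaussian V)) := by
  obtain ⟨C, hC⟩ := hT.bdd
  have hC0 : 0 ≤ C := (norm_nonneg _).trans (hC 0)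
  refine Integrable.mono' (integrable_nn.const_mul (C * (2 * Real.pi)))
    (cont_dd h hP hT η).aestronglyMeasurable (Filter.Eventually.of_forall fun z => ?_)
  rw [Real.norm_eq_abs, abs_of_nonneg (dd_nonneg h hP hT h0 h1 z)]
  unfold dd
  have h2 : DH (LA V η z) (qq P (Real.pi / 2 - η) z) ≤ C * ‖qq P (Real.pi / 2 - η) z‖ :=
    (le_abs_self _).trans (((DH (LA V η z)).le_opNorm _).trans
      (mul_le_mul_of_nonneg_right (hC _) (norm_nonneg _)))
  have h3 := norm_qq_le h hP (φ := Real.pi / 2 - η) (by linarith) (by linarith [Real.pi_pos]) z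
  have h4 : 0 ≤ DH (LA V η z) (qq P (Real.pi / 2 - η) z) :=
    hT.mono _ _ (qq_mem h hP (by linarith) (by linarith [Real.pi_pos]) z)
  calc H (LB V η z) * DH (LA V η z) (qq P (Real.pi / 2 - η) z)
      ≤ DH (LA V η z) (qq P (Real.pi / 2 - η) z) := mul_le_of_le_one_left h4 (hT.le_one _)
    _ ≤ C * ‖qq P (Real.pi / 2 - η) z‖ := h2
    _ ≤ C * (2 * Real.pi * (‖z.1‖ + ‖z.2‖)) := mul_le_mul_of_nonneg_left h3 hC0
    _ = _ := by ring

/-- the derivative of the functional, with the deficit -/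
theorem deriv_FF_def (h : SD S) (hP : Pr S P) (hT : Test S H DH) {η : ℝ}
    (h0 : Real.pi / 4 ≤ η) (h1 : η ≤ Real.pi / 2) :
    η * ∫ z, gg' H DH η z ∂((stdGaussian V).prod (stdGaussian V)) +
      η⁻¹ * ∫ z, dd P H DH η z ∂((stdGaussian V).prod (stdGaussian V)) ≤
        finrank ℝ V * FF H η := by
  have hpi := Real.pi_gt_three
  have hη : 1 / 2 < η := by linarith
  have hη0 : 0 < η := by linarith
  obtain ⟨C, hC⟩ := hT.bdd
  have hC0 : 0 ≤ C := (norm_nonneg _).trans (hC 0)
  have hib := ibp h hP (g := gg H η) (Dg := Dg H DH η) (hasFDerivAt_gg hT η) (cont_Dg hT η)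
    (C := C * (‖LB V η‖ + ‖LA V η‖) + 1)
    (fun z => (norm_Dg_le hT hC η z).trans (by linarith))
    (fun z => by
      rw [abs_of_nonneg (gg_nonneg hT η z)]
      have h2 := gg_le_one hT η z
      have h3 : 0 ≤ C * (‖LB V η‖ + ‖LA V η‖) := by positivity
      linarith)
  have e1 : ∫ z, gg H η z * (‖z.1‖ ^ 2 - finrank ℝ V - ⟪z.1, TT P z.1⟫)
      ∂((stdGaussian V).prod (stdGaussian V)) = -(finrank ℝ V * FF H η) := by
    unfold FF
    rw [← integral_const_mul, ← integral_neg]
    refine integral_congr_ae (Filter.Eventually.of_forall fun z => ?_)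
    simp only
    by_cases hz : gg H η z = 0
    · rw [hz]
      simp
    · have hA : LA V η z ∈ S := hT.mem (left_ne_zero_of_mul hz)
      have hB : LB V η z ∈ S := hT.mem (right_ne_zero_of_mul hz)
      have hs : 0 < Real.sin η := Real.sin_pos_of_pos_of_lt_pi hη0 (by linarith)
      have hx : z.1 ∈ S := by
        have h3 := h.smul (c := η / (2 * Real.sin η)) (by positivity) (h.add hA hB)
        have h4 : (η / (2 * Real.sin η)) • (LA V η z + LB V η z) = z.1 := by
          rw [LA_apply, LB_apply, ← smul_add, smul_smul]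
          have h5 : Real.sin η • z.1 - Real.cos η • z.2 + (Real.sin η • z.1 + Real.cos η • z.2) =
              (2 * Real.sin η) • z.1 := by
            rw [two_mul, add_smul]
            abel
          rw [h5, smul_smul]
          have h6 : η / (2 * Real.sin η) * η⁻¹ * (2 * Real.sin η) = 1 := by
            field_simp
          rw [h6, one_smul]
        rwa [h4] at h3
      rw [TT_of_mem h hP hx, real_inner_self_eq_norm_sq]
      ring
  have hib' : ∫ z, NN P H DH η z ∂((stdGaussian V).prod (stdGaussian V)) =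
      -(finrank ℝ V * FF H η) := by
    rw [← e1]
    exact hib
  have i1 := (hasDerivAt_FF hT hη).1.const_mul η
  have i2 := (integrable_dd h hP hT hη0.le h1).const_mul η⁻¹
  have h2 : ∫ z, (η * gg' H DH η z + η⁻¹ * dd P H DH η z)
      ∂((stdGaussian V).prod (stdGaussian V)) ≤
      ∫ z, -NN P H DH η z ∂((stdGaussian V).prod (stdGaussian V)) :=
    integral_mono (i1.add i2) (integrable_NN h hP hT η).neg
      fun z => pointwise_def h hP hT h0 h1 z
  rw [integral_add i1 i2, integral_const_mul, integral_const_mul, integral_neg, hib',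
    neg_neg] at h2
  exact h2

/-- the monotone functional, with the deficit -/
theorem key_def (h : SD S) (hP : Pr S P) (hT : Test S H DH) {δ c : ℝ} (hδ : 0 < δ)
    (hδ' : Real.pi / 4 + δ ≤ Real.pi / 2)
    (hc : ∀ η, Real.pi / 4 ≤ η → η ≤ Real.pi / 4 + δ →
      c ≤ ∫ z, dd P H DH η z ∂((stdGaussian V).prod (stdGaussian V))) (hc0 : 0 ≤ c) :
    ∫ x, H ((2 / Real.pi) • x) ^ 2 ∂(stdGaussian V) + c * δ / 4 ≤
      2 ^ (finrank ℝ V) * (∫ x, H ((4 / Real.pi) • x) ∂(stdGaussian V)) ^ 2 := by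
  rw [← FF_end, ← FF_start hT.cont_H]
  have hpi := Real.pi_gt_three
  have hpi4 := Real.pi_lt_four
  set d := finrank ℝ V with hd
  set G' : ℝ → ℝ := fun η => -(d * η ^ (d - 1)) / (η ^ d) ^ 2 * FF H η +
    (η ^ d)⁻¹ * ∫ z, gg' H DH η z ∂((stdGaussian V).prod (stdGaussian V)) with hG'
  have hder : ∀ η ∈ Set.Icc (Real.pi / 4) (Real.pi / 2),
      HasDerivAt (fun s => (s ^ d)⁻¹ * FF H s) (G' η) η := by
    intro η hη
    have hη0 : 0 < η := by linarith [hη.1]
    exact ((hasDerivAt_pow d η).fun_inv (pow_ne_zero _ hη0.ne')).mul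
      (hasDerivAt_FF hT (by linarith [hη.1])).2
  have hle : ∀ η ∈ Set.Icc (Real.pi / 4) (Real.pi / 2),
      G' η ≤ -((η ^ d)⁻¹ * (η⁻¹ * (η⁻¹ *
        ∫ z, dd P H DH η z ∂((stdGaussian V).prod (stdGaussian V))))) := by
    intro η hη'
    have hη0 : 0 < η := by linarith [hη'.1]
    have h1 := deriv_FF_def h hP hT hη'.1 hη'.2
    have hp : 0 < η ^ d := pow_pos hη0 d
    have e : -(d * η ^ (d - 1)) / (η ^ d) ^ 2 * FF H η = -((η ^ d)⁻¹ * η⁻¹ * (d * FF H η)) := by
      rcases Nat.eq_zero_or_pos d with h0 | h0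
      · rw [h0]
        simp
      · have e1 : η ^ d = η ^ (d - 1) * η := by
          rw [← pow_succ, Nat.sub_add_cancel h0]
        rw [e1]
        have : 0 < η ^ (d - 1) := pow_pos hη0 _
        field_simp
    rw [hG']
    simp only
    rw [e]
    generalize (∫ z, gg' H DH η z ∂((stdGaussian V).prod (stdGaussian V))) = I at *
    generalize (∫ z, dd P H DH η z ∂((stdGaussian V).prod (stdGaussian V))) = J at *
    have h2 : I ≤ η⁻¹ * (d * FF H η - η⁻¹ * J) := by
      rw [← div_eq_inv_mul, le_div_iff₀ hη0, mul_comm]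
      linarith
    have h3 := mul_le_mul_of_nonneg_left h2 (inv_pos.2 hp).le
    calc _ ≤ -((η ^ d)⁻¹ * η⁻¹ * (d * FF H η)) + (η ^ d)⁻¹ * (η⁻¹ * (d * FF H η - η⁻¹ * J)) := by
          gcongr
      _ = _ := by ring
  have hnn : ∀ η ∈ Set.Icc (Real.pi / 4) (Real.pi / 2),
      0 ≤ ∫ z, dd P H DH η z ∂((stdGaussian V).prod (stdGaussian V)) := fun η hη =>
    integral_nonneg fun z => dd_nonneg h hP hT (by linarith [hη.1]) hη.2 z
  -- the functional is antitone
  have hanti : AntitoneOn (fun s => (s ^ d)⁻¹ * FF H s)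
      (Set.Icc (Real.pi / 4) (Real.pi / 2)) := by
    refine antitoneOn_of_deriv_nonpos (convex_Icc _ _) ?_ ?_ ?_
    · exact fun η hη => (hder η hη).continuousAt.continuousWithinAt
    · intro η hη
      rw [interior_Icc] at hη
      exact (hder η ⟨hη.1.le, hη.2.le⟩).differentiableAt.differentiableWithinAt
    · intro η hη
      rw [interior_Icc] at hη
      have hη' : η ∈ Set.Icc (Real.pi / 4) (Real.pi / 2) := ⟨hη.1.le, hη.2.le⟩
      rw [(hder η hη').deriv]
      have hη0 : 0 < η := by linarith [hη.1]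
      refine (hle η hη').trans ?_
      have := hnn η hη'
      have : 0 ≤ (η ^ d)⁻¹ * (η⁻¹ * (η⁻¹ *
        ∫ z, dd P H DH η z ∂((stdGaussian V).prod (stdGaussian V)))) := by positivity
      linarith
  -- and strictly decreasing at the beginning
  set κ : ℝ := ((Real.pi / 2) ^ d)⁻¹ * (1 / 4) * c with hκ
  have hanti2 : AntitoneOn (fun s => (s ^ d)⁻¹ * FF H s + κ * s)
      (Set.Icc (Real.pi / 4) (Real.pi / 4 + δ)) := by
    have hsub : ∀ η, η ∈ Set.Icc (Real.pi / 4) (Real.pi / 4 + δ) →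
        η ∈ Set.Icc (Real.pi / 4) (Real.pi / 2) := fun η hη => ⟨hη.1, hη.2.trans hδ'⟩
    have hder2 : ∀ η ∈ Set.Icc (Real.pi / 4) (Real.pi / 4 + δ),
        HasDerivAt (fun s => (s ^ d)⁻¹ * FF H s + κ * s) (G' η + κ * 1) η := fun η hη =>
      (hder η (hsub η hη)).add ((hasDerivAt_id η).const_mul κ)
    refine antitoneOn_of_deriv_nonpos (convex_Icc _ _) ?_ ?_ ?_
    · exact fun η hη => (hder2 η hη).continuousAt.continuousWithinAt
    · intro η hη
      rw [interior_Icc] at hη
      exact (hder2 η ⟨hη.1.le, hη.2.le⟩).differentiableAt.differentiableWithinAt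
    · intro η hη
      rw [interior_Icc] at hη
      have hη1 : η ∈ Set.Icc (Real.pi / 4) (Real.pi / 4 + δ) := ⟨hη.1.le, hη.2.le⟩
      have hη' := hsub η hη1
      rw [(hder2 η hη1).deriv]
      have hη0 : 0 < η := by linarith [hη.1]
      have h1 := hle η hη'
      have h2 := hc η hη1.1 hη1.2
      generalize (∫ z, dd P H DH η z ∂((stdGaussian V).prod (stdGaussian V))) = J at *
      have hJ : 0 ≤ J := hc0.trans h2
      have a1 : ((Real.pi / 2) ^ d)⁻¹ ≤ (η ^ d)⁻¹ := by
        have : η ^ d ≤ (Real.pi / 2) ^ d := pow_le_pow_left₀ hη0.le hη'.2 d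
        have hp : 0 < η ^ d := pow_pos hη0 d
        gcongr
      have a2 : (1 : ℝ) / 2 ≤ η⁻¹ := by
        rw [one_div, inv_le_inv₀ (by norm_num) hη0]
        linarith [hη'.2]
      have a3 : (1 : ℝ) / 4 * c ≤ η⁻¹ * (η⁻¹ * J) := by
        have b1 : (1 : ℝ) / 2 * c ≤ η⁻¹ * J := by gcongr
        have b2 : (1 : ℝ) / 2 * (1 / 2 * c) ≤ η⁻¹ * (η⁻¹ * J) := by gcongr
        linarith
      have a4 : κ ≤ (η ^ d)⁻¹ * (η⁻¹ * (η⁻¹ * J)) := by
        rw [hκ, mul_assoc]
        have hp : 0 < (Real.pi / 2) ^ d := by positivity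
        have hp' : 0 < η ^ d := pow_pos hη0 d
        exact mul_le_mul a1 a3 (by positivity) (by positivity)
      linarith
  have h1 := hanti2 (Set.left_mem_Icc.2 (by linarith)) (Set.right_mem_Icc.2 (by linarith))
    (show Real.pi / 4 ≤ Real.pi / 4 + δ by linarith)
  have h2 := hanti (show Real.pi / 4 + δ ∈ Set.Icc (Real.pi / 4) (Real.pi / 2) from
    ⟨by linarith, hδ'⟩) (Set.right_mem_Icc.2 (by linarith)) hδ'
  simp only at h1 h2
  have hp : 0 < (Real.pi / 2) ^ d := by positivity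
  have h3 : ((Real.pi / 2) ^ d)⁻¹ * FF H (Real.pi / 2) + κ * δ ≤
      ((Real.pi / 4) ^ d)⁻¹ * FF H (Real.pi / 4) := by
    have : κ * (Real.pi / 4 + δ) = κ * (Real.pi / 4) + κ * δ := by ring
    linarith
  have h4 := mul_le_mul_of_nonneg_left h3 hp.le
  have e5 : (Real.pi / 2) ^ d * κ * δ = c * δ / 4 := by
    rw [hκ]
    field_simp
  have e6 : (Real.pi / 2) ^ d * ((Real.pi / 4) ^ d)⁻¹ = 2 ^ d := by
    rw [← div_eq_mul_inv, ← div_pow]
    congr 1
    field_simp
    norm_num
  calc FF H (Real.pi / 2) + c * δ / 4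
      = (Real.pi / 2) ^ d * (((Real.pi / 2) ^ d)⁻¹ * FF H (Real.pi / 2) + κ * δ) := by
        rw [← e5, mul_add, mul_inv_cancel_left₀ hp.ne', mul_assoc]
    _ ≤ _ := h4
    _ = _ := by rw [← mul_assoc, e6]

end

end PCS
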