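import Pool.Agent.PCS.Main

/-!
# Self-dual cones whose smooth boundary points split: orthants
-/

set_option autoImplicit false

open MeasureTheory ProbabilityTheory Module Metric
open scoped RealInnerProductSpace

namespace PCS

section
variable {V : Type*} [NormedAddCommGroup V] [InnerProductSpace ℝ V] {S : Set V} {P : V → V}

/-- the unit vector `n` splits off the cone `S` -/
def Spl (S : Set V) (n : V) : Prop := ‖n‖ = 1 ∧ n ∈ S ∧ ∀ x ∈ S, x - ⟪n, x⟫ • n ∈ S

theorem spl_of_proj (h : SD S) (hP : Pr S P) {n : V} (hn : ‖n‖ = 1) (hnS : n ∈ S)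
    (H : ∀ x, ⟪n, x⟫ < 0 → ⟪n, P x⟫ = 0) : Spl S n := by
  refine ⟨hn, hnS, fun x hx => ?_⟩
  have ht : 0 ≤ ⟪n, x⟫ := h.inner hnS hx
  set t : ℝ := ⟪n, x⟫ with htd
  have hnn : ⟪n, n⟫ = 1 := by rw [real_inner_self_eq_norm_sq, hn]; norm_num
  rw [← h.closed.closure_eq, Metric.mem_closure_iff]
  intro δ hδ
  set e : ℝ := δ ^ 2 / (2 * (t + 1)) with hed
  have he : 0 < e := by positivity
  have hte : t * e < δ ^ 2 := by
    rw [hed, mul_div_assoc', div_lt_iff₀ (by positivity)]
    nlinarith [sq_nonneg δ, mul_pos hδ hδ]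
  set y : V := x - (t + e) • n with hy
  have hny : ⟪n, y⟫ = -e := by
    rw [hy, inner_sub_right, real_inner_smul_right, hnn, ← htd]
    ring
  have h1 : ⟪n, P y⟫ = 0 := H y (by rw [hny]; linarith)
  set q : V := P y - y with hq
  have hqS : q ∈ S := hP.mem' y
  have hpq : ⟪P y, q⟫ = 0 := hP.orth y
  have hnq : ⟪n, q⟫ = e := by rw [hq, inner_sub_right, h1, hny]; ring
  have hx' : x = P y - q + (t + e) • n := by rw [hq, hy]; abel
  have h2 : 0 ≤ ⟪x, q⟫ := h.inner hx hqS
  rw [hx', inner_add_left, inner_sub_left, hpq, real_inner_smul_left, hnq,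
    real_inner_self_eq_norm_sq] at h2
  refine ⟨P y, hP.mem y, ?_⟩
  have h3 : x - t • n - P y = e • n - q := by
    rw [hx']
    module
  rw [dist_eq_norm, h3]
  have h4 : ‖e • n - q‖ ^ 2 < δ ^ 2 := by
    rw [norm_sub_sq_real, norm_smul, real_inner_smul_left, hnq, hn, Real.norm_eq_abs, mul_one, sq_abs]
    nlinarith
  exact lt_of_pow_lt_pow_left₀ 2 hδ.le h4

theorem Spl.inner_eq_zero (h : SD S) {n m : V} (hn : Spl S n) (hm : Spl S m) (hnm : n ≠ m) :
    ⟪n, m⟫ = 0 := by
  obtain ⟨n1, nS, ns⟩ := hn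
  obtain ⟨m1, mS, ms⟩ := hm
  have hnn : ⟪n, n⟫ = 1 := by rw [real_inner_self_eq_norm_sq, n1]; norm_num
  have hmm : ⟪m, m⟫ = 1 := by rw [real_inner_self_eq_norm_sq, m1]; norm_num
  have ha : 0 ≤ ⟪n, m⟫ := h.inner nS mS
  have h1 := ms _ (ns m mS)
  have h2 : ⟪m, m - ⟪n, m⟫ • n⟫ = 1 - ⟪n, m⟫ ^ 2 := by
    rw [inner_sub_right, real_inner_smul_right, hmm, real_inner_comm]
    ring
  rw [h2] at h1
  have h3 := h.inner nS h1
  rw [inner_sub_right, inner_sub_right, real_inner_smul_right, real_inner_smul_right, hnn] at h3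
  by_contra h0
  have h0' : 0 < ⟪n, m⟫ := lt_of_le_of_ne ha (Ne.symm h0)
  have h4 : ⟪n, m⟫ = 1 := by
    have h5 : ⟪n, m⟫ ≤ 1 := by
      have := real_inner_le_norm n m
      rwa [n1, m1, one_mul] at this
    nlinarith [mul_pos h0' h0']
  exact hnm ((inner_eq_one_iff_of_norm_eq_one n1 m1).1 h4)

theorem spl_finset (h : SD S) (T : Finset V) (hT : ∀ n ∈ T, Spl S n) {x : V} (hx : x ∈ S) :
    x - ∑ n ∈ T, ⟪n, x⟫ • n ∈ S := by
  classical
  induction T using Finset.induction_on with
  | empty => simpa using hx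
  | insert m T hm ih =>
    have h1 := ih fun n hn => hT n (Finset.mem_insert_of_mem hn)
    have hmS := hT m (Finset.mem_insert_self m T)
    have h2 := hmS.2.2 _ h1
    have h3 : ⟪m, x - ∑ n ∈ T, ⟪n, x⟫ • n⟫ = ⟪m, x⟫ := by
      rw [inner_sub_right, inner_sum]
      have : ∑ n ∈ T, ⟪m, ⟪n, x⟫ • n⟫ = 0 := by
        refine Finset.sum_eq_zero fun n hn => ?_
        rw [real_inner_smul_right, hmS.inner_eq_zero h (hT n (Finset.mem_insert_of_mem hn))
          (by rintro rfl; exact hm hn), mul_zero]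
      rw [this, sub_zero]
    rw [h3] at h2
    rw [Finset.sum_insert hm]
    have h4 : x - (⟪m, x⟫ • m + ∑ n ∈ T, ⟪n, x⟫ • n) = x - ∑ n ∈ T, ⟪n, x⟫ • n - ⟪m, x⟫ • m := by
      abel
    rw [h4]
    exact h2

/-- the hypothesis on touching balls -/
def Touch (S : Set V) (P : V → V) : Prop := ∀ (c u : V) (r : ℝ), 0 < r → ball c r ⊆ S →
  u ∈ frontier S → dist u c = r → ∀ v ∈ interior S, ∀ l : ℝ, 0 < l → ⟪c - u, P (l • u - v)⟫ = 0

/-- a cone contains the cone over a ball -/
lemma ball_smul (h : SD S) {c : V} {r : ℝ} (hb : ball c r ⊆ S) {l : ℝ} (hl : 0 < l) {y : V}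
    (hy : y ∈ ball c r) : l • y ∈ interior S := by
  rw [mem_interior]
  refine ⟨ball (l • c) (l * r), ?_, isOpen_ball, ?_⟩
  · intro z hz
    have h1 : l⁻¹ • z ∈ ball c r := by
      rw [mem_ball_iff_norm] at hz ⊢
      have h2 : l⁻¹ • z - c = l⁻¹ • (z - l • c) := by
        rw [smul_sub, smul_smul, inv_mul_cancel₀ hl.ne', one_smul]
      rw [h2, norm_smul, norm_inv, Real.norm_eq_abs, abs_of_pos hl, inv_mul_lt_iff₀ hl]
      exact hz
    have h3 := h.smul hl.le (hb h1)
    rwa [smul_smul, mul_inv_cancel₀ hl.ne', one_smul] at h3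
  · rw [mem_ball_iff_norm] at hy ⊢
    rw [← smul_sub, norm_smul, Real.norm_eq_abs, abs_of_pos hl]
    exact mul_lt_mul_of_pos_left hy hl

/-- points near a touching point in the direction of the centre are in the ball -/
lemma near {c u y : V} {r : ℝ} (hr : 0 < r) (hd : dist u c = r) (hy : 0 < ⟪c - u, y⟫) :
    ∃ e : ℝ, 0 < e ∧ u + e • y ∈ ball c r := by
  refine ⟨⟪c - u, y⟫ / (‖y‖ ^ 2 + 1), by positivity, ?_⟩
  set e : ℝ := ⟪c - u, y⟫ / (‖y‖ ^ 2 + 1) with he
  have he0 : 0 < e := by positivity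
  have he1 : e * (‖y‖ ^ 2 + 1) = ⟪c - u, y⟫ := by rw [he]; field_simp
  rw [mem_ball_iff_norm]
  have h1 : u + e • y - c = e • y - (c - u) := by abel
  have h2 : ‖c - u‖ = r := by rw [← dist_eq_norm, dist_comm, hd]
  have h3 : ‖e • y - (c - u)‖ ^ 2 < r ^ 2 := by
    rw [norm_sub_sq_real, norm_smul, real_inner_smul_left, h2, real_inner_comm, mul_pow,
      Real.norm_eq_abs, sq_abs, ← he1]
    nlinarith [mul_pos he0 he0, sq_nonneg ‖y‖]
  rw [h1]
  exact lt_of_pow_lt_pow_left₀ 2 hr.le h3

theorem touch_spl (h : SD S) (hP : Pr S P) (H : Touch S P) {c u : V} {r : ℝ} (hr : 0 < r)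
    (hb : ball c r ⊆ S) (hu : u ∈ frontier S) (hd : dist u c = r) :
    Spl S (r⁻¹ • (c - u)) ∧ ⟪r⁻¹ • (c - u), c⟫ = r := by
  have huS : u ∈ S := h.closed.frontier_subset hu
  have hui : u ∉ interior S := hu.2
  have hnorm : ‖c - u‖ = r := by rw [← dist_eq_norm, dist_comm, hd]
  have hn : ‖r⁻¹ • (c - u)‖ = 1 := by
    rw [norm_smul, norm_inv, Real.norm_eq_abs, abs_of_pos hr, hnorm, inv_mul_cancel₀ hr.ne']
  -- the normal is in the cone
  have hnS' : c - u ∈ S := by
    rw [h]
    intro x hx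
    by_contra hneg
    push Not at hneg
    obtain ⟨e, he, hm⟩ := near (y := -x) hr hd (by
      rw [inner_neg_right, real_inner_comm]; linarith)
    apply hui
    rw [mem_interior]
    refine ⟨ball (c + e • x) r, ?_, isOpen_ball, ?_⟩
    · intro z hz
      have h1 : z - e • x ∈ ball c r := by
        rw [mem_ball_iff_norm] at hz ⊢
        rwa [sub_sub, add_comm (e • x) c]
      have h2 := h.add (hb h1) (h.smul he.le hx)
      rwa [sub_add_cancel] at h2
    · rw [mem_ball_iff_norm] at hm ⊢
      have h3 : u - (c + e • x) = u + e • -x - c := by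
        rw [smul_neg]; abel
      rwa [h3]
  have hnS : r⁻¹ • (c - u) ∈ S := h.smul (inv_nonneg.2 hr.le) hnS'
  -- the normal is orthogonal to the touching point
  have hort : ⟪c - u, u⟫ = 0 := by
    apply le_antisymm _ (h.inner hnS' huS)
    by_contra hpos
    push Not at hpos
    obtain ⟨e, he, hm⟩ := near (y := u) hr hd hpos
    apply hui
    have h1 := ball_smul h hb (l := (1 + e)⁻¹) (by positivity) hm
    have h2 : (1 + e)⁻¹ • (u + e • u) = u := by
      have : u + e • u = (1 + e) • u := by rw [add_smul, one_smul]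
      rw [this, smul_smul, inv_mul_cancel₀ (by positivity), one_smul]
    rwa [h2] at h1
  constructor
  · refine spl_of_proj h hP hn hnS fun x hx => ?_
    rw [real_inner_smul_left] at hx ⊢
    have hx' : 0 < ⟪c - u, -x⟫ := by
      rw [inner_neg_right]
      have := (mul_neg_iff.1 hx)
      rcases this with ⟨_, h2⟩ | ⟨h1, _⟩
      · linarith
      · exact absurd h1 (not_lt.2 (inv_nonneg.2 hr.le))
    obtain ⟨e, he, hm⟩ := near (y := -x) hr hd hx'
    have hv := ball_smul h hb (l := e⁻¹) (by positivity) hm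
    have h3 := H c u r hr hb hu hd _ hv e⁻¹ (by positivity)
    have h4 : e⁻¹ • u - e⁻¹ • (u + e • -x) = x := by
      rw [smul_add, smul_smul, inv_mul_cancel₀ he.ne', one_smul]
      abel
    rw [h4] at h3
    rw [h3, mul_zero]
  · have h5 : ⟪c - u, c⟫ = r ^ 2 := by
      have : ⟪c - u, c - u⟫ = r ^ 2 := by rw [real_inner_self_eq_norm_sq, hnorm]
      rw [inner_sub_right, hort, sub_zero] at this
      exact this
    rw [real_inner_smul_left, h5]
    field_simp

lemma inner_add_sub (a b : V) : ⟪a + b, a - b⟫ = ‖a‖ ^ 2 - ‖b‖ ^ 2 := by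
  rw [inner_add_left, inner_sub_right, inner_sub_right, real_inner_self_eq_norm_sq,
    real_inner_self_eq_norm_sq, real_inner_comm b a]
  ring

/-- every interior point has a touching ball -/
theorem exists_spl [FiniteDimensional ℝ V] [Nontrivial V] (h : SD S) (hP : Pr S P) (H : Touch S P)
    {c : V} (hc : c ∈ interior S) : ∃ n : V, Spl S n ∧ 0 < ⟪n, c⟫ ∧ ball c ⟪n, c⟫ ⊆ S := by
  have hcS : c ∈ S := interior_subset hc
  have hne : (frontier S).Nonempty := by
    rw [nonempty_frontier_iff]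
    refine ⟨⟨c, hcS⟩, fun hu => ?_⟩
    obtain ⟨w, hw⟩ := exists_ne (0 : V)
    have h1 := h.inner (x := w) (y := -w) (hu ▸ Set.mem_univ _) (hu ▸ Set.mem_univ _)
    rw [inner_neg_right, real_inner_self_eq_norm_sq] at h1
    have h2 : 0 < ‖w‖ := norm_pos_iff.2 hw
    nlinarith
  obtain ⟨u, hu, hd⟩ := isClosed_frontier.exists_infDist_eq_dist hne c
  have hr : 0 < dist u c := by
    rw [dist_pos]
    rintro rfl
    exact hu.2 hc
  have hb : ball c (dist u c) ⊆ S := by
    intro y hy
    by_contra hyS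
    have hpre : IsPreconnected (ball c (dist u c)) := (convex_ball c (dist u c)).isPreconnected
    have h1 : (ball c (dist u c) ∩ frontier S).Nonempty := by
      by_contra hcon
      rw [Set.not_nonempty_iff_eq_empty] at hcon
      have h2 : ball c (dist u c) ⊆ interior S ∪ Sᶜ := by
        intro z hz
        by_cases hzS : z ∈ S
        · left
          by_contra hzi
          have : z ∈ ball c (dist u c) ∩ frontier S := ⟨hz, by
            rw [frontier, h.closed.closure_eq]; exact ⟨hzS, hzi⟩⟩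
          rw [hcon] at this
          exact this
        · right
          exact hzS
      have h3 := hpre (interior S) Sᶜ isOpen_interior h.closed.isOpen_compl h2
        ⟨c, mem_ball_self hr, hc⟩ ⟨y, hy, hyS⟩
      obtain ⟨z, -, hz1, hz2⟩ := h3
      exact hz2 (interior_subset hz1)
    obtain ⟨z, hz, hzf⟩ := h1
    have h4 : infDist c (frontier S) ≤ dist c z := infDist_le_dist_of_mem hzf
    rw [hd, dist_comm c u, dist_comm c z] at h4
    exact absurd hz (not_lt.2 h4)
  obtain ⟨h5, h6⟩ := touch_spl h hP H hr hb hu rfl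
  refine ⟨_, h5, ?_, ?_⟩
  · rw [h6]; exact hr
  · rw [h6]; exact hb

/-- a self-dual cone whose touching balls split it is an orthant -/
theorem orthant_of_touch [FiniteDimensional ℝ V] [MeasurableSpace V] [BorelSpace V] (h : SD S)
    (hP : Pr S P) (H : Touch S P) :
    ∃ b : OrthonormalBasis (Fin (finrank ℝ V)) ℝ V, S = {x | ∀ i, 0 ≤ ⟪b i, x⟫} := by
  classical
  set N : Set V := {n | Spl S n} with hN
  have hon : Orthonormal ℝ ((↑) : N → V) := by
    refine ⟨fun n => n.2.1, fun n m hnm => ?_⟩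
    exact n.2.inner_eq_zero h m.2 fun e => hnm (Subtype.ext e)
  have hfin : N.Finite := by
    have := hon.linearIndependent.setFinite
    exact this
  have hFt : Fintype N := hfin.fintype
  have hperp : (Submodule.span ℝ (Set.range ((↑) : N → V)))ᗮ = ⊥ := by
    rw [Submodule.eq_bot_iff]
    intro w hw
    by_contra hw0
    have hnt : Nontrivial V := ⟨w, 0, hw0⟩
    obtain ⟨c0, hc0⟩ : (interior S).Nonempty := by
      by_contra hcon
      rw [Set.not_nonempty_iff_eq_empty] at hcon
      have h1 := h.std_interior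
      rw [hcon, measure_empty] at h1
      have h2 := h.std_pos
      rw [Measure.real, nonpos_iff_eq_zero.1 h1] at h2
      simp at h2
    set T : Finset V := hfin.toFinset with hT
    have hTs : ∀ n ∈ T, Spl S n := fun n hn => (hfin.mem_toFinset.1 hn)
    have hwn : ∀ n ∈ T, ⟪n, w⟫ = 0 := fun n hn =>
      (Submodule.mem_orthogonal _ _).1 hw n (Submodule.subset_span ⟨⟨n, hTs n hn⟩, rfl⟩)
    set c1 : V := c0 - ∑ n ∈ T, ⟪n, c0⟫ • n with hc1
    set R : ℝ := 2 * ‖c1‖ + 1 with hR
    have hR0 : 0 < R := by positivity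
    set c : V := c0 + R • ∑ n ∈ T, n with hc
    have hsum : R • ∑ n ∈ T, n ∈ S := by
      refine h.smul hR0.le ?_
      have : ∀ U : Finset V, U ⊆ T → ∑ n ∈ U, n ∈ S := by
        intro U
        induction U using Finset.induction_on with
        | empty => intro _; simpa using h.zero
        | insert m U hm ih =>
          intro hU
          rw [Finset.sum_insert hm]
          exact h.add (hTs m (hU (Finset.mem_insert_self _ _))).2.1
            (ih fun x hx => hU (Finset.mem_insert_of_mem hx))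
      exact this T (Finset.Subset.refl _)
    have hcin : c ∈ interior S := by
      obtain ⟨e, he, hball⟩ := Metric.mem_nhds_iff.1 (mem_interior_iff_mem_nhds.1 hc0)
      rw [mem_interior]
      refine ⟨ball c e, fun z hz => ?_, isOpen_ball, mem_ball_self he⟩
      have h3 : z - R • ∑ n ∈ T, n ∈ ball c0 e := by
        rw [mem_ball_iff_norm] at hz ⊢
        have : z - R • ∑ n ∈ T, n - c0 = z - c := by rw [hc]; abel
        rwa [this]
      have h4 := h.add (hball h3) hsum
      rwa [sub_add_cancel] at h4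
    obtain ⟨m, hm, hmc, hball⟩ := exists_spl h hP H hcin
    have hmT : m ∈ T := hfin.mem_toFinset.2 hm
    have horth : ∀ n ∈ T, ⟪n, ∑ k ∈ T, k⟫ = 1 := by
      intro n hn
      rw [inner_sum, Finset.sum_eq_single n]
      · rw [real_inner_self_eq_norm_sq, (hTs n hn).1]; norm_num
      · intro k hk hkn
        exact (hTs n hn).inner_eq_zero h (hTs k hk) (Ne.symm hkn)
      · intro h; exact absurd hn h
    have hRc : R ≤ ⟪m, c⟫ := by
      rw [hc, inner_add_right, real_inner_smul_right, horth m hmT, mul_one]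
      have := h.inner hm.2.1 (interior_subset hc0)
      linarith
    have hwpos : 0 < ‖w‖ := norm_pos_iff.2 hw0
    -- the two points
    have key : ∀ s : ℝ, |s| = 1 → c1 + (s * (R / (2 * ‖w‖))) • w ∈ S := by
      intro s hs
      have h5 : c + (s * (R / (2 * ‖w‖))) • w ∈ S := by
        apply hball
        rw [mem_ball_iff_norm, add_sub_cancel_left, norm_smul, Real.norm_eq_abs, abs_mul, hs, one_mul,
          abs_of_pos (by positivity)]
        have : R / (2 * ‖w‖) * ‖w‖ = R / 2 := by field_simp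
        rw [this]
        linarith
      have h6 := spl_finset h T hTs h5
      have h7 : c + (s * (R / (2 * ‖w‖))) • w - ∑ n ∈ T, ⟪n, c + (s * (R / (2 * ‖w‖))) • w⟫ • n =
          c1 + (s * (R / (2 * ‖w‖))) • w := by
        have h8 : ∑ n ∈ T, ⟪n, c + (s * (R / (2 * ‖w‖))) • w⟫ • n =
            ∑ n ∈ T, ⟪n, c0⟫ • n + R • ∑ n ∈ T, n := by
          rw [Finset.smul_sum, ← Finset.sum_add_distrib]
          refine Finset.sum_congr rfl fun n hn => ?_
          rw [inner_add_right, real_inner_smul_right, hwn n hn, mul_zero, add_zero, hc,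
            inner_add_right, real_inner_smul_right, horth n hn, mul_one, add_smul]
        rw [h8, hc, hc1]
        abel
      rwa [h7] at h6
    have k1 := key 1 (by norm_num)
    have k2 := key (-1) (by norm_num)
    have k3 := h.inner k1 k2
    rw [one_mul, neg_one_mul, neg_smul, ← sub_eq_add_neg] at k3
    have k4 : ⟪c1 + (R / (2 * ‖w‖)) • w, c1 - (R / (2 * ‖w‖)) • w⟫ =
        ‖c1‖ ^ 2 - (R / 2) ^ 2 := by
      rw [inner_add_sub, norm_smul, Real.norm_eq_abs, abs_of_pos (by positivity)]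
      have : R / (2 * ‖w‖) * ‖w‖ = R / 2 := by field_simp
      rw [this]
    rw [k4] at k3
    have : ‖c1‖ < R / 2 := by rw [hR]; linarith
    nlinarith [norm_nonneg c1]
  set b0 : OrthonormalBasis N ℝ V := OrthonormalBasis.mkOfOrthogonalEqBot hon hperp with hb0
  have hcard : Fintype.card N = finrank ℝ V := (finrank_eq_card_basis b0.toBasis).symm
  set e : N ≃ Fin (finrank ℝ V) := Fintype.equivFinOfCardEq hcard with he
  refine ⟨b0.reindex e, ?_⟩
  have hbS : ∀ n : N, b0 n = n := fun n => by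
    rw [hb0, OrthonormalBasis.coe_of_orthogonal_eq_bot_mk]
  ext x
  constructor
  · intro hx i
    rw [OrthonormalBasis.reindex_apply, hbS]
    exact h.inner (e.symm i).2.2.1 hx
  · intro hx
    have h1 : x = ∑ n : N, ⟪b0 n, x⟫ • b0 n := (b0.sum_repr' x).symm
    rw [h1]
    have h2 : ∀ n : N, 0 ≤ ⟪b0 n, x⟫ := by
      intro n
      have := hx (e n)
      rwa [OrthonormalBasis.reindex_apply, Equiv.symm_apply_apply] at this
    have h3 : ∀ U : Finset N, ∑ n ∈ U, ⟪b0 n, x⟫ • b0 n ∈ S := by
      intro U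
      induction U using Finset.induction_on with
      | empty => simpa using h.zero
      | insert m U hm ih =>
        rw [Finset.sum_insert hm]
        refine h.add (h.smul (h2 m) ?_) ih
        rw [hbS]
        exact m.2.2.1
    exact h3 _

end

end PCS
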