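import Pool.Agent.PCS.DefB
import Pool.Agent.PCS.Rig

/-!
# A non-splitting touching ball gives an interior deficit (equality case, row T3a)
-/

set_option autoImplicit false
set_option linter.unusedSectionVars false

open MeasureTheory ProbabilityTheory Module Metric
open scoped RealInnerProductSpace

namespace PCS

section
variable {V : Type*} [NormedAddCommGroup V] [InnerProductSpace ℝ V]
variable {S : Set V} {P : V → V}

theorem P_smul (h : SD S) (hP : Pr S P) {s : ℝ} (hs : 0 ≤ s) (u : V) : P (s • u) = s • P u := by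
  refine hP.unique h (h.smul hs (hP.mem u)) (h.smul hs (hP.mem' u)) ?_ ?_
  · rw [← smul_sub]
    congr 1
    abel
  · rw [real_inner_smul_left, real_inner_smul_right, hP.orth, mul_zero, mul_zero]

/-- boundary points of a self-dual cone have normals in the cone -/
theorem exists_normal [CompleteSpace V] (h : SD S) (hne : (interior S).Nonempty) {q : V}
    (hq : q ∈ S) (hqi : q ∉ interior S) : ∃ n ∈ S, n ≠ 0 ∧ ⟪n, q⟫ = 0 := by
  obtain ⟨f, hf⟩ := geometric_hahn_banach_open_point h.convex.interior isOpen_interior hqi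
  obtain ⟨e, he⟩ := hne
  have hcl : ∀ x ∈ S, f x ≤ f q := by
    intro x hx
    have h1 : S ⊆ closure (interior S) := by
      rw [h.convex.closure_interior_eq_closure_of_nonempty_interior ⟨e, he⟩]
      exact subset_closure
    have h2 : closure (interior S) ⊆ {x | f x ≤ f q} :=
      closure_minimal (fun y hy => (hf y hy).le) (isClosed_le f.continuous continuous_const)
    exact h2 (h1 hx)
  have hq0 : f q = 0 := by
    have h1 := hcl 0 h.zero
    have h2 := hcl ((2 : ℝ) • q) (h.smul (by norm_num) hq)
    rw [map_zero] at h1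
    rw [map_smul, smul_eq_mul] at h2
    linarith
  refine ⟨-(InnerProductSpace.toDual ℝ V).symm f, ?_, ?_, ?_⟩
  · rw [h]
    intro x hx
    rw [inner_neg_right, real_inner_comm, InnerProductSpace.toDual_symm_apply]
    have := hcl x hx
    linarith
  · intro h0
    have h1 := hf e he
    have h2 : ⟪-(InnerProductSpace.toDual ℝ V).symm f, e⟫ = 0 := by rw [h0, inner_zero_left]
    rw [inner_neg_left, InnerProductSpace.toDual_symm_apply] at h2
    linarith
  · rw [inner_neg_left, InnerProductSpace.toDual_symm_apply, hq0, neg_zero]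

/-- if the touching ball does not split then the dropped term is in the interior -/
theorem qq_interior [CompleteSpace V] (h : SD S) (hP : Pr S P) {c u : V} {r : ℝ} (hr : 0 < r)
    (hb : ball c r ⊆ S) (hu : u ∈ S) (hd : dist u c = r) {v : V} {l : ℝ} (hl : 0 < l)
    (hne : ⟪c - u, P (l • u - v)⟫ ≠ 0) : qq P (Real.pi / 4) (u + v, v - u) ∈ interior S := by
  have hpi := Real.pi_pos
  by_contra hcon
  have hint : (interior S).Nonempty :=
    ⟨c, mem_interior.2 ⟨ball c r, hb, isOpen_ball, mem_ball_self hr⟩⟩
  obtain ⟨n, hnS, hn0, hnq⟩ := exists_normal h hint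
    (qq_mem h hP (by positivity) (by linarith) _) hcon
  set g : ℝ → ℝ := fun α => ⟪n, TT P (uu (u + v) (v - u) α) + uu (u + v) (v - u) α⟫ with hg
  have hgc : Continuous g := by
    have h1 := (continuous_TT h hP).comp (uu_cont (u + v) (v - u))
    exact continuous_const.inner (h1.add (uu_cont _ _))
  have hg0 : ∀ α, 0 ≤ g α := fun α => h.inner hnS (TT_add_mem h hP _)
  have hI : ∫ α in (Real.pi / 4)..Real.pi, Real.sin (α - Real.pi / 4) * g α = 0 := by
    have h1 := L_qq h hP (Real.pi / 4) (u + v, v - u) (innerSL ℝ n)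
    simp only [innerSL_apply_apply] at h1
    rw [hnq] at h1
    exact h1.symm
  have hz : ∀ α ∈ Set.Ioo (Real.pi / 4) Real.pi, g α = 0 := by
    intro α hα
    by_contra hne
    have hpos : 0 < g α := lt_of_le_of_ne (hg0 α) (Ne.symm hne)
    have h1 : 0 < ∫ α in (Real.pi / 4)..Real.pi, Real.sin (α - Real.pi / 4) * g α := by
      refine intervalIntegral.integral_pos (by linarith) ?_ ?_ ?_
      · exact Continuous.continuousOn (by fun_prop)
      · intro x hx
        exact mul_nonneg (Real.sin_nonneg_of_nonneg_of_le_pi (by linarith [hx.1])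
          (by linarith [hx.2])) (hg0 x)
      · refine ⟨α, ⟨hα.1.le, hα.2.le⟩, mul_pos ?_ hpos⟩
        exact Real.sin_pos_of_pos_of_lt_pi (by linarith [hα.1]) (by linarith [hα.2])
    linarith
  have hz' : ∀ α ∈ Set.Icc (Real.pi / 4) Real.pi, g α = 0 := by
    intro α hα
    have h1 : closure (Set.Ioo (Real.pi / 4) Real.pi) ⊆ {α | g α = 0} :=
      closure_minimal hz (isClosed_eq hgc continuous_const)
    rw [closure_Ioo (by linarith)] at h1
    exact h1 hα
  have h2P : ∀ α, g α = 2 * ⟪n, P (uu (u + v) (v - u) α)⟫ := by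
    intro α
    rw [hg]
    simp only
    unfold TT
    rw [sub_add_cancel, real_inner_smul_right]
  -- at the first point
  have hu0 : ⟪n, u⟫ = 0 := by
    have h1 := hz' (Real.pi / 4) ⟨le_rfl, by linarith⟩
    rw [h2P] at h1
    have h2 : uu (u + v) (v - u) (Real.pi / 4) = (√2) • u := by
      unfold uu
      rw [Real.cos_pi_div_four, Real.sin_pi_div_four]
      module
    rw [h2, P_smul h hP (by positivity), hP.of_mem h hu, real_inner_smul_right] at h1
    have h3 : 0 < √(2 : ℝ) := by positivity
    have h4 : √2 * ⟪n, u⟫ = 0 := by linarith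
    rcases mul_eq_zero.1 h4 with h5 | h5
    · exact absurd h5 h3.ne'
    · exact h5
  -- the normal is unique
  have hnn : 0 < ‖n‖ := norm_pos_iff.2 hn0
  have hcn : ‖c - u‖ = r := by rw [← dist_eq_norm, dist_comm, hd]
  have hball : closedBall c r ⊆ S := by
    rw [← closure_ball c hr.ne']
    exact closure_minimal hb h.closed
  have h6 : ⟪c - u, n⟫ = ‖c - u‖ * ‖n‖ := by
    apply le_antisymm (real_inner_le_norm _ _)
    have h7 : c - (r * ‖n‖⁻¹) • n ∈ closedBall c r := by
      rw [mem_closedBall, dist_eq_norm, sub_sub_cancel_left, norm_neg, norm_smul,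
        Real.norm_eq_abs, abs_of_pos (by positivity), mul_assoc, inv_mul_cancel₀ hnn.ne', mul_one]
    have h8 := h.inner (hball h7) hnS
    rw [inner_sub_left, real_inner_smul_left, real_inner_self_eq_norm_sq] at h8
    rw [inner_sub_left, real_inner_comm n u, hu0, sub_zero, hcn]
    have h9 : r * ‖n‖⁻¹ * ‖n‖ ^ 2 = r * ‖n‖ := by
      field_simp
    linarith
  have h7 : ‖n‖ • (c - u) = ‖c - u‖ • n := (inner_eq_norm_mul_iff_real).1 h6
  -- at the given point
  set β : ℝ := Real.arctan l⁻¹ with hβ
  have hβ0 : 0 < β := by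
    rw [hβ, ← Real.arctan_zero]
    exact Real.arctan_strictMono (by positivity)
  have hβ1 : β < Real.pi / 2 := Real.arctan_lt_pi_div_two _
  have hcb : Real.cos β = l * Real.sin β := by
    have h8 := Real.tan_arctan l⁻¹
    rw [← hβ, Real.tan_eq_sin_div_cos] at h8
    have h9 : 0 < Real.cos β := Real.cos_pos_of_mem_Ioo ⟨by linarith, hβ1⟩
    rw [div_eq_iff h9.ne'] at h8
    rw [h8, mul_inv_cancel_left₀ hl.ne']
  have hsb : 0 < Real.sin β := Real.sin_pos_of_pos_of_lt_pi hβ0 (by linarith)
  have h8 := hz' (Real.pi / 4 + β) ⟨by linarith, by linarith⟩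
  have h9 : uu (u + v) (v - u) (Real.pi / 4 + β) = (√2 * Real.sin β) • (l • u - v) := by
    unfold uu
    rw [Real.cos_add, Real.sin_add, Real.cos_pi_div_four, Real.sin_pi_div_four, hcb]
    module
  rw [h2P, h9, P_smul h hP (by positivity), real_inner_smul_right] at h8
  have h10 : ⟪n, P (l • u - v)⟫ = 0 := by
    have h3 : 0 < 2 * (√(2 : ℝ) * Real.sin β) := by positivity
    rw [← mul_assoc] at h8
    rcases mul_eq_zero.1 h8 with h5 | h5
    · exact absurd h5 h3.ne'
    · exact h5
  apply hne
  have h11 : ‖n‖ * ⟪c - u, P (l • u - v)⟫ = 0 := by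
    rw [← real_inner_smul_left, h7, real_inner_smul_left, h10, mul_zero]
  rcases mul_eq_zero.1 h11 with h5 | h5
  · exact absurd h5 hnn.ne'
  · exact h5

end

end PCS
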