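import Pool.Agent.PCS.DefC

/-!
# A uniform lower bound for the deficit (equality case, row T3b)
-/

set_option autoImplicit false
set_option linter.unusedSectionVars false

open MeasureTheory ProbabilityTheory Module Metric
open scoped RealInnerProductSpace ENNReal

namespace PCS

section mea
variable {E : Type*} [NormedAddCommGroup E] [NormedSpace ℝ E] [MeasurableSpace E] [BorelSpace E]
  [SecondCountableTopology E] {μ : Measure E} [SFinite μ] [μ.IsAddRightInvariant]

/-- averaging over translates -/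
theorem avg_translate {f : E → ℝ≥0∞} (hf : Measurable f) {A B : Set E} (hA : MeasurableSet A)
    (hB : MeasurableSet B) {p : E} {s : ℝ}
    (hsub : ∀ z ∈ B, ∀ σ ∈ Set.Ioc (-s) s, z + σ • p ∈ A)
    (h1 : ∀ z ∈ B, 1 ≤ ∫⁻ σ in Set.Ioc (-s) s, f (z + σ • p)) :
    μ B ≤ ENNReal.ofReal (2 * s) * ∫⁻ z in A, f z ∂μ := by
  have hfc : Measurable fun q : E × ℝ => f (q.1 + q.2 • p) :=
    hf.comp (Continuous.measurable (by fun_prop))
  calc μ B = ∫⁻ _ in B, 1 ∂μ := by rw [setLIntegral_one]
    _ ≤ ∫⁻ z in B, (∫⁻ σ in Set.Ioc (-s) s, f (z + σ • p)) ∂μ := setLIntegral_mono' hB h1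
    _ = ∫⁻ σ in Set.Ioc (-s) s, (∫⁻ z in B, f (z + σ • p) ∂μ) := by
        rw [lintegral_lintegral_swap]
        exact hfc.aemeasurable
    _ ≤ ∫⁻ _ in Set.Ioc (-s) s, (∫⁻ z in A, f z ∂μ) := by
        refine setLIntegral_mono' measurableSet_Ioc fun σ hσ => ?_
        calc ∫⁻ z in B, f (z + σ • p) ∂μ ≤ ∫⁻ z in B, (A.indicator f) (z + σ • p) ∂μ := by
              refine setLIntegral_mono' hB fun z hz => ?_
              rw [Set.indicator_of_mem (hsub z hz σ hσ)]
          _ ≤ ∫⁻ z, (A.indicator f) (z + σ • p) ∂μ := setLIntegral_le_lintegral _ _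
          _ = ∫⁻ z, (A.indicator f) z ∂μ := lintegral_add_right_eq_self _ _
          _ = ∫⁻ z in A, f z ∂μ := lintegral_indicator hA _
    _ = _ := by
        rw [setLIntegral_const, Real.volume_Ioc, mul_comm]
        congr 2
        ring

end mea

section
variable {V : Type*} [NormedAddCommGroup V] [InnerProductSpace ℝ V] [FiniteDimensional ℝ V]
  [MeasurableSpace V] [BorelSpace V] {S : Set V} {P : V → V} {H : V → ℝ} {DH : V → V →L[ℝ] ℝ}

/-- the Gaussian product measure is at least a multiple of the volume on bounded sets -/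
theorem std_prod_lower (R : ℝ) : ∃ m : ℝ, 0 < m ∧ ∀ (A : Set (V × V)), MeasurableSet A →
    A ⊆ closedBall 0 R → ∀ f : V × V → ℝ≥0∞, Measurable f →
      ENNReal.ofReal m * ∫⁻ z in A, f z ∂((volume : Measure V).prod volume) ≤
        ∫⁻ z in A, f z ∂((stdGaussian V).prod (stdGaussian V)) := by
  set k : ℝ := (2 * Real.pi) ^ (-(finrank ℝ V : ℝ) / 2) * Real.exp (-R ^ 2 / 2) with hk
  have hk0 : 0 < k := by positivity
  refine ⟨k * k, by positivity, fun A hA hAR f hf => ?_⟩
  have hm : Measurable fun x : V => ENNReal.ofReal (PCW.dn x) :=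
    PCW.continuous_dn.measurable.ennreal_ofReal
  have hm2 : Measurable fun z : V × V =>
      ENNReal.ofReal (PCW.dn z.1) * ENNReal.ofReal (PCW.dn z.2) :=
    (hm.comp measurable_fst).mul (hm.comp measurable_snd)
  rw [PCW.std_eq, prod_withDensity hm hm, restrict_withDensity hA,
    lintegral_withDensity_eq_lintegral_mul _ hm2 hf, ← lintegral_const_mul _ hf]
  refine setLIntegral_mono' hA fun z hz => ?_
  have hz' : ‖z‖ ≤ R := by simpa using hAR hz
  have hdn : ∀ x : V, ‖x‖ ≤ R → ENNReal.ofReal k ≤ ENNReal.ofReal (PCW.dn x) := by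
    intro x hx
    refine ENNReal.ofReal_le_ofReal ?_
    rw [hk]
    unfold PCW.dn
    have : ‖x‖ ^ 2 ≤ R ^ 2 := pow_le_pow_left₀ (norm_nonneg _) hx 2
    gcongr
  show _ ≤ ENNReal.ofReal (PCW.dn z.1) * ENNReal.ofReal (PCW.dn z.2) * f z
  rw [ENNReal.ofReal_mul hk0.le]
  exact mul_le_mul' (mul_le_mul' (hdn _ ((norm_fst_le z).trans hz'))
    (hdn _ ((norm_snd_le z).trans hz'))) le_rfl

omit [FiniteDimensional ℝ V] [MeasurableSpace V] [BorelSpace V] in
theorem SD.add_interior (h : SD S) {x y : V} (hx : x ∈ interior S) (hy : y ∈ S) :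
    x + y ∈ interior S := by
  obtain ⟨ε, hε, hb⟩ := Metric.mem_nhds_iff.1 (mem_interior_iff_mem_nhds.1 hx)
  rw [mem_interior_iff_mem_nhds]
  refine Filter.mem_of_superset (ball_mem_nhds (x + y) hε) fun z hz => ?_
  have h1 : z - y ∈ ball x ε := by
    rw [mem_ball, dist_eq_norm] at hz ⊢
    have : z - y - x = z - (x + y) := by abel
    rwa [this]
  have h2 := h.add (hb h1) hy
  rwa [sub_add_cancel] at h2

omit [FiniteDimensional ℝ V] [MeasurableSpace V] [BorelSpace V] in
theorem SD.smul_interior (h : SD S) {x : V} (hx : x ∈ interior S) {k : ℝ} (hk : 0 < k) :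
    k • x ∈ interior S := by
  obtain ⟨ε, hε, hb⟩ := Metric.mem_nhds_iff.1 (mem_interior_iff_mem_nhds.1 hx)
  exact ball_smul h hb hk (mem_ball_self hε)

omit [FiniteDimensional ℝ V] [MeasurableSpace V] [BorelSpace V] in
theorem continuousAt_LA {η : ℝ} (hη : η ≠ 0) (z : V × V) :
    ContinuousAt (fun p : ℝ × (V × V) => LA V p.1 p.2) (η, z) := by
  have e : (fun p : ℝ × (V × V) => LA V p.1 p.2) =
      fun p => p.1⁻¹ • (Real.sin p.1 • p.2.1 - Real.cos p.1 • p.2.2) := by
    funext p
    exact LA_apply _ _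
  rw [e]
  refine ContinuousAt.smul (ContinuousAt.inv₀ continuousAt_fst hη) ?_
  exact Continuous.continuousAt (by fun_prop)

omit [FiniteDimensional ℝ V] [MeasurableSpace V] [BorelSpace V] in
theorem continuousAt_LB {η : ℝ} (hη : η ≠ 0) (z : V × V) :
    ContinuousAt (fun p : ℝ × (V × V) => LB V p.1 p.2) (η, z) := by
  have e : (fun p : ℝ × (V × V) => LB V p.1 p.2) =
      fun p => p.1⁻¹ • (Real.sin p.1 • p.2.1 + Real.cos p.1 • p.2.2) := by
    funext p
    exact LB_apply _ _
  rw [e]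
  refine ContinuousAt.smul (ContinuousAt.inv₀ continuousAt_fst hη) ?_
  exact Continuous.continuousAt (by fun_prop)

/-- the integral of the derivative along the segment -/
theorem ftc_line (h : SD S) (hT : Test S H DH) {e : V} (he : ∀ u, u - e ∈ S → H u = 1) {η t s : ℝ}
    (hη0 : 0 < η) (hη1 : η ≤ Real.pi / 2) (ht : 0 < t) (hs : 0 < s) {z : V × V} {q : V} (hq : q ∈ S)
    (h1 : LA V η (z + s • ((q, 0) : V × V)) - t⁻¹ • e ∈ S)
    (h0 : LA V η (z - s • ((q, 0) : V × V)) ∉ S) :
    1 ≤ ∫⁻ σ in Set.Ioc (-s) s,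
      ENNReal.ofReal ((t • DH (t • LA V η (z + σ • ((q, 0) : V × V)))) q) := by
  have hpi := Real.pi_pos
  set p : V × V := (q, 0) with hp
  have hLp : LA V η p = (η⁻¹ * Real.sin η) • q := by
    rw [LA_apply, hp]
    simp only
    rw [smul_zero, sub_zero, smul_smul]
  set f : ℝ → ℝ := fun σ => (t • DH (t • LA V η (z + σ • p))) q with hf
  have hfc : Continuous f := by
    have c1 : Continuous fun σ : ℝ => t • LA V η (z + σ • p) :=
      continuous_const.smul ((LA V η).continuous.comp (by fun_prop))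
    exact ((hT.cont.comp c1).const_smul t).clm_apply continuous_const
  have hfn : ∀ σ, 0 ≤ f σ := fun σ => by
    rw [hf]
    simp only [smul_apply, smul_eq_mul]
    exact mul_nonneg ht.le (hT.mono _ _ hq)
  have hG : ∀ σ : ℝ, HasDerivAt (fun σ : ℝ => H (t • LA V η (z + σ • p)))
      ((η⁻¹ * Real.sin η) * f σ) σ := by
    intro σ
    have d1 : HasDerivAt (fun σ : ℝ => z + σ • p) p σ := by
      have := ((hasDerivAt_id σ).smul_const p).const_add z
      simpa using this
    have d2 : HasDerivAt (fun σ : ℝ => t • LA V η (z + σ • p)) (t • LA V η p) σ :=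
      (((LA V η).hasFDerivAt (x := z + σ • p)).comp_hasDerivAt σ d1).const_smul t
    have d3 := (hT.der (t • LA V η (z + σ • p))).comp_hasDerivAt σ d2
    refine d3.congr_deriv ?_
    rw [hLp, map_smul, map_smul, hf]
    simp only [smul_apply, smul_eq_mul]
    ring
  have hI := intervalIntegral.integral_eq_sub_of_hasDerivAt (a := -s) (b := s)
    (fun σ _ => hG σ) ((continuous_const.mul hfc).intervalIntegrable _ _)
  rw [intervalIntegral.integral_const_mul] at hI
  have e1 : H (t • LA V η (z + s • p)) = 1 := by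
    refine he _ ?_
    have := h.smul ht.le h1
    rwa [smul_sub, smul_inv_smul₀ ht.ne'] at this
  have e0 : H (t • LA V η (z + (-s) • p)) = 0 := by
    refine hT.supp _ fun h' => h0 ?_
    have := (h.smul_mem_iff ht).1 h'
    rwa [neg_smul, ← sub_eq_add_neg] at this
  rw [e1, e0, sub_zero] at hI
  have hsin : 0 < Real.sin η := Real.sin_pos_of_pos_of_lt_pi hη0 (by linarith)
  have ha1 : η⁻¹ * Real.sin η ≤ 1 := by
    rw [inv_mul_le_iff₀ hη0, mul_one]
    exact Real.sin_le hη0.le
  have hnn : 0 ≤ ∫ σ in (-s)..s, f σ :=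
    intervalIntegral.integral_nonneg (by linarith) fun σ _ => hfn σ
  have h2 : 1 ≤ ∫ σ in (-s)..s, f σ := by
    rw [← hI]
    exact mul_le_of_le_one_left hnn ha1
  rw [intervalIntegral.integral_of_le (by linarith)] at h2
  rw [← ofReal_integral_eq_lintegral_ofReal, ← ENNReal.ofReal_one]
  · exact ENNReal.ofReal_le_ofReal h2
  · exact (hfc.intervalIntegrable (-s) s).1
  · exact Filter.Eventually.of_forall hfn

/-- **The uniform lower bound for the deficit.** -/
theorem dd_lower (h : SD S) (hP : Pr S P) (hT : Test S H DH) {e : V}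
    (he : ∀ u, u - e ∈ S → H u = 1) {x w : V} (hq : qq P (Real.pi / 4) (x, w) ∈ interior S)
    (hA : x - w ∈ frontier S) (hB : x + w ∈ interior S) :
    ∃ δ c t₀ : ℝ, 0 < δ ∧ δ ≤ Real.pi / 4 ∧ 0 < c ∧ 0 < t₀ ∧ ∀ t, t₀ ≤ t → ∀ η, Real.pi / 4 ≤ η →
      η ≤ Real.pi / 4 + δ →
      c ≤ ∫ z, dd P (fun u => H (t • u)) (fun u => t • DH (t • u)) η z
        ∂((stdGaussian V).prod (stdGaussian V)) := by
  have hpi := Real.pi_pos
  set q : V := qq P (Real.pi / 4) (x, w) with hqd
  have hqS : q ∈ S := interior_subset hq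
  have hπ : Real.pi / 4 ≠ 0 := by positivity
  set p : V × V := (q, 0) with hp
  set k : ℝ := (Real.pi / 4)⁻¹ * (√2 / 2) with hk
  have hk0 : 0 < k := by positivity
  have hLA : ∀ σ : ℝ, LA V (Real.pi / 4) ((x, w) + σ • p) = k • ((x - w) + σ • q) := by
    intro σ
    rw [LA_apply, Real.sin_pi_div_four, Real.cos_pi_div_four, hk, hp]
    simp only [Prod.smul_mk, smul_zero, Prod.mk_add_mk, add_zero]
    module
  have hLB : LB V (Real.pi / 4) (x, w) = k • (x + w) := by
    rw [LB_apply, Real.sin_pi_div_four, Real.cos_pi_div_four, hk]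
    module
  -- the first neighbourhood
  have ev1 : ∀ᶠ b : ℝ × (V × V) × ℝ in nhds (Real.pi / 4, (x, w), 0),
      qq P (Real.pi / 2 - b.1) b.2.1 - (1 / 2 : ℝ) • q ∈ interior S := by
    have c1 : Continuous fun b : ℝ × (V × V) × ℝ =>
        qq P (Real.pi / 2 - b.1) b.2.1 - (1 / 2 : ℝ) • q := by
      have c2 : Continuous fun b : ℝ × (V × V) × ℝ => (Real.pi / 2 - b.1, b.2.1) := by fun_prop
      have c3 := (cont_qq h hP).comp c2
      exact Continuous.sub c3 continuous_const
    refine c1.continuousAt.eventually (isOpen_interior.mem_nhds ?_)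
    show qq P (Real.pi / 2 - Real.pi / 4) (x, w) - (1 / 2 : ℝ) • q ∈ interior S
    have e1 : Real.pi / 2 - Real.pi / 4 = Real.pi / 4 := by ring
    rw [e1, ← hqd]
    have e2 : q - (1 / 2 : ℝ) • q = (1 / 2 : ℝ) • q := by module
    rw [e2]
    exact h.smul_interior hq (by norm_num)
  have ev2 : ∀ᶠ b : ℝ × (V × V) × ℝ in nhds (Real.pi / 4, (x, w), 0),
      LB V b.1 b.2.1 - b.2.2 • e ∈ interior S := by
    have c2 : Continuous fun b : ℝ × (V × V) × ℝ => (b.1, b.2.1) := by fun_prop
    have c3 : ContinuousAt (fun b : ℝ × (V × V) × ℝ => LB V b.1 b.2.1)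
        (Real.pi / 4, (x, w), 0) :=
      ContinuousAt.comp (f := fun b : ℝ × (V × V) × ℝ => (b.1, b.2.1))
        (g := fun p : ℝ × (V × V) => LB V p.1 p.2) (continuousAt_LB hπ (x, w)) c2.continuousAt
    have c4 : ContinuousAt (fun b : ℝ × (V × V) × ℝ => LB V b.1 b.2.1 - b.2.2 • e)
        (Real.pi / 4, (x, w), 0) :=
      c3.sub (Continuous.continuousAt (by fun_prop))
    refine c4.eventually (isOpen_interior.mem_nhds ?_)
    show LB V (Real.pi / 4) (x, w) - (0 : ℝ) • e ∈ interior S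
    rw [zero_smul, sub_zero, hLB]
    exact h.smul_interior hB hk0
  obtain ⟨ε₁, hε₁, hb₁⟩ := Metric.eventually_nhds_iff_ball.1 (ev1.and ev2)
  -- the length of the segment
  set s : ℝ := ε₁ / (2 * (‖q‖ + 1)) with hs
  have hs0 : 0 < s := by positivity
  have hsq : s * ‖q‖ < ε₁ / 2 := by
    rw [hs, div_mul_eq_mul_div, div_lt_div_iff₀ (by positivity) (by norm_num)]
    nlinarith [norm_nonneg q]
  have cLA : ∀ σ : ℝ, ContinuousAt (fun b : ℝ × (V × V) × ℝ => LA V b.1 (b.2.1 + σ • p))
      (Real.pi / 4, (x, w), 0) := by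
    intro σ
    have c2 : Continuous fun b : ℝ × (V × V) × ℝ => (b.1, b.2.1 + σ • p) := by fun_prop
    exact ContinuousAt.comp (f := fun b : ℝ × (V × V) × ℝ => (b.1, b.2.1 + σ • p))
      (g := fun p : ℝ × (V × V) => LA V p.1 p.2) (continuousAt_LA hπ ((x, w) + σ • p))
      c2.continuousAt
  have ev3 : ∀ᶠ b : ℝ × (V × V) × ℝ in nhds (Real.pi / 4, (x, w), 0),
      LA V b.1 (b.2.1 + s • p) - b.2.2 • e ∈ interior S := by
    have c4 : ContinuousAt (fun b : ℝ × (V × V) × ℝ => LA V b.1 (b.2.1 + s • p) - b.2.2 • e)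
        (Real.pi / 4, (x, w), 0) :=
      (cLA s).sub (Continuous.continuousAt (by fun_prop))
    refine c4.eventually (isOpen_interior.mem_nhds ?_)
    show LA V (Real.pi / 4) ((x, w) + s • p) - (0 : ℝ) • e ∈ interior S
    rw [zero_smul, sub_zero, hLA]
    refine h.smul_interior ?_ hk0
    rw [add_comm]
    exact h.add_interior (h.smul_interior hq hs0) (h.closed.frontier_subset hA)
  have ev4 : ∀ᶠ b : ℝ × (V × V) × ℝ in nhds (Real.pi / 4, (x, w), 0),
      LA V b.1 (b.2.1 + (-s) • p) ∈ Sᶜ := by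
    refine (cLA (-s)).eventually (h.closed.isOpen_compl.mem_nhds ?_)
    show LA V (Real.pi / 4) ((x, w) + (-s) • p) ∈ Sᶜ
    rw [hLA]
    intro hcon
    have h1 := (h.smul_mem_iff hk0).1 hcon
    have h2 := h.add_interior (h.smul_interior hq hs0) h1
    have e1 : s • q + ((x - w) + (-s) • q) = x - w := by module
    rw [e1] at h2
    exact hA.2 h2
  obtain ⟨ε₂', hε₂', hb₂'⟩ := Metric.eventually_nhds_iff_ball.1 (ev3.and ev4)
  set ε₂ : ℝ := min ε₂' (ε₁ / 2) with hε₂d
  have hε₂ : 0 < ε₂ := lt_min hε₂' (by positivity)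
  have hε₂₁ : ε₂ ≤ ε₁ / 2 := min_le_right _ _
  -- the sets
  set A : Set (V × V) := ball (x, w) ε₁ with hAd
  set B : Set (V × V) := ball (x, w) ε₂ with hBd
  set μ : Measure (V × V) := (volume : Measure V).prod volume with hμ
  obtain ⟨m, hm0, hm⟩ := std_prod_lower (V := V) (‖((x, w) : V × V)‖ + ε₁)
  have hAR : A ⊆ closedBall 0 (‖((x, w) : V × V)‖ + ε₁) := by
    intro z hz
    rw [hAd, mem_ball, dist_eq_norm] at hz
    rw [mem_closedBall_zero_iff]
    have e1 : z = (z - (x, w)) + (x, w) := by abel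
    calc ‖z‖ = ‖(z - (x, w)) + (x, w)‖ := by rw [← e1]
      _ ≤ ‖z - (x, w)‖ + ‖((x, w) : V × V)‖ := norm_add_le _ _
      _ ≤ _ := by linarith
  have hBpos : 0 < μ B := measure_ball_pos μ (x, w) hε₂
  have hBfin : μ B < ∞ := measure_ball_lt_top
  have hBr : 0 < (μ B).toReal := ENNReal.toReal_pos hBpos.ne' hBfin.ne
  refine ⟨min (ε₂ / 2) (Real.pi / 4), m * (1 / 2) * ((μ B).toReal / (2 * s)), 2 / ε₂, by positivity,
    min_le_right _ _, by positivity, by positivity, fun t ht η hη0 hη1 => ?_⟩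
  have ht0 : 0 < t := lt_of_lt_of_le (by positivity) ht
  have htinv : t⁻¹ < ε₂ := by
    have h1 : t⁻¹ ≤ (2 / ε₂)⁻¹ := inv_anti₀ (by positivity) ht
    rw [inv_div] at h1
    linarith
  have htinv0 : 0 < t⁻¹ := inv_pos.2 ht0
  have hηp : 0 < η := by linarith
  have hη2 : η ≤ Real.pi / 2 := by
    have := min_le_right (ε₂ / 2) (Real.pi / 4)
    linarith
  have hηd : |η - Real.pi / 4| < ε₂ := by
    rw [abs_of_nonneg (by linarith)]
    have := min_le_left (ε₂ / 2) (Real.pi / 4)
    linarith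
  have hTt : Test S (fun u => H (t • u)) (fun u => t • DH (t • u)) := hT.scale h ht0
  have hmem : ∀ {z : V × V} {r : ℝ}, z ∈ ball ((x, w) : V × V) r → ε₂ ≤ r →
      ((η, z, t⁻¹) : ℝ × (V × V) × ℝ) ∈ ball (Real.pi / 4, (x, w), (0 : ℝ)) r := by
    intro z r hz hr
    rw [mem_ball, Prod.dist_eq, Prod.dist_eq]
    refine max_lt ?_ (max_lt hz ?_)
    · exact hηd.trans_le hr
    · show dist t⁻¹ 0 < r
      rw [Real.dist_eq, sub_zero, abs_of_pos htinv0]
      linarith
  set f : V × V → ℝ := fun z => (t • DH (t • LA V η z)) q with hf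
  have hfc : Continuous f := by
    have c1 : Continuous fun z : V × V => t • LA V η z :=
      continuous_const.smul (LA V η).continuous
    exact ((hT.cont.comp c1).const_smul t).clm_apply continuous_const
  have hfn : ∀ z, 0 ≤ f z := fun z => by
    rw [hf]
    simp only [smul_apply, smul_eq_mul]
    exact mul_nonneg ht0.le (hT.mono _ _ hqS)
  -- the lower bound on `A`
  have hlow : ∀ z ∈ A, 1 / 2 * f z ≤
      dd P (fun u => H (t • u)) (fun u => t • DH (t • u)) η z := by
    intro z hz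
    obtain ⟨g1, g2⟩ := hb₁ _ (hmem hz (by linarith))
    simp only at g1 g2
    have g3 : H (t • LB V η z) = 1 := by
      refine he _ ?_
      have := h.smul ht0.le (interior_subset g2)
      rwa [smul_sub, smul_inv_smul₀ ht0.ne'] at this
    unfold dd
    simp only
    rw [g3, one_mul]
    have g4 : 0 ≤ (t • DH (t • LA V η z)) (qq P (Real.pi / 2 - η) z - (1 / 2 : ℝ) • q) :=
      hTt.mono (LA V η z) _ (interior_subset g1)
    rw [map_sub, map_smul, smul_eq_mul] at g4
    rw [hf]
    simp only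
    linarith
  have hint := integrable_dd h hP hTt hηp.le hη2
  have hdn := dd_nonneg h hP hTt hηp.le hη2
  have hdc := cont_dd h hP hTt η
  -- the average
  have havg : μ B ≤ ENNReal.ofReal (2 * s) * ∫⁻ z in A, ENNReal.ofReal (f z) ∂μ := by
    refine avg_translate hfc.measurable.ennreal_ofReal measurableSet_ball measurableSet_ball
      (p := p) ?_ ?_
    · intro z hz σ hσ
      show z + σ • p ∈ ball ((x, w) : V × V) ε₁
      rw [mem_ball, dist_eq_norm]
      rw [mem_ball, dist_eq_norm] at hz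
      have e1 : z + σ • p - (x, w) = (z - (x, w)) + σ • p := by abel
      rw [e1]
      have e2 : ‖σ • p‖ ≤ s * ‖q‖ := by
        rw [norm_smul, Real.norm_eq_abs, hp, Prod.norm_mk, norm_zero,
          max_eq_left (norm_nonneg _)]
        exact mul_le_mul_of_nonneg_right (abs_le.2 ⟨hσ.1.le, hσ.2⟩) (norm_nonneg _)
      refine (norm_add_le _ _).trans_lt ?_
      linarith
    · intro z hz
      have hz' : z ∈ ball ((x, w) : V × V) ε₂' := ball_subset_ball (min_le_left _ _) hz
      obtain ⟨g1, g2⟩ := hb₂' _ (hmem hz' (min_le_left _ _))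
      simp only at g1 g2
      refine ftc_line h hT he hηp hη2 ht0 hs0 hqS (interior_subset g1) ?_
      rw [neg_smul, ← sub_eq_add_neg] at g2
      exact g2
  -- the conclusion
  have hfin : ENNReal.ofReal (m * (1 / 2) * ((μ B).toReal / (2 * s))) ≤
      ENNReal.ofReal (∫ z, dd P (fun u => H (t • u)) (fun u => t • DH (t • u)) η z
        ∂((stdGaussian V).prod (stdGaussian V))) := by
    rw [ofReal_integral_eq_lintegral_ofReal hint (Filter.Eventually.of_forall hdn)]
    calc ENNReal.ofReal (m * (1 / 2) * ((μ B).toReal / (2 * s)))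
        = ENNReal.ofReal m * (ENNReal.ofReal (1 / 2) * (μ B / ENNReal.ofReal (2 * s))) := by
          have e1 : ENNReal.ofReal ((μ B).toReal / (2 * s)) = μ B / ENNReal.ofReal (2 * s) := by
            rw [ENNReal.ofReal_div_of_pos (by positivity), ENNReal.ofReal_toReal hBfin.ne]
          rw [ENNReal.ofReal_mul (by positivity), ENNReal.ofReal_mul hm0.le, e1, mul_assoc]
      _ ≤ ENNReal.ofReal m * (ENNReal.ofReal (1 / 2) * ∫⁻ z in A, ENNReal.ofReal (f z) ∂μ) := by
          gcongr
          exact ENNReal.div_le_of_le_mul' havg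
      _ = ENNReal.ofReal m * ∫⁻ z in A, ENNReal.ofReal (1 / 2 * f z) ∂μ := by
          rw [← lintegral_const_mul _ hfc.measurable.ennreal_ofReal]
          congr 1
          refine lintegral_congr fun z => ?_
          rw [ENNReal.ofReal_mul (by norm_num)]
      _ ≤ ∫⁻ z in A, ENNReal.ofReal (1 / 2 * f z)
            ∂((stdGaussian V).prod (stdGaussian V)) :=
          hm A measurableSet_ball hAR _ (by fun_prop)
      _ ≤ ∫⁻ z in A, ENNReal.ofReal (dd P (fun u => H (t • u)) (fun u => t • DH (t • u)) η z)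
            ∂((stdGaussian V).prod (stdGaussian V)) :=
          setLIntegral_mono' measurableSet_ball fun z hz => ENNReal.ofReal_le_ofReal (hlow z hz)
      _ ≤ _ := setLIntegral_le_lintegral _ _
  have hnn : 0 ≤ ∫ z, dd P (fun u => H (t • u)) (fun u => t • DH (t • u)) η z
      ∂((stdGaussian V).prod (stdGaussian V)) := integral_nonneg hdn
  exact (ENNReal.ofReal_le_ofReal_iff hnn).1 hfin

end

end PCS
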