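import Pool.Agent.PCS.DefD

/-!
# Self-dual cones with the Gaussian measure of the orthant are orthants (equality case, row T3)
-/

set_option autoImplicit false
set_option linter.unusedSectionVars false

open MeasureTheory ProbabilityTheory Module Metric
open scoped RealInnerProductSpace ENNReal

namespace PCS

section
variable {V : Type*} [NormedAddCommGroup V] [InnerProductSpace ℝ V] [FiniteDimensional ℝ V]
  [MeasurableSpace V] [BorelSpace V] {S : Set V} {P : V → V} {H : V → ℝ} {DH : V → V →L[ℝ] ℝ}

/-- the limit of the scaled test functions -/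
theorem lim_lower (h : SD S) (hT : Test S H DH) {e : V} (he : ∀ u, u - e ∈ S → H u = 1) {C t₀ : ℝ}
    (hC : ∀ t, t₀ ≤ t → 0 < t → ∫ x, H ((t * (2 / Real.pi)) • x) ^ 2 ∂(stdGaussian V) ≤ C) :
    (stdGaussian V).real S ≤ C := by
  have hpi := Real.pi_pos
  have hH := hT.cont_H
  set T : ℕ → ℝ := fun n => |t₀| + n + 1 with hTd
  have hT0 : ∀ n, 0 < T n := fun n => by rw [hTd]; positivity
  have hTt : ∀ n, t₀ ≤ T n := fun n => by
    rw [hTd]
    have := le_abs_self t₀
    have : (0 : ℝ) ≤ n := Nat.cast_nonneg n
    simp only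
    linarith
  have hlim : Filter.Tendsto (fun n => ∫ x, H ((T n * (2 / Real.pi)) • x) ^ 2 ∂(stdGaussian V))
      Filter.atTop (nhds (∫ x, S.indicator (1 : V → ℝ) x ∂(stdGaussian V))) := by
    refine tendsto_integral_of_dominated_convergence (fun _ => (1 : ℝ)) ?_ (integrable_const _) ?_ ?_
    · intro n
      exact ((hH.comp (continuous_const_smul _)).pow 2).aestronglyMeasurable
    · intro n
      refine Filter.Eventually.of_forall fun x => ?_
      rw [Real.norm_eq_abs, abs_of_nonneg (sq_nonneg _)]
      exact pow_le_one₀ (hT.nonneg _) (hT.le_one _)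
    · have hfr : stdGaussian V (frontier S) = 0 :=
        std_ac (h.convex.addHaar_frontier (volume : Measure V))
      filter_upwards [measure_eq_zero_iff_ae_notMem.1 hfr] with x hx
      by_cases hxS : x ∈ S
      · have hxi : x ∈ interior S := by
          by_contra hcon
          exact hx ⟨subset_closure hxS, hcon⟩
        rw [Set.indicator_of_mem hxS, Pi.one_apply]
        refine tendsto_const_nhds.congr' ?_
        have h1 : Filter.Tendsto (fun n : ℕ => x - ((T n * (2 / Real.pi))⁻¹) • e)
            Filter.atTop (nhds (x - (0 : ℝ) • e)) := by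
          refine tendsto_const_nhds.sub (Filter.Tendsto.smul_const ?_ e)
          refine Filter.Tendsto.inv_tendsto_atTop ?_
          refine Filter.Tendsto.atTop_mul_const (by positivity) ?_
          rw [hTd]
          refine Filter.tendsto_atTop_add_const_right _ _ ?_
          exact Filter.tendsto_atTop_add_const_left _ _ tendsto_natCast_atTop_atTop
        rw [zero_smul, sub_zero] at h1
        filter_upwards [h1.eventually (isOpen_interior.mem_nhds hxi)] with n hn
        have h5 : (0 : ℝ) < T n * (2 / Real.pi) := mul_pos (hT0 n) (by positivity)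
        have h6 := h.smul h5.le (interior_subset hn)
        rw [smul_sub, smul_inv_smul₀ h5.ne'] at h6
        rw [he _ h6]
        norm_num
      · rw [Set.indicator_of_notMem hxS]
        refine tendsto_const_nhds.congr fun n => ?_
        have h5 : (0 : ℝ) < T n * (2 / Real.pi) := mul_pos (hT0 n) (by positivity)
        rw [hT.supp _ fun h' => hxS ((h.smul_mem_iff h5).1 h')]
        norm_num
  rw [integral_indicator_one h.closed.measurableSet] at hlim
  exact le_of_tendsto' hlim fun n => hC _ (hTt n) (hT0 n)

/-- **The equality case.** Touching balls of a self-dual cone with the measure of the orthant split -/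
theorem strict (h : SD S) (hP : Pr S P)
    (heq : (stdGaussian V).real S = ((2 : ℝ) ^ (finrank ℝ V))⁻¹) : Touch S P := by
  intro c u r hr hb hu hd v hv l hl
  by_contra hne
  have hpi := Real.pi_pos
  have hq := qq_interior h hP hr hb (h.closed.frontier_subset hu) hd hl hne
  obtain ⟨H, DH, e, hT, he⟩ := h.exists_test
  have hA : (u + v) - (v - u) ∈ frontier S := by
    have e1 : (u + v) - (v - u) = (2 : ℝ) • u := by module
    rw [e1, frontier, h.closed.closure_eq]
    refine ⟨h.smul (by norm_num) (h.closed.frontier_subset hu), fun hcon => hu.2 ?_⟩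
    have h1 := h.smul_interior hcon (k := 1 / 2) (by norm_num)
    rw [smul_smul] at h1
    norm_num at h1
    exact h1
  have hB : (u + v) + (v - u) ∈ interior S := by
    have e1 : (u + v) + (v - u) = (2 : ℝ) • v := by module
    rw [e1]
    exact h.smul_interior hv (by norm_num)
  obtain ⟨δ, c', t₀, hδ, hδ', hc', ht₀, hdd⟩ := dd_lower h hP hT he hq hA hB
  have hkey : ∀ t, t₀ ≤ t → 0 < t → ∫ x, H ((t * (2 / Real.pi)) • x) ^ 2 ∂(stdGaussian V) ≤
      2 ^ (finrank ℝ V) * ((stdGaussian V).real S) ^ 2 - c' * δ / 4 := by
    intro t ht ht0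
    have h1 := key_def h hP (hT.scale h ht0) hδ (by linarith) (fun η h2 h3 => hdd t ht η h2 h3)
      hc'.le
    simp only [smul_smul] at h1
    have h2 : ∫ x, H ((t * (4 / Real.pi)) • x) ∂(stdGaussian V) ≤ (stdGaussian V).real S := by
      rw [← integral_indicator_one h.closed.measurableSet]
      refine integral_mono ?_ ?_ fun x => ?_
      · refine Integrable.mono' (integrable_const (1 : ℝ))
          (hT.cont_H.comp (continuous_const_smul _)).aestronglyMeasurable
          (Filter.Eventually.of_forall fun x => ?_)
        rw [Real.norm_eq_abs, abs_of_nonneg (hT.nonneg _)]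
        exact hT.le_one _
      · exact (integrable_const (1 : ℝ)).indicator h.closed.measurableSet
      · by_cases hx : x ∈ S
        · rw [Set.indicator_of_mem hx]
          exact hT.le_one _
        · rw [Set.indicator_of_notMem hx]
          refine (hT.supp _ fun h' => hx ?_).le
          exact (h.smul_mem_iff (by positivity)).1 h'
    have h3 : 0 ≤ ∫ x, H ((t * (4 / Real.pi)) • x) ∂(stdGaussian V) :=
      integral_nonneg fun x => hT.nonneg _
    have h4 := pow_le_pow_left₀ h3 h2 2
    have h5 := mul_le_mul_of_nonneg_left h4 (show (0 : ℝ) ≤ 2 ^ (finrank ℝ V) by positivity)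
    linarith
  have hfin := lim_lower h hT he hkey
  rw [heq] at hfin
  have h6 : (2 : ℝ) ^ (finrank ℝ V) * (((2 : ℝ) ^ (finrank ℝ V))⁻¹) ^ 2 =
      ((2 : ℝ) ^ (finrank ℝ V))⁻¹ := by
    have : (0 : ℝ) < 2 ^ (finrank ℝ V) := by positivity
    field_simp
  rw [h6] at hfin
  have : 0 < c' * δ / 4 := by positivity
  linarith

/-- **A self-dual cone with the Gaussian measure of the orthant is an orthant.** -/
theorem orthant_of_eq (h : SD S)
    (heq : (stdGaussian V).real S = ((2 : ℝ) ^ (finrank ℝ V))⁻¹) :
    ∃ b : OrthonormalBasis (Fin (finrank ℝ V)) ℝ V, S = {x | ∀ i, 0 ≤ ⟪b i, x⟫} := by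
  obtain ⟨P, hP⟩ := h.exists_pr
  exact orthant_of_touch h hP (strict h hP heq)

end

end PCS
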