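import Mathlib

/-!
# Self-dual cones: definitions
-/

set_option autoImplicit false

open MeasureTheory ProbabilityTheory Module
open scoped RealInnerProductSpace

namespace PCS

section defs
variable {V : Type*} [NormedAddCommGroup V] [InnerProductSpace ℝ V]

/-- self-dual cones -/
def SD (S : Set V) : Prop := ∀ y, y ∈ S ↔ ∀ x ∈ S, 0 ≤ ⟪x, y⟫

/-- `P` is the metric projection onto the self-dual cone `S` -/
structure Pr (S : Set V) (P : V → V) : Prop where
  mem : ∀ u, P u ∈ S
  mem' : ∀ u, P u - u ∈ S
  orth : ∀ u, ⟪P u, P u - u⟫ = 0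

/-- the absolute value map of the cone -/
noncomputable def TT (P : V → V) (u : V) : V := (2 : ℝ) • P u - u

/-- the real part of `exp (i α) (x + i w)` -/
noncomputable def uu (x w : V) (α : ℝ) : V := Real.cos α • x - Real.sin α • w

/-- the imaginary part of `exp (i α) (x + i w)` -/
noncomputable def vv (x w : V) (α : ℝ) : V := Real.sin α • x + Real.cos α • w

/-- test functions: bounded, continuously differentiable, supported in `S` and increasing along `S` -/
structure Test (S : Set V) (H : V → ℝ) (DH : V → V →L[ℝ] ℝ) : Prop where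
  der : ∀ u, HasFDerivAt H (DH u) u
  cont : Continuous DH
  bdd : ∃ C : ℝ, ∀ u, ‖DH u‖ ≤ C
  nonneg : ∀ u, 0 ≤ H u
  le_one : ∀ u, H u ≤ 1
  supp : ∀ u, u ∉ S → H u = 0
  mono : ∀ u, ∀ k ∈ S, 0 ≤ DH u k

end defs

end PCS
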