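import Pool.Agent.PCS.Sec

/-!
# Eight convex sets of width 0.73 in the unit disc

Eight sectors have width `sin (π / 4) = 0.7071...`. Here is a packing of eight convex polygons of width at least
`0.73`, one of them away from the circle. Coordinates are integers over `10000`.
-/

set_option autoImplicit false

open MeasureTheory ProbabilityTheory Module PCW
open scoped RealInnerProductSpace

namespace PCS.Eight

/-- the vertices of the eight polygons -/
def vs : Fin 8 → List (ℤ × ℤ) := ![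
  [(-9992, -331), (-9237, -3826), (-5979, -7331), (-3230, -4206), (-2661, 345), (-9957, 905)],
  [(-9873, 1572), (-8461, 843), (-2661, 349), (-2239, 3727), (-5693, 8143), (-8407, 5411), (-9647, 2627)],
  [(-3211, -4080), (4521, -1147), (1313, 1674), (-2185, 4126)],
  [(-4907, -8711), (1098, -9937), (3135, -9494), (1049, -2468), (-2899, -3966)],
  [(1052, -2467), (2247, -6084), (3951, -9184), (4781, -8781), (6672, -7446), (9323, -3606), (4218, -1266)],
  [(2568, 575), (5076, -1630), (9326, -3604), (9998, 54), (9704, 2406), (8712, 4905)],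
  [(-5728, 8194), (-2881, 4617), (-47, 2631), (2710, 9624), (50, 9998), (-2302, 9730)],
  [(734, 3268), (2147, 1142), (5784, 2846), (8710, 4907), (6052, 7958), (2713, 9622), (1474, 6480)]]

/-- vertices of the difference polygons, half way round -/
def ds : Fin 8 → List (ℤ × ℤ) := ![
  [(-7331, -676), (-6576, -4171), (-3318, -7676), (3978, -8236), (6727, -5111), (7296, -560), (7331, 676)],
  [(-7634, -2155), (-4180, -6571), (-2768, -7300), (3032, -7794), (5746, -5062), (6986, -2278), (7212, -1223), (7634, 2155)],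
  [(-7732, -2933), (-4524, -5754), (-1026, -8206), (6706, -5273), (7732, 2933)],
  [(-8042, 783), (-5956, -6243), (49, -7469), (2086, -7026), (6034, -5528), (8042, -783)],
  [(-8271, 1139), (-7076, -2478), (-5372, -5578), (-267, -7918), (2899, -6717), (3729, -6314), (5620, -4979), (8271, -1139)],
  [(-7430, 521), (-7136, -1831), (-6144, -4330), (-3636, -6535), (614, -8509), (6758, -4179), (7430, -521)],
  [(-8438, -1430), (-5591, -5007), (-2757, -6993), (-97, -7367), (2255, -7099), (5681, -5563), (8438, 1430)],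
  [(-7976, -1639), (-6563, -3765), (-3905, -6816), (-566, -8480), (3071, -6776), (5997, -4715), (7236, -1573), (7976, 1639)]]

/-- separating lines -/
def ln : Fin 8 → Fin 8 → ℤ × ℤ × ℤ := ![
  ![(0, 0, 0), (4, 50, 6706), (200, -25, -540513), (2, -1, -2043), (1, -1, 2435), (1, -1, 1672), (0, 1, 1768), (0, 1, 1023)],
  ![(0, 0, 0), (0, 0, 0), (200, -25, -540563), (0, -1, 1059), (0, -1, 458), (1, -1, -509), (100, 79, 74261), (1, 0, -753)],
  ![(0, 0, 0), (0, 0, 0), (0, 0, 0), (107, -282, 807710), (19, -50, 143293), (44, 50, 141658), (7, 10, 25973), (4, 5, 13960)],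
  ![(0, 0, 0), (0, 0, 0), (0, 0, 0), (0, 0, 0), (10, 3, 3102), (1, 1, 862), (-1, 1, 805), (0, 1, -663)],
  ![(0, 0, 0), (0, 0, 0), (0, 0, 0), (0, 0, 0), (0, 0, 0), (23, 50, 34213), (-1, 1, -421), (0, 1, -62)],
  ![(0, 0, 0), (0, 0, 0), (0, 0, 0), (0, 0, 0), (0, 0, 0), (0, 0, 0), (-1, 1, 342), (-141, 200, -246899)],
  ![(0, 0, 0), (0, 0, 0), (0, 0, 0), (0, 0, 0), (0, 0, 0), (0, 0, 0), (0, 0, 0), (500, -197, -540244)],
  ![(0, 0, 0), (0, 0, 0), (0, 0, 0), (0, 0, 0), (0, 0, 0), (0, 0, 0), (0, 0, 0), (0, 0, 0)]]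

/-- the chord from `a` to `b` turns to the left and has distance at least `0.73` from the centre -/
def stepB (a b : ℤ × ℤ) : Bool :=
  decide (0 < a.1 * b.2 - a.2 * b.1) &&
  decide ((730000 : ℤ) ^ 2 * ((b.1 - a.1) ^ 2 + (b.2 - a.2) ^ 2) ≤ (100 * (a.1 * b.2 - a.2 * b.1)) ^ 2)

def chainB : ℤ × ℤ → List (ℤ × ℤ) → Bool
  | _, [] => true
  | a, b :: l => stepB a b && chainB b l

def lastOf : ℤ × ℤ → List (ℤ × ℤ) → ℤ × ℤ
  | a, [] => a
  | _, b :: l => lastOf b l

def diffB (V : List (ℤ × ℤ)) (d : ℤ × ℤ) : Bool :=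
  V.any fun p => V.any fun q => decide (p.1 - q.1 = d.1) && decide (p.2 - q.2 = d.2)

def widthB (V D : List (ℤ × ℤ)) : Bool :=
  match D with
  | [] => false
  | a :: l => (a :: l).all (diffB V) && chainB a l && (!l.isEmpty) &&
      decide ((lastOf a l).1 = -a.1) && decide ((lastOf a l).2 = -a.2)

def ballB (V : List (ℤ × ℤ)) : Bool := V.all fun v => decide (v.1 * v.1 + v.2 * v.2 ≤ 100000000)

def sepB (V W : List (ℤ × ℤ)) (l : ℤ × ℤ × ℤ) : Bool :=
  (V.all fun v => decide (l.1 * v.1 + l.2.1 * v.2 ≤ l.2.2)) &&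
  (W.all fun v => decide (l.2.2 ≤ l.1 * v.1 + l.2.1 * v.2)) &&
  decide (0 < l.1 * l.1 + l.2.1 * l.2.1)

theorem chk_width : ∀ i : Fin 8, widthB (vs i) (ds i) = true := by decide +kernel

theorem chk_ball : ∀ i : Fin 8, ballB (vs i) = true := by decide +kernel

theorem chk_sep : ∀ i j : Fin 8, i < j → sepB (vs i) (vs j) (ln i j) = true := by decide +kernel

/-! ### geometry -/

/-- the point of the plane -/
noncomputable def pt (v : ℤ × ℤ) : E 2 := WithLp.toLp 2 ![(v.1 : ℝ) / 10000, (v.2 : ℝ) / 10000]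

theorem pt0 (v : ℤ × ℤ) : pt v 0 = (v.1 : ℝ) / 10000 := rfl
theorem pt1 (v : ℤ × ℤ) : pt v 1 = (v.2 : ℝ) / 10000 := rfl

/-- the polygon -/
def poly (V : List (ℤ × ℤ)) : Set (E 2) := convexHull ℝ (pt '' {v | v ∈ V})

theorem mem_poly {V : List (ℤ × ℤ)} {v : ℤ × ℤ} (h : v ∈ V) : pt v ∈ poly V :=
  subset_convexHull ℝ _ ⟨v, h, rfl⟩

theorem step_key {a b : ℤ × ℤ} (h : stepB a b = true) {x y : ℝ} (hxy : x ^ 2 + y ^ 2 = 1)
    (ha : 0 ≤ (a.1 : ℝ) * y - a.2 * x) (hb : (b.1 : ℝ) * y - b.2 * x ≤ 0) :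
    7300 ≤ (a.1 : ℝ) * x + a.2 * y ∨ 7300 ≤ (b.1 : ℝ) * x + b.2 * y := by
  by_contra hcon
  push Not at hcon
  obtain ⟨hA, hB⟩ := hcon
  unfold stepB at h
  rw [Bool.and_eq_true, decide_eq_true_eq, decide_eq_true_eq] at h
  obtain ⟨h1, h2⟩ := h
  have h1' : (0 : ℝ) < (a.1 : ℝ) * b.2 - a.2 * b.1 := by exact_mod_cast h1
  have h2' : (730000 : ℝ) ^ 2 * (((b.1 : ℝ) - a.1) ^ 2 + ((b.2 : ℝ) - a.2) ^ 2) ≤
      (100 * ((a.1 : ℝ) * b.2 - a.2 * b.1)) ^ 2 := by exact_mod_cast h2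
  set c : ℝ := (a.1 : ℝ) * b.2 - a.2 * b.1 with hc
  set β : ℝ := (a.1 : ℝ) * y - a.2 * x with hβ
  set α : ℝ := -((b.1 : ℝ) * y - b.2 * x) with hα
  have hα0 : 0 ≤ α := by linarith
  have e1 : c = α * ((a.1 : ℝ) * x + a.2 * y) + β * ((b.1 : ℝ) * x + b.2 * y) := by
    have : c = c * (x ^ 2 + y ^ 2) := by rw [hxy, mul_one]
    rw [this, hα, hβ, hc]
    ring
  have hs : 0 < α + β := by
    rcases (add_nonneg hα0 ha).lt_or_eq with h | h
    · exact h
    · exfalso
      have ha0 : α = 0 := by linarith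
      have hb0 : β = 0 := by linarith
      rw [ha0, hb0] at e1
      linarith
  have e2 : c < 7300 * (α + β) := by
    rcases hα0.lt_or_eq with h | h
    · have i1 : α * ((a.1 : ℝ) * x + a.2 * y) < α * 7300 := mul_lt_mul_of_pos_left hA h
      have i2 : β * ((b.1 : ℝ) * x + b.2 * y) ≤ β * 7300 := mul_le_mul_of_nonneg_left hB.le ha
      linarith
    · have hβ0 : 0 < β := by linarith
      have i2 : β * ((b.1 : ℝ) * x + b.2 * y) < β * 7300 := mul_lt_mul_of_pos_left hB hβ0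
      rw [← h] at e1 ⊢
      linarith
  have e3 : (α + β) ^ 2 ≤ ((b.1 : ℝ) - a.1) ^ 2 + ((b.2 : ℝ) - a.2) ^ 2 := by
    have e4 : (α + β) ^ 2 + (((b.1 : ℝ) - a.1) * x + ((b.2 : ℝ) - a.2) * y) ^ 2
        = (((b.1 : ℝ) - a.1) ^ 2 + ((b.2 : ℝ) - a.2) ^ 2) * (x ^ 2 + y ^ 2) := by
      rw [hα, hβ]
      ring
    rw [hxy, mul_one] at e4
    nlinarith [sq_nonneg (((b.1 : ℝ) - a.1) * x + ((b.2 : ℝ) - a.2) * y)]
  have e5 : (100 * c) ^ 2 < (730000 * (α + β)) ^ 2 := by
    have i0 : 0 ≤ 100 * c := by linarith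
    have i1 : 100 * c < 730000 * (α + β) := by linarith
    exact pow_lt_pow_left₀ i1 i0 two_ne_zero
  nlinarith

theorem find {x y : ℝ} (hxy : x ^ 2 + y ^ 2 = 1) : ∀ (l : List (ℤ × ℤ)) (a : ℤ × ℤ), l ≠ [] →
    chainB a l = true → 0 ≤ (a.1 : ℝ) * y - a.2 * x →
    ((lastOf a l).1 : ℝ) * y - (lastOf a l).2 * x ≤ 0 →
    ∃ d ∈ a :: l, 7300 ≤ (d.1 : ℝ) * x + d.2 * y := by
  intro l
  induction l with
  | nil => intro a h; exact absurd rfl h
  | cons b l ih =>
    intro a _ hch ha hl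
    unfold chainB at hch
    rw [Bool.and_eq_true] at hch
    obtain ⟨h1, h2⟩ := hch
    rcases le_or_gt ((b.1 : ℝ) * y - b.2 * x) 0 with hb | hb
    · rcases step_key h1 hxy ha hb with h | h
      · exact ⟨a, by simp, h⟩
      · exact ⟨b, by simp, h⟩
    · by_cases hl0 : l = []
      · subst hl0
        exfalso
        have : lastOf a [b] = b := rfl
        rw [this] at hl
        linarith
      · obtain ⟨d, hd, h⟩ := ih b hl0 h2 hb.le hl
        exact ⟨d, List.mem_cons_of_mem _ hd, h⟩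

theorem exists_diff {V : List (ℤ × ℤ)} {d : ℤ × ℤ} (h : diffB V d = true) :
    ∃ p ∈ V, ∃ q ∈ V, p.1 - q.1 = d.1 ∧ p.2 - q.2 = d.2 := by
  unfold diffB at h
  rw [List.any_eq_true] at h
  obtain ⟨p, hp, h⟩ := h
  rw [List.any_eq_true] at h
  obtain ⟨q, hq, h⟩ := h
  rw [Bool.and_eq_true, decide_eq_true_eq, decide_eq_true_eq] at h
  exact ⟨p, hp, q, hq, h.1, h.2⟩

theorem inner_pt (v : ℤ × ℤ) (u : E 2) : ⟪pt v, u⟫ = ((v.1 : ℝ) * u 0 + v.2 * u 1) / 10000 := by
  rw [Sec.inner2, pt0, pt1]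
  ring

theorem ball_poly {V : List (ℤ × ℤ)} (h : ballB V = true) : poly V ⊆ Metric.closedBall 0 1 := by
  refine convexHull_min ?_ (convex_closedBall _ _)
  rintro _ ⟨v, hv, rfl⟩
  unfold ballB at h
  rw [List.all_eq_true] at h
  have h1 := h v hv
  rw [decide_eq_true_eq] at h1
  have h2 : (v.1 : ℝ) * v.1 + v.2 * v.2 ≤ 100000000 := by exact_mod_cast h1
  have h3 : ‖pt v‖ ^ 2 ≤ 1 := by
    rw [Sec.norm2, pt0, pt1]
    nlinarith
  rw [mem_closedBall_zero_iff]
  have h0 := norm_nonneg (pt v)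
  nlinarith

theorem width_poly {V D : List (ℤ × ℤ)} (hb : ballB V = true) (h : widthB V D = true) {u : E 2}
    (hu : ‖u‖ = 1) : 73 / 100 ≤ wd (poly V) u := by
  have hxy : u 0 ^ 2 + u 1 ^ 2 = 1 := by
    rw [← Sec.norm2, hu, one_pow]
  match D, h with
  | [], h => exact absurd h (by unfold widthB; simp)
  | a :: l, h =>
    unfold widthB at h
    simp only [Bool.and_eq_true, decide_eq_true_eq, List.all_eq_true, Bool.not_eq_true'] at h
    obtain ⟨⟨⟨⟨h1, h2⟩, h3⟩, h4⟩, h5⟩ := h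
    have hl : l ≠ [] := by
      rintro rfl
      simp at h3
    have e4 : ((lastOf a l).1 : ℝ) = -a.1 := by exact_mod_cast h4
    have e5 : ((lastOf a l).2 : ℝ) = -a.2 := by exact_mod_cast h5
    rcases le_total 0 ((a.1 : ℝ) * u 1 - a.2 * u 0) with h0 | h0
    · obtain ⟨d, hd, hd1⟩ := find hxy l a hl h2 h0 (by rw [e4, e5]; linarith)
      obtain ⟨p, hp, q, hq, e1, e2⟩ := exists_diff (h1 d hd)
      have e1' : (d.1 : ℝ) = p.1 - q.1 := by exact_mod_cast e1.symm
      have e2' : (d.2 : ℝ) = p.2 - q.2 := by exact_mod_cast e2.symm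
      refine le_trans ?_ (Sec.wd_ge (ball_poly hb) hu (mem_poly hp) (mem_poly hq))
      rw [inner_pt, inner_pt]
      rw [e1', e2'] at hd1
      linarith
    · obtain ⟨d, hd, hd1⟩ := find (x := -u 0) (y := -u 1) (by rw [neg_sq, neg_sq]; exact hxy) l a hl h2
        (by linarith) (by rw [e4, e5]; linarith)
      obtain ⟨p, hp, q, hq, e1, e2⟩ := exists_diff (h1 d hd)
      have e1' : (d.1 : ℝ) = p.1 - q.1 := by exact_mod_cast e1.symm
      have e2' : (d.2 : ℝ) = p.2 - q.2 := by exact_mod_cast e2.symm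
      refine le_trans ?_ (Sec.wd_ge (ball_poly hb) hu (mem_poly hq) (mem_poly hp))
      rw [inner_pt, inner_pt]
      rw [e1', e2'] at hd1
      linarith

theorem sep_poly {V W : List (ℤ × ℤ)} {l : ℤ × ℤ × ℤ} (h : sepB V W l = true) :
    Disjoint (interior (poly V)) (interior (poly W)) := by
  unfold sepB at h
  simp only [Bool.and_eq_true, decide_eq_true_eq, List.all_eq_true] at h
  obtain ⟨⟨h1, h2⟩, h3⟩ := h
  set n : E 2 := WithLp.toLp 2 ![(l.1 : ℝ), (l.2.1 : ℝ)] with hn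
  have n0 : n 0 = (l.1 : ℝ) := rfl
  have n1 : n 1 = (l.2.1 : ℝ) := rfl
  set c : ℝ := (l.2.2 : ℝ) / 10000 with hc
  have hV : ∀ x ∈ poly V, ⟪x, n⟫ ≤ c := by
    have hconv : Convex ℝ {x : E 2 | ⟪x, n⟫ ≤ c} := by
      intro x hx y hy s t hs ht hst
      show ⟪s • x + t • y, n⟫ ≤ c
      rw [inner_add_left, real_inner_smul_left, real_inner_smul_left]
      have i1 := mul_le_mul_of_nonneg_left (show ⟪x, n⟫ ≤ c from hx) hs
      have i2 := mul_le_mul_of_nonneg_left (show ⟪y, n⟫ ≤ c from hy) ht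
      have i3 : s * c + t * c = c := by rw [← add_mul, hst, one_mul]
      linarith
    refine fun x hx => convexHull_min ?_ hconv hx
    rintro _ ⟨v, hv, rfl⟩
    have i1 : (l.1 : ℝ) * v.1 + l.2.1 * v.2 ≤ l.2.2 := by exact_mod_cast h1 v hv
    show ⟪pt v, n⟫ ≤ c
    rw [inner_pt, n0, n1, hc]
    linarith
  have hW : ∀ x ∈ poly W, c ≤ ⟪x, n⟫ := by
    have hconv : Convex ℝ {x : E 2 | c ≤ ⟪x, n⟫} := by
      intro x hx y hy s t hs ht hst
      show c ≤ ⟪s • x + t • y, n⟫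
      rw [inner_add_left, real_inner_smul_left, real_inner_smul_left]
      have i1 := mul_le_mul_of_nonneg_left (show c ≤ ⟪x, n⟫ from hx) hs
      have i2 := mul_le_mul_of_nonneg_left (show c ≤ ⟪y, n⟫ from hy) ht
      have i3 : s * c + t * c = c := by rw [← add_mul, hst, one_mul]
      linarith
    refine fun x hx => convexHull_min ?_ hconv hx
    rintro _ ⟨v, hv, rfl⟩
    have i1 : (l.2.2 : ℝ) ≤ (l.1 : ℝ) * v.1 + l.2.1 * v.2 := by exact_mod_cast h2 v hv
    show c ≤ ⟪pt v, n⟫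
    rw [inner_pt, n0, n1, hc]
    linarith
  have hnn : 0 < ⟪n, n⟫ := by
    have h4 : (0 : ℝ) < (l.1 : ℝ) * l.1 + l.2.1 * l.2.1 := by exact_mod_cast h3
    rw [Sec.inner2, n0, n1]
    exact h4
  rw [Set.disjoint_left]
  intro x hxV hxW
  rw [mem_interior_iff_mem_nhds, Metric.mem_nhds_iff] at hxV
  obtain ⟨ε, hε, hsub⟩ := hxV
  have hxc : ⟪x, n⟫ = c := le_antisymm (hV x (hsub (Metric.mem_ball_self hε))) (hW x (interior_subset hxW))
  have hn0 : 0 < ‖n‖ := by
    rw [norm_pos_iff]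
    rintro h
    rw [h, inner_zero_left] at hnn
    exact lt_irrefl _ hnn
  set δ : ℝ := ε / (2 * ‖n‖) with hδ
  have hδ0 : 0 < δ := by positivity
  have hy : x + δ • n ∈ Metric.ball x ε := by
    rw [Metric.mem_ball, dist_eq_norm, add_sub_cancel_left, norm_smul, Real.norm_eq_abs, abs_of_pos hδ0, hδ]
    rw [div_mul_eq_mul_div, div_lt_iff₀ (by positivity)]
    nlinarith
  have h7 := hV _ (hsub hy)
  rw [inner_add_left, real_inner_smul_left, hxc] at h7
  have := mul_pos hδ0 hnn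
  linarith

end PCS.Eight

namespace PCS

open Eight in
/-- eight convex sets of width `0.73` in the unit disc -/
theorem pack_eight : Pack 2 (73 / 100) 8 := by
  refine ⟨fun i => poly (vs i), fun i => convex_convexHull ℝ _, fun i => ball_poly (chk_ball i), ?_, ?_⟩
  · intro i j hij
    rcases lt_or_gt_of_ne hij with h | h
    · exact sep_poly (chk_sep i j h)
    · exact (sep_poly (chk_sep j i h)).symm
  · intro i u hu
    exact width_poly (chk_ball i) (chk_width i) hu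

/-- the sector formula fails below `0.73` -/
theorem planar_fails {t : ℝ} (h1 : Real.sin (Real.pi / 4) < t) (h2 : t ≤ 73 / 100) :
    ⌊2 * Real.pi / Real.arcsin t⌋₊ < 8 ∧ Pack 2 t 8 := by
  have hpi := Real.pi_pos
  have ha : Real.pi / 4 < Real.arcsin t := by
    rw [Real.lt_arcsin_iff_sin_lt ⟨by linarith, by linarith⟩
      ⟨by linarith [Real.sin_pos_of_pos_of_lt_pi (show 0 < Real.pi / 4 by positivity) (by linarith)], by linarith⟩]
    exact h1
  refine ⟨?_, ?_⟩
  · have hpos : 0 < Real.arcsin t := by linarith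
    rw [Nat.floor_lt (by positivity), div_lt_iff₀ hpos]
    push_cast
    linarith
  · obtain ⟨C, hC, hb, hd, hw⟩ := pack_eight
    exact ⟨C, hC, hb, hd, fun i u hu => h2.trans (hw i u hu)⟩

end PCS
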