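import Pool.Agent.PCS.Bas

/-! # Rows M2 and D: the gradient of `⟪u, T u⟫ / 2` is `T` (Helper33) -/

set_option autoImplicit false

open MeasureTheory ProbabilityTheory Module
open scoped RealInnerProductSpace

namespace PCS

section
variable {V : Type*} [NormedAddCommGroup V] [InnerProductSpace ℝ V]

theorem hasFDerivAt_of_sq_bound {f : V → ℝ} {L : V →L[ℝ] ℝ} {u : V} {C : ℝ} (hC : 0 < C)
    (h : ∀ v, |f v - f u - L (v - u)| ≤ C * ‖v - u‖ ^ 2) : HasFDerivAt f L u := by
  rw [hasFDerivAt_iff_isLittleO, Asymptotics.isLittleO_iff]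
  intro c hc
  have hb : Metric.ball u (c / C) ∈ nhds u := Metric.ball_mem_nhds u (div_pos hc hC)
  filter_upwards [hb] with v hv
  rw [Metric.mem_ball, dist_eq_norm, lt_div_iff₀ hC] at hv
  rw [Real.norm_eq_abs]
  refine (h v).trans ?_
  have h1 : 0 ≤ ‖v - u‖ := norm_nonneg _
  nlinarith

variable {S : Set V} {P : V → V}

theorem sq_bound (hP : Pr S P) (h : SD S) (u v : V) :
    0 ≤ ‖P v‖ ^ 2 / 2 - ‖P u‖ ^ 2 / 2 - ⟪P u, v - u⟫ ∧
      ‖P v‖ ^ 2 / 2 - ‖P u‖ ^ 2 / 2 - ⟪P u, v - u⟫ ≤ ‖v - u‖ ^ 2 / 2 := by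
  have h1 : 0 ≤ ⟪P u, P v - v⟫ := (h _).1 (hP.mem' v) _ (hP.mem u)
  have h2 : 0 ≤ ⟪P v, P u - u⟫ := (h _).1 (hP.mem' u) _ (hP.mem v)
  have h3 := hP.orth u
  have h4 := hP.orth v
  have h5 : 0 ≤ ‖(P u - P v) - (u - v)‖ ^ 2 := sq_nonneg _
  have h6 : 0 ≤ ‖P u - P v‖ ^ 2 := sq_nonneg _
  simp only [← real_inner_self_eq_norm_sq, inner_sub_left, inner_sub_right] at *
  have c1 := real_inner_comm (P u) (P v)
  have c2 := real_inner_comm (P u) u
  have c3 := real_inner_comm (P u) v
  have c4 := real_inner_comm (P v) u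
  have c5 := real_inner_comm (P v) v
  have c6 := real_inner_comm u v
  constructor <;> linarith

/-- the squared norm of the projection is differentiable -/
theorem hasFDerivAt_sq (h : SD S) (hP : Pr S P) (u : V) :
    HasFDerivAt (fun y => ‖P y‖ ^ 2 / 2) (innerSL ℝ (P u)) u := by
  refine hasFDerivAt_of_sq_bound (C := 1 / 2) (by norm_num) fun v => ?_
  obtain ⟨h1, h2⟩ := sq_bound hP h u v
  rw [innerSL_apply_apply, abs_of_nonneg h1]
  linarith

theorem hasFDerivAt_TT (h : SD S) (hP : Pr S P) (u : V) :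
    HasFDerivAt (fun y => ⟪y, TT P y⟫ / 2) (innerSL ℝ (TT P u)) u := by
  have h1 := hasFDerivAt_sq h hP u
  have h2 : HasFDerivAt (fun y : V => -y) (-ContinuousLinearMap.id ℝ V) u :=
    (hasFDerivAt_id u).neg
  have h3 := (hasFDerivAt_sq h hP (-u)).comp u h2
  have h4 := h1.sub h3
  refine (h4.congr_fderiv ?_).congr_of_eventuallyEq (Filter.Eventually.of_forall fun y => ?_)
  · ext k
    simp only [TT, sub_apply, ContinuousLinearMap.comp_apply,
      neg_apply, ContinuousLinearMap.id_apply, innerSL_apply_apply,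
      inner_neg_right, hP.neg h u, inner_sub_left, inner_smul_left]
    simp
    ring
  · have h5 := hP.orth y
    simp only [TT, Pi.sub_apply, Function.comp_apply, hP.neg h y,
      ← real_inner_self_eq_norm_sq, inner_sub_left, inner_sub_right, inner_smul_right] at h5 ⊢
    have c2 := real_inner_comm (P y) y
    linarith

theorem hasDerivAt_uu (x w : V) (α : ℝ) : HasDerivAt (uu x w) (-vv x w α) α := by
  have h1 : HasDerivAt (fun α => Real.cos α • x) (-Real.sin α • x) α :=
    (Real.hasDerivAt_cos α).smul_const x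
  have h2 : HasDerivAt (fun α => Real.sin α • w) (Real.cos α • w) α :=
    (Real.hasDerivAt_sin α).smul_const w
  refine (h1.sub h2).congr_deriv ?_
  rw [vv]
  module

theorem continuous_uu (x w : V) : Continuous (uu x w) := by
  unfold uu
  fun_prop

theorem continuous_vv (x w : V) : Continuous (vv x w) := by
  unfold vv
  fun_prop

/-- ROW D -/
theorem integral_TT (h : SD S) (hP : Pr S P) (x w : V) :
    ∫ α in (0 : ℝ)..Real.pi, ⟪TT P (uu x w α), vv x w α⟫ = ⟪x, TT P x⟫ := by
  have hd : ∀ α : ℝ, HasDerivAt (fun α => -(⟪uu x w α, TT P (uu x w α)⟫ / 2))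
      ⟪TT P (uu x w α), vv x w α⟫ α := by
    intro α
    have h1 := (hasFDerivAt_TT h hP (uu x w α)).comp_hasDerivAt α (hasDerivAt_uu x w α)
    have h2 := h1.neg
    refine h2.congr_deriv ?_
    rw [innerSL_apply_apply, inner_neg_right, neg_neg]
  have hc : Continuous fun α => ⟪TT P (uu x w α), vv x w α⟫ :=
    ((TT_lip h hP).continuous.comp (continuous_uu x w)).inner (continuous_vv x w)
  rw [intervalIntegral.integral_eq_sub_of_hasDerivAt (fun α _ => hd α)
    (hc.intervalIntegrable _ _)]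
  have h0 : uu x w 0 = x := by simp [uu]
  have h1 : uu x w Real.pi = -x := by simp [uu]
  rw [h0, h1, TT_neg h hP, inner_neg_left]
  ring

end

end PCS
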