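import Pool.Agent.PCS.Defs
import Pool.Agent.PCW.Gau

/-!
# Integration by parts for the standard Gaussian measure
-/

set_option autoImplicit false

open MeasureTheory ProbabilityTheory Module
open scoped RealInnerProductSpace

namespace PCS

section
variable {V : Type*} [NormedAddCommGroup V] [InnerProductSpace ℝ V] [FiniteDimensional ℝ V]
  [MeasurableSpace V] [BorelSpace V]

omit [FiniteDimensional ℝ V] [MeasurableSpace V] [BorelSpace V] in
theorem hasFDerivAt_dn (v : V) :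
    HasFDerivAt (PCW.dn : V → ℝ) ((-PCW.dn v) • innerSL ℝ v) v := by
  unfold PCW.dn
  have h1 : HasFDerivAt (fun x : V => ‖x‖ ^ 2) ((2 : ℝ) • innerSL ℝ v) v := by
    refine (hasStrictFDerivAt_norm_sq v).hasFDerivAt.congr_fderiv ?_
    ext x
    simp [two_smul]
  have h2 : HasFDerivAt (fun x : V => -‖x‖ ^ 2 / 2) (-(innerSL ℝ v)) v := by
    have h3 := (h1.neg).mul_const (1 / 2 : ℝ)
    have e1 : (fun x : V => -‖x‖ ^ 2 / 2) = fun x : V => (-‖x‖ ^ 2) * (1 / 2) := by
      funext x; ring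
    rw [e1]
    refine h3.congr_fderiv ?_
    ext x
    simp
  have h4 := (h2.exp).const_mul ((2 * Real.pi) ^ (-(finrank ℝ V : ℝ) / 2))
  refine h4.congr_fderiv ?_
  ext x
  simp
  ring

/-- integrability of the powers of the norm -/
theorem integrable_norm_pow (n : ℕ) : Integrable (fun v : V => ‖v‖ ^ n) (stdGaussian V) := by
  have h := IsGaussian.memLp_id (stdGaussian V) n (by simp)
  exact h.integrable_norm_pow'

theorem integrable_of_growth {h : V → ℝ} (hm : AEStronglyMeasurable h (stdGaussian V)) {C : ℝ}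
    (hh : ∀ v, |h v| ≤ C * (1 + ‖v‖ ^ 2)) : Integrable h (stdGaussian V) := by
  have h1 : Integrable (fun v : V => C * (1 + ‖v‖ ^ 2)) (stdGaussian V) :=
    ((integrable_const (1 : ℝ)).add (integrable_norm_pow 2)).const_mul C
  exact h1.mono' hm (Filter.Eventually.of_forall fun v => by simpa using hh v)

/-- integration by parts, general form -/
theorem stein_gen {h : V → ℝ} {Dh : V → V →L[ℝ] ℝ} (hd : ∀ v, HasFDerivAt h (Dh v) v) (k : V)
    (i1 : Integrable (fun v => Dh v k) (stdGaussian V))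
    (i2 : Integrable (fun v => h v * ⟪k, v⟫) (stdGaussian V)) (i3 : Integrable h (stdGaussian V)) :
    ∫ v, Dh v k ∂(stdGaussian V) = ∫ v, h v * ⟪k, v⟫ ∂(stdGaussian V) := by
  rw [PCW.integral_std, PCW.integral_std]
  rw [PCW.integrable_std_iff] at i1 i2 i3
  have key := integral_bilinear_hasFDerivAt_right_eq_neg_left_of_integrable
    (μ := (volume : Measure V)) (f := (PCW.dn : V → ℝ)) (f' := fun v => (-PCW.dn v) • innerSL ℝ v)
    (g := h) (g' := Dh) (v := k) (B := ContinuousLinearMap.mul ℝ ℝ) ?_ ?_ ?_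
    (fun v _ => hasFDerivAt_dn v) (fun v _ => hd v)
  · simp only [ContinuousLinearMap.mul_apply'] at key
    rw [key, ← integral_neg]
    refine integral_congr_ae (Filter.Eventually.of_forall fun v => ?_)
    show -((((-PCW.dn v) • innerSL ℝ v) k) * h v) = PCW.dn v * (h v * ⟪k, v⟫)
    have e : ((-PCW.dn v) • innerSL ℝ v) k = -PCW.dn v * ⟪k, v⟫ := by
      rw [smul_apply, innerSL_apply_apply, smul_eq_mul, real_inner_comm]
    rw [e]
    ring
  · refine i2.neg.congr (Filter.Eventually.of_forall fun v => ?_)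
    show -(PCW.dn v * (h v * ⟪k, v⟫)) = (((-PCW.dn v) • innerSL ℝ v) k) * h v
    have e : ((-PCW.dn v) • innerSL ℝ v) k = -PCW.dn v * ⟪k, v⟫ := by
      rw [smul_apply, innerSL_apply_apply, smul_eq_mul, real_inner_comm]
    rw [e]
    ring
  · exact i1
  · exact i3

/-- Stein's identity -/
theorem stein {f : V → ℝ} {Df : V → V →L[ℝ] ℝ} (hf : ∀ v, HasFDerivAt f (Df v) v)
    (hc : Continuous Df) {C : ℝ} (hC : ∀ v, ‖Df v‖ ≤ C) (hb : ∀ v, |f v| ≤ C) (k : V) :
    ∫ v, Df v k ∂(stdGaussian V) = ∫ v, f v * ⟪k, v⟫ ∂(stdGaussian V) := by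
  have hC0 : 0 ≤ C := (abs_nonneg _).trans (hb 0)
  have hfc : Continuous f := continuous_iff_continuousAt.mpr fun v => (hf v).continuousAt
  refine stein_gen hf k ?_ ?_ ?_
  · refine integrable_of_growth (C := C * ‖k‖) (by fun_prop) fun v => ?_
    have h1 : |Df v k| ≤ C * ‖k‖ := by
      have := (Df v).le_opNorm k
      rw [Real.norm_eq_abs] at this
      exact this.trans (mul_le_mul_of_nonneg_right (hC v) (norm_nonneg _))
    have h2 : 0 ≤ C * ‖k‖ := by positivity
    nlinarith [sq_nonneg ‖v‖]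
  · refine integrable_of_growth (C := C * ‖k‖) (by fun_prop) fun v => ?_
    rw [abs_mul]
    have h1 := abs_real_inner_le_norm k v
    have h2 : ‖v‖ ≤ 1 + ‖v‖ ^ 2 := by nlinarith [sq_nonneg (‖v‖ - 1), norm_nonneg v]
    calc |f v| * |⟪k, v⟫| ≤ C * (‖k‖ * ‖v‖) := mul_le_mul (hb v) h1 (abs_nonneg _) hC0
      _ = C * ‖k‖ * ‖v‖ := by ring
      _ ≤ C * ‖k‖ * (1 + ‖v‖ ^ 2) := mul_le_mul_of_nonneg_left h2 (by positivity)
  · refine integrable_of_growth (C := C) (by fun_prop) fun v => ?_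
    have := hb v
    nlinarith [sq_nonneg ‖v‖]

/-- the divergence of the identity field -/
theorem stein_id {f : V → ℝ} {Df : V → V →L[ℝ] ℝ} (hf : ∀ v, HasFDerivAt f (Df v) v)
    (hc : Continuous Df) {C : ℝ} (hC : ∀ v, ‖Df v‖ ≤ C) (hb : ∀ v, |f v| ≤ C) :
    ∫ v, Df v v ∂(stdGaussian V) = ∫ v, f v * (‖v‖ ^ 2 - finrank ℝ V) ∂(stdGaussian V) := by
  have hC0 : 0 ≤ C := (abs_nonneg _).trans (hb 0)
  have hfc : Continuous f := continuous_iff_continuousAt.mpr fun v => (hf v).continuousAt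
  set b := stdOrthonormalBasis ℝ V with hbdef
  have hbn : ∀ i, ‖b i‖ = 1 := fun i => b.orthonormal.1 i
  -- the functions `f v * ⟪b i, v⟫`
  have hd : ∀ i v, HasFDerivAt (fun v => f v * ⟪b i, v⟫)
      (⟪b i, v⟫ • Df v + f v • innerSL ℝ (b i)) v := by
    intro i v
    have h1 : HasFDerivAt (fun v : V => ⟪b i, v⟫) (innerSL ℝ (b i)) v :=
      (innerSL ℝ (b i)).hasFDerivAt
    refine ((hf v).mul h1).congr_fderiv ?_
    rw [add_comm]
  have hin : ∀ i (v : V), |⟪b i, v⟫| ≤ ‖v‖ := by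
    intro i v
    have := abs_real_inner_le_norm (b i) v
    rwa [hbn, one_mul] at this
  have hDf : ∀ i (v : V), |Df v (b i)| ≤ C := by
    intro i v
    have := (Df v).le_opNorm (b i)
    rw [Real.norm_eq_abs, hbn, mul_one] at this
    exact this.trans (hC v)
  have hlin : ∀ v : V, ‖v‖ ≤ 1 + ‖v‖ ^ 2 := fun v => by
    nlinarith [sq_nonneg (‖v‖ - 1), norm_nonneg v]
  have j1 : ∀ i, Integrable (fun v => ⟪b i, v⟫ * Df v (b i)) (stdGaussian V) := by
    intro i
    refine integrable_of_growth (C := C) (by fun_prop) fun v => ?_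
    rw [abs_mul]
    calc |⟪b i, v⟫| * |Df v (b i)| ≤ ‖v‖ * C :=
          mul_le_mul (hin i v) (hDf i v) (abs_nonneg _) (norm_nonneg _)
      _ ≤ (1 + ‖v‖ ^ 2) * C := mul_le_mul_of_nonneg_right (hlin v) hC0
      _ = C * (1 + ‖v‖ ^ 2) := by ring
  have j0 : Integrable f (stdGaussian V) :=
    integrable_of_growth (C := C) (by fun_prop) fun v => by
      have := hb v
      nlinarith [sq_nonneg ‖v‖]
  have j2 : ∀ i, Integrable (fun v => f v * ⟪b i, v⟫ ^ 2) (stdGaussian V) := by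
    intro i
    refine integrable_of_growth (C := C) (by fun_prop) fun v => ?_
    rw [abs_mul, abs_pow]
    have h1 : |⟪b i, v⟫| ^ 2 ≤ ‖v‖ ^ 2 := pow_le_pow_left₀ (abs_nonneg _) (hin i v) 2
    calc |f v| * |⟪b i, v⟫| ^ 2 ≤ C * ‖v‖ ^ 2 := mul_le_mul (hb v) h1 (by positivity) hC0
      _ ≤ C * (1 + ‖v‖ ^ 2) := mul_le_mul_of_nonneg_left (by linarith) hC0
  have j3 : ∀ i, Integrable (fun v => f v * ⟪b i, v⟫) (stdGaussian V) := by
    intro i
    refine integrable_of_growth (C := C) (by fun_prop) fun v => ?_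
    rw [abs_mul]
    calc |f v| * |⟪b i, v⟫| ≤ C * ‖v‖ := mul_le_mul (hb v) (hin i v) (abs_nonneg _) hC0
      _ ≤ C * (1 + ‖v‖ ^ 2) := mul_le_mul_of_nonneg_left (hlin v) hC0
  have key : ∀ i, ∫ v, ⟪b i, v⟫ * Df v (b i) ∂(stdGaussian V) =
      ∫ v, f v * ⟪b i, v⟫ ^ 2 ∂(stdGaussian V) - ∫ v, f v ∂(stdGaussian V) := by
    intro i
    have e1 : ∀ v, (⟪b i, v⟫ • Df v + f v • innerSL ℝ (b i)) (b i) =
        ⟪b i, v⟫ * Df v (b i) + f v := by
      intro v
      rw [add_apply, smul_apply,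
        smul_apply, innerSL_apply_apply, real_inner_self_eq_norm_sq, hbn]
      simp
    have h1 := stein_gen (hd i) (b i) ?_ ?_ (j3 i)
    · simp only [e1] at h1
      rw [integral_add (j1 i) j0] at h1
      have e2 : ∀ v, f v * ⟪b i, v⟫ * ⟪b i, v⟫ = f v * ⟪b i, v⟫ ^ 2 := fun v => by ring
      simp only [e2] at h1
      linarith
    · simp only [e1]
      exact (j1 i).add j0
    · refine (j2 i).congr (Filter.Eventually.of_forall fun v => ?_)
      show f v * ⟪b i, v⟫ ^ 2 = f v * ⟪b i, v⟫ * ⟪b i, v⟫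
      ring
  have e3 : ∀ v, Df v v = ∑ i, ⟪b i, v⟫ * Df v (b i) := by
    intro v
    have h1 : ∀ L : V →L[ℝ] ℝ, L v = ∑ i, ⟪b i, v⟫ * L (b i) := by
      intro L
      conv_lhs => rw [← b.sum_repr' v]
      rw [map_sum]
      refine Finset.sum_congr rfl fun i _ => ?_
      rw [map_smul, smul_eq_mul]
    exact h1 (Df v)
  have e4 : ∀ v : V, ∑ i, ⟪b i, v⟫ ^ 2 = ‖v‖ ^ 2 := fun v => by
    have := b.sum_sq_norm_inner_right v
    simpa [Real.norm_eq_abs, sq_abs] using this
  have e5 : ∀ v, f v * (‖v‖ ^ 2 - finrank ℝ V) = ∑ i, f v * ⟪b i, v⟫ ^ 2 - finrank ℝ V * f v := by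
    intro v
    rw [← e4, ← Finset.mul_sum]
    ring
  simp only [e3, e5]
  rw [integral_finsetSum _ fun i _ => j1 i, integral_sub (integrable_finsetSum _ fun i _ => j2 i)
    (j0.const_mul _), integral_finsetSum _ fun i _ => j2 i, integral_const_mul]
  simp only [key]
  rw [Finset.sum_sub_distrib, Finset.sum_const, Finset.card_univ, Fintype.card_fin, nsmul_eq_mul]

end

end PCS
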