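import Pool.Agent.PCS.Bas
import Pool.Agent.PCS.Ste
import Pool.Agent.PCS.M2

/-!
# The vector field on `V × V`: integration by parts
-/

set_option autoImplicit false

open MeasureTheory ProbabilityTheory Module
open scoped RealInnerProductSpace

namespace PCS

section
variable {V : Type*} [NormedAddCommGroup V] [InnerProductSpace ℝ V] [FiniteDimensional ℝ V]
  [MeasurableSpace V] [BorelSpace V] {S : Set V} {P : V → V}

omit [FiniteDimensional ℝ V] [MeasurableSpace V] [BorelSpace V] in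
theorem uu_rot (u v : V) (α : ℝ) :
    uu (Real.cos α • u + Real.sin α • v) (-Real.sin α • u + Real.cos α • v) α = u := by
  have h := Real.sin_sq_add_cos_sq α
  have e : uu (Real.cos α • u + Real.sin α • v) (-Real.sin α • u + Real.cos α • v) α =
      (Real.sin α ^ 2 + Real.cos α ^ 2) • u := by
    unfold uu
    module
  rw [e, h, one_smul]

omit [FiniteDimensional ℝ V] [MeasurableSpace V] [BorelSpace V] in
theorem vv_rot (u v : V) (α : ℝ) :
    vv (Real.cos α • u + Real.sin α • v) (-Real.sin α • u + Real.cos α • v) α = v := by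
  have h := Real.sin_sq_add_cos_sq α
  have e : vv (Real.cos α • u + Real.sin α • v) (-Real.sin α • u + Real.cos α • v) α =
      (Real.sin α ^ 2 + Real.cos α ^ 2) • v := by
    unfold vv
    module
  rw [e, h, one_smul]

omit [FiniteDimensional ℝ V] [MeasurableSpace V] [BorelSpace V] in
theorem norm_uu_le (x w : V) (α : ℝ) : ‖uu x w α‖ ≤ ‖x‖ + ‖w‖ := by
  unfold uu
  refine (norm_sub_le _ _).trans ?_
  rw [norm_smul, norm_smul, Real.norm_eq_abs, Real.norm_eq_abs]
  have h1 := Real.abs_cos_le_one α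
  have h2 := Real.abs_sin_le_one α
  nlinarith [norm_nonneg x, norm_nonneg w]

omit [FiniteDimensional ℝ V] [MeasurableSpace V] [BorelSpace V] in
theorem norm_vv_le (x w : V) (α : ℝ) : ‖vv x w α‖ ≤ ‖x‖ + ‖w‖ := by
  unfold vv
  refine (norm_add_le _ _).trans ?_
  rw [norm_smul, norm_smul, Real.norm_eq_abs, Real.norm_eq_abs]
  have h1 := Real.abs_cos_le_one α
  have h2 := Real.abs_sin_le_one α
  nlinarith [norm_nonneg x, norm_nonneg w]

omit [InnerProductSpace ℝ V] [FiniteDimensional ℝ V] [MeasurableSpace V] [BorelSpace V] in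
theorem lin_le_quad (x w : V) : ‖x‖ + ‖w‖ ≤ 1 + ‖x‖ ^ 2 + ‖w‖ ^ 2 := by
  nlinarith [sq_nonneg (‖x‖ - 1 / 2), sq_nonneg (‖w‖ - 1 / 2)]

/-- integrability of functions of quadratic growth on the product -/
theorem integrable_of_growth2 {h : V × V → ℝ}
    (hm : AEStronglyMeasurable h ((stdGaussian V).prod (stdGaussian V))) {C : ℝ}
    (hh : ∀ z, |h z| ≤ C * (1 + ‖z.1‖ ^ 2 + ‖z.2‖ ^ 2)) :
    Integrable h ((stdGaussian V).prod (stdGaussian V)) := by
  have h1 : Integrable (fun z : V × V => ‖z.1‖ ^ 2) ((stdGaussian V).prod (stdGaussian V)) :=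
    (integrable_norm_pow 2).comp_fst _
  have h2 : Integrable (fun z : V × V => ‖z.2‖ ^ 2) ((stdGaussian V).prod (stdGaussian V)) :=
    (integrable_norm_pow 2).comp_snd _
  have h3 := (((integrable_const (1 : ℝ)).add h1).add h2).const_mul C
  exact h3.mono' hm (Filter.Eventually.of_forall fun z => by simpa using hh z)

theorem map_rot (α : ℝ) : ((stdGaussian V).prod (stdGaussian V)).map (ContinuousLinearMap.rotation α) =
    (stdGaussian V).prod (stdGaussian V) :=
  IsGaussian.map_rotation_eq_self (by simp) _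

/-- rotation of the product measure -/
theorem integral_rot (α : ℝ) {f : V × V → ℝ} (hf : Continuous f) :
    ∫ z, f z ∂((stdGaussian V).prod (stdGaussian V)) =
      ∫ z, f (Real.cos α • z.1 + Real.sin α • z.2, -Real.sin α • z.1 + Real.cos α • z.2)
        ∂((stdGaussian V).prod (stdGaussian V)) := by
  conv_lhs => rw [← map_rot α]
  rw [integral_map (by fun_prop) hf.aestronglyMeasurable]
  rfl

/-- integration by parts, the part of the rotation by `α` -/
theorem ibp_rot {T : V → V} (hT : Continuous T) (hTn : ∀ u, ‖T u‖ ≤ ‖u‖) {g : V × V → ℝ}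
    {Dg : V × V → V × V →L[ℝ] ℝ} (hg : ∀ z, HasFDerivAt g (Dg z) z) (hc : Continuous Dg) {C : ℝ}
    (hC : ∀ z, ‖Dg z‖ ≤ C) (hb : ∀ z, |g z| ≤ C) (α : ℝ) :
    ∫ z, Dg z (Real.sin α • T (uu z.1 z.2 α), Real.cos α • T (uu z.1 z.2 α))
        ∂((stdGaussian V).prod (stdGaussian V)) =
      ∫ z, g z * ⟪T (uu z.1 z.2 α), vv z.1 z.2 α⟫ ∂((stdGaussian V).prod (stdGaussian V)) := by
  have hC0 : 0 ≤ C := (abs_nonneg _).trans (hb 0)
  have hgc : Continuous g := continuous_iff_continuousAt.mpr fun v => (hg v).continuousAt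
  have hu : Continuous fun z : V × V => uu z.1 z.2 α := by unfold uu; fun_prop
  have hv : Continuous fun z : V × V => vv z.1 z.2 α := by unfold vv; fun_prop
  rw [integral_rot α (by fun_prop), integral_rot α (f := fun z => g z * ⟪T (uu z.1 z.2 α), vv z.1 z.2 α⟫)
    (by fun_prop)]
  simp only [uu_rot, vv_rot]
  -- the linear map `v ↦ (sin α v, cos α v)`
  set L : V →L[ℝ] V × V := (Real.sin α • ContinuousLinearMap.id ℝ V).prod
    (Real.cos α • ContinuousLinearMap.id ℝ V) with hL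
  have hLa : ∀ k, L k = (Real.sin α • k, Real.cos α • k) := fun k => rfl
  have hLn : ∀ k, ‖L k‖ ≤ ‖k‖ := by
    intro k
    rw [hLa, Prod.norm_def, norm_smul, norm_smul, Real.norm_eq_abs, Real.norm_eq_abs]
    have h1 := Real.abs_cos_le_one α
    have h2 := Real.abs_sin_le_one α
    exact max_le (by nlinarith [norm_nonneg k]) (by nlinarith [norm_nonneg k])
  have hLn' : ‖L‖ ≤ 1 := L.opNorm_le_bound zero_le_one fun k => by rw [one_mul]; exact hLn k
  set r : V × V → V × V := fun z =>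
    (Real.cos α • z.1 + Real.sin α • z.2, -Real.sin α • z.1 + Real.cos α • z.2) with hr
  have hrc : Continuous r := by fun_prop
  have key : ∀ u : V, ∫ v, Dg (r (u, v)) (L (T u)) ∂(stdGaussian V) =
      ∫ v, g (r (u, v)) * ⟪T u, v⟫ ∂(stdGaussian V) := by
    intro u
    refine stein (f := fun v => g (r (u, v))) (Df := fun v => (Dg (r (u, v))).comp L) ?_ ?_ (C := C)
      ?_ ?_ (T u)
    · intro v
      have h1 : HasFDerivAt (fun v : V => r (u, v)) L v := by
        have h2 : HasFDerivAt (fun v : V => L v + (Real.cos α • u, -Real.sin α • u)) L v :=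
          L.hasFDerivAt.add_const _
        refine h2.congr_of_eventuallyEq (Filter.Eventually.of_forall fun v => ?_)
        show (Real.cos α • u + Real.sin α • v, -Real.sin α • u + Real.cos α • v) =
          L v + (Real.cos α • u, -Real.sin α • u)
        rw [hLa, Prod.mk_add_mk, add_comm, add_comm (Real.cos α • v)]
      exact (hg _).comp v h1
    · fun_prop
    · intro v
      refine (ContinuousLinearMap.opNorm_comp_le _ _).trans ?_
      calc ‖Dg (r (u, v))‖ * ‖L‖ ≤ C * 1 := mul_le_mul (hC _) hLn' (by positivity) hC0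
        _ = C := mul_one C
    · intro v
      exact hb _
  have i1 : Integrable (fun z : V × V => Dg (r z) (L (T z.1))) ((stdGaussian V).prod (stdGaussian V)) := by
    refine integrable_of_growth2 (C := C) (Continuous.aestronglyMeasurable (by fun_prop)) fun z => ?_
    have h1 := (Dg (r z)).le_opNorm (L (T z.1))
    rw [Real.norm_eq_abs] at h1
    have h2 : ‖L (T z.1)‖ ≤ ‖z.1‖ := (hLn _).trans (hTn _)
    have h3 : ‖z.1‖ ≤ 1 + ‖z.1‖ ^ 2 + ‖z.2‖ ^ 2 := by
      have := lin_le_quad z.1 z.2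
      linarith [norm_nonneg z.2]
    calc |Dg (r z) (L (T z.1))| ≤ ‖Dg (r z)‖ * ‖L (T z.1)‖ := h1
      _ ≤ C * (1 + ‖z.1‖ ^ 2 + ‖z.2‖ ^ 2) :=
        mul_le_mul (hC _) (h2.trans h3) (norm_nonneg _) hC0
  have i2 : Integrable (fun z : V × V => g (r z) * ⟪T z.1, z.2⟫) ((stdGaussian V).prod (stdGaussian V)) := by
    refine integrable_of_growth2 (C := C) (Continuous.aestronglyMeasurable (by fun_prop)) fun z => ?_
    rw [abs_mul]
    have h1 := abs_real_inner_le_norm (T z.1) z.2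
    have h2 : ‖T z.1‖ * ‖z.2‖ ≤ 1 + ‖z.1‖ ^ 2 + ‖z.2‖ ^ 2 := by
      have := mul_le_mul_of_nonneg_right (hTn z.1) (norm_nonneg z.2)
      nlinarith [sq_nonneg (‖z.1‖ - ‖z.2‖), sq_nonneg ‖z.1‖, sq_nonneg ‖z.2‖]
    exact mul_le_mul (hb _) (h1.trans h2) (abs_nonneg _) hC0
  show ∫ z, Dg (r z) (L (T z.1)) ∂((stdGaussian V).prod (stdGaussian V)) =
    ∫ z, g (r z) * ⟪T z.1, z.2⟫ ∂((stdGaussian V).prod (stdGaussian V))
  rw [integral_prod _ i1, integral_prod _ i2]
  exact integral_congr_ae (Filter.Eventually.of_forall fun u => key u)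

/-- integration by parts, the identity part -/
theorem ibp_id {g : V × V → ℝ} {Dg : V × V → V × V →L[ℝ] ℝ} (hg : ∀ z, HasFDerivAt g (Dg z) z)
    (hc : Continuous Dg) {C : ℝ} (hC : ∀ z, ‖Dg z‖ ≤ C) (hb : ∀ z, |g z| ≤ C) :
    ∫ z, Dg z (z.1, 0) ∂((stdGaussian V).prod (stdGaussian V)) =
      ∫ z, g z * (‖z.1‖ ^ 2 - finrank ℝ V) ∂((stdGaussian V).prod (stdGaussian V)) := by
  have hC0 : 0 ≤ C := (abs_nonneg _).trans (hb 0)
  have hgc : Continuous g := continuous_iff_continuousAt.mpr fun v => (hg v).continuousAt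
  have key : ∀ w : V, ∫ x, Dg (x, w) (x, 0) ∂(stdGaussian V) =
      ∫ x, g (x, w) * (‖x‖ ^ 2 - finrank ℝ V) ∂(stdGaussian V) := by
    intro w
    refine stein_id (f := fun x => g (x, w))
      (Df := fun x => (Dg (x, w)).comp (ContinuousLinearMap.inl ℝ V V)) ?_ ?_ (C := C) ?_ ?_
    · intro x
      exact (hg _).comp x (hasFDerivAt_prodMk_left x w)
    · fun_prop
    · intro x
      refine (ContinuousLinearMap.opNorm_comp_le _ _).trans ?_
      calc ‖Dg (x, w)‖ * ‖ContinuousLinearMap.inl ℝ V V‖ ≤ C * 1 :=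
            mul_le_mul (hC _) (ContinuousLinearMap.norm_inl_le_one ℝ V V) (by positivity) hC0
        _ = C := mul_one C
    · intro x
      exact hb _
  have i1 : Integrable (fun z : V × V => Dg z (z.1, 0)) ((stdGaussian V).prod (stdGaussian V)) := by
    refine integrable_of_growth2 (C := C) (Continuous.aestronglyMeasurable (by fun_prop)) fun z => ?_
    have h1 := (Dg z).le_opNorm (z.1, 0)
    rw [Real.norm_eq_abs] at h1
    have h2 : ‖((z.1, 0) : V × V)‖ = ‖z.1‖ := by simp [Prod.norm_def]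
    have h3 : ‖z.1‖ ≤ 1 + ‖z.1‖ ^ 2 + ‖z.2‖ ^ 2 := by
      have := lin_le_quad z.1 z.2
      linarith [norm_nonneg z.2]
    rw [h2] at h1
    exact h1.trans (mul_le_mul (hC _) h3 (norm_nonneg _) hC0)
  have i2 : Integrable (fun z : V × V => g z * (‖z.1‖ ^ 2 - finrank ℝ V))
      ((stdGaussian V).prod (stdGaussian V)) := by
    refine integrable_of_growth2 (C := C * (1 + finrank ℝ V))
      (Continuous.aestronglyMeasurable (by fun_prop)) fun z => ?_
    rw [abs_mul, mul_assoc]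
    refine mul_le_mul (hb _) ?_ (abs_nonneg _) hC0
    have h1 : (0 : ℝ) ≤ finrank ℝ V := Nat.cast_nonneg _
    have h2 : 0 ≤ ‖z.1‖ ^ 2 := by positivity
    have h3 : 0 ≤ ‖z.2‖ ^ 2 := by positivity
    rw [abs_le]
    constructor
    · nlinarith
    · nlinarith [mul_nonneg h1 h2, mul_nonneg h1 h3]
  rw [integral_prod_symm _ i1, integral_prod_symm _ i2]
  exact integral_congr_ae (Filter.Eventually.of_forall fun w => key w)

/-- ROW F -/
theorem ibp (h : SD S) (hP : Pr S P) {g : V × V → ℝ} {Dg : V × V → V × V →L[ℝ] ℝ}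
    (hg : ∀ z, HasFDerivAt g (Dg z) z) (hc : Continuous Dg) {C : ℝ} (hC : ∀ z, ‖Dg z‖ ≤ C) (hb : ∀ z, |g z| ≤ C) :
    ∫ z, (Dg z (z.1, 0) - ∫ α in (0 : ℝ)..Real.pi,
        Dg z (Real.sin α • TT P (uu z.1 z.2 α), Real.cos α • TT P (uu z.1 z.2 α)))
        ∂((stdGaussian V).prod (stdGaussian V)) =
      ∫ z, g z * (‖z.1‖ ^ 2 - finrank ℝ V - ⟪z.1, TT P z.1⟫) ∂((stdGaussian V).prod (stdGaussian V)) := by
  have hC0 : 0 ≤ C := (abs_nonneg _).trans (hb 0)
  have hgc : Continuous g := continuous_iff_continuousAt.mpr fun v => (hg v).continuousAt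
  have hT : Continuous (TT P) := continuous_TT h hP
  have hTn := norm_TT_le h hP
  set μ := (stdGaussian V).prod (stdGaussian V) with hμ
  have hu : Continuous fun q : ℝ × (V × V) => uu q.2.1 q.2.2 q.1 := by unfold uu; fun_prop
  have hv : Continuous fun q : ℝ × (V × V) => vv q.2.1 q.2.2 q.1 := by unfold vv; fun_prop
  have hq : ∀ (z : V × V), 0 ≤ 1 + ‖z.1‖ ^ 2 + ‖z.2‖ ^ 2 := fun z => by positivity
  -- the integrands
  set F₁ : ℝ → V × V → ℝ := fun α z =>
    Dg z (Real.sin α • TT P (uu z.1 z.2 α), Real.cos α • TT P (uu z.1 z.2 α)) with hF₁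
  set F₂ : ℝ → V × V → ℝ := fun α z => g z * ⟪TT P (uu z.1 z.2 α), vv z.1 z.2 α⟫ with hF₂
  have c1 : Continuous (Function.uncurry F₁) := by
    show Continuous fun q : ℝ × (V × V) => Dg q.2 (Real.sin q.1 • TT P (uu q.2.1 q.2.2 q.1),
      Real.cos q.1 • TT P (uu q.2.1 q.2.2 q.1))
    fun_prop
  have c2 : Continuous (Function.uncurry F₂) := by
    show Continuous fun q : ℝ × (V × V) => g q.2 * ⟪TT P (uu q.2.1 q.2.2 q.1), vv q.2.1 q.2.2 q.1⟫
    fun_prop
  have b1 : ∀ α z, |F₁ α z| ≤ C * (1 + ‖z.1‖ ^ 2 + ‖z.2‖ ^ 2) := by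
    intro α z
    have h1 := (Dg z).le_opNorm (Real.sin α • TT P (uu z.1 z.2 α), Real.cos α • TT P (uu z.1 z.2 α))
    rw [Real.norm_eq_abs] at h1
    have h2 : ‖((Real.sin α • TT P (uu z.1 z.2 α), Real.cos α • TT P (uu z.1 z.2 α)) : V × V)‖ ≤
        1 + ‖z.1‖ ^ 2 + ‖z.2‖ ^ 2 := by
      rw [Prod.norm_def, norm_smul, norm_smul, Real.norm_eq_abs, Real.norm_eq_abs]
      have h3 := Real.abs_cos_le_one α
      have h4 := Real.abs_sin_le_one α
      have h5 : ‖TT P (uu z.1 z.2 α)‖ ≤ 1 + ‖z.1‖ ^ 2 + ‖z.2‖ ^ 2 :=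
        (hTn _).trans ((norm_uu_le _ _ _).trans (lin_le_quad _ _))
      have h6 := norm_nonneg (TT P (uu z.1 z.2 α))
      exact max_le (by nlinarith [abs_nonneg (Real.sin α)]) (by nlinarith [abs_nonneg (Real.cos α)])
    exact h1.trans (mul_le_mul (hC _) h2 (norm_nonneg _) hC0)
  have b2 : ∀ α z, |F₂ α z| ≤ (2 * C) * (1 + ‖z.1‖ ^ 2 + ‖z.2‖ ^ 2) := by
    intro α z
    show |g z * _| ≤ _
    rw [abs_mul]
    have h1 := abs_real_inner_le_norm (TT P (uu z.1 z.2 α)) (vv z.1 z.2 α)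
    have h2 : ‖TT P (uu z.1 z.2 α)‖ * ‖vv z.1 z.2 α‖ ≤ 2 * (1 + ‖z.1‖ ^ 2 + ‖z.2‖ ^ 2) := by
      have h3 := mul_le_mul ((hTn _).trans (norm_uu_le z.1 z.2 α)) (norm_vv_le z.1 z.2 α)
        (norm_nonneg _) (by positivity)
      nlinarith [sq_nonneg (‖z.1‖ - ‖z.2‖)]
    calc |g z| * |⟪TT P (uu z.1 z.2 α), vv z.1 z.2 α⟫| ≤ C * (2 * (1 + ‖z.1‖ ^ 2 + ‖z.2‖ ^ 2)) :=
          mul_le_mul (hb _) (h1.trans h2) (abs_nonneg _) hC0
      _ = _ := by ring
  have iq : Integrable (fun z : V × V => 1 + ‖z.1‖ ^ 2 + ‖z.2‖ ^ 2) μ := by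
    refine integrable_of_growth2 (C := 1) (Continuous.aestronglyMeasurable (by fun_prop)) fun z => ?_
    rw [abs_of_nonneg (hq z), one_mul]
  have ib : ∀ {F : ℝ → V × V → ℝ} {C' : ℝ}, Continuous (Function.uncurry F) →
      (∀ α z, |F α z| ≤ C' * (1 + ‖z.1‖ ^ 2 + ‖z.2‖ ^ 2)) →
      Integrable (Function.uncurry F) ((volume.restrict (Set.uIoc 0 Real.pi)).prod μ) := by
    intro F C' hF hFb
    have hfin : IsFiniteMeasure (volume.restrict (Set.uIoc 0 Real.pi)) := by
      rw [Set.uIoc_of_le Real.pi_pos.le]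
      infer_instance
    have h1 : Integrable (fun q : ℝ × (V × V) => C' * (1 + ‖q.2.1‖ ^ 2 + ‖q.2.2‖ ^ 2))
        ((volume.restrict (Set.uIoc 0 Real.pi)).prod μ) :=
      (iq.comp_snd (volume.restrict (Set.uIoc 0 Real.pi))).const_mul C'
    exact h1.mono' hF.aestronglyMeasurable (Filter.Eventually.of_forall fun q => hFb q.1 q.2)
  have s1 := intervalIntegral_integral_swap (ib c1 b1)
  have s2 := intervalIntegral_integral_swap (ib c2 b2)
  have e1 : ∀ α, ∫ z, F₁ α z ∂μ = ∫ z, F₂ α z ∂μ := fun α => ibp_rot hT hTn hg hc hC hb α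
  have e2 : ∀ z : V × V, ∫ α in (0 : ℝ)..Real.pi, F₂ α z = g z * ⟪z.1, TT P z.1⟫ := by
    intro z
    show ∫ α in (0 : ℝ)..Real.pi, g z * ⟪TT P (uu z.1 z.2 α), vv z.1 z.2 α⟫ = _
    rw [intervalIntegral.integral_const_mul, integral_TT h hP]
  have j1 : Integrable (fun z : V × V => Dg z (z.1, 0)) μ := by
    refine integrable_of_growth2 (C := C) (Continuous.aestronglyMeasurable (by fun_prop)) fun z => ?_
    have h1 := (Dg z).le_opNorm (z.1, 0)
    rw [Real.norm_eq_abs] at h1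
    have h2 : ‖((z.1, 0) : V × V)‖ = ‖z.1‖ := by simp [Prod.norm_def]
    have h3 : ‖z.1‖ ≤ 1 + ‖z.1‖ ^ 2 + ‖z.2‖ ^ 2 := by
      have := lin_le_quad z.1 z.2
      linarith [norm_nonneg z.2]
    rw [h2] at h1
    exact h1.trans (mul_le_mul (hC _) h3 (norm_nonneg _) hC0)
  have j2 : Integrable (fun z : V × V => ∫ α in (0 : ℝ)..Real.pi, F₁ α z) μ := by
    have := (ib c1 b1).integral_prod_right
    simpa [intervalIntegral, Real.pi_pos.le] using this
  have j3 : Integrable (fun z : V × V => g z * (‖z.1‖ ^ 2 - finrank ℝ V)) μ := by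
    refine integrable_of_growth2 (C := C * (1 + finrank ℝ V))
      (Continuous.aestronglyMeasurable (by fun_prop)) fun z => ?_
    rw [abs_mul, mul_assoc]
    refine mul_le_mul (hb _) ?_ (abs_nonneg _) hC0
    have h1 : (0 : ℝ) ≤ finrank ℝ V := Nat.cast_nonneg _
    have h2 : 0 ≤ ‖z.1‖ ^ 2 := by positivity
    have h3 : 0 ≤ ‖z.2‖ ^ 2 := by positivity
    rw [abs_le]
    constructor
    · nlinarith
    · nlinarith [mul_nonneg h1 h2, mul_nonneg h1 h3]
  have j4 : Integrable (fun z : V × V => g z * ⟪z.1, TT P z.1⟫) μ := by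
    refine integrable_of_growth2 (C := C) (Continuous.aestronglyMeasurable (by fun_prop)) fun z => ?_
    rw [abs_mul]
    have h1 := abs_real_inner_le_norm z.1 (TT P z.1)
    have h2 : ‖z.1‖ * ‖TT P z.1‖ ≤ 1 + ‖z.1‖ ^ 2 + ‖z.2‖ ^ 2 := by
      have := mul_le_mul_of_nonneg_left (hTn z.1) (norm_nonneg z.1)
      nlinarith [sq_nonneg ‖z.1‖, sq_nonneg ‖z.2‖]
    exact mul_le_mul (hb _) (h1.trans h2) (abs_nonneg _) hC0
  rw [integral_sub j1 j2, ibp_id hg hc hC hb, ← s1]
  simp only [e1]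
  rw [s2]
  simp only [e2]
  rw [← integral_sub j3 j4]
  refine integral_congr_ae (Filter.Eventually.of_forall fun z => ?_)
  show g z * (‖z.1‖ ^ 2 - finrank ℝ V) - g z * ⟪z.1, TT P z.1⟫ = _
  ring

end

end PCS
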