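import Pool.Agent.PCS.Bas

/-!
# The pointwise inequality (row P, helper14)
-/

set_option autoImplicit false

open MeasureTheory ProbabilityTheory Module
open scoped RealInnerProductSpace

namespace PCS

section
variable {V : Type*} [NormedAddCommGroup V] [InnerProductSpace ℝ V]
variable {S : Set V} {P : V → V}

/-! ### Trigonometric integrals -/

/-- An antiderivative of `sin (φ - α) (p cos α - q sin α)`. -/
noncomputable def ptG (φ p q α : ℝ) : ℝ :=
  p * (α * Real.sin φ / 2 + Real.cos (φ - 2 * α) / 4) +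
    q * (Real.sin (φ - 2 * α) / 4 + α * Real.cos φ / 2)

theorem pt_hasDerivAt (φ p q α : ℝ) : HasDerivAt (ptG φ p q)
    (Real.sin (φ - α) * (p * Real.cos α - q * Real.sin α)) α := by
  have h1 : HasDerivAt (fun α : ℝ => φ - 2 * α) (-2) α := by
    have := ((hasDerivAt_id α).const_mul 2).const_sub φ
    simpa using this
  have h2 : HasDerivAt (fun α : ℝ => Real.cos (φ - 2 * α)) (-Real.sin (φ - 2 * α) * -2) α :=
    (Real.hasDerivAt_cos _).comp α h1
  have h3 : HasDerivAt (fun α : ℝ => Real.sin (φ - 2 * α)) (Real.cos (φ - 2 * α) * -2) α :=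
    (Real.hasDerivAt_sin _).comp α h1
  have h4 : HasDerivAt (fun α : ℝ => α * Real.sin φ / 2) (1 * Real.sin φ / 2) α :=
    ((hasDerivAt_id α).mul_const _).div_const 2
  have h5 : HasDerivAt (fun α : ℝ => α * Real.cos φ / 2) (1 * Real.cos φ / 2) α :=
    ((hasDerivAt_id α).mul_const _).div_const 2
  have h6 := ((h4.add (h2.div_const 4)).const_mul p).add ((h3.div_const 4).add h5 |>.const_mul q)
  have h7 : Real.sin (φ - 2 * α) = Real.sin φ * (2 * Real.cos α ^ 2 - 1) -
      Real.cos φ * (2 * Real.sin α * Real.cos α) := by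
    rw [Real.sin_sub, Real.cos_two_mul, Real.sin_two_mul]
  have h8 : Real.cos (φ - 2 * α) = Real.cos φ * (2 * Real.cos α ^ 2 - 1) +
      Real.sin φ * (2 * Real.sin α * Real.cos α) := by
    rw [Real.cos_sub, Real.cos_two_mul, Real.sin_two_mul]
  have h9 : p * (1 * Real.sin φ / 2 + -Real.sin (φ - 2 * α) * -2 / 4) +
      q * (Real.cos (φ - 2 * α) * -2 / 4 + 1 * Real.cos φ / 2) =
      Real.sin (φ - α) * (p * Real.cos α - q * Real.sin α) := by
    rw [h7, h8, Real.sin_sub]
    have h10 := Real.sin_sq_add_cos_sq α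
    have h11 : Real.cos α ^ 2 = 1 - Real.sin α ^ 2 := by linarith
    ring_nf
    rw [h11]
    ring
  rw [← h9]
  exact h6

theorem pt_cont (φ p q : ℝ) :
    Continuous fun α : ℝ => Real.sin (φ - α) * (p * Real.cos α - q * Real.sin α) := by
  fun_prop

theorem pt_int (φ p q a b : ℝ) :
    ∫ α in a..b, Real.sin (φ - α) * (p * Real.cos α - q * Real.sin α) =
      ptG φ p q b - ptG φ p q a :=
  intervalIntegral.integral_eq_sub_of_hasDerivAt (fun α _ => pt_hasDerivAt φ p q α)
    ((pt_cont φ p q).intervalIntegrable a b)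

theorem pt_sum (φ p q : ℝ) :
    Real.cos φ * p + ((ptG φ p q φ - ptG φ p q 0) - (ptG φ p q Real.pi - ptG φ p q φ)) =
      (Real.cos φ * p - Real.sin φ * q) -
        (Real.pi / 2 - φ) * (Real.sin φ * p + Real.cos φ * q) := by
  unfold ptG
  have h1 : φ - 2 * φ = -φ := by ring
  have h2 : φ - 2 * 0 = φ := by ring
  rw [h1, h2, Real.cos_neg, Real.sin_neg, Real.cos_sub_two_pi, Real.sin_sub_two_pi]
  ring

/-! ### The arc -/

theorem uu_eval (L : V →L[ℝ] ℝ) (x w : V) (α : ℝ) :
    L (uu x w α) = L x * Real.cos α - L w * Real.sin α := by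
  unfold uu
  rw [map_sub, map_smul, map_smul, smul_eq_mul, smul_eq_mul]
  ring

theorem vv_eval (L : V →L[ℝ] ℝ) (x w : V) (α : ℝ) :
    L (vv x w α) = L x * Real.sin α + L w * Real.cos α := by
  unfold vv
  rw [map_add, map_smul, map_smul, smul_eq_mul, smul_eq_mul]
  ring

theorem uu_cont (x w : V) : Continuous (uu x w) := by
  unfold uu
  fun_prop

theorem pt_x_mem (h : SD S) {x w : V} {φ : ℝ} (h0 : 0 ≤ φ) (h1 : φ ≤ Real.pi / 4)
    (hu : uu x w φ ∈ S) (hu' : uu x (-w) φ ∈ S) : x ∈ S := by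
  have hc : 0 < Real.cos φ := by
    apply Real.cos_pos_of_mem_Ioo
    constructor
    · linarith [Real.pi_pos]
    · linarith [Real.pi_pos]
  have h2 : x = (2 * Real.cos φ)⁻¹ • (uu x w φ + uu x (-w) φ) := by
    have h3 : uu x w φ + uu x (-w) φ = (2 * Real.cos φ) • x := by
      unfold uu
      rw [smul_neg]
      module
    rw [h3, smul_smul, inv_mul_cancel₀ (by positivity), one_smul]
  rw [h2]
  exact h.smul (by positivity) (h.add hu hu')

theorem pt_arc (h : SD S) {x w : V} {φ : ℝ} (h0 : 0 ≤ φ) (h1 : φ ≤ Real.pi / 4)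
    (hu : uu x w φ ∈ S) (hu' : uu x (-w) φ ∈ S) {α : ℝ} (ha : 0 ≤ α) (ha' : α ≤ φ) :
    uu x w α ∈ S := by
  have hx := pt_x_mem h h0 h1 hu hu'
  rcases h0.eq_or_lt with h2 | h2
  · have h3 : α = φ := by linarith
    rw [h3]
    exact hu
  · have hs : 0 < Real.sin φ := Real.sin_pos_of_pos_of_lt_pi h2 (by linarith [Real.pi_pos])
    have hs1 : 0 ≤ Real.sin α := Real.sin_nonneg_of_nonneg_of_le_pi ha (by linarith [Real.pi_pos])
    have hs2 : 0 ≤ Real.sin (φ - α) :=
      Real.sin_nonneg_of_nonneg_of_le_pi (by linarith) (by linarith [Real.pi_pos])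
    have h3 : uu x w α = (Real.sin φ)⁻¹ • (Real.sin (φ - α) • x + Real.sin α • uu x w φ) := by
      have h4 : Real.sin (φ - α) • x + Real.sin α • uu x w φ = Real.sin φ • uu x w α := by
        unfold uu
        rw [Real.sin_sub]
        module
      rw [h4, smul_smul, inv_mul_cancel₀ hs.ne', one_smul]
    rw [h3]
    exact h.smul (by positivity) (h.add (h.smul hs2 hx) (h.smul hs1 hu))

theorem point1 (h : SD S) (hP : Pr S P) {x w : V} {φ : ℝ} (h0 : 0 ≤ φ) (h1 : φ ≤ Real.pi / 4)
    (hu : uu x w φ ∈ S) (hu' : uu x (-w) φ ∈ S) (L : V →L[ℝ] ℝ) (hL : ∀ k ∈ S, 0 ≤ L k) :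
    Real.cos φ * L x + ∫ α in (0 : ℝ)..Real.pi, Real.sin (φ - α) * L (TT P (uu x w α)) ≤
      L (uu x w φ) - (Real.pi / 2 - φ) * L (vv x w φ) := by
  have hpi := Real.pi_pos
  have hcont : Continuous fun α : ℝ => Real.sin (φ - α) * L (TT P (uu x w α)) := by
    have h2 : Continuous fun α : ℝ => L (TT P (uu x w α)) :=
      L.continuous.comp ((TT_lip h hP).continuous.comp (uu_cont x w))
    have h3 : Continuous fun α : ℝ => Real.sin (φ - α) := by fun_prop
    exact h3.mul h2
  have hint : ∀ a b : ℝ, IntervalIntegrable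
      (fun α : ℝ => Real.sin (φ - α) * L (TT P (uu x w α))) volume a b :=
    fun a b => hcont.intervalIntegrable a b
  rw [← intervalIntegral.integral_add_adjacent_intervals (hint 0 φ) (hint φ Real.pi)]
  have e1 : ∫ α in (0 : ℝ)..φ, Real.sin (φ - α) * L (TT P (uu x w α)) =
      ptG φ (L x) (L w) φ - ptG φ (L x) (L w) 0 := by
    rw [← pt_int]
    apply intervalIntegral.integral_congr
    intro α hα
    rw [Set.uIcc_of_le h0] at hα
    show Real.sin (φ - α) * L (TT P (uu x w α)) = _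
    rw [TT_of_mem h hP (pt_arc h h0 h1 hu hu' hα.1 hα.2), uu_eval]
  have e2 : ∫ α in φ..Real.pi, Real.sin (φ - α) * L (TT P (uu x w α)) ≤
      -(ptG φ (L x) (L w) Real.pi - ptG φ (L x) (L w) φ) := by
    rw [← pt_int, ← intervalIntegral.integral_neg]
    apply intervalIntegral.integral_mono_on (by linarith) (hint φ Real.pi)
      ((pt_cont φ (L x) (L w)).neg.intervalIntegrable _ _)
    intro α hα
    have h2 : Real.sin (φ - α) ≤ 0 := by
      have h3 : 0 ≤ Real.sin (α - φ) :=
        Real.sin_nonneg_of_nonneg_of_le_pi (by linarith [hα.1]) (by linarith [hα.2])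
      have h4 : Real.sin (φ - α) = -Real.sin (α - φ) := by
        rw [← Real.sin_neg]
        congr 1
        ring
      linarith
    have h3 : 0 ≤ L (TT P (uu x w α)) + L (uu x w α) := by
      rw [← map_add]
      exact hL _ (TT_add_mem h hP _)
    rw [uu_eval] at h3
    show Real.sin (φ - α) * L (TT P (uu x w α)) ≤
      -(Real.sin (φ - α) * (L x * Real.cos α - L w * Real.sin α))
    nlinarith
  have h2 := pt_sum φ (L x) (L w)
  rw [uu_eval, vv_eval]
  linarith

theorem point2 (h : SD S) (hP : Pr S P) {x w : V} {φ : ℝ} (h0 : 0 ≤ φ) (h1 : φ ≤ Real.pi / 4)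
    (hu : uu x w φ ∈ S) (hu' : uu x (-w) φ ∈ S) (L : V →L[ℝ] ℝ) (hL : ∀ k ∈ S, 0 ≤ L k) :
    Real.cos φ * L x - ∫ α in (0 : ℝ)..Real.pi, Real.sin (φ + α) * L (TT P (uu x w α)) ≤
      L (uu x (-w) φ) - (Real.pi / 2 - φ) * L (vv x (-w) φ) := by
  refine le_trans (le_of_eq ?_) (point1 h hP h0 h1 hu' (by rw [neg_neg]; exact hu) L hL)
  have h2 : ∫ α in (0 : ℝ)..Real.pi, Real.sin (φ - α) * L (TT P (uu x (-w) α)) =
      ∫ α in (0 : ℝ)..Real.pi, -(Real.sin (φ + α) * L (TT P (uu x w α))) := by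
    have h3 := intervalIntegral.integral_comp_sub_left (a := 0) (b := Real.pi)
      (fun α : ℝ => Real.sin (φ - α) * L (TT P (uu x (-w) α))) Real.pi
    rw [sub_self, sub_zero] at h3
    rw [← h3]
    refine intervalIntegral.integral_congr fun α _ => ?_
    show Real.sin (φ - (Real.pi - α)) * L (TT P (uu x (-w) (Real.pi - α))) =
      -(Real.sin (φ + α) * L (TT P (uu x w α)))
    have h4 : Real.sin (φ - (Real.pi - α)) = -Real.sin (φ + α) := by
      have h5 : φ - (Real.pi - α) = φ + α - Real.pi := by ring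
      rw [h5, Real.sin_sub_pi]
    have h5 : uu x (-w) (Real.pi - α) = -uu x w α := by
      unfold uu
      rw [Real.cos_pi_sub, Real.sin_pi_sub]
      module
    rw [h4, h5, TT_neg h hP]
    ring
  rw [h2, intervalIntegral.integral_neg]
  ring

end

end PCS
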