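import Pool.Agent.PCS.Bas
import Pool.Agent.PCS.Point
import Pool.Agent.PCS.Ibp

/-!
# Row G: the monotone functional
-/

set_option autoImplicit false
set_option linter.unusedSectionVars false

open MeasureTheory ProbabilityTheory Module
open scoped RealInnerProductSpace

namespace PCS

section

variable {V : Type*} [NormedAddCommGroup V] [InnerProductSpace ℝ V]

/-- the first point -/
noncomputable def LA (V : Type*) [NormedAddCommGroup V] [InnerProductSpace ℝ V] (η : ℝ) :
    V × V →L[ℝ] V :=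
  η⁻¹ • (Real.sin η • ContinuousLinearMap.fst ℝ V V - Real.cos η • ContinuousLinearMap.snd ℝ V V)

/-- the second point -/
noncomputable def LB (V : Type*) [NormedAddCommGroup V] [InnerProductSpace ℝ V] (η : ℝ) :
    V × V →L[ℝ] V :=
  η⁻¹ • (Real.sin η • ContinuousLinearMap.fst ℝ V V + Real.cos η • ContinuousLinearMap.snd ℝ V V)

theorem LA_apply (η : ℝ) (z : V × V) :
    LA V η z = η⁻¹ • (Real.sin η • z.1 - Real.cos η • z.2) := by
  simp [LA]

theorem LB_apply (η : ℝ) (z : V × V) :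
    LB V η z = η⁻¹ • (Real.sin η • z.1 + Real.cos η • z.2) := by
  simp [LB]

/-- derivatives in `η` -/
noncomputable def dA (η : ℝ) (z : V × V) : V :=
  η⁻¹ • (Real.cos η • z.1 + Real.sin η • z.2) -
    (η ^ 2)⁻¹ • (Real.sin η • z.1 - Real.cos η • z.2)

/-- derivatives in `η` -/
noncomputable def dB (η : ℝ) (z : V × V) : V :=
  η⁻¹ • (Real.cos η • z.1 - Real.sin η • z.2) -
    (η ^ 2)⁻¹ • (Real.sin η • z.1 + Real.cos η • z.2)

theorem hasDerivAt_LA {η : ℝ} (hη : η ≠ 0) (z : V × V) :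
    HasDerivAt (fun s => LA V s z) (dA η z) η := by
  have h1 : HasDerivAt (fun s : ℝ => Real.sin s • z.1 - Real.cos s • z.2)
      (Real.cos η • z.1 - (-Real.sin η) • z.2) η :=
    ((Real.hasDerivAt_sin η).smul_const z.1).sub ((Real.hasDerivAt_cos η).smul_const z.2)
  have h2 := (hasDerivAt_inv hη).fun_smul h1
  have e : (fun s => LA V s z) = fun s => s⁻¹ • (Real.sin s • z.1 - Real.cos s • z.2) := by
    funext s
    exact LA_apply s z
  rw [e]
  refine h2.congr_deriv ?_
  unfold dA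
  rw [neg_smul, sub_neg_eq_add, neg_smul, ← sub_eq_add_neg]

theorem hasDerivAt_LB {η : ℝ} (hη : η ≠ 0) (z : V × V) :
    HasDerivAt (fun s => LB V s z) (dB η z) η := by
  have h1 : HasDerivAt (fun s : ℝ => Real.sin s • z.1 + Real.cos s • z.2)
      (Real.cos η • z.1 + (-Real.sin η) • z.2) η :=
    ((Real.hasDerivAt_sin η).smul_const z.1).add ((Real.hasDerivAt_cos η).smul_const z.2)
  have h2 := (hasDerivAt_inv hη).fun_smul h1
  have e : (fun s => LB V s z) = fun s => s⁻¹ • (Real.sin s • z.1 + Real.cos s • z.2) := by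
    funext s
    exact LB_apply s z
  rw [e]
  refine h2.congr_deriv ?_
  unfold dB
  rw [neg_smul, neg_smul, ← sub_eq_add_neg, ← sub_eq_add_neg]

theorem norm_comb_le {a b : ℝ} (ha : |a| ≤ 1) (hb : |b| ≤ 1) (x w : V) :
    ‖a • x + b • w‖ ≤ ‖x‖ + ‖w‖ := by
  refine (norm_add_le _ _).trans (add_le_add ?_ ?_)
  · rw [norm_smul, Real.norm_eq_abs]
    exact mul_le_of_le_one_left (norm_nonneg _) ha
  · rw [norm_smul, Real.norm_eq_abs]
    exact mul_le_of_le_one_left (norm_nonneg _) hb

theorem norm_comb_le' {a b : ℝ} (ha : |a| ≤ 1) (hb : |b| ≤ 1) (x w : V) :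
    ‖a • x - b • w‖ ≤ ‖x‖ + ‖w‖ := by
  rw [sub_eq_add_neg, ← neg_smul]
  exact norm_comb_le ha (by rwa [abs_neg]) x w

theorem dd_bound {η : ℝ} (hη : 1 / 2 < η) {p q : V} {n : ℝ} (hp : ‖p‖ ≤ n) (hq : ‖q‖ ≤ n) :
    ‖η⁻¹ • p - (η ^ 2)⁻¹ • q‖ ≤ 6 * n := by
  have h0 : 0 < η := by linarith
  have h1 : η⁻¹ ≤ 2 := by
    rw [inv_le_comm₀ h0 (by norm_num)]
    linarith
  have h2 : (η ^ 2)⁻¹ ≤ 4 := by
    rw [inv_le_comm₀ (by positivity) (by norm_num)]
    nlinarith
  have hn : 0 ≤ n := (norm_nonneg _).trans hp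
  refine (norm_sub_le _ _).trans ?_
  rw [norm_smul, norm_smul, Real.norm_of_nonneg (by positivity),
    Real.norm_of_nonneg (by positivity)]
  have h3 : η⁻¹ * ‖p‖ ≤ 2 * n := mul_le_mul h1 hp (norm_nonneg _) (by norm_num)
  have h4 : (η ^ 2)⁻¹ * ‖q‖ ≤ 4 * n := mul_le_mul h2 hq (norm_nonneg _) (by norm_num)
  linarith

theorem norm_dA_le {η : ℝ} (hη : 1 / 2 < η) (z : V × V) : ‖dA η z‖ ≤ 6 * (‖z.1‖ + ‖z.2‖) :=
  dd_bound hη (norm_comb_le (Real.abs_cos_le_one _) (Real.abs_sin_le_one _) _ _)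
    (norm_comb_le' (Real.abs_sin_le_one _) (Real.abs_cos_le_one _) _ _)

theorem norm_dB_le {η : ℝ} (hη : 1 / 2 < η) (z : V × V) : ‖dB η z‖ ≤ 6 * (‖z.1‖ + ‖z.2‖) :=
  dd_bound hη (norm_comb_le' (Real.abs_cos_le_one _) (Real.abs_sin_le_one _) _ _)
    (norm_comb_le (Real.abs_sin_le_one _) (Real.abs_cos_le_one _) _ _)

/-- the test function -/
noncomputable def gg (H : V → ℝ) (η : ℝ) (z : V × V) : ℝ := H (LA V η z) * H (LB V η z)

/-- its derivative in `η` -/
noncomputable def gg' (H : V → ℝ) (DH : V → V →L[ℝ] ℝ) (η : ℝ) (z : V × V) : ℝ :=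
  DH (LA V η z) (dA η z) * H (LB V η z) + H (LA V η z) * DH (LB V η z) (dB η z)

/-- its derivative in `z` -/
noncomputable def Dg (H : V → ℝ) (DH : V → V →L[ℝ] ℝ) (η : ℝ) (z : V × V) : V × V →L[ℝ] ℝ :=
  H (LA V η z) • (DH (LB V η z)).comp (LB V η) + H (LB V η z) • (DH (LA V η z)).comp (LA V η)

variable {S : Set V} {P : V → V} {H : V → ℝ} {DH : V → V →L[ℝ] ℝ}

theorem Test.cont_H (hT : Test S H DH) : Continuous H :=
  continuous_iff_continuousAt.2 fun u => (hT.der u).continuousAt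

theorem Test.DH_zero (hT : Test S H DH) {u : V} (hu : H u = 0) : DH u = 0 := by
  refine IsLocalMin.hasFDerivAt_eq_zero (f := H) ?_ (hT.der u)
  exact Filter.Eventually.of_forall fun y => by rw [hu]; exact hT.nonneg y

theorem Test.mem (hT : Test S H DH) {u : V} (hu : H u ≠ 0) : u ∈ S := by
  by_contra h
  exact hu (hT.supp u h)

theorem hasDerivAt_gg (hT : Test S H DH) {η : ℝ} (hη : η ≠ 0) (z : V × V) :
    HasDerivAt (fun s => gg H s z) (gg' H DH η z) η := by
  have h1 := (hT.der (LA V η z)).comp_hasDerivAt η (hasDerivAt_LA hη z)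
  have h2 := (hT.der (LB V η z)).comp_hasDerivAt η (hasDerivAt_LB hη z)
  exact h1.mul h2

theorem hasFDerivAt_gg (hT : Test S H DH) (η : ℝ) (z : V × V) :
    HasFDerivAt (gg H η) (Dg H DH η z) z := by
  have h1 := (hT.der (LA V η z)).comp z (LA V η).hasFDerivAt
  have h2 := (hT.der (LB V η z)).comp z (LB V η).hasFDerivAt
  exact h1.mul h2

theorem gg_nonneg (hT : Test S H DH) (η : ℝ) (z : V × V) : 0 ≤ gg H η z :=
  mul_nonneg (hT.nonneg _) (hT.nonneg _)

theorem gg_le_one (hT : Test S H DH) (η : ℝ) (z : V × V) : gg H η z ≤ 1 :=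
  mul_le_one₀ (hT.le_one _) (hT.nonneg _) (hT.le_one _)

theorem cont_gg (hT : Test S H DH) (η : ℝ) : Continuous (gg H η) :=
  (hT.cont_H.comp (LA V η).continuous).mul (hT.cont_H.comp (LB V η).continuous)

theorem cont_Dg (hT : Test S H DH) (η : ℝ) : Continuous (Dg H DH η) := by
  unfold Dg
  refine Continuous.add (Continuous.smul (hT.cont_H.comp (LA V η).continuous) ?_)
    (Continuous.smul (hT.cont_H.comp (LB V η).continuous) ?_)
  · exact (hT.cont.comp (LB V η).continuous).clm_comp continuous_const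
  · exact (hT.cont.comp (LA V η).continuous).clm_comp continuous_const

theorem cont_dA (η : ℝ) : Continuous (dA (V := V) η) := by
  unfold dA
  fun_prop

theorem cont_dB (η : ℝ) : Continuous (dB (V := V) η) := by
  unfold dB
  fun_prop

theorem cont_gg' (hT : Test S H DH) (η : ℝ) : Continuous (gg' H DH η) := by
  unfold gg'
  refine Continuous.add (Continuous.mul ?_ (hT.cont_H.comp (LB V η).continuous))
    (Continuous.mul (hT.cont_H.comp (LA V η).continuous) ?_)
  · exact (hT.cont.comp (LA V η).continuous).clm_apply (cont_dA η)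
  · exact (hT.cont.comp (LB V η).continuous).clm_apply (cont_dB η)

theorem norm_gg'_le (hT : Test S H DH) {C : ℝ} (hC : ∀ u, ‖DH u‖ ≤ C) {η : ℝ} (hη : 1 / 2 < η)
    (z : V × V) : ‖gg' H DH η z‖ ≤ 12 * C * (‖z.1‖ + ‖z.2‖) := by
  have hC0 : 0 ≤ C := (norm_nonneg _).trans (hC 0)
  have hH : ∀ u, |H u| ≤ 1 := fun u => abs_le.2 ⟨by linarith [hT.nonneg u], hT.le_one u⟩
  have h1 : ∀ u v, ‖DH u v‖ ≤ C * ‖v‖ := fun u v =>
    ((DH u).le_opNorm v).trans (mul_le_mul_of_nonneg_right (hC u) (norm_nonneg _))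
  unfold gg'
  refine (norm_add_le _ _).trans ?_
  rw [norm_mul, norm_mul, Real.norm_eq_abs (H _), Real.norm_eq_abs (H _)]
  have a1 : ‖DH (LA V η z) (dA η z)‖ ≤ C * (6 * (‖z.1‖ + ‖z.2‖)) :=
    (h1 _ _).trans (mul_le_mul_of_nonneg_left (norm_dA_le hη z) hC0)
  have a2 : ‖DH (LB V η z) (dB η z)‖ ≤ C * (6 * (‖z.1‖ + ‖z.2‖)) :=
    (h1 _ _).trans (mul_le_mul_of_nonneg_left (norm_dB_le hη z) hC0)
  have a3 : ‖DH (LA V η z) (dA η z)‖ * |H (LB V η z)| ≤ ‖DH (LA V η z) (dA η z)‖ :=
    mul_le_of_le_one_right (norm_nonneg _) (hH _)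
  have a4 : |H (LA V η z)| * ‖DH (LB V η z) (dB η z)‖ ≤ ‖DH (LB V η z) (dB η z)‖ :=
    mul_le_of_le_one_left (norm_nonneg _) (hH _)
  linarith

theorem norm_Dg_le (hT : Test S H DH) {C : ℝ} (hC : ∀ u, ‖DH u‖ ≤ C) (η : ℝ)
    (z : V × V) : ‖Dg H DH η z‖ ≤ C * (‖LB V η‖ + ‖LA V η‖) := by
  have hC0 : 0 ≤ C := (norm_nonneg _).trans (hC 0)
  have hH : ∀ u, |H u| ≤ 1 := fun u => abs_le.2 ⟨by linarith [hT.nonneg u], hT.le_one u⟩
  refine ContinuousLinearMap.opNorm_le_bound _ (by positivity) fun v => ?_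
  have e : Dg H DH η z v = H (LA V η z) * DH (LB V η z) (LB V η v) +
      H (LB V η z) * DH (LA V η z) (LA V η v) := by
    unfold Dg
    simp
  have key : ∀ (c : ℝ) (u : V) (L : V × V →L[ℝ] V), |c| ≤ 1 →
      ‖c * DH u (L v)‖ ≤ C * ‖L‖ * ‖v‖ := by
    intro c u L hc
    rw [norm_mul, Real.norm_eq_abs]
    have h1 : ‖DH u (L v)‖ ≤ C * ‖L v‖ :=
      ((DH u).le_opNorm _).trans (mul_le_mul_of_nonneg_right (hC u) (norm_nonneg _))
    have h2 : |c| * ‖DH u (L v)‖ ≤ ‖DH u (L v)‖ := mul_le_of_le_one_left (norm_nonneg _) hc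
    have h3 : C * ‖L v‖ ≤ C * (‖L‖ * ‖v‖) := mul_le_mul_of_nonneg_left (L.le_opNorm v) hC0
    rw [mul_assoc]
    exact h2.trans (h1.trans h3)
  rw [e]
  refine (norm_add_le _ _).trans ?_
  have a1 := key (H (LA V η z)) (LB V η z) (LB V η) (hH _)
  have a2 := key (H (LB V η z)) (LA V η z) (LA V η) (hH _)
  refine (add_le_add a1 a2).trans (le_of_eq ?_)
  ring

/-- the field applied to `g` -/
noncomputable def NN (P : V → V) (H : V → ℝ) (DH : V → V →L[ℝ] ℝ) (η : ℝ) (z : V × V) : ℝ :=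
  Dg H DH η z (z.1, 0) - ∫ α in (0 : ℝ)..Real.pi,
    Dg H DH η z (Real.sin α • TT P (uu z.1 z.2 α), Real.cos α • TT P (uu z.1 z.2 α))

theorem cont_uu (z : V × V) : Continuous fun α : ℝ => uu z.1 z.2 α := by
  unfold uu
  fun_prop

theorem Dg_apply (η : ℝ) (z : V × V) (k l : V) :
    Dg H DH η z (k, l) =
      H (LA V η z) * (η⁻¹ * (Real.sin η * DH (LB V η z) k + Real.cos η * DH (LB V η z) l)) +
      H (LB V η z) * (η⁻¹ * (Real.sin η * DH (LA V η z) k - Real.cos η * DH (LA V η z) l)) := by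
  unfold Dg
  simp only [add_apply, smul_apply, ContinuousLinearMap.comp_apply, LA_apply, LB_apply, smul_eq_mul, map_smul, map_add, map_sub]

/-- **The pointwise inequality.** -/
theorem pointwise (h : SD S) (hP : Pr S P) (hT : Test S H DH) {η : ℝ} (h0 : Real.pi / 4 ≤ η)
    (h1 : η ≤ Real.pi / 2) (z : V × V) : η * gg' H DH η z ≤ -NN P H DH η z := by
  have hη : 0 < η := lt_of_lt_of_le (by positivity) h0
  by_cases hA : H (LA V η z) = 0
  · have e1 : DH (LA V η z) = 0 := hT.DH_zero hA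
    have e2 : Dg H DH η z = 0 := by
      unfold Dg
      rw [hA, e1]
      simp
    unfold gg' NN
    rw [e1, hA, e2]
    simp
  by_cases hB : H (LB V η z) = 0
  · have e1 : DH (LB V η z) = 0 := hT.DH_zero hB
    have e2 : Dg H DH η z = 0 := by
      unfold Dg
      rw [hB, e1]
      simp
    unfold gg' NN
    rw [e1, hB, e2]
    simp
  have hAS := hT.mem hA
  have hBS := hT.mem hB
  have hA0 : 0 ≤ H (LA V η z) := hT.nonneg _
  have hB0 : 0 ≤ H (LB V η z) := hT.nonneg _
  have hcos : Real.cos (Real.pi / 2 - η) = Real.sin η := Real.cos_pi_div_two_sub η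
  have hsin : Real.sin (Real.pi / 2 - η) = Real.cos η := Real.sin_pi_div_two_sub η
  have eu : uu z.1 z.2 (Real.pi / 2 - η) = η • LA V η z := by
    rw [LA_apply, smul_smul, mul_inv_cancel₀ hη.ne', one_smul]
    unfold uu
    rw [hcos, hsin]
  have eu' : uu z.1 (-z.2) (Real.pi / 2 - η) = η • LB V η z := by
    rw [LB_apply, smul_smul, mul_inv_cancel₀ hη.ne', one_smul]
    unfold uu
    rw [hcos, hsin, smul_neg, sub_neg_eq_add]
  have ev : vv z.1 z.2 (Real.pi / 2 - η) = Real.cos η • z.1 + Real.sin η • z.2 := by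
    unfold vv
    rw [hcos, hsin]
  have ev' : vv z.1 (-z.2) (Real.pi / 2 - η) = Real.cos η • z.1 - Real.sin η • z.2 := by
    unfold vv
    rw [hcos, hsin, smul_neg, sub_eq_add_neg]
  have hu : uu z.1 z.2 (Real.pi / 2 - η) ∈ S := by
    rw [eu]
    exact h.smul hη.le hAS
  have hu' : uu z.1 (-z.2) (Real.pi / 2 - η) ∈ S := by
    rw [eu']
    exact h.smul hη.le hBS
  have p1 := point1 h hP (φ := Real.pi / 2 - η) (by linarith) (by linarith) hu hu'
    (DH (LA V η z)) (hT.mono _)
  have p2 := point2 h hP (φ := Real.pi / 2 - η) (by linarith) (by linarith) hu hu'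
    (DH (LB V η z)) (hT.mono _)
  rw [hcos, eu, ev, sub_sub_cancel, map_smul, map_add, map_smul, map_smul, smul_eq_mul,
    smul_eq_mul, smul_eq_mul] at p1
  rw [hcos, eu', ev', sub_sub_cancel, map_smul, map_sub, map_smul, map_smul, smul_eq_mul,
    smul_eq_mul, smul_eq_mul] at p2
  -- the derivative in `η`
  have q1 : η * DH (LA V η z) (dA η z) = Real.cos η * DH (LA V η z) z.1 +
      Real.sin η * DH (LA V η z) z.2 - DH (LA V η z) (LA V η z) := by
    have e : η • dA η z = Real.cos η • z.1 + Real.sin η • z.2 - LA V η z := by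
      unfold dA
      rw [smul_sub, smul_smul, mul_inv_cancel₀ hη.ne', one_smul, smul_smul, LA_apply]
      congr 2
      field_simp
    rw [← smul_eq_mul, ← map_smul, e, map_sub, map_add, map_smul, map_smul, smul_eq_mul,
      smul_eq_mul]
  have q2 : η * DH (LB V η z) (dB η z) = Real.cos η * DH (LB V η z) z.1 -
      Real.sin η * DH (LB V η z) z.2 - DH (LB V η z) (LB V η z) := by
    have e : η • dB η z = Real.cos η • z.1 - Real.sin η • z.2 - LB V η z := by
      unfold dB
      rw [smul_sub, smul_smul, mul_inv_cancel₀ hη.ne', one_smul, smul_smul, LB_apply]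
      congr 2
      field_simp
    rw [← smul_eq_mul, ← map_smul, e, map_sub, map_sub, map_smul, map_smul, smul_eq_mul,
      smul_eq_mul]
  -- the integral
  have hcT : Continuous fun α : ℝ => TT P (uu z.1 z.2 α) :=
    (TT_lip h hP).continuous.comp (cont_uu z)
  have hi1 : IntervalIntegrable (fun α => Real.sin (Real.pi / 2 - η - α) *
      DH (LA V η z) (TT P (uu z.1 z.2 α))) volume 0 Real.pi :=
    (Continuous.mul (by fun_prop) ((DH (LA V η z)).continuous.comp hcT)).intervalIntegrable _ _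
  have hi2 : IntervalIntegrable (fun α => Real.sin (Real.pi / 2 - η + α) *
      DH (LB V η z) (TT P (uu z.1 z.2 α))) volume 0 Real.pi :=
    (Continuous.mul (by fun_prop) ((DH (LB V η z)).continuous.comp hcT)).intervalIntegrable _ _
  have eN : NN P H DH η z = H (LA V η z) * (η⁻¹ * (Real.sin η * DH (LB V η z) z.1)) +
      H (LB V η z) * (η⁻¹ * (Real.sin η * DH (LA V η z) z.1)) -
      ((H (LA V η z) * η⁻¹) * (∫ α in (0 : ℝ)..Real.pi, Real.sin (Real.pi / 2 - η + α) *
        DH (LB V η z) (TT P (uu z.1 z.2 α))) -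
      (H (LB V η z) * η⁻¹) * ∫ α in (0 : ℝ)..Real.pi, Real.sin (Real.pi / 2 - η - α) *
        DH (LA V η z) (TT P (uu z.1 z.2 α))) := by
    unfold NN
    rw [← intervalIntegral.integral_const_mul, ← intervalIntegral.integral_const_mul,
      ← intervalIntegral.integral_sub (hi2.const_mul _) (hi1.const_mul _)]
    congr 1
    · rw [Dg_apply]
      simp
    · refine intervalIntegral.integral_congr fun α _ => ?_
      rw [Dg_apply, map_smul, map_smul, map_smul, map_smul]
      have s1 : Real.sin (Real.pi / 2 - η + α) = Real.cos (η - α) := by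
        rw [← Real.sin_pi_div_two_sub]
        congr 1
        ring
      have s2 : Real.sin (Real.pi / 2 - η - α) = Real.cos (η + α) := by
        rw [← Real.sin_pi_div_two_sub]
        congr 1
        ring
      rw [s1, s2, Real.cos_sub, Real.cos_add]
      simp only [smul_eq_mul]
      ring
  generalize (∫ α in (0 : ℝ)..Real.pi, Real.sin (Real.pi / 2 - η + α) *
        DH (LB V η z) (TT P (uu z.1 z.2 α))) = I2 at *
  generalize (∫ α in (0 : ℝ)..Real.pi, Real.sin (Real.pi / 2 - η - α) *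
        DH (LA V η z) (TT P (uu z.1 z.2 α))) = I1 at *
  have hi : 0 < η⁻¹ := inv_pos.2 hη
  have r1 : H (LB V η z) * (η * DH (LA V η z) (dA η z)) ≤
      H (LB V η z) * (-(η⁻¹ * (Real.sin η * DH (LA V η z) z.1 + I1))) := by
    refine mul_le_mul_of_nonneg_left ?_ hB0
    rw [q1]
    have := mul_le_mul_of_nonneg_left p1 hi.le
    have e : η⁻¹ * (η * DH (LA V η z) (LA V η z) - η * (Real.cos η * DH (LA V η z) z.1 +
        Real.sin η * DH (LA V η z) z.2)) = DH (LA V η z) (LA V η z) -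
        (Real.cos η * DH (LA V η z) z.1 + Real.sin η * DH (LA V η z) z.2) := by
      field_simp
    rw [e] at this
    linarith
  have r2 : H (LA V η z) * (η * DH (LB V η z) (dB η z)) ≤
      H (LA V η z) * (-(η⁻¹ * (Real.sin η * DH (LB V η z) z.1 - I2))) := by
    refine mul_le_mul_of_nonneg_left ?_ hA0
    rw [q2]
    have := mul_le_mul_of_nonneg_left p2 hi.le
    have e : η⁻¹ * (η * DH (LB V η z) (LB V η z) - η * (Real.cos η * DH (LB V η z) z.1 -
        Real.sin η * DH (LB V η z) z.2)) = DH (LB V η z) (LB V η z) -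
        (Real.cos η * DH (LB V η z) z.1 - Real.sin η * DH (LB V η z) z.2) := by
      field_simp
    rw [e] at this
    linarith
  rw [eN]
  unfold gg'
  have e3 : η * (DH (LA V η z) (dA η z) * H (LB V η z) + H (LA V η z) *
      DH (LB V η z) (dB η z)) = H (LB V η z) * (η * DH (LA V η z) (dA η z)) +
      H (LA V η z) * (η * DH (LB V η z) (dB η z)) := by ring
  rw [e3]
  refine (add_le_add r1 r2).trans (le_of_eq ?_)
  ring

end

section

variable {V : Type*} [NormedAddCommGroup V] [InnerProductSpace ℝ V] [FiniteDimensional ℝ V]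
  [MeasurableSpace V] [BorelSpace V] {S : Set V} {P : V → V} {H : V → ℝ} {DH : V → V →L[ℝ] ℝ}

theorem integrable_nn : Integrable (fun z : V × V => ‖z.1‖ + ‖z.2‖)
    ((stdGaussian V).prod (stdGaussian V)) := by
  have h : Integrable (fun v : V => ‖v‖) (stdGaussian V) :=
    (IsGaussian.integrable_id (μ := stdGaussian V)).norm
  exact (h.comp_fst (stdGaussian V)).add (h.comp_snd (stdGaussian V))

/-- the functional -/
noncomputable def FF (H : V → ℝ) (η : ℝ) : ℝ :=
  ∫ z, gg H η z ∂((stdGaussian V).prod (stdGaussian V))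

theorem hasDerivAt_FF (hT : Test S H DH) {η : ℝ} (hη : 1 / 2 < η) :
    Integrable (gg' H DH η) ((stdGaussian V).prod (stdGaussian V)) ∧
    HasDerivAt (FF H) (∫ z, gg' H DH η z ∂((stdGaussian V).prod (stdGaussian V))) η := by
  obtain ⟨C, hC⟩ := hT.bdd
  refine hasDerivAt_integral_of_dominated_loc_of_deriv_le (s := Set.Ioi (1 / 2))
    (F := fun s z => gg H s z) (F' := fun s z => gg' H DH s z)
    (bound := fun z => 12 * C * (‖z.1‖ + ‖z.2‖)) (Ioi_mem_nhds hη) ?_ ?_ ?_ ?_ ?_ ?_
  · exact Filter.Eventually.of_forall fun s => (cont_gg hT s).aestronglyMeasurable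
  · refine Integrable.of_bound (C := 1) (cont_gg hT η).aestronglyMeasurable
      (Filter.Eventually.of_forall fun z => ?_)
    rw [Real.norm_eq_abs, abs_of_nonneg (gg_nonneg hT η z)]
    exact gg_le_one hT η z
  · exact (cont_gg' hT η).aestronglyMeasurable
  · exact Filter.Eventually.of_forall fun z s hs => norm_gg'_le hT hC hs z
  · exact integrable_nn.const_mul _
  · refine Filter.Eventually.of_forall fun z s hs => hasDerivAt_gg hT ?_ z
    have hs' : (1 : ℝ) / 2 < s := hs
    linarith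

theorem cont_NN (h : SD S) (hP : Pr S P) (hT : Test S H DH) (η : ℝ) :
    Continuous (NN P H DH η) := by
  unfold NN
  refine Continuous.sub ((cont_Dg hT η).clm_apply (by fun_prop)) ?_
  refine intervalIntegral.continuous_parametric_intervalIntegral_of_continuous ?_
    continuous_const
  have hcT : Continuous fun q : (V × V) × ℝ => TT P (uu q.1.1 q.1.2 q.2) := by
    refine (TT_lip h hP).continuous.comp ?_
    unfold uu
    fun_prop
  refine ((cont_Dg hT η).comp continuous_fst).clm_apply ?_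
  exact Continuous.prodMk (Continuous.smul (by fun_prop) hcT) (Continuous.smul (by fun_prop) hcT)

theorem integrable_NN (h : SD S) (hP : Pr S P) (hT : Test S H DH) (η : ℝ) :
    Integrable (NN P H DH η) ((stdGaussian V).prod (stdGaussian V)) := by
  obtain ⟨C, hC⟩ := hT.bdd
  set C' := C * (‖LB V η‖ + ‖LA V η‖) with hC'
  have hC0 : 0 ≤ C := (norm_nonneg _).trans (hC 0)
  have hC'0 : 0 ≤ C' := by positivity
  refine Integrable.mono' (integrable_nn.const_mul (C' * (1 + Real.pi)))
    (cont_NN h hP hT η).aestronglyMeasurable (Filter.Eventually.of_forall fun z => ?_)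
  have h1 : ∀ v : V × V, ‖Dg H DH η z v‖ ≤ C' * ‖v‖ := fun v =>
    ((Dg H DH η z).le_opNorm v).trans
      (mul_le_mul_of_nonneg_right (norm_Dg_le hT hC η z) (norm_nonneg _))
  have hu : ∀ α, ‖TT P (uu z.1 z.2 α)‖ ≤ ‖z.1‖ + ‖z.2‖ := fun α =>
    (norm_TT_le h hP _).trans
      (norm_comb_le' (Real.abs_cos_le_one _) (Real.abs_sin_le_one _) _ _)
  have hn : 0 ≤ ‖z.1‖ + ‖z.2‖ := by positivity
  have h2 : ∀ α, ‖((Real.sin α • TT P (uu z.1 z.2 α), Real.cos α • TT P (uu z.1 z.2 α)) :
      V × V)‖ ≤ ‖z.1‖ + ‖z.2‖ := by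
    intro α
    rw [Prod.norm_def]
    refine max_le ?_ ?_
    · rw [norm_smul, Real.norm_eq_abs]
      exact (mul_le_of_le_one_left (norm_nonneg _) (Real.abs_sin_le_one _)).trans (hu α)
    · rw [norm_smul, Real.norm_eq_abs]
      exact (mul_le_of_le_one_left (norm_nonneg _) (Real.abs_cos_le_one _)).trans (hu α)
  unfold NN
  refine (norm_sub_le _ _).trans ?_
  have h3 : ‖Dg H DH η z (z.1, 0)‖ ≤ C' * (‖z.1‖ + ‖z.2‖) := by
    refine (h1 _).trans (mul_le_mul_of_nonneg_left ?_ hC'0)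
    rw [Prod.norm_def, norm_zero, max_eq_left (norm_nonneg _)]
    have := norm_nonneg z.2
    linarith
  have h4 : ‖∫ α in (0 : ℝ)..Real.pi, Dg H DH η z (Real.sin α • TT P (uu z.1 z.2 α),
      Real.cos α • TT P (uu z.1 z.2 α))‖ ≤ C' * (‖z.1‖ + ‖z.2‖) * |Real.pi - 0| :=
    intervalIntegral.norm_integral_le_of_norm_le_const fun α _ =>
      (h1 _).trans (mul_le_mul_of_nonneg_left (h2 α) hC'0)
  rw [sub_zero, abs_of_pos Real.pi_pos] at h4
  refine (add_le_add h3 h4).trans (le_of_eq ?_)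
  ring

/-- the derivative of the functional -/
theorem deriv_FF_le (h : SD S) (hP : Pr S P) (hT : Test S H DH) {η : ℝ} (h0 : Real.pi / 4 ≤ η)
    (h1 : η ≤ Real.pi / 2) :
    η * ∫ z, gg' H DH η z ∂((stdGaussian V).prod (stdGaussian V)) ≤ finrank ℝ V * FF H η := by
  have hpi := Real.pi_gt_three
  have hη : 1 / 2 < η := by linarith
  have hη0 : 0 < η := by linarith
  obtain ⟨C, hC⟩ := hT.bdd
  have hC0 : 0 ≤ C := (norm_nonneg _).trans (hC 0)
  have hib := ibp h hP (g := gg H η) (Dg := Dg H DH η) (hasFDerivAt_gg hT η) (cont_Dg hT η)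
    (C := C * (‖LB V η‖ + ‖LA V η‖) + 1)
    (fun z => (norm_Dg_le hT hC η z).trans (by linarith))
    (fun z => by
      rw [abs_of_nonneg (gg_nonneg hT η z)]
      have h2 := gg_le_one hT η z
      have h3 : 0 ≤ C * (‖LB V η‖ + ‖LA V η‖) := by positivity
      linarith)
  have e1 : ∫ z, gg H η z * (‖z.1‖ ^ 2 - finrank ℝ V - ⟪z.1, TT P z.1⟫)
      ∂((stdGaussian V).prod (stdGaussian V)) = -(finrank ℝ V * FF H η) := by
    unfold FF
    rw [← integral_const_mul, ← integral_neg]
    refine integral_congr_ae (Filter.Eventually.of_forall fun z => ?_)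
    simp only
    by_cases hz : gg H η z = 0
    · rw [hz]
      simp
    · have hA : LA V η z ∈ S := hT.mem (left_ne_zero_of_mul hz)
      have hB : LB V η z ∈ S := hT.mem (right_ne_zero_of_mul hz)
      have hs : 0 < Real.sin η := Real.sin_pos_of_pos_of_lt_pi hη0 (by linarith)
      have hx : z.1 ∈ S := by
        have h3 := h.smul (c := η / (2 * Real.sin η)) (by positivity) (h.add hA hB)
        have h4 : (η / (2 * Real.sin η)) • (LA V η z + LB V η z) = z.1 := by
          rw [LA_apply, LB_apply, ← smul_add, smul_smul]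
          have h5 : Real.sin η • z.1 - Real.cos η • z.2 + (Real.sin η • z.1 + Real.cos η • z.2) =
              (2 * Real.sin η) • z.1 := by
            rw [two_mul, add_smul]
            abel
          rw [h5, smul_smul]
          have h6 : η / (2 * Real.sin η) * η⁻¹ * (2 * Real.sin η) = 1 := by
            field_simp
          rw [h6, one_smul]
        rwa [h4] at h3
      rw [TT_of_mem h hP hx, real_inner_self_eq_norm_sq]
      ring
  have hib' : ∫ z, NN P H DH η z ∂((stdGaussian V).prod (stdGaussian V)) =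
      -(finrank ℝ V * FF H η) := by
    rw [← e1]
    exact hib
  have h2 : ∫ z, η * gg' H DH η z ∂((stdGaussian V).prod (stdGaussian V)) ≤
      ∫ z, -NN P H DH η z ∂((stdGaussian V).prod (stdGaussian V)) :=
    integral_mono ((hasDerivAt_FF hT hη).1.const_mul η) (integrable_NN h hP hT η).neg
      fun z => pointwise h hP hT h0 h1 z
  rw [integral_const_mul, integral_neg, hib', neg_neg] at h2
  exact h2

theorem FF_end (H : V → ℝ) : FF H (Real.pi / 2) =
    ∫ x, H ((2 / Real.pi) • x) ^ 2 ∂(stdGaussian V) := by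
  unfold FF
  have e : ∀ z : V × V, gg H (Real.pi / 2) z = H ((2 / Real.pi) • z.1) ^ 2 := by
    intro z
    unfold gg
    rw [LA_apply, LB_apply, Real.sin_pi_div_two, Real.cos_pi_div_two, zero_smul, sub_zero,
      add_zero, one_smul, inv_div, sq]
  simp only [e]
  have h1 := integral_fun_fst (μ := stdGaussian V) (ν := stdGaussian V)
    (fun x => H ((2 / Real.pi) • x) ^ 2)
  rw [h1, probReal_univ, one_smul]

theorem FF_start (hH : Continuous H) : FF H (Real.pi / 4) =
    (∫ x, H ((4 / Real.pi) • x) ∂(stdGaussian V)) ^ 2 := by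
  have hrot : ((stdGaussian V).prod (stdGaussian V)).map
      (ContinuousLinearMap.rotation (-(Real.pi / 4))) = (stdGaussian V).prod (stdGaussian V) :=
    IsGaussian.map_rotation_eq_self (by simp) _
  have e : ∀ z : V × V, gg H (Real.pi / 4) z =
      (fun q : V × V => H ((4 / Real.pi) • q.1) * H ((4 / Real.pi) • q.2))
        (ContinuousLinearMap.rotation (-(Real.pi / 4)) z) := by
    intro z
    unfold gg
    rw [LA_apply, LB_apply, ContinuousLinearMap.rotation_apply]
    simp only [Real.cos_neg, Real.sin_neg, Real.sin_pi_div_four, Real.cos_pi_div_four, inv_div,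
      neg_neg, neg_smul, ← sub_eq_add_neg]
  unfold FF
  simp only [e]
  rw [← integral_map (μ := (stdGaussian V).prod (stdGaussian V))
    (φ := ContinuousLinearMap.rotation (-(Real.pi / 4)))
    (f := fun q : V × V => H ((4 / Real.pi) • q.1) * H ((4 / Real.pi) • q.2))
    (by fun_prop) (Continuous.aestronglyMeasurable (by fun_prop)), hrot,
    integral_prod_mul (μ := stdGaussian V) (ν := stdGaussian V)
      (fun x => H ((4 / Real.pi) • x)) (fun x => H ((4 / Real.pi) • x)), sq]

theorem key (h : SD S) {H : V → ℝ} {DH : V → V →L[ℝ] ℝ} (hT : Test S H DH) :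
    ∫ x, H ((2 / Real.pi) • x) ^ 2 ∂(stdGaussian V) ≤
      2 ^ (finrank ℝ V) * (∫ x, H ((4 / Real.pi) • x) ∂(stdGaussian V)) ^ 2 := by
  obtain ⟨P, hP⟩ := h.exists_pr
  rw [← FF_end, ← FF_start hT.cont_H]
  have hpi := Real.pi_gt_three
  set d := finrank ℝ V with hd
  have hder : ∀ η ∈ Set.Icc (Real.pi / 4) (Real.pi / 2),
      HasDerivAt (fun s => (s ^ d)⁻¹ * FF H s)
        (-(d * η ^ (d - 1)) / (η ^ d) ^ 2 * FF H η +
          (η ^ d)⁻¹ * ∫ z, gg' H DH η z ∂((stdGaussian V).prod (stdGaussian V))) η := by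
    intro η hη
    have hη0 : 0 < η := by linarith [hη.1]
    exact ((hasDerivAt_pow d η).fun_inv (pow_ne_zero _ hη0.ne')).mul
      (hasDerivAt_FF hT (by linarith [hη.1])).2
  have hanti : AntitoneOn (fun s => (s ^ d)⁻¹ * FF H s)
      (Set.Icc (Real.pi / 4) (Real.pi / 2)) := by
    refine antitoneOn_of_deriv_nonpos (convex_Icc _ _) ?_ ?_ ?_
    · exact fun η hη => (hder η hη).continuousAt.continuousWithinAt
    · intro η hη
      rw [interior_Icc] at hη
      exact (hder η ⟨hη.1.le, hη.2.le⟩).differentiableAt.differentiableWithinAt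
    · intro η hη
      rw [interior_Icc] at hη
      have hη' : η ∈ Set.Icc (Real.pi / 4) (Real.pi / 2) := ⟨hη.1.le, hη.2.le⟩
      rw [(hder η hη').deriv]
      have hη0 : 0 < η := by linarith [hη.1]
      have h1 := deriv_FF_le h hP hT hη'.1 hη'.2
      have hp : 0 < η ^ d := pow_pos hη0 d
      have e : -(d * η ^ (d - 1)) / (η ^ d) ^ 2 * FF H η = -((η ^ d)⁻¹ * η⁻¹ * (d * FF H η)) := by
        rcases Nat.eq_zero_or_pos d with h0 | h0
        · rw [h0]
          simp
        · have e1 : η ^ d = η ^ (d - 1) * η := by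
            rw [← pow_succ, Nat.sub_add_cancel h0]
          rw [e1]
          have : 0 < η ^ (d - 1) := pow_pos hη0 _
          field_simp
      rw [e]
      have h2 : ∫ z, gg' H DH η z ∂((stdGaussian V).prod (stdGaussian V)) ≤
          η⁻¹ * (d * FF H η) := by
        rw [← div_eq_inv_mul, le_div_iff₀ hη0, mul_comm]
        exact h1
      have h3 := mul_le_mul_of_nonneg_left h2 (inv_pos.2 hp).le
      linarith
  have h1 := hanti (Set.left_mem_Icc.2 (by linarith)) (Set.right_mem_Icc.2 (by linarith))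
    (show Real.pi / 4 ≤ Real.pi / 2 by linarith)
  simp only at h1
  have hp : 0 < (Real.pi / 2) ^ d := by positivity
  have h2 := mul_le_mul_of_nonneg_left h1 hp.le
  rw [← mul_assoc, mul_inv_cancel₀ hp.ne', one_mul, ← mul_assoc] at h2
  refine h2.trans (le_of_eq ?_)
  congr 1
  rw [← div_eq_mul_inv, ← div_pow]
  congr 1
  field_simp
  norm_num

end

end PCS
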