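import Pool.Agent.PCS.Key
import Pool.Agent.PCS.Bal
import Pool.Agent.PCW.Gau

/-!
# The Gaussian measure of a self-dual cone is at least that of the orthant (Helper33, row A)
-/

set_option autoImplicit false

open MeasureTheory ProbabilityTheory Module
open scoped RealInnerProductSpace

namespace PCS

section
variable {V : Type*} [NormedAddCommGroup V] [InnerProductSpace ℝ V]
  {S : Set V}

theorem Test.scale (h : SD S) {H : V → ℝ} {DH : V → V →L[ℝ] ℝ} (hT : Test S H DH) {t : ℝ}
    (ht : 0 < t) : Test S (fun u => H (t • u)) (fun u => t • DH (t • u)) where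
  der u := by
    have h1 : HasFDerivAt (fun u : V => t • u) (t • ContinuousLinearMap.id ℝ V) u :=
      (hasFDerivAt_id u).const_smul t
    have h2 := (hT.der (t • u)).comp u h1
    refine h2.congr_fderiv ?_
    ext k
    simp
  cont := by
    have h1 := hT.cont
    fun_prop
  bdd := by
    obtain ⟨C, hC⟩ := hT.bdd
    refine ⟨t * C, fun u => ?_⟩
    rw [norm_smul, Real.norm_eq_abs, abs_of_pos ht]
    exact mul_le_mul_of_nonneg_left (hC _) ht.le
  nonneg u := hT.nonneg _
  le_one u := hT.le_one _
  supp u hu := by
    refine hT.supp _ fun h' => hu ?_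
    have h1 := h.smul (inv_nonneg.2 ht.le) h'
    rwa [inv_smul_smul₀ ht.ne'] at h1
  mono u k hk := by
    rw [smul_apply, smul_eq_mul]
    exact mul_nonneg ht.le (hT.mono _ k hk)

theorem SD.smul_mem_iff (h : SD S) {t : ℝ} (ht : 0 < t) {x : V} : t • x ∈ S ↔ x ∈ S := by
  constructor
  · intro h'
    have h1 := h.smul (inv_nonneg.2 ht.le) h'
    rwa [inv_smul_smul₀ ht.ne'] at h1
  · exact h.smul ht.le

end

section
variable {V : Type*} [NormedAddCommGroup V] [InnerProductSpace ℝ V] [FiniteDimensional ℝ V]
  [MeasurableSpace V] [BorelSpace V] {S : Set V}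

theorem std_ac : stdGaussian V ≪ (volume : Measure V) := by
  rw [PCW.std_eq]
  exact withDensity_absolutelyContinuous _ _

theorem SD.std_pos (h : SD S) : 0 < (stdGaussian V).real S := by
  obtain ⟨e, r, hr, hball⟩ := h.exists_ball
  rw [measureReal_def, ENNReal.toReal_pos_iff]
  refine ⟨?_, measure_lt_top _ _⟩
  rw [pos_iff_ne_zero]
  intro h0
  rw [PCW.std_eq, withDensity_apply_eq_zero PCW.continuous_dn.measurable.ennreal_ofReal] at h0
  have h1 : Metric.ball e r ⊆ {x : V | ENNReal.ofReal (PCW.dn x) ≠ 0} ∩ S := by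
    intro x hx
    exact ⟨(ENNReal.ofReal_pos.2 (PCW.dn_pos x)).ne', hball hx⟩
  have h2 := measure_mono_null h1 h0
  exact (Metric.measure_ball_pos (volume : Measure V) e hr).ne' h2

theorem SD.std_interior (h : SD S) : stdGaussian V S ≤ stdGaussian V (interior S) := by
  have h1 : stdGaussian V (frontier S) = 0 :=
    std_ac (h.convex.addHaar_frontier (volume : Measure V))
  have h2 : S ⊆ interior S ∪ frontier S := by
    rw [← closure_eq_interior_union_frontier]
    exact subset_closure
  calc stdGaussian V S ≤ stdGaussian V (interior S ∪ frontier S) := measure_mono h2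
    _ ≤ stdGaussian V (interior S) + stdGaussian V (frontier S) := measure_union_le _ _
    _ = stdGaussian V (interior S) := by rw [h1, add_zero]

theorem key_scale (h : SD S) {H : V → ℝ} {DH : V → V →L[ℝ] ℝ} (hT : Test S H DH) {t : ℝ}
    (ht : 0 < t) : ∫ x, H ((t * (2 / Real.pi)) • x) ^ 2 ∂(stdGaussian V) ≤
      2 ^ (finrank ℝ V) * ((stdGaussian V).real S) ^ 2 := by
  have hpi := Real.pi_pos
  have h1 := key h (hT.scale h ht)
  simp only [smul_smul] at h1
  refine h1.trans ?_
  have hH : Continuous H := continuous_iff_continuousAt.2 fun x => (hT.der x).continuousAt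
  have h2 : ∫ x, H ((t * (4 / Real.pi)) • x) ∂(stdGaussian V) ≤ (stdGaussian V).real S := by
    rw [← integral_indicator_one h.closed.measurableSet]
    refine integral_mono ?_ ?_ fun x => ?_
    · refine Integrable.mono' (integrable_const (1 : ℝ))
        (hH.comp (continuous_const_smul _)).aestronglyMeasurable
        (Filter.Eventually.of_forall fun x => ?_)
      rw [Real.norm_eq_abs, abs_of_nonneg (hT.nonneg _)]
      exact hT.le_one _
    · exact (integrable_const (1 : ℝ)).indicator h.closed.measurableSet
    · by_cases hx : x ∈ S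
      · rw [Set.indicator_of_mem hx]
        exact hT.le_one _
      · rw [Set.indicator_of_notMem hx]
        refine (hT.supp _ fun h' => hx ?_).le
        exact (h.smul_mem_iff (by positivity)).1 h'
  have h3 : 0 ≤ ∫ x, H ((t * (4 / Real.pi)) • x) ∂(stdGaussian V) :=
    integral_nonneg fun x => hT.nonneg _
  have h4 := pow_le_pow_left₀ h3 h2 2
  exact mul_le_mul_of_nonneg_left h4 (by positivity)

/-- **The Gaussian measure of a self-dual cone** is at least `2 ^ (-d)`. -/
theorem main (h : SD S) : ((2 : ℝ) ^ (finrank ℝ V))⁻¹ ≤ (stdGaussian V).real S := by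
  have hpi := Real.pi_pos
  obtain ⟨H, DH, e, hT, he⟩ := h.exists_test
  have hH : Continuous H := continuous_iff_continuousAt.2 fun x => (hT.der x).continuousAt
  have hpos := h.std_pos
  set c : ℝ := 2 ^ (finrank ℝ V) * ((stdGaussian V).real S) ^ 2 with hc
  let A : ℕ → Set V := fun n => {x | (((n : ℝ) + 1) * (2 / Real.pi)) • x - e ∈ S}
  have hAm : ∀ n, MeasurableSet (A n) := fun n => by
    have h1 : Continuous fun x : V => (((n : ℝ) + 1) * (2 / Real.pi)) • x - e := by fun_prop
    exact (h.closed.preimage h1).measurableSet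
  have hA : ∀ n, (stdGaussian V).real (A n) ≤ c := by
    intro n
    refine le_trans ?_ (key_scale h hT (t := (n : ℝ) + 1) (by positivity))
    rw [← integral_indicator_one (hAm n)]
    refine integral_mono ?_ ?_ fun x => ?_
    · exact (integrable_const (1 : ℝ)).indicator (hAm n)
    · refine Integrable.mono' (integrable_const (1 : ℝ))
        ((hH.comp (continuous_const_smul _)).pow 2).aestronglyMeasurable
        (Filter.Eventually.of_forall fun x => ?_)
      rw [Real.norm_eq_abs, abs_of_nonneg (sq_nonneg _)]
      exact pow_le_one₀ (hT.nonneg _) (hT.le_one _)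
    · by_cases hx : x ∈ A n
      · rw [Set.indicator_of_mem hx, he _ hx]
        simp
      · rw [Set.indicator_of_notMem hx]
        positivity
  have hev : ∀ x ∈ interior S, ∀ᶠ n in Filter.atTop, x ∈ A n := by
    intro x hx
    have h1 : Filter.Tendsto (fun n : ℕ => x - ((((n : ℝ) + 1) * (2 / Real.pi))⁻¹) • e)
        Filter.atTop (nhds (x - (0 : ℝ) • e)) := by
      refine tendsto_const_nhds.sub (Filter.Tendsto.smul_const ?_ e)
      have h2 : Filter.Tendsto (fun n : ℕ => ((n : ℝ) + 1)⁻¹ * (2 / Real.pi)⁻¹) Filter.atTop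
          (nhds (0 * (2 / Real.pi)⁻¹)) := by
        have h3 : Filter.Tendsto (fun n : ℕ => ((n : ℝ) + 1)⁻¹) Filter.atTop (nhds 0) := by
          have := tendsto_one_div_add_atTop_nhds_zero_nat (𝕜 := ℝ)
          simpa using this
        exact h3.mul_const _
      rw [zero_mul] at h2
      refine h2.congr fun n => ?_
      rw [mul_inv]
    rw [zero_smul, sub_zero] at h1
    filter_upwards [h1.eventually (isOpen_interior.mem_nhds hx)] with n hn
    have h4 := interior_subset hn
    have h5 : (0 : ℝ) < ((n : ℝ) + 1) * (2 / Real.pi) := by positivity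
    have h6 := h.smul h5.le h4
    rw [smul_sub, smul_inv_smul₀ h5.ne'] at h6
    exact h6
  have hle : stdGaussian V (interior S) ≤ ENNReal.ofReal c := by
    let B : ℕ → Set V := fun n => ⋂ k ∈ Set.Ici n, A k
    have hB : Monotone B := by
      intro m n hmn x hx
      rw [Set.mem_iInter₂] at hx ⊢
      exact fun k hk => hx k (le_trans hmn hk)
    have h1 : interior S ⊆ ⋃ n, B n := by
      intro x hx
      obtain ⟨n, hn⟩ := Filter.eventually_atTop.1 (hev x hx)
      rw [Set.mem_iUnion]
      exact ⟨n, Set.mem_iInter₂.2 fun k hk => hn k hk⟩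
    refine (measure_mono h1).trans ?_
    rw [hB.measure_iUnion]
    refine iSup_le fun n => ?_
    have h2 : B n ⊆ A n := fun x hx => Set.mem_iInter₂.1 hx n (Set.mem_Ici.2 le_rfl)
    refine (measure_mono h2).trans ?_
    rw [← ofReal_measureReal]
    exact ENNReal.ofReal_le_ofReal (hA n)
  have h1 := h.std_interior.trans hle
  have h2 : (stdGaussian V).real S ≤ c := ENNReal.toReal_le_of_le_ofReal (by positivity) h1
  rw [hc, sq] at h2
  rw [inv_le_iff_one_le_mul₀ (by positivity)]
  have h3 : (stdGaussian V).real S * 1 ≤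
      (stdGaussian V).real S * ((stdGaussian V).real S * 2 ^ (finrank ℝ V)) := by
    linarith
  exact le_of_mul_le_mul_left h3 hpos

end

end PCS
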