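import Mathlib

/-!
# The numbers (row E4)
-/

set_option autoImplicit false

namespace PCS

theorem num_eps {d : ℕ} (hd : 2 ≤ d) {ε : ℝ} (h0 : 0 < ε) (h1 : ε ≤ 1 / (2 * 4 ^ d * d ^ 4)) :
    ∃ δ c : ℝ, 0 ≤ δ ∧ ε + √(6 * ε) ≤ δ ∧ δ * (d + 1) < 1 ∧ 0 ≤ c ∧ d * δ ≤ 2 * c * (1 - d * δ) ∧
      2 ^ d * (1 + c) ^ (d - 1) < (2 : ℝ) ^ d + 1 := by
  have hd2 : (2 : ℝ) ≤ d := by exact_mod_cast hd
  have hpow : d + 1 < 2 ^ d := by
    obtain ⟨k, rfl⟩ := Nat.exists_eq_add_of_le hd
    induction k with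
    | zero => norm_num
    | succ k ih =>
      have h2 := ih (by omega) (by
        refine h1.trans ?_
        apply one_div_le_one_div_of_le
        · positivity
        · gcongr
          · norm_num
          · omega
          · omega) (by
        push_cast
        have : (0 : ℝ) ≤ k := Nat.cast_nonneg k
        linarith)
      rw [show 2 + (k + 1) = (2 + k) + 1 by ring, pow_succ]
      omega
  set x : ℝ := ((2 : ℝ) ^ d)⁻¹ with hx
  have hP : (0 : ℝ) < 2 ^ d := by positivity
  have hx0 : 0 < x := by positivity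
  have hxP : x * 2 ^ d = 1 := inv_mul_cancel₀ hP.ne'
  have hx1 : ((d : ℝ) + 1) * x < 1 := by
    have h2 : ((d : ℝ) + 1) < 2 ^ d := by exact_mod_cast hpow
    calc ((d : ℝ) + 1) * x < 2 ^ d * x := mul_lt_mul_of_pos_right h2 hx0
      _ = 1 := by rw [mul_comm, hxP]
  have hx4 : x ≤ 1 / 4 := by
    have h2 : (2 : ℝ) ^ 2 ≤ 2 ^ d := pow_le_pow_right₀ (by norm_num) hd
    have h3 : x * 2 ^ 2 ≤ x * 2 ^ d := mul_le_mul_of_nonneg_left h2 hx0.le
    rw [hxP] at h3
    linarith
  have hd0 : (0 : ℝ) < d := by linarith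
  set a : ℝ := x / d ^ 2 with ha
  have ha0 : 0 < a := by positivity
  have had : a * d ^ 2 = x := by
    rw [ha]
    field_simp
  have ha16 : a ≤ 1 / 16 := by
    have h2 : (4 : ℝ) ≤ d ^ 2 := by nlinarith
    have h3 : a * 4 ≤ a * d ^ 2 := mul_le_mul_of_nonneg_left h2 ha0.le
    rw [had] at h3
    linarith
  have hea : ε ≤ a ^ 2 / 2 := by
    refine h1.trans (le_of_eq ?_)
    rw [ha, hx, show (4 : ℝ) ^ d = (2 ^ d) ^ 2 by rw [← pow_mul, mul_comm, pow_mul]; norm_num]
    field_simp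
  have hsq : √(6 * ε) ≤ 7 / 4 * a := by
    rw [show 7 / 4 * a = √((7 / 4 * a) ^ 2) by rw [Real.sqrt_sq (by positivity)]]
    apply Real.sqrt_le_sqrt
    nlinarith [sq_nonneg a]
  have hdx : (0 : ℝ) < d - 2 * x := by linarith
  refine ⟨2 * a, x / (d - 2 * x), by positivity, ?_, ?_, by positivity, ?_, ?_⟩
  · nlinarith
  · have h2 : 2 * a * (d + 1) ≤ a * d ^ 2 * 2 := by nlinarith
    rw [had] at h2
    linarith
  · have h2 : (d : ℝ) * (2 * a) * d = 2 * x := by rw [← had]; ring
    have h3 : (d : ℝ) * (2 * a) = 2 * x / d := by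
      rw [eq_div_iff hd0.ne']
      exact h2
    rw [h3]
    apply le_of_eq
    field_simp
  · set c : ℝ := x / (d - 2 * x) with hc
    have hc0 : 0 ≤ c := by positivity
    have hcd : c * (d - 2 * x) = x := div_mul_cancel₀ _ hdx.ne'
    set y : ℝ := (d - 1) * c with hy
    have hcast : ((d - 1 : ℕ) : ℝ) = d - 1 := by
      rw [Nat.cast_sub (by omega)]
      norm_num
    have hpc : (1 + c) ^ (d - 1) ≤ Real.exp y := by
      have h2 : 1 + c ≤ Real.exp c := by
        have := Real.add_one_le_exp c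
        linarith
      calc (1 + c) ^ (d - 1) ≤ (Real.exp c) ^ (d - 1) := pow_le_pow_left₀ (by linarith) h2 _
        _ = Real.exp y := by rw [← Real.exp_nat_mul, hcast]
    have hy1 : y * (1 + x) < x := by
      have h2 : ((d : ℝ) - 1) * (1 + x) < d - 2 * x := by linarith
      calc y * (1 + x) = c * ((d - 1) * (1 + x)) := by rw [hy]; ring
        _ < c * (d - 2 * x) := by
          apply mul_lt_mul_of_pos_left h2
          positivity
        _ = x := hcd
    have hy0 : 0 ≤ y := mul_nonneg (by linarith) hc0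
    have hyx : y < 1 := by nlinarith
    have hexp : Real.exp y * (1 - y) ≤ 1 := by
      have h2 : 1 - y ≤ Real.exp (-y) := by
        have := Real.add_one_le_exp (-y)
        linarith
      calc Real.exp y * (1 - y) ≤ Real.exp y * Real.exp (-y) :=
            mul_le_mul_of_nonneg_left h2 (Real.exp_pos y).le
        _ = 1 := by rw [← Real.exp_add, add_neg_cancel, Real.exp_zero]
    have hexp2 : Real.exp y < 1 + x := by
      by_contra hcon
      push Not at hcon
      have h3 : (1 + x) * (1 - y) ≤ Real.exp y * (1 - y) :=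
        mul_le_mul_of_nonneg_right hcon (by linarith)
      nlinarith
    calc 2 ^ d * (1 + c) ^ (d - 1) ≤ 2 ^ d * Real.exp y := mul_le_mul_of_nonneg_left hpc hP.le
      _ < 2 ^ d * (1 + x) := mul_lt_mul_of_pos_left hexp2 hP
      _ = 2 ^ d + 1 := by rw [mul_add, mul_one, mul_comm _ x, hxP]

end PCS
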