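import Pool.Agent.PCW.Defs

/-!
# The planar case: definitions
-/

set_option autoImplicit false

open MeasureTheory ProbabilityTheory Module PCW
open scoped RealInnerProductSpace

namespace PCS

/-- the unit vector of direction `α` -/
noncomputable def dr (α : ℝ) : E 2 := WithLp.toLp 2 ![Real.cos α, Real.sin α]

/-- a separated system of convex sets in the unit ball -/
structure Sep {d m : ℕ} (t : ℝ) (C : Fin m → Set (E d)) (u : Fin m → Fin m → E d) (s : Fin m → Fin m → ℝ) : Prop where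
  ne : ∀ i, (C i).Nonempty
  ball : ∀ i, C i ⊆ Metric.closedBall 0 1
  wid : ∀ i, ∀ v : E d, ‖v‖ = 1 → t ≤ wd (C i) v
  unit : ∀ i j, i ≠ j → ‖u i j‖ = 1
  anti : ∀ i j, i ≠ j → u j i = -u i j
  santi : ∀ i j, i ≠ j → s j i = -s i j
  low : ∀ i j, i ≠ j → ∀ x ∈ C i, s i j ≤ ⟪x, u i j⟫
  sle : ∀ i j, i ≠ j → |s i j| ≤ 1 - t

end PCS
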