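import Pool.Agent.PCS.PDefs

/-!
# Cells of a planar packing: an outward direction
-/

set_option autoImplicit false

open Module PCW
open scoped RealInnerProductSpace

namespace PCS

/-- in the plane the width is at most `3 (1 - t)` if the separating directions positively span `0` -/
theorem ray_aux {m : ℕ} {t : ℝ} {C : Fin m → Set (E 2)} {u : Fin m → Fin m → E 2}
    {s : Fin m → Fin m → ℝ} (h : Sep t C u s) (i : Fin m)
    (h0 : (0 : E 2) ∈ convexHull ℝ {v | ∃ j, j ≠ i ∧ v = u i j}) : t ≤ 3 * (1 - t) := by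
  classical
  rw [convexHull_eq_union] at h0
  simp only [Set.mem_iUnion] at h0
  obtain ⟨F, hF, hind, h0⟩ := h0
  have hcard : F.card ≤ 3 := by
    have h1 := hind.card_le_finrank_succ
    rw [Fintype.card_coe] at h1
    have h2 : finrank ℝ (vectorSpan ℝ (Set.range ((↑) : F → E 2))) ≤ finrank ℝ (E 2) :=
      Submodule.finrank_le _
    have h3 : finrank ℝ (E 2) = 2 := by simp [E]
    omega
  rw [Finset.convexHull_eq] at h0
  obtain ⟨w, hw0, hw1, hw⟩ := h0
  rw [Finset.centerMass_eq_of_sum_1 _ _ hw1] at hw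
  simp only [id] at hw
  -- the largest coefficient
  have hFne : F.Nonempty := by
    rw [Finset.nonempty_iff_ne_empty]
    rintro rfl
    simp at hw1
  obtain ⟨v, hvF, hv⟩ := Finset.exists_max_image F w hFne
  have hv3 : 1 / 3 ≤ w v := by
    have h1 : ∑ y ∈ F, w y ≤ F.card • w v := Finset.sum_le_card_nsmul _ _ _ hv
    rw [hw1, nsmul_eq_mul] at h1
    have h2 : (F.card : ℝ) ≤ 3 := by exact_mod_cast hcard
    have h3 : 0 ≤ w v := hw0 v hvF
    nlinarith
  obtain ⟨j, hji, hvj⟩ := hF hvF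
  have hij : i ≠ j := fun e => hji e.symm
  have hlow : ∀ y ∈ F, ∀ x ∈ C i, -(1 - t) ≤ ⟪x, y⟫ := by
    intro y hy x hx
    obtain ⟨l, hl, rfl⟩ := hF hy
    have hil : i ≠ l := fun e => hl e.symm
    have h1 := h.low i l hil x hx
    have h2 := (abs_le.mp (h.sle i l hil)).1
    linarith
  have ht1 : 0 ≤ 1 - t := (abs_nonneg _).trans (h.sle i j hij)
  have hup : ∀ x ∈ C i, ⟪x, v⟫ ≤ 2 * (1 - t) := by
    intro x hx
    have h1 : ∑ y ∈ F, w y * ⟪x, y⟫ = 0 := by
      have h2 := congrArg (fun z : E 2 => ⟪x, z⟫) hw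
      simp only [inner_sum, inner_smul_right, inner_zero_right] at h2
      exact h2
    rw [← Finset.add_sum_erase F _ hvF] at h1
    have h2 : ∑ y ∈ F.erase v, w y * (-(1 - t)) ≤ ∑ y ∈ F.erase v, w y * ⟪x, y⟫ :=
      Finset.sum_le_sum fun y hy => mul_le_mul_of_nonneg_left (hlow y (Finset.mem_of_mem_erase hy) x hx)
        (hw0 y (Finset.mem_of_mem_erase hy))
    rw [← Finset.sum_mul] at h2
    have h3 : w v + ∑ y ∈ F.erase v, w y = 1 := by rw [Finset.add_sum_erase F _ hvF, hw1]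
    have h4 : ∑ y ∈ F.erase v, w y = 1 - w v := by linarith
    rw [h4] at h2
    have h5 : w v * ⟪x, v⟫ ≤ (1 - w v) * (1 - t) := by linarith
    by_contra h6
    push Not at h6
    have h7 : 0 < w v := by linarith
    have h8 : w v * (2 * (1 - t)) < w v * ⟪x, v⟫ := mul_lt_mul_of_pos_left h6 h7
    nlinarith
  have hw2 := h.wid i v (by rw [hvj]; exact h.unit i j hij)
  have hne : ((fun x => ⟪x, v⟫) '' C i).Nonempty := (h.ne i).image _
  have e1 : sSup ((fun x => ⟪x, v⟫) '' C i) ≤ 2 * (1 - t) := by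
    refine csSup_le hne ?_
    rintro _ ⟨x, hx, rfl⟩
    exact hup x hx
  have e2 : -(1 - t) ≤ sInf ((fun x => ⟪x, v⟫) '' C i) := by
    refine le_csInf hne ?_
    rintro _ ⟨x, hx, rfl⟩
    exact hlow v hvF x hx
  unfold wd at hw2
  linarith

/-- ROW H2 (file Ray): Caratheodory: otherwise 0 = sum of at most 3 terms l_k u_k, and the largest l_k gives width at
most 3 (1 - t) in direction u_k -/
theorem exists_ray {m : ℕ} {t : ℝ} (ht : 3 / 4 < t) {C : Fin m → Set (E 2)} {u s} (h : Sep t C u s) (i : Fin m) :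
    ∃ r : E 2, r ≠ 0 ∧ ∀ j, j ≠ i → 0 < ⟪r, u i j⟫ := by
  classical
  set U : Set (E 2) := {v | ∃ j, j ≠ i ∧ v = u i j} with hU
  have hUfin : U.Finite := by
    have h1 : U ⊆ Set.range fun j => u i j := by
      rintro _ ⟨j, -, rfl⟩
      exact ⟨j, rfl⟩
    exact (Set.finite_range _).subset h1
  have h0 : (0 : E 2) ∉ convexHull ℝ U := by
    intro h1
    have := ray_aux h i h1
    linarith
  by_cases hne : ∃ j, j ≠ i
  · obtain ⟨j, hj⟩ := hne
    obtain ⟨f, a, hf0, hf⟩ := geometric_hahn_banach_point_closed (convex_convexHull ℝ U)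
      (hUfin.isCompact_convexHull ℝ).isClosed h0
    rw [map_zero] at hf0
    set r : E 2 := (InnerProductSpace.toDual ℝ (E 2)).symm f with hr
    have hrf : ∀ v, ⟪r, v⟫ = f v := fun v => InnerProductSpace.toDual_symm_apply
    have hpos : ∀ j, j ≠ i → 0 < ⟪r, u i j⟫ := by
      intro j hj
      rw [hrf]
      exact hf0.trans (hf _ (subset_convexHull ℝ U ⟨j, hj, rfl⟩))
    refine ⟨r, ?_, hpos⟩
    intro hr0
    have := hpos j hj
    rw [hr0, inner_zero_left] at this
    exact lt_irrefl _ this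
  · push Not at hne
    refine ⟨EuclideanSpace.single 0 1, ?_, fun j hj => absurd (hne j) hj⟩
    intro h1
    have h2 := congrArg (fun v : E 2 => v 0) h1
    simp at h2

end PCS
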