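import Pool.Agent.PCW.Defs

/-!
# The planar lower bound: equal sectors (row H6)
-/

set_option autoImplicit false

open MeasureTheory ProbabilityTheory Module PCW
open scoped RealInnerProductSpace

namespace PCS.Sec

theorem inner2 (x y : E 2) : ⟪x, y⟫ = x 0 * y 0 + x 1 * y 1 := by
  simp [PiLp.inner_apply, Fin.sum_univ_two, mul_comm]

theorem norm2 (x : E 2) : ‖x‖ ^ 2 = x 0 ^ 2 + x 1 ^ 2 := by
  rw [← real_inner_self_eq_norm_sq, inner2]; ring

/-- the unit vector of direction `α` -/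
noncomputable def e (α : ℝ) : E 2 := WithLp.toLp 2 ![Real.cos α, Real.sin α]

theorem e0 (α : ℝ) : e α 0 = Real.cos α := rfl
theorem e1 (α : ℝ) : e α 1 = Real.sin α := rfl

theorem inner_e (x : E 2) (α : ℝ) : ⟪x, e α⟫ = x 0 * Real.cos α + x 1 * Real.sin α := by
  rw [inner2, e0, e1]

theorem norm_e (α : ℝ) : ‖e α‖ = 1 := by
  have h : ‖e α‖ ^ 2 = 1 := by rw [norm2, e0, e1]; exact Real.cos_sq_add_sin_sq α
  have h0 := norm_nonneg (e α)
  nlinarith [sq_nonneg (‖e α‖ - 1)]

/-- the sector -/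
def sec (θ a : ℝ) : Set (E 2) := {x | x ∈ Metric.closedBall (0 : E 2) 1 ∧
  0 ≤ ⟪x, e (a + Real.pi / 2)⟫ ∧ ⟪x, e (a + θ + Real.pi / 2)⟫ ≤ 0}

theorem convex_sec (θ a : ℝ) : Convex ℝ (sec θ a) := by
  intro x hx y hy s t hs ht hst
  refine ⟨convex_closedBall _ _ hx.1 hy.1 hs ht hst, ?_, ?_⟩
  · rw [inner_add_left, real_inner_smul_left, real_inner_smul_left]
    have h1 := mul_nonneg hs hx.2.1
    have h2 := mul_nonneg ht hy.2.1
    linarith
  · rw [inner_add_left, real_inner_smul_left, real_inner_smul_left]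
    have h1 := mul_nonneg hs (neg_nonneg.2 hx.2.2)
    have h2 := mul_nonneg ht (neg_nonneg.2 hy.2.2)
    linarith

theorem wd_ge {C : Set (E 2)} (hC : C ⊆ Metric.closedBall 0 1) {u : E 2} (hu : ‖u‖ = 1) {x y : E 2} (hx : x ∈ C)
    (hy : y ∈ C) : ⟪x, u⟫ - ⟪y, u⟫ ≤ wd C u := by
  have hb : ∀ z ∈ C, |⟪z, u⟫| ≤ 1 := by
    intro z hz
    have h1 : ‖z‖ ≤ 1 := by simpa using hC hz
    have h2 := abs_real_inner_le_norm z u
    rw [hu, mul_one] at h2
    exact h2.trans h1
  have h1 : ⟪x, u⟫ ≤ sSup ((fun x => ⟪x, u⟫) '' C) :=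
    le_csSup ⟨1, by rintro _ ⟨z, hz, rfl⟩; exact (abs_le.1 (hb z hz)).2⟩ ⟨x, hx, rfl⟩
  have h2 : sInf ((fun x => ⟪x, u⟫) '' C) ≤ ⟪y, u⟫ :=
    csInf_le ⟨-1, by rintro _ ⟨z, hz, rfl⟩; exact (abs_le.1 (hb z hz)).1⟩ ⟨y, hy, rfl⟩
  unfold wd
  linarith

theorem sep_disjoint {A B : Set (E 2)} {n : E 2} (hn : ‖n‖ = 1) (hA : ∀ x ∈ A, ⟪x, n⟫ ≤ 0)
    (hB : ∀ x ∈ B, 0 ≤ ⟪x, n⟫) : Disjoint (interior A) (interior B) := by
  rw [Set.disjoint_left]
  intro x hxA hxB
  rw [mem_interior_iff_mem_nhds, Metric.mem_nhds_iff] at hxA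
  obtain ⟨ε, hε, h⟩ := hxA
  have h1 : x + (ε / 2) • n ∈ A := by
    apply h
    rw [Metric.mem_ball, dist_eq_norm, add_sub_cancel_left, norm_smul, hn, Real.norm_eq_abs, abs_of_pos (by linarith)]
    linarith
  have h2 := hA _ h1
  rw [inner_add_left, real_inner_smul_left, real_inner_self_eq_norm_sq, hn] at h2
  have h3 := hB x (interior_subset hxB)
  linarith

/-- the points of the sector in terms of the edges -/
theorem sec_repr {θ a : ℝ} (h0 : 0 < θ) (h1 : θ < Real.pi) {x : E 2} (hx : x ∈ sec θ a) :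
    ∃ s t : ℝ, 0 ≤ s ∧ 0 ≤ t ∧ ∀ b, ⟪x, e b⟫ = s * Real.cos (a - b) + t * Real.cos (a + θ - b) := by
  have hsin : 0 < Real.sin θ := Real.sin_pos_of_pos_of_lt_pi h0 h1
  refine ⟨-⟪x, e (a + θ + Real.pi / 2)⟫ / Real.sin θ, ⟪x, e (a + Real.pi / 2)⟫ / Real.sin θ,
    div_nonneg (neg_nonneg.2 hx.2.2) hsin.le, div_nonneg hx.2.1 hsin.le, ?_⟩
  intro b
  have hne : Real.sin θ ≠ 0 := hsin.ne'
  have hθ : Real.sin θ = Real.sin (a + θ) * Real.cos a - Real.cos (a + θ) * Real.sin a := by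
    rw [← Real.sin_sub]; congr 1; ring
  have key : ⟪x, e b⟫ * Real.sin θ = -⟪x, e (a + θ + Real.pi / 2)⟫ * Real.cos (a - b) +
      ⟪x, e (a + Real.pi / 2)⟫ * Real.cos (a + θ - b) := by
    rw [inner_e, inner_e, inner_e, hθ]
    simp only [Real.cos_add_pi_div_two, Real.sin_add_pi_div_two]
    rw [Real.cos_sub, Real.cos_sub]
    ring
  rw [div_mul_eq_mul_div, div_mul_eq_mul_div, ← add_div, eq_div_iff hne, key]

theorem sec_disjoint {θ : ℝ} {m : ℕ} (hm : 4 ≤ m) (hθ : θ = 2 * Real.pi / m) {i j : ℕ} (hij : i < j) (hj : j < m) :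
    Disjoint (interior (sec θ (i * θ))) (interior (sec θ (j * θ))) := by
  have hpi := Real.pi_pos
  have hm0 : (0 : ℝ) < m := by positivity
  have h0 : 0 < θ := by rw [hθ]; positivity
  have hm4 : (4 : ℝ) ≤ m := by exact_mod_cast hm
  have hmθ : m * θ = 2 * Real.pi := by rw [hθ]; field_simp
  have h1 : θ < Real.pi := by nlinarith
  have hij' : (i : ℝ) + 1 ≤ j := by exact_mod_cast hij
  have hj' : (j : ℝ) + 1 ≤ m := by exact_mod_cast hj
  have hi0 : (0 : ℝ) ≤ i := by positivity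
  have hn : ∀ α : ℝ, ∀ k : ℝ, Real.cos (k * θ - (α + Real.pi / 2)) = Real.sin (k * θ - α) := by
    intro α k
    rw [show k * θ - (α + Real.pi / 2) = (k * θ - α) - Real.pi / 2 by ring, Real.cos_sub_pi_div_two]
  by_cases hc : (j - i : ℝ) * θ ≤ Real.pi
  · -- the line of direction `j θ`
    refine sep_disjoint (n := e (j * θ + Real.pi / 2)) (norm_e _) ?_ ?_
    · intro x hx
      obtain ⟨s, t, hs, ht, h⟩ := sec_repr h0 h1 hx
      rw [h, hn, show (i : ℝ) * θ + θ = (i + 1) * θ by ring, hn]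
      have e1 : Real.sin (i * θ - j * θ) ≤ 0 := by
        apply Real.sin_nonpos_of_nonpos_of_neg_pi_le <;> nlinarith
      have e2 : Real.sin ((i + 1) * θ - j * θ) ≤ 0 := by
        apply Real.sin_nonpos_of_nonpos_of_neg_pi_le <;> nlinarith
      nlinarith [mul_nonneg hs (neg_nonneg.2 e1), mul_nonneg ht (neg_nonneg.2 e2)]
    · intro x hx
      exact hx.2.1
  · -- the line of direction `i θ`
    rw [disjoint_comm]
    refine sep_disjoint (n := e (i * θ + Real.pi / 2)) (norm_e _) ?_ ?_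
    · intro x hx
      obtain ⟨s, t, hs, ht, h⟩ := sec_repr h0 h1 hx
      rw [h, hn, show (j : ℝ) * θ + θ = (j + 1) * θ by ring, hn]
      push Not at hc
      have e1 : Real.sin (j * θ - i * θ) ≤ 0 := by
        have h2 := Real.sin_nonneg_of_nonneg_of_le_pi (x := j * θ - i * θ - Real.pi) (by nlinarith) (by nlinarith)
        rw [Real.sin_sub_pi] at h2
        linarith
      have e2 : Real.sin ((j + 1) * θ - i * θ) ≤ 0 := by
        have h2 := Real.sin_nonneg_of_nonneg_of_le_pi (x := (j + 1) * θ - i * θ - Real.pi) (by nlinarith) (by nlinarith)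
        rw [Real.sin_sub_pi] at h2
        linarith
      nlinarith [mul_nonneg hs (neg_nonneg.2 e1), mul_nonneg ht (neg_nonneg.2 e2)]
    · intro x hx
      exact hx.2.1

theorem mem_sec_of (θ a : ℝ) (x : E 2) (c s : ℝ) (hx : ‖x‖ ≤ 1)
    (hc : c = ⟪x, e (a + θ / 2)⟫) (hs : s = ⟪x, e (a + θ / 2 + Real.pi / 2)⟫)
    (h1 : 0 ≤ s * Real.cos (θ / 2) + c * Real.sin (θ / 2)) (h2 : s * Real.cos (θ / 2) - c * Real.sin (θ / 2) ≤ 0) :
    x ∈ sec θ a := by
  refine ⟨by simpa using hx, ?_, ?_⟩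
  · have : ⟪x, e (a + Real.pi / 2)⟫ = s * Real.cos (θ / 2) + c * Real.sin (θ / 2) := by
      rw [hc, hs, inner_e, inner_e, inner_e]
      simp only [Real.cos_add_pi_div_two, Real.sin_add_pi_div_two]
      have ea : Real.sin a = Real.sin (a + θ / 2) * Real.cos (θ / 2) - Real.cos (a + θ / 2) * Real.sin (θ / 2) := by
        rw [← Real.sin_sub]; congr 1; ring
      have eb : Real.cos a = Real.cos (a + θ / 2) * Real.cos (θ / 2) + Real.sin (a + θ / 2) * Real.sin (θ / 2) := by
        rw [← Real.cos_sub]; congr 1; ring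
      rw [ea, eb]
      ring
    rw [this]; exact h1
  · have : ⟪x, e (a + θ + Real.pi / 2)⟫ = s * Real.cos (θ / 2) - c * Real.sin (θ / 2) := by
      rw [hc, hs, inner_e, inner_e, inner_e]
      simp only [Real.cos_add_pi_div_two, Real.sin_add_pi_div_two]
      have ea : Real.sin (a + θ) = Real.sin (a + θ / 2) * Real.cos (θ / 2) + Real.cos (a + θ / 2) * Real.sin (θ / 2) := by
        rw [← Real.sin_add]; congr 1; ring
      have eb : Real.cos (a + θ) = Real.cos (a + θ / 2) * Real.cos (θ / 2) - Real.sin (a + θ / 2) * Real.sin (θ / 2) := by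
        rw [← Real.cos_add]; congr 1; ring
      rw [ea, eb]
      ring
    rw [this]; exact h2

/-- the width of the sector -/
theorem wd_sec {θ : ℝ} (h0 : 0 < θ) (h1 : θ ≤ Real.pi / 2) (a : ℝ) (u : E 2) (hu : ‖u‖ = 1) :
    Real.sin θ ≤ wd (sec θ a) u := by
  have hpi := Real.pi_pos
  have hball : sec θ a ⊆ Metric.closedBall 0 1 := fun x hx => hx.1
  set δ := θ / 2 with hδ
  have hd0 : 0 < δ := by rw [hδ]; linarith
  have hd1 : δ ≤ Real.pi / 4 := by rw [hδ]; linarith
  have hsd : 0 < Real.sin δ := Real.sin_pos_of_pos_of_lt_pi hd0 (by linarith)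
  have hcd : 0 < Real.cos δ := Real.cos_pos_of_mem_Ioo ⟨by linarith, by linarith⟩
  have hsc := Real.sin_sq_add_cos_sq δ
  have hθ : Real.sin θ = 2 * Real.sin δ * Real.cos δ := by
    rw [show θ = 2 * δ by rw [hδ]; ring, Real.sin_two_mul]
  set c := ⟪u, e (a + δ)⟫ with hc
  set s := ⟪u, e (a + δ + Real.pi / 2)⟫ with hs
  have hcs : c ^ 2 + s ^ 2 = 1 := by
    have h2 : u 0 ^ 2 + u 1 ^ 2 = 1 := by rw [← norm2, hu]; norm_num
    rw [hc, hs, inner_e, inner_e]
    simp only [Real.cos_add_pi_div_two, Real.sin_add_pi_div_two]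
    have h3 := Real.sin_sq_add_cos_sq (a + δ)
    linear_combination (Real.sin (a + δ) ^ 2 + Real.cos (a + δ) ^ 2) * h2 + h3
  -- the end points
  have hz : (0 : E 2) ∈ sec θ a := ⟨by simp, by simp, by simp⟩
  have hep : e (a + θ) ∈ sec θ a := by
    refine ⟨by simp [norm_e], ?_, ?_⟩
    · rw [inner_e, e0, e1]
      simp only [Real.cos_add_pi_div_two, Real.sin_add_pi_div_two]
      have h3 : Real.cos (a + θ) * -Real.sin a + Real.sin (a + θ) * Real.cos a = Real.sin θ := by
        rw [show θ = (a + θ) - a by ring, Real.sin_sub]; ring_nf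
      rw [h3]
      exact Real.sin_nonneg_of_nonneg_of_le_pi h0.le (by linarith)
    · rw [inner_e, e0, e1]
      simp only [Real.cos_add_pi_div_two, Real.sin_add_pi_div_two]
      apply le_of_eq
      ring
  have hem : e a ∈ sec θ a := by
    refine ⟨by simp [norm_e], ?_, ?_⟩
    · rw [inner_e, e0, e1]
      simp only [Real.cos_add_pi_div_two, Real.sin_add_pi_div_two]
      apply le_of_eq
      ring
    · rw [inner_e, e0, e1]
      simp only [Real.cos_add_pi_div_two, Real.sin_add_pi_div_two]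
      have h3 : Real.cos a * -Real.sin (a + θ) + Real.sin a * Real.cos (a + θ) = - Real.sin θ := by
        rw [show θ = (a + θ) - a by ring, Real.sin_sub]; ring_nf
      rw [h3]
      have := Real.sin_nonneg_of_nonneg_of_le_pi h0.le (by linarith : θ ≤ Real.pi)
      linarith
  have vp : ⟪e (a + θ), u⟫ = c * Real.cos δ + s * Real.sin δ := by
    rw [real_inner_comm, hc, hs, inner_e, inner_e, inner_e]
    simp only [Real.cos_add_pi_div_two, Real.sin_add_pi_div_two]
    rw [show a + θ = a + δ + δ by rw [hδ]; ring, Real.cos_add (a + δ) δ, Real.sin_add (a + δ) δ]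
    ring
  have vm : ⟪e a, u⟫ = c * Real.cos δ - s * Real.sin δ := by
    rw [real_inner_comm, hc, hs, inner_e, inner_e, inner_e]
    simp only [Real.cos_add_pi_div_two, Real.sin_add_pi_div_two]
    conv_lhs => rw [show a = a + δ - δ by ring, Real.cos_sub, Real.sin_sub]
    ring
  have w1 := wd_ge hball hu hep hem
  have w2 := wd_ge hball hu hem hep
  have w3 := wd_ge hball hu hep hz
  have w4 := wd_ge hball hu hz hep
  have w5 := wd_ge hball hu hem hz
  have w6 := wd_ge hball hu hz hem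
  rw [inner_zero_left] at w3 w4 w5 w6
  rw [vp, vm] at w1 w2
  rw [vp] at w3 w4
  rw [vm] at w5 w6
  rw [hθ]
  by_cases hC : Real.cos δ ≤ |s|
  · -- the two end points
    rcases abs_cases s with ⟨h2, _⟩ | ⟨h2, _⟩
    · rw [h2] at hC; nlinarith
    · rw [h2] at hC; nlinarith
  push Not at hC
  by_cases hA : |s| ≤ Real.sin δ
  · -- the point `u` or `- u`
    have hs2 : s ^ 2 ≤ Real.sin δ ^ 2 := by rw [← sq_abs]; exact pow_le_pow_left₀ (abs_nonneg _) hA 2
    have hc2 : Real.cos δ ^ 2 ≤ c ^ 2 := by nlinarith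
    have hc3 : Real.cos δ ≤ |c| := by
      rw [← sq_abs c] at hc2
      exact le_of_sq_le_sq hc2 (abs_nonneg _)
    have hs3 := abs_le.1 hA
    have h2 : 2 * Real.sin δ * Real.cos δ ≤ 1 := by nlinarith [sq_nonneg (Real.sin δ - Real.cos δ)]
    rcases abs_cases c with ⟨h3, _⟩ | ⟨h3, _⟩
    · rw [h3] at hc3
      have hmem : u ∈ sec θ a := mem_sec_of θ a u c s hu.le hc hs (by nlinarith) (by nlinarith)
      have w7 := wd_ge hball hu hmem hz
      rw [inner_zero_left, real_inner_self_eq_norm_sq, hu] at w7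
      linarith
    · rw [h3] at hc3
      have hmem : -u ∈ sec θ a := by
        refine mem_sec_of θ a (-u) (-c) (-s) (by rw [norm_neg, hu]) (by rw [hc, inner_neg_left]) (by rw [hs, inner_neg_left])
          (by nlinarith) (by nlinarith)
      have w7 := wd_ge hball hu hz hmem
      rw [inner_zero_left, inner_neg_left, real_inner_self_eq_norm_sq, hu] at w7
      linarith
  push Not at hA
  -- an end point and the centre
  have hmain : 2 * Real.sin δ * Real.cos δ ≤ |c| * Real.cos δ + |s| * Real.sin δ := by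
    have hs1 : |s| ≤ 1 := by nlinarith [abs_nonneg s, sq_abs s, sq_nonneg c]
    set τ := Real.arcsin |s| with hτ
    have hst : Real.sin τ = |s| := Real.sin_arcsin (by linarith [abs_nonneg s]) hs1
    have ht0 : 0 ≤ τ := Real.arcsin_nonneg.2 (abs_nonneg _)
    have ht1 : τ ≤ Real.pi / 2 := Real.arcsin_le_pi_div_two _
    have hct : Real.cos τ = |c| := by
      rw [hτ, Real.cos_arcsin, sq_abs, ← hcs, add_sub_cancel_right, Real.sqrt_sq_eq_abs]
    have h2 : δ < τ := by
      by_contra h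
      push Not at h
      have := Real.sin_le_sin_of_le_of_le_pi_div_two (by linarith) (by linarith) h
      linarith
    have h3 : τ < Real.pi / 2 - δ := by
      by_contra h
      push Not at h
      have := Real.sin_le_sin_of_le_of_le_pi_div_two (by linarith) ht1 h
      rw [Real.sin_pi_div_two_sub] at this
      linarith
    have h4 : Real.cos (Real.pi / 2 - 2 * δ) ≤ Real.cos (τ - δ) :=
      Real.cos_le_cos_of_nonneg_of_le_pi (by linarith) (by linarith) (by linarith)
    rw [Real.cos_pi_div_two_sub, Real.sin_two_mul, Real.cos_sub, hst, hct] at h4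
    exact h4
  rcases abs_cases c with ⟨h3, _⟩ | ⟨h3, _⟩ <;> rcases abs_cases s with ⟨h4, _⟩ | ⟨h4, _⟩ <;>
    rw [h3, h4] at hmain <;> linarith

end PCS.Sec

namespace PCS

/-- `m` equal sectors -/
theorem planar_lower {t : ℝ} {m : ℕ} (hm : 4 ≤ m) (ht : t ≤ Real.sin (2 * Real.pi / m)) : Pack 2 t m := by
  have hpi := Real.pi_pos
  have hm4 : (4 : ℝ) ≤ m := by exact_mod_cast hm
  have hm0 : (0 : ℝ) < m := by linarith
  refine ⟨fun i => Sec.sec (2 * Real.pi / m) (i.1 * (2 * Real.pi / m)), fun i => Sec.convex_sec _ _,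
    fun i x hx => hx.1, ?_, ?_⟩
  · intro i j hij
    rcases lt_or_gt_of_ne hij with h | h
    · exact Sec.sec_disjoint hm rfl h j.2
    · exact (Sec.sec_disjoint hm rfl h i.2).symm
  · intro i u hu
    refine ht.trans (Sec.wd_sec (by positivity) ?_ _ u hu)
    rw [div_le_div_iff₀ hm0 (by norm_num)]
    nlinarith

end PCS
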