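import Pool.Agent.PCS.PDefs

/-!
# Width of a convex set of the unit disc between two lines (Helper33, row H4)
-/

set_option autoImplicit false

open MeasureTheory ProbabilityTheory Module PCW
open scoped RealInnerProductSpace

namespace PCS

/-- tangent inequality for the sine -/
theorem sin_le_tangent {y c : ℝ} (hy0 : 0 ≤ y) (hy1 : y ≤ Real.pi / 2) (hc0 : 0 ≤ c)
    (hc1 : c ≤ Real.pi / 2) : Real.sin y ≤ Real.sin c + Real.cos c * (y - c) := by
  have hpi := Real.pi_pos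
  rcases lt_trichotomy y c with h | h | h
  · obtain ⟨ξ, hξ, hξ1⟩ := exists_hasDerivAt_eq_slope Real.sin Real.cos h
      Real.continuous_sin.continuousOn (fun x _ => Real.hasDerivAt_sin x)
    have h1 : Real.cos c ≤ Real.cos ξ :=
      Real.cos_le_cos_of_nonneg_of_le_pi (by linarith [hξ.1]) (by linarith) hξ.2.le
    rw [eq_div_iff (by linarith)] at hξ1
    nlinarith
  · rw [h]; simp
  · obtain ⟨ξ, hξ, hξ1⟩ := exists_hasDerivAt_eq_slope Real.sin Real.cos h
      Real.continuous_sin.continuousOn (fun x _ => Real.hasDerivAt_sin x)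
    have h1 : Real.cos ξ ≤ Real.cos c :=
      Real.cos_le_cos_of_nonneg_of_le_pi hc0 (by linarith [hξ.2]) hξ.1.le
    rw [eq_div_iff (by linarith)] at hξ1
    nlinarith

theorem sin_min_le {y c : ℝ} (hy0 : 0 ≤ y) (hc0 : 0 ≤ c) (hc1 : c ≤ Real.pi / 2) :
    Real.sin (min y (Real.pi / 2)) ≤ Real.sin c + Real.cos c * (y - c) := by
  have hpi := Real.pi_pos
  have h1 := sin_le_tangent (y := min y (Real.pi / 2)) (le_min hy0 (by positivity))
    (min_le_right _ _) hc0 hc1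
  have h2 : 0 ≤ Real.cos c := Real.cos_nonneg_of_mem_Icc ⟨by linarith, hc1⟩
  have h3 : min y (Real.pi / 2) ≤ y := min_le_left _ _
  nlinarith

/-- the scalar inequality -/
theorem scalar_sector {X Y D ψ : ℝ} (hXY : X ^ 2 + Y ^ 2 ≤ 1) (hD : 0 < D)
    (hψ0 : -(Real.pi / 2) < ψ) (hψ1 : ψ < Real.pi / 2) (hX : X ≤ Real.sin ψ) :
    Real.cos D * X + Real.sin D * Y ≤ Real.sin (min (D + ψ) (Real.pi / 2)) := by
  have hpi := Real.pi_pos
  have hcs : ∀ θ : ℝ, Real.cos θ * X + Real.sin θ * Y ≤ 1 := by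
    intro θ
    have h1 := Real.sin_sq_add_cos_sq θ
    have h2 : 0 ≤ (Real.cos θ * Y - Real.sin θ * X) ^ 2 := sq_nonneg _
    have h3 : (Real.cos θ * X + Real.sin θ * Y) ^ 2 ≤ 1 := by
      have h4 : (Real.cos θ * X + Real.sin θ * Y) ^ 2 + (Real.cos θ * Y - Real.sin θ * X) ^ 2 =
          (Real.sin θ ^ 2 + Real.cos θ ^ 2) * (X ^ 2 + Y ^ 2) := by ring
      rw [h1, one_mul] at h4
      linarith
    nlinarith [abs_le_of_sq_le_sq' (by simpa using h3 : (Real.cos θ * X + Real.sin θ * Y) ^ 2 ≤ 1 ^ 2)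
      (by norm_num)]
  rcases le_or_gt (Real.pi / 2) (D + ψ) with h | h
  · rw [min_eq_right h, Real.sin_pi_div_two]
    exact hcs D
  · rw [min_eq_left h.le]
    have hc : 0 < Real.cos ψ := Real.cos_pos_of_mem_Ioo ⟨hψ0, hψ1⟩
    have hs : 0 < Real.sin D := Real.sin_pos_of_pos_of_lt_pi hD (by linarith)
    have hc' : 0 < Real.cos (D + ψ) := Real.cos_pos_of_mem_Ioo ⟨by linarith, h⟩
    have h1 : Real.sin ψ * X + Real.cos ψ * Y ≤ 1 := by
      have := hcs (Real.pi / 2 - ψ)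
      rwa [Real.cos_pi_div_two_sub, Real.sin_pi_div_two_sub] at this
    have h2 : Real.cos ψ * (Real.cos D * X + Real.sin D * Y) =
        Real.cos (D + ψ) * X + Real.sin D * (Real.sin ψ * X + Real.cos ψ * Y) := by
      rw [Real.cos_add]; ring
    have h3 : Real.cos ψ * Real.sin (D + ψ) = Real.cos (D + ψ) * Real.sin ψ + Real.sin D := by
      have h4 := Real.sin_sub (D + ψ) ψ
      rw [add_sub_cancel_right] at h4
      linarith
    refine le_of_mul_le_mul_left ?_ hc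
    rw [h2, h3]
    have h5 := mul_le_mul_of_nonneg_left hX hc'.le
    have h6 := mul_le_mul_of_nonneg_left h1 hs.le
    linarith

theorem dr_inner (x : E 2) (α : ℝ) :
    ⟪x, dr α⟫ = Real.cos α * x 0 + Real.sin α * x 1 := by
  simp [dr, PiLp.inner_apply, Fin.sum_univ_two]

theorem norm_dr (α : ℝ) : ‖dr α‖ = 1 := by
  rw [EuclideanSpace.norm_eq]
  simp [dr, Fin.sum_univ_two]

/-- the two coordinates -/
theorem dr_sq {x : E 2} (hx : ‖x‖ ≤ 1) (α : ℝ) :
    ⟪x, dr (α + Real.pi / 2)⟫ ^ 2 + ⟪x, dr α⟫ ^ 2 ≤ 1 := by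
  have h1 : ‖x‖ ^ 2 = x 0 ^ 2 + x 1 ^ 2 := by
    rw [EuclideanSpace.norm_eq, Real.sq_sqrt (by positivity)]
    simp [Fin.sum_univ_two]
  have h2 := Real.sin_sq_add_cos_sq α
  rw [dr_inner, dr_inner, Real.cos_add_pi_div_two, Real.sin_add_pi_div_two]
  have h3 : (-Real.sin α * x 0 + Real.cos α * x 1) ^ 2 + (Real.cos α * x 0 + Real.sin α * x 1) ^ 2 =
      (Real.sin α ^ 2 + Real.cos α ^ 2) * (x 0 ^ 2 + x 1 ^ 2) := by ring
  rw [h3, h2, one_mul, ← h1]
  nlinarith [norm_nonneg x]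

theorem wd_le {C : Set (E 2)} (hne : C.Nonempty) (v : E 2) {A B : ℝ} (hA : ∀ x ∈ C, A ≤ ⟪x, v⟫)
    (hB : ∀ x ∈ C, ⟪x, v⟫ ≤ B) : wd C v ≤ B - A := by
  unfold wd
  have h1 : sSup ((fun x => ⟪x, v⟫) '' C) ≤ B := csSup_le (hne.image _) (by
    rintro _ ⟨x, hx, rfl⟩
    exact hB x hx)
  have h2 : A ≤ sInf ((fun x => ⟪x, v⟫) '' C) := le_csInf (hne.image _) (by
    rintro _ ⟨x, hx, rfl⟩
    exact hA x hx)
  linarith

theorem fin_ineq {t p y c : ℝ} (ht : 3 / 4 < t) (hp : |p| ≤ 1 - t) (hy : -(Real.pi / 2) < y)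
    (h : t ≤ Real.sin (min y (Real.pi / 2)) - p) (hc0 : 0 ≤ c) (hc1 : c ≤ Real.pi / 2) :
    t ≤ Real.sin c + Real.cos c * (y - c) - p := by
  have hpi := Real.pi_pos
  have hp' := abs_le.1 hp
  have hy0 : 0 ≤ y := by
    by_contra hneg
    push Not at hneg
    have h1 : Real.sin (min y (Real.pi / 2)) ≤ 0 := by
      rw [min_eq_left (by linarith)]
      exact Real.sin_nonpos_of_nonpos_of_neg_pi_le hneg.le (by linarith)
    linarith
  have := sin_min_le hy0 hc0 hc1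
  linarith

/-- ROW H4 -/
theorem cell_ineq {t : ℝ} (ht : 3 / 4 < t) (ht1 : t ≤ 1) {C : Set (E 2)} (hne : C.Nonempty)
    (hb : C ⊆ Metric.closedBall 0 1) (hw : ∀ v : E 2, ‖v‖ = 1 → t ≤ wd C v) {a b p q : ℝ} (hab : a < b)
    (hp : |p| ≤ 1 - t) (hq : |q| ≤ 1 - t) (h1 : ∀ x ∈ C, p ≤ ⟪x, dr (a + Real.pi / 2)⟫)
    (h2 : ∀ x ∈ C, ⟪x, dr (b + Real.pi / 2)⟫ ≤ q) {c : ℝ} (hc0 : 0 ≤ c) (hc1 : c ≤ Real.pi / 2) :
    t ≤ Real.sin c + Real.cos c * (b - a + Real.arcsin q - c) - p ∧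
    t ≤ Real.sin c + Real.cos c * (b - a - Real.arcsin p - c) + q := by
  have hpi := Real.pi_pos
  have hp' := abs_le.1 hp
  have hq' := abs_le.1 hq
  have hD : 0 < b - a := sub_pos.2 hab
  have hball : ∀ x ∈ C, ‖x‖ ≤ 1 := fun x hx => by simpa using hb hx
  have hpb : -(Real.pi / 2) < Real.arcsin p ∧ Real.arcsin p < Real.pi / 2 :=
    ⟨Real.neg_pi_div_two_lt_arcsin.2 (by linarith), Real.arcsin_lt_pi_div_two.2 (by linarith)⟩
  have hqb : -(Real.pi / 2) < Real.arcsin q ∧ Real.arcsin q < Real.pi / 2 :=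
    ⟨Real.neg_pi_div_two_lt_arcsin.2 (by linarith), Real.arcsin_lt_pi_div_two.2 (by linarith)⟩
  have hsp : Real.sin (Real.arcsin p) = p := Real.sin_arcsin (by linarith) (by linarith)
  have hsq : Real.sin (Real.arcsin q) = q := Real.sin_arcsin (by linarith) (by linarith)
  constructor
  · refine fin_ineq ht hp (y := b - a + Real.arcsin q) (by linarith) ?_ hc0 hc1
    refine (hw _ (norm_dr (a + Real.pi / 2))).trans (wd_le hne _ h1 fun x hx => ?_)
    have h3 := scalar_sector (X := ⟪x, dr (b + Real.pi / 2)⟫) (Y := ⟪x, dr b⟫) (D := b - a)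
      (ψ := Real.arcsin q) (dr_sq (hball x hx) b) hD hqb.1 hqb.2 (by rw [hsq]; exact h2 x hx)
    refine le_trans (le_of_eq ?_) h3
    simp only [dr_inner, Real.cos_add_pi_div_two, Real.sin_add_pi_div_two]
    have e1 : Real.sin a = Real.sin b * Real.cos (b - a) - Real.cos b * Real.sin (b - a) := by
      rw [← Real.sin_sub]; congr 1; ring
    have e2 : Real.cos a = Real.cos b * Real.cos (b - a) + Real.sin b * Real.sin (b - a) := by
      rw [← Real.cos_sub]; congr 1; ring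
    rw [e1, e2]
    ring
  · have hq'' : |(-q)| ≤ 1 - t := by rwa [abs_neg]
    have h4 := fin_ineq ht hq'' (y := b - a - Real.arcsin p) (by linarith) (c := c) ?_ hc0 hc1
    · linarith
    refine (hw _ (norm_dr (b + Real.pi / 2))).trans ?_
    have h5 := wd_le hne (dr (b + Real.pi / 2))
      (A := -Real.sin (min (b - a - Real.arcsin p) (Real.pi / 2))) (B := q) (fun x hx => ?_) h2
    · linarith
    have h3 := scalar_sector (X := -⟪x, dr (a + Real.pi / 2)⟫) (Y := ⟪x, dr a⟫) (D := b - a)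
      (ψ := -Real.arcsin p) (by rw [neg_sq]; exact dr_sq (hball x hx) a) hD (by linarith)
      (by linarith) (by rw [Real.sin_neg, hsp]; linarith [h1 x hx])
    rw [← sub_eq_add_neg] at h3
    have h6 : ⟪x, dr (b + Real.pi / 2)⟫ =
        -(Real.cos (b - a) * -⟪x, dr (a + Real.pi / 2)⟫ + Real.sin (b - a) * ⟪x, dr a⟫) := by
      simp only [dr_inner, Real.cos_add_pi_div_two, Real.sin_add_pi_div_two]
      have e1 : Real.sin b = Real.sin a * Real.cos (b - a) + Real.cos a * Real.sin (b - a) := by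
        rw [← Real.sin_add]; congr 1; ring
      have e2 : Real.cos b = Real.cos a * Real.cos (b - a) - Real.sin a * Real.sin (b - a) := by
        rw [← Real.cos_add]; congr 1; ring
      rw [e1, e2]
      ring
    rw [h6]
    linarith

end PCS
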