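import Pool.Agent.PCS.Sepa
import Pool.Agent.PCS.Ray
import Pool.Agent.PCS.Cyc
import Pool.Agent.PCS.Two
import Pool.Agent.PCS.Sec

/-!
# The planar case
-/

set_option autoImplicit false

open MeasureTheory ProbabilityTheory Module PCW
open scoped RealInnerProductSpace

namespace PCS

/-- **upper bound in the plane** -/
theorem planar_upper {t : ℝ} (ht : 3 / 4 < t) (ht1 : t ≤ 1) {m : ℕ} (hP : Pack 2 t m) :
    (m : ℝ) ≤ 2 * Real.pi / Real.arcsin t := by
  have ha0 : 0 < Real.arcsin t := Real.arcsin_pos.2 (by linarith)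
  have ha1 : Real.arcsin t ≤ Real.pi / 2 := Real.arcsin_le_pi_div_two t
  rw [le_div_iff₀ ha0]
  by_cases hm : m ≤ 3
  · have h1 : (m : ℝ) ≤ 3 := by exact_mod_cast hm
    calc (m : ℝ) * Real.arcsin t ≤ 3 * (Real.pi / 2) := mul_le_mul h1 ha1 ha0.le (by norm_num)
      _ ≤ 2 * Real.pi := by linarith [Real.pi_pos]
  have hm4 : 4 ≤ m := by omega
  have hmR : (4 : ℝ) ≤ m := by exact_mod_cast hm4
  obtain ⟨C, u, s, h⟩ := sep_of_pack (by norm_num) (by linarith) hP
  choose r hr0 hr using fun i => exists_ray ht h i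
  obtain ⟨σ, α, hσ, hσ1, hα, hα1, hu⟩ := exists_cyc (by omega) hr0 h.unit h.anti hr
  set c : ℝ := 2 * Real.pi / m with hc
  have hc0 : 0 ≤ c := by positivity
  have hc1 : c ≤ Real.pi / 2 := by
    rw [hc, div_le_iff₀ (by positivity)]
    nlinarith [Real.pi_pos]
  set p : ℕ → ℝ := fun k => s (σ (k + 1)) (σ k) with hp
  set F : ℕ → ℝ := fun k => Real.cos c * (2 * α k + Real.arcsin (p k) - 2 * c * k) + p k with hF
  have hstep : ∀ k, 2 * t ≤ 2 * Real.sin c + (F (k + 1) - F k) := by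
    intro k
    obtain ⟨e1, e2⟩ := cell_ineq ht ht1 (h.ne (σ (k + 1))) (h.ball _) (h.wid _) (hα1 k)
      (h.sle (σ (k + 1)) (σ k) (hσ1 k).symm) (h.sle (σ (k + 1 + 1)) (σ (k + 1)) (hσ1 (k + 1)).symm)
      (fun x hx => by
        rw [← hu k]
        exact h.low _ _ (hσ1 k).symm x hx)
      (fun x hx => by
        rw [← hu (k + 1), h.anti _ _ (hσ1 (k + 1)), inner_neg_right, h.santi _ _ (hσ1 (k + 1))]
        exact neg_le_neg (h.low _ _ (hσ1 (k + 1)) x hx)) hc0 hc1
    have e3 : F (k + 1) - F k = Real.cos c * (α (k + 1) - α k + Real.arcsin (p (k + 1)) - c) - p k +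
        (Real.cos c * (α (k + 1) - α k - Real.arcsin (p k) - c) + p (k + 1)) := by
      simp only [hF]
      push_cast
      ring
    rw [e3]
    show 2 * t ≤ 2 * Real.sin c + (Real.cos c * (α (k + 1) - α k + Real.arcsin (s (σ (k + 1 + 1)) (σ (k + 1))) - c) -
      s (σ (k + 1)) (σ k) + (Real.cos c * (α (k + 1) - α k - Real.arcsin (s (σ (k + 1)) (σ k)) - c) +
        s (σ (k + 1 + 1)) (σ (k + 1))))
    linarith
  have hsum : ∑ _k ∈ Finset.range m, (2 * t) ≤ ∑ k ∈ Finset.range m, (2 * Real.sin c + (F (k + 1) - F k)) :=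
    Finset.sum_le_sum fun k _ => hstep k
  rw [Finset.sum_add_distrib, Finset.sum_range_sub, Finset.sum_const, Finset.sum_const, Finset.card_range,
    nsmul_eq_mul, nsmul_eq_mul] at hsum
  have hpm : p m = p 0 := by
    simp only [hp]
    have e1 : σ (m + 1) = σ (0 + 1) := by
      rw [show m + 1 = 0 + 1 + m by ring, hσ]
    have e2 : σ m = σ 0 := by
      have := hσ 0
      rwa [Nat.zero_add] at this
    rw [e1, e2]
  have hF0 : F m - F 0 = 0 := by
    simp only [hF]
    rw [hpm, show α m = α 0 + 2 * Real.pi by simpa using hα 0]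
    have e : 2 * c * m = 4 * Real.pi := by
      rw [hc]
      field_simp
      ring
    rw [e]
    push_cast
    ring
  rw [hF0, add_zero] at hsum
  have hts : t ≤ Real.sin c := by
    have h1 : (m : ℝ) * (2 * t) ≤ m * (2 * Real.sin c) := hsum
    have h2 := le_of_mul_le_mul_left h1 (by positivity)
    linarith
  have h3 : Real.arcsin t ≤ c := by
    rw [Real.arcsin_le_iff_le_sin ⟨by linarith, ht1⟩ ⟨by linarith, hc1⟩]
    exact hts
  calc (m : ℝ) * Real.arcsin t ≤ m * c := mul_le_mul_of_nonneg_left h3 (by positivity)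
    _ = 2 * Real.pi := by
      rw [hc]
      field_simp

/-- **the planar case** -/
theorem planar {t : ℝ} (ht : 3 / 4 < t) (ht1 : t ≤ 1) :
    IsGreatest {m : ℕ | Pack 2 t m} ⌊2 * Real.pi / Real.arcsin t⌋₊ := by
  have ha0 : 0 < Real.arcsin t := Real.arcsin_pos.2 (by linarith)
  have ha1 : Real.arcsin t ≤ Real.pi / 2 := Real.arcsin_le_pi_div_two t
  have h4 : (4 : ℝ) ≤ 2 * Real.pi / Real.arcsin t := by
    rw [le_div_iff₀ ha0]
    linarith
  refine ⟨?_, fun m hm => Nat.le_floor (planar_upper ht ht1 hm)⟩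
  set m := ⌊2 * Real.pi / Real.arcsin t⌋₊ with hm
  have hm4 : 4 ≤ m := Nat.le_floor (by exact_mod_cast h4)
  have hmR : (4 : ℝ) ≤ m := by exact_mod_cast hm4
  have h5 : (m : ℝ) ≤ 2 * Real.pi / Real.arcsin t := Nat.floor_le (by positivity)
  rw [le_div_iff₀ ha0] at h5
  have h6 : Real.arcsin t ≤ 2 * Real.pi / m := by
    rw [le_div_iff₀ (by positivity)]
    linarith
  have h7 : 2 * Real.pi / m ≤ Real.pi / 2 := by
    rw [div_le_iff₀ (by positivity)]
    nlinarith [Real.pi_pos]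
  refine planar_lower hm4 ?_
  rw [← Real.arcsin_le_iff_le_sin ⟨by linarith, ht1⟩ ⟨by linarith, h7⟩]
  exact h6

end PCS
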