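import Pool.Agent.PCW.Defs

/-!
# Rays and orthants: definitions
-/

set_option autoImplicit false

open PCW
open scoped RealInnerProductSpace

namespace PCS

/-- the union of the rays from the centre through the points of `C` -/
def rays {d : ℕ} (C : Set (E d)) : Set (E d) := {x | ∃ c : ℝ, 0 ≤ c ∧ ∃ y ∈ C, x = c • y}

/-- the orthant of an orthonormal basis -/
def orth {d : ℕ} (b : OrthonormalBasis (Fin d) ℝ (E d)) : Set (E d) := {x | ∀ i, 0 ≤ inner ℝ (b i) x}

end PCS
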