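import Pool.Agent.PCS.Vol
import Pool.Agent.PCW.Red
import Pool.Agent.PCS.RigDefs

/-!
# The equality case: from self-dual cones to cones containing their duals, and to packings of width one
-/

set_option autoImplicit false

open MeasureTheory ProbabilityTheory Module PCW Metric
open scoped RealInnerProductSpace ENNReal

namespace PCS

section
variable {V : Type*} [NormedAddCommGroup V] [InnerProductSpace ℝ V] [FiniteDimensional ℝ V]
  [MeasurableSpace V] [BorelSpace V]

/-- the equality case for self-dual cones -/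
def Eq1 (V : Type*) [NormedAddCommGroup V] [InnerProductSpace ℝ V] [FiniteDimensional ℝ V]
    [MeasurableSpace V] [BorelSpace V] : Prop :=
  ∀ S : Set V, SD S → (stdGaussian V).real S = ((2 : ℝ) ^ finrank ℝ V)⁻¹ →
    ∃ b : OrthonormalBasis (Fin (finrank ℝ V)) ℝ V, S = {x | ∀ i, 0 ≤ ⟪b i, x⟫}

/-- nonempty open sets have positive Gaussian measure -/
lemma std_open {U : Set V} (hU : IsOpen U) (h : stdGaussian V U = 0) : U = ∅ := by
  by_contra hne
  obtain ⟨x, hx⟩ := Set.nonempty_iff_ne_empty.2 hne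
  obtain ⟨r, hr, hb⟩ := Metric.isOpen_iff.1 hU x hx
  have h1 : stdGaussian V (ball x r) = 0 := measure_mono_null hb h
  rw [std_eq, withDensity_apply_eq_zero continuous_dn.measurable.ennreal_ofReal] at h1
  have h2 : {y : V | ENNReal.ofReal (dn y) ≠ 0} ∩ ball x r = ball x r := by
    ext y
    simp only [Set.mem_inter_iff, Set.mem_ofPred_eq, ne_eq, ENNReal.ofReal_eq_zero, not_le]
    exact ⟨fun h => h.2, fun h => ⟨dn_pos y, h⟩⟩
  rw [h2] at h1
  exact (Metric.measure_ball_pos (volume : Measure V) x hr).ne' h1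

/-- equality for a closed convex cone containing its dual cone -/
theorem cone_eq (hE : Eq1 V) {K : Set V} (hcl : IsClosed K) (hco : Convex ℝ K)
    (hc : ∀ c : ℝ, 0 < c → ∀ x ∈ K, c • x ∈ K) (hd : ∀ y, (∀ x ∈ K, 0 ≤ ⟪x, y⟫) → y ∈ K)
    (heq : volume (ball (0 : V) 1) = 2 ^ finrank ℝ V * volume (K ∩ ball 0 1)) :
    ∃ b : OrthonormalBasis (Fin (finrank ℝ V)) ℝ V, K = {x | ∀ i, 0 ≤ ⟪b i, x⟫} := by
  obtain ⟨S, hS, hSK⟩ := exists_sd_sub hcl hco hc hd
  have hv0 : volume (ball (0 : V) 1) ≠ 0 := (Metric.measure_ball_pos _ _ one_pos).ne'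
  have hv1 : volume (ball (0 : V) 1) ≠ ∞ := measure_ball_lt_top.ne
  have hK : stdGaussian V K = ((2 : ℝ≥0∞) ^ finrank ℝ V)⁻¹ := by
    rw [← std_cone hcl.measurableSet hc, ← mul_assoc] at heq
    have h1 : (2 : ℝ≥0∞) ^ finrank ℝ V * stdGaussian V K = 1 := by
      have h2 : 1 * volume (ball (0 : V) 1) =
          (2 : ℝ≥0∞) ^ finrank ℝ V * stdGaussian V K * volume (ball (0 : V) 1) := by
        rw [one_mul]; exact heq
      exact ((ENNReal.mul_left_inj hv0 hv1).1 h2).symm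
    rw [mul_comm] at h1
    exact ENNReal.eq_inv_of_mul_eq_one_left h1
  have hKr : (stdGaussian V).real K = ((2 : ℝ) ^ finrank ℝ V)⁻¹ := by
    rw [measureReal_def, hK, ENNReal.toReal_inv, ENNReal.toReal_pow, ENNReal.toReal_ofNat]
  have hSr : (stdGaussian V).real S = ((2 : ℝ) ^ finrank ℝ V)⁻¹ :=
    le_antisymm (hKr ▸ measureReal_mono hSK) (main hS)
  have hdiff : stdGaussian V (K \ S) = 0 := by
    have h1 : (stdGaussian V).real (K \ S) = 0 := by
      rw [measureReal_sdiff hSK hS.closed.measurableSet, hKr, hSr, sub_self]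
    exact (measureReal_eq_zero_iff).1 h1
  have hint : interior K ⊆ S := by
    have h1 : interior K \ S = ∅ :=
      std_open (isOpen_interior.sdiff hS.closed)
        (measure_mono_null (Set.sdiff_subset_sdiff_left interior_subset) hdiff)
    exact Set.sdiff_eq_empty.1 h1
  have hne : (interior K).Nonempty := by
    obtain ⟨e, r, hr, hball⟩ := hS.exists_ball
    exact ⟨e, mem_interior.2 ⟨ball e r, hball.trans hSK, isOpen_ball, mem_ball_self hr⟩⟩
  have hKS : K ⊆ S := by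
    intro x hx
    have h1 : x ∈ closure (interior K) := by
      rw [hco.closure_interior_eq_closure_of_nonempty_interior hne]
      exact subset_closure hx
    have h2 := closure_mono hint h1
    rwa [hS.closed.closure_eq] at h2
  have : K = S := Set.Subset.antisymm hKS hSK
  rw [this]
  exact hE S hS hSr

end

section
variable {d : ℕ}

lemma convex_rays {C : Set (E d)} (hC : Convex ℝ C) : Convex ℝ (rays C) := by
  rintro _ ⟨c1, h1, y1, hy1, rfl⟩ _ ⟨c2, h2, y2, hy2, rfl⟩ a b ha hb hab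
  rw [smul_smul, smul_smul]
  have p1 : 0 ≤ a * c1 := mul_nonneg ha h1
  have p2 : 0 ≤ b * c2 := mul_nonneg hb h2
  by_cases hs : a * c1 + b * c2 = 0
  · have e1 : a * c1 = 0 := by linarith
    have e2 : b * c2 = 0 := by linarith
    exact ⟨0, le_rfl, y1, hy1, by rw [e1, e2]; simp⟩
  · refine ⟨a * c1 + b * c2, add_nonneg p1 p2, (a * c1 / (a * c1 + b * c2)) • y1 + (b * c2 / (a * c1 + b * c2)) • y2,
      hC hy1 hy2 (div_nonneg p1 (add_nonneg p1 p2)) (div_nonneg p2 (add_nonneg p1 p2)) ?_, ?_⟩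
    · rw [← add_div, div_self hs]
    · rw [smul_add, smul_smul, smul_smul, mul_div_cancel₀ _ hs, mul_div_cancel₀ _ hs]

lemma sub_rays {C : Set (E d)} : C ⊆ rays C := fun x hx => ⟨1, zero_le_one, x, hx, (one_smul _ _).symm⟩

lemma smul_rays {C : Set (E d)} {c : ℝ} (hc : 0 < c) {x : E d} (hx : x ∈ rays C) : c • x ∈ rays C := by
  obtain ⟨a, ha, y, hy, rfl⟩ := hx
  exact ⟨c * a, mul_nonneg hc.le ha, y, hy, smul_smul _ _ _⟩

lemma smul_crays {C : Set (E d)} (c : ℝ) (hc : 0 < c) (x : E d) (hx : x ∈ closure (rays C)) :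
    c • x ∈ closure (rays C) :=
  map_mem_closure (continuous_const_smul c) hx fun _ hy => smul_rays hc hy

/-- a set of width at least one in the unit ball is not empty -/
lemma wd_ne (hd : 1 ≤ d) {C : Set (E d)} (hw : ∀ u : E d, ‖u‖ = 1 → 1 ≤ wd C u) : C.Nonempty := by
  by_contra h
  rw [Set.not_nonempty_iff_eq_empty] at h
  have h1 := hw (EuclideanSpace.single (⟨0, hd⟩ : Fin d) 1) (by simp)
  rw [h] at h1
  unfold wd at h1
  rw [Set.image_empty] at h1
  norm_num at h1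

/-- a unit vector with nonnegative products with the points of `C` is in the closure of `C` -/
lemma unit_mem (hd : 1 ≤ d) {C : Set (E d)} (hCb : C ⊆ closedBall 0 1)
    (hw : ∀ u : E d, ‖u‖ = 1 → 1 ≤ wd C u) {u : E d} (hu1 : ‖u‖ = 1) (hnn : ∀ x ∈ C, 0 ≤ ⟪x, u⟫) :
    u ∈ closure C := by
  have hne := wd_ne hd hw
  have hinf : 0 ≤ sInf ((fun x => ⟪x, u⟫) '' C) := by
    refine Real.sInf_nonneg ?_
    rintro _ ⟨x, hx, rfl⟩
    exact hnn x hx
  have hsup : 1 ≤ sSup ((fun x => ⟪x, u⟫) '' C) := by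
    have := hw u hu1
    unfold wd at this
    linarith
  rw [Metric.mem_closure_iff]
  intro ε hε
  have h1 : 1 - ε ^ 2 / 4 < sSup ((fun x => ⟪x, u⟫) '' C) := by
    have : 0 < ε ^ 2 / 4 := by positivity
    linarith
  obtain ⟨_, ⟨x, hx, rfl⟩, h2⟩ := exists_lt_of_lt_csSup (hne.image _) h1
  refine ⟨x, hx, ?_⟩
  have h3 : ‖x‖ ≤ 1 := by simpa using hCb hx
  have h4 : ‖u - x‖ ^ 2 < ε ^ 2 := by
    rw [@norm_sub_sq_real, hu1, real_inner_comm]
    have h5 : ‖x‖ ^ 2 ≤ 1 := pow_le_one₀ (norm_nonneg _) h3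
    have h6 : 1 - ε ^ 2 / 4 < ⟪x, u⟫ := h2
    nlinarith [sq_nonneg ε, pow_pos hε 2]
  rw [dist_eq_norm]
  exact lt_of_pow_lt_pow_left₀ 2 hε.le h4

lemma dual_sub (hd : 1 ≤ d) {C : Set (E d)} (hCb : C ⊆ closedBall 0 1)
    (hw : ∀ u : E d, ‖u‖ = 1 → 1 ≤ wd C u) (y : E d) (hy : ∀ x ∈ closure (rays C), 0 ≤ ⟪x, y⟫) :
    y ∈ closure (rays C) := by
  by_cases hy0 : y = 0
  · obtain ⟨x, hx⟩ := wd_ne hd hw
    rw [hy0]
    exact subset_closure ⟨0, le_rfl, x, hx, (zero_smul _ _).symm⟩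
  · have hn : 0 < ‖y‖ := norm_pos_iff.2 hy0
    set u : E d := ‖y‖⁻¹ • y with hu
    have hu1 : ‖u‖ = 1 := by
      rw [hu, norm_smul, norm_inv, norm_norm, inv_mul_cancel₀ hn.ne']
    have hnn : ∀ x ∈ C, 0 ≤ ⟪x, u⟫ := by
      intro x hx
      rw [hu, real_inner_smul_right]
      exact mul_nonneg (inv_nonneg.2 hn.le) (hy x (subset_closure (sub_rays hx)))
    have huC := unit_mem hd hCb hw hu1 hnn
    have h7 : y = ‖y‖ • u := by
      rw [hu, smul_inv_smul₀ hn.ne']
    rw [h7]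
    refine map_mem_closure (continuous_const_smul ‖y‖) huC fun x hx => ?_
    exact ⟨‖y‖, hn.le, x, hx, rfl⟩

/-- the norm is at most the sum of the coordinates on the orthant -/
lemma norm_le_sum (b : OrthonormalBasis (Fin d) ℝ (E d)) {x : E d} (hx : x ∈ orth b) :
    ‖x‖ ≤ ∑ i, ⟪b i, x⟫ := by
  have h1 : x = ∑ i, ⟪b i, x⟫ • b i := (b.sum_repr' x).symm
  calc ‖x‖ = ‖∑ i, ⟪b i, x⟫ • b i‖ := by rw [← h1]
    _ ≤ ∑ i, ‖⟪b i, x⟫ • b i‖ := norm_sum_le _ _
    _ = _ := by
      refine Finset.sum_congr rfl fun i _ => ?_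
      rw [norm_smul, b.norm_eq_one, mul_one, Real.norm_eq_abs, abs_of_nonneg (hx i)]

/-- the orthant is self-dual -/
lemma orth_inner (b : OrthonormalBasis (Fin d) ℝ (E d)) {x y : E d} (hx : x ∈ orth b) (hy : y ∈ orth b) :
    0 ≤ ⟪x, y⟫ := by
  rw [← b.sum_inner_mul_inner x y]
  refine Finset.sum_nonneg fun i _ => mul_nonneg ?_ (hy i)
  rw [real_inner_comm]
  exact hx i

/-- the closure of `C` if its cone is an orthant -/
theorem closure_eq (hd : 1 ≤ d) {C : Set (E d)} (hC : Convex ℝ C) (hCb : C ⊆ closedBall 0 1)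
    (hw : ∀ u : E d, ‖u‖ = 1 → 1 ≤ wd C u) (b : OrthonormalBasis (Fin d) ℝ (E d))
    (hb : closure (rays C) = orth b) : closure C = {x | x ∈ closedBall 0 1 ∧ x ∈ orth b} := by
  have hCo : C ⊆ orth b := fun x hx => hb ▸ subset_closure (sub_rays hx)
  have hunit : ∀ u : E d, ‖u‖ = 1 → u ∈ orth b → u ∈ closure C := fun u hu huo =>
    unit_mem hd hCb hw hu fun x hx => orth_inner b (hCo hx) huo
  have hne := wd_ne hd hw
  -- the origin
  have h0 : (0 : E d) ∈ closure C := by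
    set s : ℝ := √d with hs
    have hd0 : (0 : ℝ) < d := by exact_mod_cast hd
    have hs0 : 0 < s := Real.sqrt_pos.2 hd0
    set w : E d := s⁻¹ • ∑ i, b i with hwd
    have hin : ∀ x, ⟪x, w⟫ = s⁻¹ * ∑ i, ⟪b i, x⟫ := by
      intro x
      rw [hwd, real_inner_smul_right, inner_sum]
      congr 1
      exact Finset.sum_congr rfl fun i _ => real_inner_comm _ _
    have hw1 : ‖w‖ = 1 := by
      have h1 : ‖∑ i, b i‖ ^ 2 = d := by
        rw [← real_inner_self_eq_norm_sq, sum_inner]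
        have : ∀ i : Fin d, ⟪b i, ∑ j, b j⟫ = 1 := by
          intro i
          rw [inner_sum, Finset.sum_eq_single i]
          · rw [real_inner_self_eq_norm_sq, b.norm_eq_one]; norm_num
          · intro j _ hj
            exact b.inner_eq_zero (Ne.symm hj)
          · intro h; exact absurd (Finset.mem_univ i) h
        rw [Finset.sum_congr rfl fun i _ => this i]
        simp
      have h2 : ‖∑ i, b i‖ = s := by
        rw [hs, ← h1, Real.sqrt_sq (norm_nonneg _)]
      rw [hwd, norm_smul, h2, norm_inv, Real.norm_eq_abs, abs_of_pos hs0, inv_mul_cancel₀ hs0.ne']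
    have hsup : sSup ((fun x => ⟪x, w⟫) '' C) ≤ 1 := by
      refine csSup_le (hne.image _) ?_
      rintro _ ⟨x, hx, rfl⟩
      have h3 : ‖x‖ ≤ 1 := by simpa using hCb hx
      have h4 := real_inner_le_norm x w
      rw [hw1, mul_one] at h4
      exact h4.trans h3
    have hinf : sInf ((fun x => ⟪x, w⟫) '' C) ≤ 0 := by
      have := hw w hw1
      unfold wd at this
      linarith
    rw [Metric.mem_closure_iff]
    intro ε hε
    have h5 : sInf ((fun x => ⟪x, w⟫) '' C) < ε / s := hinf.trans_lt (by positivity)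
    obtain ⟨_, ⟨x, hx, rfl⟩, h6⟩ := exists_lt_of_csInf_lt (hne.image _) h5
    refine ⟨x, hx, ?_⟩
    rw [dist_eq_norm, zero_sub, norm_neg]
    have h7 : s⁻¹ * ∑ i, ⟪b i, x⟫ < ε / s := (hin x) ▸ h6
    have h8 : ∑ i, ⟪b i, x⟫ < ε := by
      rw [div_eq_inv_mul] at h7
      exact lt_of_mul_lt_mul_left h7 (inv_nonneg.2 hs0.le)
    exact (norm_le_sum b (hCo hx)).trans_lt h8
  apply Set.Subset.antisymm
  · intro x hx
    exact ⟨closure_minimal hCb isClosed_closedBall hx, hb ▸ closure_mono sub_rays hx⟩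
  · rintro x ⟨hx1, hx2⟩
    rw [mem_closedBall_zero_iff] at hx1
    by_cases hx0 : x = 0
    · rw [hx0]; exact h0
    · have hn : 0 < ‖x‖ := norm_pos_iff.2 hx0
      have hu1 : ‖‖x‖⁻¹ • x‖ = 1 := by
        rw [norm_smul, norm_inv, norm_norm, inv_mul_cancel₀ hn.ne']
      have hu2 : ‖x‖⁻¹ • x ∈ orth b := by
        intro i
        rw [real_inner_smul_right]
        exact mul_nonneg (inv_nonneg.2 hn.le) (hx2 i)
      have h3 := hC.closure (hunit _ hu1 hu2) h0 hn.le (sub_nonneg.2 hx1) (by ring)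
      rwa [smul_inv_smul₀ hn.ne', smul_zero, add_zero] at h3

end

end PCS
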