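import Pool.Agent.PCS.RigA

/-!
# The equality case for packings of width one
-/

set_option autoImplicit false

open MeasureTheory ProbabilityTheory Module PCW Metric
open scoped RealInnerProductSpace ENNReal

namespace PCS

section
variable {d : ℕ}

/-- the numbers `⟪x, u⟫` over a subset of the ball are bounded -/
lemma in_abs {C : Set (E d)} (hCb : C ⊆ closedBall 0 1) {u : E d} (hu : ‖u‖ = 1) {x : E d} (hx : x ∈ C) :
    -1 ≤ ⟪x, u⟫ ∧ ⟪x, u⟫ ≤ 1 := by
  have h2 : ‖x‖ ≤ 1 := by simpa using hCb hx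
  have h3 := abs_real_inner_le_norm x u
  rw [hu, mul_one] at h3
  exact abs_le.1 (h3.trans h2)

/-- two members of a packing are separated by a hyperplane through the centre -/
lemma sep0 (hd : 1 ≤ d) {A B : Set (E d)} (hA : Convex ℝ A) (hB : Convex ℝ B) (bA : A ⊆ closedBall 0 1)
    (bB : B ⊆ closedBall 0 1) (wA : ∀ u : E d, ‖u‖ = 1 → 1 ≤ wd A u) (wB : ∀ u : E d, ‖u‖ = 1 → 1 ≤ wd B u)
    (hdis : Disjoint (interior A) (interior B)) :
    ∃ u : E d, ‖u‖ = 1 ∧ (∀ x ∈ A, 0 ≤ ⟪x, u⟫) ∧ ∀ x ∈ B, ⟪x, u⟫ ≤ 0 := by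
  obtain ⟨u, c, hu, h1, h2⟩ := rd_sep hA hB (rd_int hd hA fun u hu => one_pos.trans_le (wA u hu))
    (rd_int hd hB fun u hu => one_pos.trans_le (wB u hu)) hdis
  have neA := wd_ne hd wA
  have neB := wd_ne hd wB
  have e1 : c ≤ sInf ((fun x => ⟪x, u⟫) '' A) := by
    refine le_csInf (neA.image _) ?_
    rintro _ ⟨x, hx, rfl⟩
    exact h1 x hx
  have e2 : sSup ((fun x => ⟪x, u⟫) '' A) ≤ 1 := by
    refine csSup_le (neA.image _) ?_
    rintro _ ⟨x, hx, rfl⟩
    exact (in_abs bA hu hx).2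
  have e3 : sSup ((fun x => ⟪x, u⟫) '' B) ≤ c := by
    refine csSup_le (neB.image _) ?_
    rintro _ ⟨x, hx, rfl⟩
    exact h2 x hx
  have e4 : -1 ≤ sInf ((fun x => ⟪x, u⟫) '' B) := by
    refine le_csInf (neB.image _) ?_
    rintro _ ⟨x, hx, rfl⟩
    exact (in_abs bB hu hx).1
  have w1 := wA u hu
  have w2 := wB u hu
  unfold wd at w1 w2
  have hc : c = 0 := by linarith
  rw [hc] at h1 h2
  exact ⟨u, hu, h1, h2⟩

/-- hyperplanes are null sets -/
lemma hyp_null {u : E d} (hu : ‖u‖ = 1) : volume {x : E d | ⟪u, x⟫ = 0} = 0 := by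
  have h := Measure.addHaar_submodule (volume : Measure (E d)) (ℝ ∙ u)ᗮ (by
    intro h
    have h1 : u ∈ (ℝ ∙ u)ᗮ := h ▸ Submodule.mem_top
    rw [Submodule.mem_orthogonal_singleton_iff_inner_right, real_inner_self_eq_norm_sq, hu] at h1
    norm_num at h1)
  refine measure_mono_null (fun x hx => ?_) h
  exact Submodule.mem_orthogonal_singleton_iff_inner_right.2 hx

/-- the parts of closed sets pairwise separated by hyperplanes through the centre add up to at most the ball -/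
lemma sum_le {ι : Type*} [Fintype ι] {K : ι → Set (E d)} (hK : ∀ i, IsClosed (K i))
    (h : ∀ i j, i ≠ j → ∃ u : E d, ‖u‖ = 1 ∧ K i ∩ K j ⊆ {x | ⟪u, x⟫ = 0}) :
    ∑ i, volume (K i ∩ closedBall 0 1) ≤ volume (closedBall (0 : E d) 1) := by
  have h1 := sum_measure_le_measure_univ (μ := (volume : Measure (E d)).restrict (closedBall 0 1))
    (s := Finset.univ) (t := K) (fun i _ => (hK i).measurableSet.nullMeasurableSet)
    (fun i _ j _ hij => by
      obtain ⟨u, hu, hs⟩ := h i j hij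
      have h2 : volume (K i ∩ K j) = 0 := measure_mono_null hs (hyp_null hu)
      exact nonpos_iff_eq_zero.1 ((Measure.restrict_apply_le _ _).trans h2.le))
  rw [Measure.restrict_apply_univ] at h1
  refine le_trans (le_of_eq ?_) h1
  exact Finset.sum_congr rfl fun i _ => (Measure.restrict_apply (hK i).measurableSet).symm

/-- the lower bound for the cone over a set of width one -/
lemma key_le {K : Set (E d)} (hcl : IsClosed K) (hco : Convex ℝ K) (hc : ∀ c : ℝ, 0 < c → ∀ x ∈ K, c • x ∈ K)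
    (hK : ∀ y, (∀ x ∈ K, 0 ≤ ⟪x, y⟫) → y ∈ K) :
    volume (closedBall (0 : E d) 1) ≤ 2 ^ d * volume (K ∩ closedBall 0 1) := by
  have h1 := vol_cone hcl hco hc hK
  rw [finrank_euclideanSpace_fin] at h1
  rw [Measure.addHaar_unitClosedBall_eq_addHaar_unitBall]
  refine h1.trans ?_
  gcongr
  exact ball_subset_closedBall

lemma cb_eq (K : Set (E d)) : volume (K ∩ closedBall 0 1) = volume (K ∩ ball (0 : E d) 1) := by
  apply le_antisymm
  · have h1 : K ∩ closedBall (0 : E d) 1 ⊆ (K ∩ ball 0 1) ∪ sphere 0 1 := by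
      rintro x ⟨hx, hx'⟩
      rw [← ball_union_sphere] at hx'
      rcases hx' with h | h
      · exact Or.inl ⟨hx, h⟩
      · exact Or.inr h
    calc volume (K ∩ closedBall (0 : E d) 1) ≤ _ := measure_mono h1
      _ ≤ volume (K ∩ ball 0 1) + volume (sphere (0 : E d) 1) := measure_union_le _ _
      _ = _ := by rw [Measure.addHaar_sphere_of_ne_zero _ _ one_ne_zero, add_zero]
  · exact measure_mono (Set.inter_subset_inter_right _ ball_subset_closedBall)

/-- equality for cones -/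
lemma key_eq (hE : Eq1 (E d)) {K : Set (E d)} (hcl : IsClosed K) (hco : Convex ℝ K)
    (hc : ∀ c : ℝ, 0 < c → ∀ x ∈ K, c • x ∈ K) (hK : ∀ y, (∀ x ∈ K, 0 ≤ ⟪x, y⟫) → y ∈ K)
    (heq : volume (closedBall (0 : E d) 1) = 2 ^ d * volume (K ∩ closedBall 0 1)) :
    ∃ b : OrthonormalBasis (Fin d) ℝ (E d), K = orth b := by
  rw [cb_eq, Measure.addHaar_unitClosedBall_eq_addHaar_unitBall] at heq
  have hf : finrank ℝ (E d) = d := finrank_euclideanSpace_fin
  obtain ⟨b, hb⟩ := cone_eq hE hcl hco hc hK (by rw [hf]; exact heq)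
  refine ⟨b.reindex (finCongr hf), ?_⟩
  rw [hb]
  ext x
  constructor
  · intro h i
    rw [OrthonormalBasis.reindex_apply]
    exact h _
  · intro h i
    have := h (finCongr hf i)
    rwa [OrthonormalBasis.reindex_apply, Equiv.symm_apply_apply] at this

lemma crays_eq {C : Set (E d)} (hC : Convex ℝ C) :
    volume (closure (rays C) ∩ closedBall 0 1) = volume (rays C ∩ closedBall 0 1) := by
  apply le_antisymm
  · have hfr : volume (frontier (rays C)) = 0 := (convex_rays hC).addHaar_frontier _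
    have h2 : closure (rays C) ∩ closedBall 0 1 ⊆ (rays C ∩ closedBall 0 1) ∪ frontier (rays C) := by
      rintro x ⟨hx, hx'⟩
      rw [closure_eq_interior_union_frontier] at hx
      rcases hx with hx | hx
      · exact Or.inl ⟨interior_subset hx, hx'⟩
      · exact Or.inr hx
    calc volume (closure (rays C) ∩ closedBall 0 1) ≤ _ := measure_mono h2
      _ ≤ volume (rays C ∩ closedBall 0 1) + volume (frontier (rays C)) := measure_union_le _ _
      _ = _ := by rw [hfr, add_zero]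
  · exact measure_mono (Set.inter_subset_inter_left _ subset_closure)

/-- the lower bound for convex sets of width one -/
theorem set_le (hd : 1 ≤ d) {C : Set (E d)} (hC : Convex ℝ C) (hCb : C ⊆ closedBall 0 1)
    (hw : ∀ u : E d, ‖u‖ = 1 → 1 ≤ wd C u) :
    volume (closedBall (0 : E d) 1) ≤ 2 ^ d * volume (rays C ∩ closedBall 0 1) := by
  rw [← crays_eq hC]
  exact key_le isClosed_closure (convex_rays hC).closure smul_crays (dual_sub hd hCb hw)

/-- equality for convex sets of width one -/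
theorem set_eq (hE : Eq1 (E d)) (hd : 1 ≤ d) {C : Set (E d)} (hC : Convex ℝ C) (hCb : C ⊆ closedBall 0 1)
    (hw : ∀ u : E d, ‖u‖ = 1 → 1 ≤ wd C u)
    (heq : volume (closedBall (0 : E d) 1) = 2 ^ d * volume (rays C ∩ closedBall 0 1)) :
    ∃ b : OrthonormalBasis (Fin d) ℝ (E d), closure C = {x | x ∈ closedBall 0 1 ∧ x ∈ orth b} := by
  rw [← crays_eq hC] at heq
  obtain ⟨b, hb⟩ := key_eq hE isClosed_closure (convex_rays hC).closure smul_crays (dual_sub hd hCb hw) heq
  exact ⟨b, closure_eq hd hC hCb hw b hb⟩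

/-- equality for packings of width one -/
theorem pack_eq (hE : Eq1 (E d)) (hd : 1 ≤ d) {C : Fin (2 ^ d) → Set (E d)} (hC : ∀ i, Convex ℝ (C i))
    (hCb : ∀ i, C i ⊆ closedBall 0 1) (hdis : ∀ i j, i ≠ j → Disjoint (interior (C i)) (interior (C j)))
    (hw : ∀ i, ∀ u : E d, ‖u‖ = 1 → 1 ≤ wd (C i) u) (i : Fin (2 ^ d)) :
    ∃ b : OrthonormalBasis (Fin d) ℝ (E d), closure (C i) = {x | x ∈ closedBall 0 1 ∧ x ∈ orth b} := by
  have hle : ∀ j, volume (closedBall (0 : E d) 1) ≤ 2 ^ d * volume (rays (C j) ∩ closedBall 0 1) := fun j =>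
    set_le hd (hC j) (hCb j) (hw j)
  have hsum : ∑ j, volume (rays (C j) ∩ closedBall 0 1) ≤ volume (closedBall (0 : E d) 1) := by
    refine le_trans (le_of_eq (Finset.sum_congr rfl fun j _ => (crays_eq (hC j)).symm))
      (sum_le (K := fun j => closure (rays (C j))) (fun j => isClosed_closure) fun j k hjk => ?_)
    obtain ⟨u, hu, h1, h2⟩ := sep0 hd (hC j) (hC k) (hCb j) (hCb k) (hw j) (hw k) (hdis j k hjk)
    refine ⟨u, hu, ?_⟩
    have e1 : closure (rays (C j)) ⊆ {x | 0 ≤ ⟪x, u⟫} := by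
      refine closure_minimal ?_ (isClosed_le continuous_const (continuous_id.inner continuous_const))
      rintro _ ⟨c, hc, y, hy, rfl⟩
      show 0 ≤ ⟪c • y, u⟫
      rw [real_inner_smul_left]
      exact mul_nonneg hc (h1 y hy)
    have e2 : closure (rays (C k)) ⊆ {x | ⟪x, u⟫ ≤ 0} := by
      refine closure_minimal ?_ (isClosed_le (continuous_id.inner continuous_const) continuous_const)
      rintro _ ⟨c, hc, y, hy, rfl⟩
      show ⟪c • y, u⟫ ≤ 0
      rw [real_inner_smul_left]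
      exact mul_nonpos_of_nonneg_of_nonpos hc (h2 y hy)
    rintro x ⟨hx1, hx2⟩
    show ⟪u, x⟫ = 0
    rw [real_inner_comm]
    exact le_antisymm (e2 hx2) (e1 hx1)
  refine set_eq hE hd (hC i) (hCb i) (hw i) ?_
  have hV : volume (closedBall (0 : E d) 1) ≠ ∞ := measure_closedBall_lt_top.ne
  have hv : ∀ j, volume (rays (C j) ∩ closedBall (0 : E d) 1) ≠ ∞ := fun j =>
    ne_top_of_le_ne_top hV (measure_mono Set.inter_subset_right)
  set V : ℝ := (volume (closedBall (0 : E d) 1)).toReal with hVd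
  set v : Fin (2 ^ d) → ℝ := fun j => (volume (rays (C j) ∩ closedBall (0 : E d) 1)).toReal with hvd
  have hler : ∀ j, V ≤ 2 ^ d * v j := by
    intro j
    have h1 := ENNReal.toReal_mono (ENNReal.mul_ne_top (ENNReal.pow_ne_top ENNReal.ofNat_ne_top) (hv j)) (hle j)
    rwa [ENNReal.toReal_mul, ENNReal.toReal_pow, ENNReal.toReal_ofNat] at h1
  have hsumr : ∑ j, v j ≤ V := by
    have h1 := ENNReal.toReal_mono hV hsum
    rwa [ENNReal.toReal_sum fun j _ => hv j] at h1
  have hz : ∑ j, (2 ^ d * v j - V) = 0 := by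
    apply le_antisymm
    · rw [Finset.sum_sub_distrib, ← Finset.mul_sum, Finset.sum_const, Finset.card_univ, Fintype.card_fin,
        nsmul_eq_mul]
      push_cast
      have : (2 : ℝ) ^ d * ∑ j, v j ≤ 2 ^ d * V := mul_le_mul_of_nonneg_left hsumr (by positivity)
      linarith
    · exact Finset.sum_nonneg fun j _ => sub_nonneg.2 (hler j)
  have hi : 2 ^ d * v i - V = 0 :=
    (Finset.sum_eq_zero_iff_of_nonneg fun j _ => sub_nonneg.2 (hler j)).1 hz i (Finset.mem_univ i)
  refine le_antisymm (hle i) ?_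
  rw [← ENNReal.ofReal_toReal hV, ← ENNReal.ofReal_toReal (hv i)]
  have h2 : (2 : ℝ≥0∞) ^ d = ENNReal.ofReal ((2 : ℝ) ^ d) := by
    rw [ENNReal.ofReal_pow (by norm_num)]
    norm_num
  rw [h2, ← ENNReal.ofReal_mul (by positivity)]
  apply ENNReal.ofReal_le_ofReal
  have h3 : 2 ^ d * v i ≤ V := by linarith
  exact h3

/-- orthants are self-dual -/
lemma orth_sd (b : OrthonormalBasis (Fin d) ℝ (E d)) : SD (orth b) := by
  intro y
  constructor
  · intro hy x hx
    exact orth_inner b hx hy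
  · intro h i
    refine h (b i) fun j => ?_
    by_cases hij : j = i
    · rw [hij, real_inner_self_eq_norm_sq]
      positivity
    · rw [b.inner_eq_zero hij]

/-- the part in the unit ball of a self-dual cone has width at least one -/
theorem sd_wd {S : Set (E d)} (h : SD S) {u : E d} (hu : ‖u‖ = 1) : 1 ≤ wd {x | x ∈ closedBall 0 1 ∧ x ∈ S} u := by
  set C : Set (E d) := {x | x ∈ closedBall 0 1 ∧ x ∈ S} with hCd
  have hCb : C ⊆ closedBall 0 1 := fun x hx => hx.1
  have hcb1 : BddAbove ((fun x => ⟪x, u⟫) '' C) := ⟨1, by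
    rintro _ ⟨x, hx, rfl⟩
    exact (in_abs hCb hu hx).2⟩
  have hcb2 : BddBelow ((fun x => ⟪x, u⟫) '' C) := ⟨-1, by
    rintro _ ⟨x, hx, rfl⟩
    exact (in_abs hCb hu hx).1⟩
  obtain ⟨P, hP⟩ := h.exists_pr
  set p : E d := P u with hp
  set q : E d := P u - u with hq
  have hpS : p ∈ S := hP.mem u
  have hqS : q ∈ S := hP.mem' u
  have hpq : ⟪p, q⟫ = 0 := hP.orth u
  have huu : u = p - q := by rw [hp, hq]; abel
  have hpu : ⟪p, u⟫ = ‖p‖ ^ 2 := by
    rw [huu, inner_sub_right, hpq, real_inner_self_eq_norm_sq, sub_zero]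
  have hqu : ⟪q, u⟫ = -‖q‖ ^ 2 := by
    rw [huu, inner_sub_right, real_inner_comm p q, hpq, real_inner_self_eq_norm_sq, zero_sub]
  have hsum : ‖p‖ ^ 2 + ‖q‖ ^ 2 = 1 := by
    have h1 : ‖u‖ ^ 2 = ‖p‖ ^ 2 + ‖q‖ ^ 2 := by
      rw [huu, norm_sub_sq_real, hpq]
      ring
    rw [← h1, hu, one_pow]
  have key : ∀ w ∈ S, ∃ x ∈ C, ⟪x, u⟫ * ‖w‖ = ⟪w, u⟫ := by
    intro w hw
    by_cases hw0 : w = 0
    · exact ⟨0, ⟨by simp, h.zero⟩, by rw [hw0]; simp⟩
    · have hn : 0 < ‖w‖ := norm_pos_iff.2 hw0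
      refine ⟨‖w‖⁻¹ • w, ⟨?_, h.smul (inv_nonneg.2 hn.le) hw⟩, ?_⟩
      · rw [mem_closedBall_zero_iff, norm_smul, norm_inv, norm_norm, inv_mul_cancel₀ hn.ne']
      · rw [real_inner_smul_left]
        field_simp
  obtain ⟨x, hx, hx2⟩ := key p hpS
  obtain ⟨y, hy, hy2⟩ := key q hqS
  have h1 : ⟪x, u⟫ ≤ sSup ((fun x => ⟪x, u⟫) '' C) := le_csSup hcb1 ⟨x, hx, rfl⟩
  have h2 : sInf ((fun x => ⟪x, u⟫) '' C) ≤ ⟪y, u⟫ := csInf_le hcb2 ⟨y, hy, rfl⟩
  have h00 : (0 : E d) ∈ C := ⟨by simp, h.zero⟩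
  have h3 : 0 ≤ sSup ((fun x => ⟪x, u⟫) '' C) := by
    have := le_csSup hcb1 ⟨0, h00, rfl⟩
    simpa using this
  have h4 : sInf ((fun x => ⟪x, u⟫) '' C) ≤ 0 := by
    have := csInf_le hcb2 ⟨0, h00, rfl⟩
    simpa using this
  have h5 : ‖p‖ ≤ sSup ((fun x => ⟪x, u⟫) '' C) := by
    by_cases hp0 : ‖p‖ = 0
    · rw [hp0]; exact h3
    · have hn : 0 < ‖p‖ := lt_of_le_of_ne (norm_nonneg _) (Ne.symm hp0)
      rw [hpu] at hx2
      have : ⟪x, u⟫ = ‖p‖ := by
        have h6 : ⟪x, u⟫ * ‖p‖ = ‖p‖ * ‖p‖ := by rw [hx2]; ring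
        exact mul_right_cancel₀ hp0 h6
      rwa [this] at h1
  have h6 : sInf ((fun x => ⟪x, u⟫) '' C) ≤ -‖q‖ := by
    by_cases hq0 : ‖q‖ = 0
    · rw [hq0, neg_zero]; exact h4
    · rw [hqu] at hy2
      have : ⟪y, u⟫ = -‖q‖ := by
        have h7 : ⟪y, u⟫ * ‖q‖ = -‖q‖ * ‖q‖ := by rw [hy2]; ring
        exact mul_right_cancel₀ hq0 h7
      rwa [this] at h2
  unfold wd
  have hp1 : ‖p‖ ≤ 1 := by nlinarith [norm_nonneg p, sq_nonneg ‖q‖]
  have hq1 : ‖q‖ ≤ 1 := by nlinarith [norm_nonneg q, sq_nonneg ‖p‖]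
  nlinarith [norm_nonneg p, norm_nonneg q]

/-- all orthants have the same volume in the ball -/
lemma orth_vol (b b' : OrthonormalBasis (Fin d) ℝ (E d)) :
    volume (orth b ∩ closedBall 0 1) = volume (orth b' ∩ closedBall 0 1) := by
  set L : E d ≃ₗᵢ[ℝ] E d := b.equiv b' (Equiv.refl _) with hL
  have hLb : ∀ i, L (b i) = b' i := fun i => by rw [hL]; simp
  have h1 : orth b ∩ closedBall 0 1 = L ⁻¹' (orth b' ∩ closedBall 0 1) := by
    ext x
    have h2 : ∀ i, ⟪b' i, L x⟫ = ⟪b i, x⟫ := fun i => by rw [← hLb i, L.inner_map_map]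
    simp only [Set.mem_inter_iff, Set.mem_preimage, mem_closedBall_zero_iff, L.norm_map, orth,
      Set.mem_ofPred_eq, h2]
  rw [h1]
  exact L.measurePreserving.measure_preimage
    ((orth_sd b').closed.inter isClosed_closedBall).measurableSet.nullMeasurableSet

/-- orthants give equality -/
theorem orth_eq (b : OrthonormalBasis (Fin d) ℝ (E d)) :
    volume (closedBall (0 : E d) 1) = 2 ^ d * volume (orth b ∩ closedBall 0 1) := by
  classical
  have hex : ∀ s : Fin d → Bool, ∃ c : OrthonormalBasis (Fin d) ℝ (E d),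
      ∀ i, c i = (if s i then (1 : ℝ) else -1) • b i := by
    intro s
    have hon : Orthonormal ℝ (fun i => (if s i then (1 : ℝ) else -1) • b i) := by
      constructor
      · intro i
        rw [norm_smul, b.norm_eq_one, mul_one]
        split_ifs <;> norm_num
      · intro i j hij
        show ⟪(if s i then (1 : ℝ) else -1) • b i, (if s j then (1 : ℝ) else -1) • b j⟫ = 0
        rw [real_inner_smul_left, real_inner_smul_right, b.inner_eq_zero hij, mul_zero, mul_zero]
    have hon' : Orthonormal ℝ ((Set.univ : Set (Fin d)).domRestrict fun i =>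
        (if s i then (1 : ℝ) else -1) • b i) := hon.comp _ Subtype.val_injective
    obtain ⟨c, hc⟩ := hon'.exists_orthonormalBasis_extension_of_card_eq (by simp)
    exact ⟨c, fun i => hc i (Set.mem_univ i)⟩
  choose c hc using hex
  have h1 := sum_le (ι := Fin d → Bool) (K := fun s => orth (c s)) (fun s => (orth_sd _).closed)
    fun s s' hss => by
      obtain ⟨i, hi⟩ := Function.ne_iff.1 hss
      refine ⟨b i, b.norm_eq_one i, ?_⟩
      rintro x ⟨hx1, hx2⟩
      have e1 := hx1 i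
      have e2 := hx2 i
      rw [hc, real_inner_smul_left] at e1 e2
      show ⟪b i, x⟫ = 0
      cases h3 : s i <;> cases h4 : s' i <;> simp only [h3, h4, if_true, if_false, Bool.false_eq_true] at e1 e2 hi
      · exact absurd rfl hi
      · linarith
      · linarith
      · exact absurd rfl hi
  have h2 : ∑ s : Fin d → Bool, volume (orth (c s) ∩ closedBall 0 1) =
      2 ^ d * volume (orth b ∩ closedBall 0 1) := by
    rw [Finset.sum_congr rfl fun s _ => orth_vol (c s) b, Finset.sum_const, Finset.card_univ]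
    simp
  rw [h2] at h1
  refine le_antisymm ?_ h1
  have hS := orth_sd b
  exact key_le hS.closed hS.convex (fun c hc x hx => hS.smul hc.le hx) fun y hy => (hS y).2 hy

end

end PCS
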