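import Pool.Agent.PCS.RigB
import Pool.Agent.PCS.DefE

/-!
# The equality case for packings of width one: converse statements
-/

set_option autoImplicit false

open MeasureTheory ProbabilityTheory Module PCW Metric
open scoped RealInnerProductSpace ENNReal

namespace PCS

section
variable {d : ℕ}

theorem eq1 (V : Type*) [NormedAddCommGroup V] [InnerProductSpace ℝ V] [FiniteDimensional ℝ V]
    [MeasurableSpace V] [BorelSpace V] : Eq1 V := fun _ hS heq => orthant_of_eq hS heq

/-- orthants have interior points -/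
lemma orth_int_ne (b : OrthonormalBasis (Fin d) ℝ (E d)) : (interior (orth b)).Nonempty := by
  obtain ⟨e, r, hr, hball⟩ := (orth_sd b).exists_ball
  exact ⟨e, mem_interior.2 ⟨ball e r, hball, isOpen_ball, mem_ball_self hr⟩⟩

lemma smul_orth (b : OrthonormalBasis (Fin d) ℝ (E d)) (c : ℝ) (hc : 0 < c) (x : E d) (hx : x ∈ orth b) :
    c • x ∈ orth b := (orth_sd b).smul hc.le hx

/-- interior points of an orthant have small multiples which are interior points of its part in the ball -/
lemma int_ball {b : OrthonormalBasis (Fin d) ℝ (E d)} {x : E d} (hx : x ∈ interior (orth b)) (hn : ‖x‖ < 1) :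
    x ∈ interior {x | x ∈ closedBall (0 : E d) 1 ∧ x ∈ orth b} := by
  rw [mem_interior]
  refine ⟨ball 0 1 ∩ interior (orth b), ?_, isOpen_ball.inter isOpen_interior, ?_, hx⟩
  · rintro y ⟨hy1, hy2⟩
    exact ⟨ball_subset_closedBall hy1, interior_subset hy2⟩
  · rwa [mem_ball_zero_iff]

/-- the interiors of two orthants are disjoint if the interiors of their parts in the ball are disjoint -/
lemma disj_of {b b' : OrthonormalBasis (Fin d) ℝ (E d)}
    (h : Disjoint (interior {x | x ∈ closedBall (0 : E d) 1 ∧ x ∈ orth b})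
      (interior {x | x ∈ closedBall (0 : E d) 1 ∧ x ∈ orth b'})) :
    Disjoint (interior (orth b)) (interior (orth b')) := by
  rw [Set.disjoint_left] at h ⊢
  intro x hx hx'
  set c : ℝ := (‖x‖ + 1)⁻¹ with hc
  have hc0 : 0 < c := by positivity
  have hn : ‖c • x‖ < 1 := by
    rw [norm_smul, Real.norm_eq_abs, abs_of_pos hc0, hc, inv_mul_lt_iff₀ (by positivity)]
    linarith
  exact h (int_ball ((orth_sd b).smul_interior hx hc0) hn) (int_ball ((orth_sd b').smul_interior hx' hc0) hn)

/-- the width of the closure is at most the width -/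
lemma wd_closure {C : Set (E d)} (hne : C.Nonempty) (hCb : C ⊆ closedBall 0 1) {u : E d} (hu : ‖u‖ = 1) :
    wd (closure C) u ≤ wd C u := by
  have hb1 : BddAbove ((fun x => ⟪x, u⟫) '' C) := ⟨1, by
    rintro _ ⟨x, hx, rfl⟩
    exact (in_abs hCb hu hx).2⟩
  have hb2 : BddBelow ((fun x => ⟪x, u⟫) '' C) := ⟨-1, by
    rintro _ ⟨x, hx, rfl⟩
    exact (in_abs hCb hu hx).1⟩
  have h1 : sSup ((fun x => ⟪x, u⟫) '' closure C) ≤ sSup ((fun x => ⟪x, u⟫) '' C) := by
    refine csSup_le (hne.closure.image _) ?_
    rintro _ ⟨x, hx, rfl⟩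
    have h2 : closure C ⊆ {x | ⟪x, u⟫ ≤ sSup ((fun x => ⟪x, u⟫) '' C)} :=
      closure_minimal (fun y hy => le_csSup hb1 ⟨y, hy, rfl⟩)
        (isClosed_le (continuous_id.inner continuous_const) continuous_const)
    exact h2 hx
  have h3 : sInf ((fun x => ⟪x, u⟫) '' C) ≤ sInf ((fun x => ⟪x, u⟫) '' closure C) := by
    refine le_csInf (hne.closure.image _) ?_
    rintro _ ⟨x, hx, rfl⟩
    have h2 : closure C ⊆ {x | sInf ((fun x => ⟪x, u⟫) '' C) ≤ ⟪x, u⟫} :=
      closure_minimal (fun y hy => csInf_le hb2 ⟨y, hy, rfl⟩)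
        (isClosed_le continuous_const (continuous_id.inner continuous_const))
    exact h2 hx
  unfold wd
  linarith

/-- the cone over a set whose closure is the part in the ball of an orthant -/
lemma crays_of {C : Set (E d)} {b : OrthonormalBasis (Fin d) ℝ (E d)}
    (h : closure C = {x | x ∈ closedBall 0 1 ∧ x ∈ orth b}) : closure (rays C) = orth b := by
  apply Set.Subset.antisymm
  · refine closure_minimal ?_ (orth_sd b).closed
    rintro _ ⟨c, hc, y, hy, rfl⟩
    have h1 : y ∈ closure C := subset_closure hy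
    rw [h] at h1
    exact (orth_sd b).smul hc h1.2
  · intro x hx
    set c : ℝ := (‖x‖ + 1)⁻¹ with hc
    have hc0 : 0 < c := by positivity
    have hn : ‖c • x‖ ≤ 1 := by
      rw [norm_smul, Real.norm_eq_abs, abs_of_pos hc0, hc, inv_mul_le_iff₀ (by positivity)]
      linarith
    have h1 : c • x ∈ closure C := by
      rw [h]
      exact ⟨mem_closedBall_zero_iff.2 hn, smul_orth b c hc0 x hx⟩
    have h2 := smul_crays (C := C) c⁻¹ (inv_pos.2 hc0) _ (closure_mono sub_rays h1)
    rwa [inv_smul_smul₀ hc0.ne'] at h2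

/-- converse of `set_eq` -/
theorem set_eq_conv {C : Set (E d)} (hC : Convex ℝ C) {b : OrthonormalBasis (Fin d) ℝ (E d)}
    (h : closure C = {x | x ∈ closedBall 0 1 ∧ x ∈ orth b}) :
    volume (closedBall (0 : E d) 1) = 2 ^ d * volume (rays C ∩ closedBall 0 1) := by
  rw [← crays_eq hC, crays_of h]
  exact orth_eq b

/-- `2 ^ d` orthants with disjoint interiors cover the space -/
theorem cover (b : Fin (2 ^ d) → OrthonormalBasis (Fin d) ℝ (E d))
    (h : ∀ i j, i ≠ j → Disjoint (interior (orth (b i))) (interior (orth (b j)))) (x : E d) :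
    ∃ i, x ∈ orth (b i) := by
  classical
  set U : Set (E d) := ⋃ i, orth (b i) with hU
  have hUc : IsClosed U := isClosed_iUnion_of_finite fun i => (orth_sd (b i)).closed
  have hae : Set.Pairwise (↑(Finset.univ : Finset (Fin (2 ^ d))))
      (Function.onFun (AEDisjoint (volume : Measure (E d))) fun i => orth (b i) ∩ closedBall 0 1) := by
    intro i _ j _ hij
    have h1 : volume (frontier (orth (b i))) = 0 := (orth_sd (b i)).convex.addHaar_frontier _
    refine measure_mono_null ?_ h1
    rintro y ⟨⟨hy1, -⟩, hy2, -⟩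
    rw [frontier, (orth_sd (b i)).closed.closure_eq]
    refine ⟨hy1, fun hyi => ?_⟩
    have h2 : y ∈ closure (interior (orth (b j))) := by
      rw [(orth_sd (b j)).convex.closure_interior_eq_closure_of_nonempty_interior (orth_int_ne _)]
      exact subset_closure hy2
    obtain ⟨z, hz1, hz2⟩ := mem_closure_iff.1 h2 _ isOpen_interior hyi
    exact Set.disjoint_left.1 (h i j hij) hz1 hz2
  have hm := measure_biUnion_finset₀ hae fun i _ =>
    ((orth_sd (b i)).closed.inter isClosed_closedBall).measurableSet.nullMeasurableSet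
  have h3 : ∑ i, volume (orth (b i) ∩ closedBall 0 1) = volume (closedBall (0 : E d) 1) := by
    rw [Finset.sum_congr rfl fun i _ => orth_vol (b i) (b 0), Finset.sum_const, Finset.card_univ,
      Fintype.card_fin, nsmul_eq_mul, orth_eq (b 0)]
    push_cast
    rfl
  rw [h3] at hm
  have h4 : (⋃ i ∈ Finset.univ, orth (b i) ∩ closedBall 0 1) = U ∩ closedBall 0 1 := by
    rw [hU, Set.iUnion_inter]
    simp
  rw [h4] at hm
  have h5 : volume (closedBall (0 : E d) 1 \ U) = 0 := by
    have h6 := measure_inter_add_sdiff (μ := (volume : Measure (E d))) (closedBall (0 : E d) 1) hUc.measurableSet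
    rw [Set.inter_comm, hm] at h6
    have h7 : volume (closedBall (0 : E d) 1) ≠ ∞ := measure_closedBall_lt_top.ne
    have h8 : volume (closedBall (0 : E d) 1) + volume (closedBall (0 : E d) 1 \ U) =
        volume (closedBall (0 : E d) 1) + 0 := by rw [h6, add_zero]
    exact (ENNReal.add_right_inj h7).1 h8
  by_contra hx
  push Not at hx
  have hopen : IsOpen (ball (0 : E d) 1 \ U) := isOpen_ball.sdiff hUc
  have h9 : ball (0 : E d) 1 \ U = ∅ := by
    by_contra hne
    have h10 := hopen.measure_pos volume (Set.nonempty_iff_ne_empty.2 hne)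
    exact h10.ne' (measure_mono_null (Set.sdiff_subset_sdiff_left ball_subset_closedBall) h5)
  set c : ℝ := (‖x‖ + 1)⁻¹ with hc
  have hc0 : 0 < c := by positivity
  have hn : ‖c • x‖ < 1 := by
    rw [norm_smul, Real.norm_eq_abs, abs_of_pos hc0, hc, inv_mul_lt_iff₀ (by positivity)]
    linarith
  have h11 : c • x ∈ ball (0 : E d) 1 \ U := by
    refine ⟨mem_ball_zero_iff.2 hn, fun hcU => ?_⟩
    obtain ⟨i, hi⟩ := Set.mem_iUnion.1 hcU
    have h12 := smul_orth (b i) c⁻¹ (inv_pos.2 hc0) _ hi
    rw [inv_smul_smul₀ hc0.ne'] at h12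
    exact hx i h12
  rw [h9] at h11
  exact h11

end

end PCS
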