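import Pool.Agent.PCS.Defs
import Pool.Agent.PCW.Defs
import Pool.Agent.PCW.Common
import Pool.Agent.PCW.Gau

/-!
# Stretching a cone in one direction and the Gaussian measure
-/

set_option autoImplicit false

open MeasureTheory ProbabilityTheory Module
open scoped RealInnerProductSpace

namespace PCS
open PCW

/-- stretching by the factor `1 + c` in the direction of the unit vector `w` changes the Gaussian measure of a cone by a
factor of at least `(1 + c) ^ (1 - d)` -/
theorem stretch {d : ℕ} (hd : 1 ≤ d) {K S : Set (E d)} (hK : MeasurableSet K) (hS : MeasurableSet S)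
    (hc : ∀ c : ℝ, 0 < c → ∀ x ∈ S, c • x ∈ S) {w : E d} (hw : ‖w‖ = 1) {c : ℝ} (h0 : 0 ≤ c)
    (h : ∀ x ∈ S, x + (c * ⟪w, x⟫) • w ∈ K) : ((1 + c) ^ (d - 1))⁻¹ * (gam d).real S ≤ (gam d).real K := by
  classical
  have hc1 : (0 : ℝ) < 1 + c := by linarith
  set f : E d →ₗ[ℝ] ℝ := c • (innerSL ℝ w : E d →L[ℝ] ℝ).toLinearMap with hf
  set A : E d →ₗ[ℝ] E d := LinearMap.transvection f w with hA
  have hAx : ∀ x, A x = x + (c * ⟪w, x⟫) • w := fun x => rfl
  have hdet : LinearMap.det A = 1 + c := by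
    rw [hA, LinearMap.transvection.det]
    show 1 + c * ⟪w, w⟫ = 1 + c
    rw [real_inner_self_eq_norm_sq, hw]
    ring
  have hAc : Continuous A := A.continuous_of_finiteDimensional
  have hnorm : ∀ x : E d, ‖A x‖ ^ 2 = ‖x‖ ^ 2 + (2 * c + c ^ 2) * ⟪w, x⟫ ^ 2 := by
    intro x
    rw [hAx, @norm_add_sq_real, norm_smul, hw, inner_smul_right, real_inner_comm, Real.norm_eq_abs, mul_one, sq_abs]
    ring
  have hwx : ∀ x : E d, ⟪w, x⟫ ^ 2 ≤ ‖x‖ ^ 2 := by
    intro x
    have h1 := abs_real_inner_le_norm w x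
    rw [hw, one_mul] at h1
    exact sq_le_sq' (by linarith [neg_abs_le ⟪w, x⟫, h1]) (by linarith [le_abs_self ⟪w, x⟫, h1])
  have hlow : ∀ x : E d, ‖x‖ ^ 2 ≤ ‖A x‖ ^ 2 := by
    intro x
    rw [hnorm]
    nlinarith [sq_nonneg ⟪w, x⟫, mul_nonneg h0 (sq_nonneg ⟪w, x⟫), mul_nonneg (sq_nonneg c) (sq_nonneg ⟪w, x⟫)]
  have hup : ∀ x : E d, ‖A x‖ ^ 2 ≤ (1 + c) ^ 2 * ‖x‖ ^ 2 := by
    intro x
    rw [hnorm]
    nlinarith [hwx x, mul_le_mul_of_nonneg_left (hwx x) (show (0 : ℝ) ≤ 2 * c + c ^ 2 by positivity)]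
  -- change of variables
  have hmap := Measure.map_linearMap_addHaar_eq_smul_addHaar (volume : Measure (E d)) (f := A)
    (by rw [hdet]; exact hc1.ne')
  rw [hdet] at hmap
  have hK1 : (gam d).real K = (1 + c) * ∫ x, dn (A x) * K.indicator 1 (A x) := by
    rw [← integral_indicator_one hK, integral_std]
    have h1 : ∫ y, dn y * K.indicator 1 y ∂(Measure.map A (volume : Measure (E d))) =
        ∫ x, dn (A x) * K.indicator 1 (A x) := by
      rw [integral_map hAc.aemeasurable]
      exact ((continuous_dn.measurable).mul (measurable_const.indicator hK)).aestronglyMeasurable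
    rw [← h1, hmap, integral_smul_measure, ENNReal.toReal_ofReal (abs_nonneg _), abs_of_pos (inv_pos.2 hc1),
      smul_eq_mul, ← mul_assoc, mul_inv_cancel₀ hc1.ne', one_mul]
  set s : ℝ := 2 * c + c ^ 2 with hs
  have hs0 : 0 ≤ s := by positivity
  have hs1 : 1 + s = (1 + c) ^ 2 := by rw [hs]; ring
  have hcone := integral_cone_exp (V := E d) hS hc hs0
  rw [hs1, Real.sqrt_sq hc1.le, finrank_euclideanSpace_fin, ← integral_indicator hS, integral_std] at hcone
  have hle : ∫ x : E d, dn x * S.indicator (fun x => Real.exp (- (s * ‖x‖ ^ 2) / 2)) x ≤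
      ∫ x, dn (A x) * K.indicator 1 (A x) := by
    refine integral_mono_of_nonneg (Filter.Eventually.of_forall fun x => ?_) ?_
      (Filter.Eventually.of_forall fun x => ?_)
    · show (0 : ℝ) ≤ dn x * S.indicator (fun x => Real.exp (- (s * ‖x‖ ^ 2) / 2)) x
      refine mul_nonneg (dn_pos x).le (Set.indicator_nonneg (fun _ _ => (Real.exp_pos _).le) x)
    · refine (integrable_dn (V := E d)).mono' ?_ (Filter.Eventually.of_forall fun x => ?_)
      · exact (((continuous_dn.measurable).comp hAc.measurable).mul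
          ((measurable_const.indicator hK).comp hAc.measurable)).aestronglyMeasurable
      · rw [norm_mul, Real.norm_of_nonneg (dn_pos _).le]
        have h1 : dn (A x) ≤ dn x := by
          unfold dn
          refine mul_le_mul_of_nonneg_left (Real.exp_le_exp.2 ?_) (by positivity)
          linarith [hlow x]
        have h2 : ‖K.indicator (1 : E d → ℝ) (A x)‖ ≤ 1 := by
          by_cases hx : A x ∈ K
          · rw [Set.indicator_of_mem hx]
            simp
          · rw [Set.indicator_of_notMem hx]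
            simp
        calc dn (A x) * ‖K.indicator (1 : E d → ℝ) (A x)‖ ≤ dn (A x) * 1 :=
              mul_le_mul_of_nonneg_left h2 (dn_pos _).le
          _ = dn (A x) := mul_one _
          _ ≤ dn x := h1
    · show dn x * S.indicator (fun x => Real.exp (- (s * ‖x‖ ^ 2) / 2)) x ≤ dn (A x) * K.indicator 1 (A x)
      by_cases hx : x ∈ S
      · have hAK : A x ∈ K := h x hx
        rw [Set.indicator_of_mem hx, Set.indicator_of_mem hAK, Pi.one_apply, mul_one, dn, dn, mul_assoc,
          ← Real.exp_add]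
        refine mul_le_mul_of_nonneg_left (Real.exp_le_exp.2 ?_) (by positivity)
        have h1 := hup x
        rw [← hs1] at h1
        linarith
      · rw [Set.indicator_of_notMem hx, mul_zero]
        exact mul_nonneg (dn_pos _).le (Set.indicator_nonneg (fun _ _ => zero_le_one) _)
  rw [hcone] at hle
  rw [hK1]
  have hpow : (1 + c) ^ d = (1 + c) ^ (d - 1) * (1 + c) := by
    rw [← pow_succ, Nat.sub_add_cancel hd]
  calc ((1 + c) ^ (d - 1))⁻¹ * (gam d).real S = (1 + c) * (((1 + c) ^ d)⁻¹ * (gam d).real S) := by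
        rw [hpow, mul_inv]
        field_simp
    _ ≤ (1 + c) * ∫ x, dn (A x) * K.indicator 1 (A x) := mul_le_mul_of_nonneg_left hle hc1.le

end PCS
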