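import Pool.Agent.PCS.Main
import Pool.Agent.PCS.Cen
import Pool.Agent.PCS.Str
import Pool.Agent.PCS.Num
import Pool.Agent.PCS.Bas
import Pool.Agent.PCW.Common
import Pool.Agent.PCW.Red

/-!
# Cones which almost contain their dual cones, and packings of sets of width close to one, with an explicit error
-/

set_option autoImplicit false

open MeasureTheory ProbabilityTheory Module PCW
open scoped RealInnerProductSpace

namespace PCS

/-- the Gaussian measure of the cone of a family with almost nonnegative inner products -/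
theorem rob_cone {d : ℕ} (hd : 1 ≤ d) {ι : Type*} [Fintype ι] [Nonempty ι] {n : ι → E d} {δ c : ℝ} (h0 : 0 ≤ δ)
    (hδ : δ * (d + 1) < 1) (hu : ∀ j, ‖n j‖ = 1) (hn : ∀ i j, -δ ≤ ⟪n i, n j⟫) (hc0 : 0 ≤ c)
    (hc : d * δ ≤ 2 * c * (1 - d * δ)) :
    ((1 + c) ^ (d - 1))⁻¹ * ((2 : ℝ) ^ d)⁻¹ ≤ (gam d).real (Kc n) := by
  obtain ⟨w, ρ, hw, hρ, hρ2, hwn, l, hl0, hl1, hlw⟩ := center_del h0 hδ hu hn
  set s : ℝ := δ / (2 * ρ) with hs
  have hs0 : 0 ≤ s := by positivity
  have hsρ : 2 * s * ρ = δ := by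
    rw [hs]
    field_simp
  have hnn : ∀ i j, 0 ≤ ⟪n i + s • w, n j + s • w⟫ := by
    intro i j
    rw [inner_add_left, inner_add_right, inner_add_right, real_inner_smul_left, real_inner_smul_right,
      real_inner_smul_left, real_inner_smul_right, real_inner_self_eq_norm_sq, hw, real_inner_comm (n j) w]
    have h1 := hn i j
    have h2 := mul_le_mul_of_nonneg_left (hwn i) hs0
    have h3 := mul_le_mul_of_nonneg_left (hwn j) hs0
    nlinarith
  obtain ⟨S, hS, hnS⟩ := exists_sd hnn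
  have hwS : w ∈ S := by
    have h1 : (ρ + s) • w ∈ S := by
      have e : (ρ + s) • w = ∑ j, l j • (n j + s • w) := by
        simp only [smul_add]
        rw [Finset.sum_add_distrib, hlw, ← Finset.sum_smul, hl1, one_smul, add_smul]
      rw [e]
      refine (hS _).2 fun x hx => ?_
      rw [inner_sum]
      refine Finset.sum_nonneg fun j _ => ?_
      rw [real_inner_smul_right]
      exact mul_nonneg (hl0 j) (hS.inner hx (hnS j))
    have h2 : w = (ρ + s)⁻¹ • ((ρ + s) • w) := by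
      rw [smul_smul, inv_mul_cancel₀ (by positivity), one_smul]
    rw [h2]
    exact hS.smul (by positivity) h1
  have hm := main hS
  rw [finrank_euclideanSpace_fin] at hm
  have hcs : s ≤ c * ρ := by
    have hd0 : (0 : ℝ) < d := by exact_mod_cast hd
    have h1 : d * δ ≤ 2 * c * (d * ρ ^ 2) := hc.trans (mul_le_mul_of_nonneg_left hρ2 (by positivity))
    have h2 : δ ≤ 2 * c * ρ ^ 2 := by
      have h3 : (d : ℝ) * δ ≤ d * (2 * c * ρ ^ 2) := by linarith
      exact le_of_mul_le_mul_left h3 hd0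
    rw [hs, div_le_iff₀ (by positivity)]
    nlinarith
  have hst := stretch hd (K := Kc n) (S := S) (isClosed_Kc n).measurableSet hS.closed.measurableSet
    (fun a ha x hx => hS.smul ha.le hx) hw hc0 (fun x hx j => by
      rw [inner_add_right, real_inner_smul_right]
      have h1 : 0 ≤ ⟪n j + s • w, x⟫ := hS.inner (hnS j) hx
      rw [inner_add_left, real_inner_smul_left] at h1
      have h2 : 0 ≤ ⟪w, x⟫ := hS.inner hwS hx
      have h3 : s * ⟪w, x⟫ ≤ c * ⟪w, x⟫ * ⟪n j, w⟫ := by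
        have h4 := mul_le_mul_of_nonneg_left (hwn j) (mul_nonneg hc0 h2)
        have h5 := mul_le_mul_of_nonneg_right hcs h2
        nlinarith
      linarith)
  refine le_trans ?_ hst
  exact mul_le_mul_of_nonneg_left hm (by positivity)

/-- the sum of the Gaussian measures of the cones -/
lemma ap_sum_le {d m : ℕ} {u : Fin m → Fin m → E d} (h1 : ∀ i j, i ≠ j → ‖u i j‖ = 1)
    (h2 : ∀ i j, i ≠ j → u j i = -u i j) :
    ∑ i, (gam d).real (Kc fun j : {j // j ≠ i} => u i j) ≤ 1 := by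
  have hm : ∀ i, MeasurableSet (Kc fun j : {j // j ≠ i} => u i j) := fun i => (isClosed_Kc _).measurableSet
  have hd : Pairwise (Function.onFun (AEDisjoint (gam d)) fun i => Kc fun j : {j // j ≠ i} => u i j) := by
    intro i j hij
    have h0 : u i j ≠ 0 := by
      intro h
      have := h1 i j hij
      rw [h, norm_zero] at this
      exact zero_ne_one this
    refine measure_mono_null ?_ (null_hyper h0)
    rintro x ⟨hx, hy⟩
    have h3 : 0 ≤ ⟪u i j, x⟫ := hx ⟨j, hij.symm⟩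
    have h4 : 0 ≤ ⟪u j i, x⟫ := hy ⟨i, hij⟩
    rw [h2 i j hij, inner_neg_left] at h4
    exact le_antisymm (by linarith) h3
  have h := measure_iUnion₀ hd fun i => (hm i).nullMeasurableSet
  have h3 : ∑ i, (gam d) (Kc fun j : {j // j ≠ i} => u i j) ≤ 1 := by
    calc ∑ i, (gam d) (Kc fun j : {j // j ≠ i} => u i j)
        = ∑' i, (gam d) (Kc fun j : {j // j ≠ i} => u i j) := (tsum_fintype _).symm
      _ = (gam d) (⋃ i, Kc fun j : {j // j ≠ i} => u i j) := h.symm
      _ ≤ 1 := prob_le_one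
  have h4 : (∑ i, (gam d) (Kc fun j : {j // j ≠ i} => u i j)).toReal ≤ 1 := by
    rw [← ENNReal.toReal_one]
    exact ENNReal.toReal_mono ENNReal.one_ne_top h3
  rw [ENNReal.toReal_sum fun i _ => measure_ne_top _ _] at h4
  exact h4

/-- **the upper bound with an explicit range of widths** -/
theorem upper_exact {d : ℕ} (hd : 2 ≤ d) {t : ℝ} (ht : 1 - 1 / (2 * 4 ^ d * d ^ 4) < t) {m : ℕ} (hP : Pack d t m) :
    m ≤ 2 ^ d := by
  by_contra hcon
  have hcon : 2 ^ d + 1 ≤ m := by omega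
  have hm2 : 2 ≤ m := by
    have : 1 ≤ 2 ^ d := Nat.one_le_two_pow
    omega
  set ε : ℝ := 1 / (2 * 4 ^ d * d ^ 4) with hε
  have hd0 : (0 : ℝ) < d := by
    have : (2 : ℝ) ≤ d := by exact_mod_cast hd
    linarith
  have hε0 : 0 < ε := by positivity
  obtain ⟨δ, c, h1, h2, h3, h4, h5, h6⟩ := num_eps hd hε0 le_rfl
  have hε1 : ε ≤ 1 := by
    have h7 : δ * (d + 1) < 1 := h3
    have h8 : 0 ≤ √(6 * ε) := Real.sqrt_nonneg _
    nlinarith
  obtain ⟨u, hu⟩ := rd_step (by omega) hε0 hε1 ht hP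
  have key : ∀ i : Fin m, ((1 + c) ^ (d - 1))⁻¹ * ((2 : ℝ) ^ d)⁻¹ ≤
      (gam d).real (Kc fun j : {j // j ≠ i} => u i j) := by
    intro i
    have hne : Nonempty {j : Fin m // j ≠ i} := by
      have : Nontrivial (Fin m) := Fin.nontrivial_iff_two_le.2 hm2
      obtain ⟨j, hj⟩ := exists_ne i
      exact ⟨⟨j, hj⟩⟩
    exact rob_cone (by omega) h1 h3 (fun j => hu.unit i j j.2.symm)
      (fun j k => (neg_le_neg h2).trans (hu.nn i j k j.2 k.2)) h4 h5
  have hsum := ap_sum_le hu.unit hu.anti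
  have h7 : (m : ℝ) * (((1 + c) ^ (d - 1))⁻¹ * ((2 : ℝ) ^ d)⁻¹) ≤ 1 := by
    calc (m : ℝ) * (((1 + c) ^ (d - 1))⁻¹ * ((2 : ℝ) ^ d)⁻¹)
        = ∑ _i : Fin m, ((1 + c) ^ (d - 1))⁻¹ * ((2 : ℝ) ^ d)⁻¹ := by
          rw [Finset.sum_const, Finset.card_univ, Fintype.card_fin, nsmul_eq_mul]
      _ ≤ _ := Finset.sum_le_sum fun i _ => key i
      _ ≤ 1 := hsum
  have hX : 0 < (1 + c) ^ (d - 1) := by positivity
  have hY : (0 : ℝ) < 2 ^ d := by positivity
  rw [← mul_inv, ← div_eq_mul_inv, div_le_one (by positivity)] at h7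
  have h8 : (2 : ℝ) ^ d + 1 ≤ m := by exact_mod_cast hcon
  linarith

end PCS
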