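import Pool.Agent.PCW.Red
import Pool.Agent.PCS.PDefs

/-!
# Separation of the members of a packing

* `sep_of_pack` : the members of a packing of convex sets of width at least `t` are separated by hyperplanes at distance
  at most `1 - t` from the origin.
-/

set_option autoImplicit false

open MeasureTheory ProbabilityTheory Module PCW
open scoped RealInnerProductSpace

namespace PCS



theorem sep_of_pack {d m : ℕ} (hd : 1 ≤ d) {t : ℝ} (ht : 0 < t) (hP : Pack d t m) :
    ∃ C u s, Sep (d := d) (m := m) t C u s := by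
  classical
  obtain ⟨C, hC, hb, hdis, hw⟩ := hP
  have hint : ∀ i, (interior (C i)).Nonempty := fun i => rd_int hd (hC i) fun u hu => ht.trans_le (hw i u hu)
  have hsep : ∀ p : Fin m × Fin m, p.1 ≠ p.2 → ∃ q : E d × ℝ, ‖q.1‖ = 1 ∧ (∀ x ∈ C p.1, q.2 ≤ ⟪x, q.1⟫) ∧
      ∀ x ∈ C p.2, ⟪x, q.1⟫ ≤ q.2 := by
    intro p hp
    obtain ⟨u, c, h⟩ := rd_sep (hC p.1) (hC p.2) (hint _) (hint _) (hdis _ _ hp)
    exact ⟨(u, c), h⟩
  choose! q hq using hsep
  let u : Fin m → Fin m → E d := fun i j => if i < j then (q (i, j)).1 else if j < i then -(q (j, i)).1 else 0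
  let c : Fin m → Fin m → ℝ := fun i j => if i < j then (q (i, j)).2 else -(q (j, i)).2
  have hu : ∀ i j, i ≠ j → ‖u i j‖ = 1 := by
    intro i j hij
    rcases lt_or_gt_of_ne hij with h | h
    · simp only [u, h, if_true]
      exact (hq (i, j) hij).1
    · simp only [u, h, not_lt_of_gt h, if_true, if_false, norm_neg]
      exact (hq (j, i) hij.symm).1
  have ha : ∀ i j, i ≠ j → u j i = -u i j := by
    intro i j hij
    rcases lt_or_gt_of_ne hij with h | h
    · simp only [u, h, not_lt_of_gt h, if_true, if_false]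
    · simp only [u, h, not_lt_of_gt h, if_true, if_false, neg_neg]
  have hca : ∀ i j, i ≠ j → c j i = -c i j := by
    intro i j hij
    rcases lt_or_gt_of_ne hij with h | h
    · simp only [c, h, not_lt_of_gt h, if_true, if_false]
    · simp only [c, h, not_lt_of_gt h, if_true, if_false, neg_neg]
  have hlow : ∀ i j, i ≠ j → ∀ x ∈ C i, c i j ≤ ⟪x, u i j⟫ := by
    intro i j hij x hx
    rcases lt_or_gt_of_ne hij with h | h
    · simp only [u, c, h, if_true]
      exact (hq (i, j) hij).2.1 x hx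
    · simp only [u, c, h, not_lt_of_gt h, if_true, if_false, inner_neg_right]
      exact neg_le_neg ((hq (j, i) hij.symm).2.2 x hx)
  have hupp : ∀ i j, i ≠ j → ∀ x ∈ C j, ⟪x, u i j⟫ ≤ c i j := by
    intro i j hij x hx
    rcases lt_or_gt_of_ne hij with h | h
    · simp only [u, c, h, if_true]
      exact (hq (i, j) hij).2.2 x hx
    · simp only [u, c, h, not_lt_of_gt h, if_true, if_false, inner_neg_right]
      exact neg_le_neg ((hq (j, i) hij.symm).2.1 x hx)
  have hne : ∀ i, (C i).Nonempty := fun i => (hint i).mono interior_subset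
  have habs : ∀ i (w : E d), ‖w‖ = 1 → ∀ x ∈ C i, -1 ≤ ⟪x, w⟫ ∧ ⟪x, w⟫ ≤ 1 := by
    intro i w hw1 x hx
    have h2 : ‖x‖ ≤ 1 := by simpa using hb i hx
    have h3 := abs_real_inner_le_norm x w
    rw [hw1, mul_one] at h3
    exact abs_le.1 (h3.trans h2)
  have hcl : ∀ i j, i ≠ j → t - 1 ≤ c i j := by
    intro i j hij
    have h2 := hw j (u i j) (hu i j hij)
    have h3 : sSup ((fun x => ⟪x, u i j⟫) '' C j) ≤ c i j := by
      refine csSup_le ((hne j).image _) ?_
      rintro _ ⟨x, hx, rfl⟩
      exact hupp i j hij x hx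
    have h4 : -1 ≤ sInf ((fun x => ⟪x, u i j⟫) '' C j) := by
      refine le_csInf ((hne j).image _) ?_
      rintro _ ⟨x, hx, rfl⟩
      exact (habs j _ (hu i j hij) x hx).1
    rw [wd] at h2
    linarith
  refine ⟨C, u, c, hne, hb, hw, hu, ha, hca, hlow, fun i j hij => abs_le.2 ⟨?_, ?_⟩⟩
  · have := hcl i j hij
    linarith
  · have := hcl j i hij.symm
    rw [hca i j hij] at this
    linarith

end PCS
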